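import Pool.Agent.NRM.StA
import Pool.Agent.RHC.CNT
import Pool.Agent.RHK.Sz

/-!
NRM, CNTN: the pairs which are not parallel (helper35).  Port of RHC/CNT.lean (helper16).
-/

set_option autoImplicit false

namespace Pool.Agent.NRM

open scoped BigOperators
open Classical NumberField IsDedekindDomain
open Pool.Agent.RHP (Mon mono ev Prim)
open Pool.Agent.RHK Pool.Agent.RHC

theorem thm_CNTN (h1 : St_CBN) (h2 : RHC.St_PHI) (h3 : RHC.St_DLT) (h4 : St_NNN) (h5 : St_LLN)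
    (h6 : RHC.St_TSC) : St_CNTN := by
  intro K _ _ s D m hyp
  obtain ⟨C1, hC1, h1'⟩ := h1 K s D m hyp
  obtain ⟨C5, hC5, h5'⟩ := h5 K s D m hyp.hD
  refine ⟨2 * C1 * (1 + C5), by positivity, fun c v κ W par hκ hW => ?_⟩
  obtain ⟨t1, h1t⟩ := h1' c v par
  refine ⟨t1 + 2 * κ * W + 1, fun t ht V H hR r Q B a C0 hC0 hF x hx y hy hxy => ?_⟩
  have ht1 : 1 ≤ t := by omega
  have htκ : 2 * κ * W ≤ t := by omega
  have h1t' := ((h1t t (by omega) V H hR x hx).2 y hy hxy).2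
  clear h1t h1'
  have hV1 : 1 ≤ V := le_trans (Nat.one_le_pow _ _ ht1) hR.1
  have hH1 : 1 ≤ H := le_trans (Nat.one_le_pow _ _ hV1) hR.2.2.1
  have hX1 : 1 ≤ XC s c t := Nat.one_le_pow _ _ ht1
  have hU1 : 1 ≤ QN s m c t V := by
    unfold QN
    exact Nat.mul_pos (Nat.one_le_pow _ _ hX1) hV1
  obtain ⟨-, hP2, hP3, -⟩ := h2 K s (D * m) H hH1
  obtain ⟨Θ, hΘ⟩ : ∃ Θ : ℕ, Θ = ThC s c t H κ (D * m) := ⟨_, rfl⟩
  obtain ⟨X, hX⟩ : ∃ X : ℕ, X = XC s c t := ⟨_, rfl⟩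
  have hΘX : 2 * X ^ 2 * W ≤ Θ := by
    rw [hΘ]
    unfold ThC
    rw [Nat.le_div_iff_mul_le hκ, ← hX]
    have hkv : 1 ≤ D * v := by omega
    have htH : t ≤ H := by
      calc t = t ^ 1 := (pow_one t).symm
        _ ≤ t ^ (v * D) := Nat.pow_le_pow_right ht1 (by rw [mul_comm]; exact hkv)
        _ = (t ^ v) ^ D := pow_mul _ _ _
        _ ≤ V ^ D := Nat.pow_le_pow_left hR.1 _
        _ ≤ H := hR.2.2.1
    have hkm : 2 ≤ D * m := by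
      have := hyp.hD
      have := hyp.hm
      nlinarith
    have hXX : X ^ 2 ≤ X ^ (D * m) := Nat.pow_le_pow_right (by rw [hX]; exact hX1) hkm
    calc 2 * X ^ 2 * W * κ = 2 * κ * W * X ^ 2 := by ring
      _ ≤ H * X ^ (D * m) := Nat.mul_le_mul (htκ.trans htH) hXX
  have hPx : Prim x := (Finset.mem_filter.1 hx).2.1
  have hNN := h4 K s D m r c t V H Q B a C0 hF x y hPx hxy
  have hLL := h5' r c t V H Q B a C0 hC0 hF W Θ X x y hW (by rw [hX]; exact hX1) hΘX hPx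
    (fun v => by rw [hX]; exact CNT_vs hx v) (fun v => by rw [hX]; exact CNT_vs hy v) hxy
  have hTS0 : 0 < (TS K Θ W).card := Finset.card_pos.2 ⟨0, (h6 K Θ W hW).2⟩
  obtain ⟨T, hT⟩ : ∃ T : ℝ, T = ((TS K Θ W).card : ℝ) := ⟨_, rfl⟩
  have hT0 : 0 < T := by rw [hT]; exact_mod_cast hTS0
  obtain ⟨P, hP⟩ : ∃ P : ℝ, P = ((H : ℝ) * (XC s c t : ℝ) ^ (D * m)) ^ dg K := ⟨_, rfl⟩
  obtain ⟨Ur, hUr⟩ : ∃ Ur : ℝ, Ur = (QN s m c t V : ℝ) ^ dg K := ⟨_, rfl⟩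
  obtain ⟨Qr, hQr⟩ : ∃ Qr : ℝ, Qr = ((QN s m c t V : ℝ) ^ r) ^ dg K := ⟨_, rfl⟩
  obtain ⟨Bx, hBx⟩ : ∃ Bx : ℝ, Bx = ((box K s (D * m) H).card : ℝ) := ⟨_, rfl⟩
  obtain ⟨om, hom⟩ : ∃ om : ℝ, om = (wn x y : ℝ) * ((XC s c t : ℝ) ^ 2) ^ dg K / wp x y := ⟨_, rfl⟩
  obtain ⟨ρ, hρ⟩ : ∃ ρ : ℝ, ρ = rp (wn x y) (MM D) := ⟨_, rfl⟩
  have hBx0 : 0 ≤ Bx := by rw [hBx]; exact Nat.cast_nonneg _
  have hHR : (0 : ℝ) < H := by exact_mod_cast hH1
  have hXR : (0 : ℝ) < XC s c t := by exact_mod_cast hX1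
  have hwp : 0 < wp x y := wp_pos hxy
  have hP0 : 0 < P := by rw [hP]; positivity
  have hom0 : 0 ≤ om := by rw [hom]; positivity
  have hUR : (0 : ℝ) < (QN s m c t V : ℝ) := by exact_mod_cast hU1
  have hUr0 : 0 < Ur := by rw [hUr]; positivity
  obtain ⟨K0, hK0⟩ : ∃ K0 : ℝ, K0 = 2 * (C1 * om * Bx / P ^ 2) := ⟨_, rfl⟩
  have hK00 : 0 ≤ K0 := by rw [hK0]; positivity
  have hcP : ∀ a b : 𝓞 K, cP (D * m) H x y a b ≤ K0 := by
    intro a b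
    refine ((hP3 x y a b).2).trans ?_
    rw [hK0]
    apply mul_le_mul_of_nonneg_left _ (by norm_num)
    have e1 := h1t' a b
    rw [← hP, ← hBx] at e1
    rw [le_div_iff₀ (by positivity), hom]
    have e2 : C1 * ((wn x y : ℝ) * ((XC s c t : ℝ) ^ 2) ^ dg K / wp x y) * Bx =
      (C1 * (wn x y * ((XC s c t : ℝ) ^ 2) ^ dg K) * Bx) / wp x y := by ring
    rw [e2, le_div_iff₀ hwp]
    calc _ = (c2 (d := D * m) (3 * H) x y a b : ℝ) * (P ^ 2 * wp x y) := by ring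
      _ ≤ _ := e1
  rw [← hUr, ← hQr, ← hρ] at hNN hLL
  rw [← hT] at hLL
  rw [Finset.sum_add_distrib]
  have hfirst : ∑ q ∈ B ×ˢ B,
      ∑ f ∈ box K s (D * m) (2 * H), Ph H f * (dlt (a q.1) x f * dlt (a q.2) y f) ≤
      C0 * Qr ^ 2 * (ρ + 1 / Ur) * K0 := by
    have e1 := CNT_sum (B ×ˢ B)
      (fun q => Cmp (D * m) x y (a q.1) (a q.2))
      (fun q => ∑ f ∈ box K s (D * m) (2 * H), Ph H f * (dlt (a q.1) x f * dlt (a q.2) y f))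
      K0 (fun q _ hq => by
        show ∑ f ∈ box K s (D * m) (2 * H), Ph H f * (dlt (a q.1) x f * dlt (a q.2) y f) = 0
        rw [(h3 K s (D * m) H Θ W x y (a q.1) (a q.2) hW).1]
        exact CNT_cP hq)
      (fun q _ => by
        show ∑ f ∈ box K s (D * m) (2 * H), Ph H f * (dlt (a q.1) x f * dlt (a q.2) y f) ≤ K0
        rw [(h3 K s (D * m) H Θ W x y (a q.1) (a q.2) hW).1]
        exact hcP _ _)
    exact e1.trans (mul_le_mul_of_nonneg_right hNN hK00)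
  have hsecond : ∑ q ∈ B ×ˢ B,
      ∑ f ∈ box K s (D * m) (2 * H), Ph H f *
        (lmt (ThC s c t H κ (D * m)) W (a q.1) x f *
          lmt (ThC s c t H κ (D * m)) W (a q.2) y f) ≤
      C5 * C0 * (Qr ^ 2 * (ρ + 1 / Ur)) * K0 := by
    rw [← hΘ]
    have e0 : ∀ q ∈ B ×ˢ B,
        ∑ f ∈ box K s (D * m) (2 * H), Ph H f *
        (lmt Θ W (a q.1) x f * lmt Θ W (a q.2) y f) =
        1 / T ^ 2 * ∑ z ∈ TS K Θ W ×ˢ TS K Θ W,
          cP (D * m) H x y (a q.1 + z.1) (a q.2 + z.2) := fun q _ => by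
      rw [hT]
      exact (h3 K s (D * m) H Θ W x y (a q.1) (a q.2) hW).2.1
    rw [Finset.sum_congr rfl e0, ← Finset.mul_sum, ← Finset.sum_product']
    have e1 := CNT_sum ((B ×ˢ B) ×ˢ (TS K Θ W ×ˢ TS K Θ W))
      (fun p => Cmp (D * m) x y (a p.1.1 + p.2.1) (a p.1.2 + p.2.2))
      (fun p => cP (D * m) H x y (a p.1.1 + p.2.1) (a p.1.2 + p.2.2))
      K0 (fun q _ hq => CNT_cP hq) (fun q _ => hcP _ _)
    have e2 := e1.trans (mul_le_mul_of_nonneg_right hLL hK00)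
    refine (mul_le_mul_of_nonneg_left e2 (by positivity)).trans (le_of_eq ?_)
    field_simp
  refine (add_le_add hfirst hsecond).trans (le_of_eq ?_)
  unfold wtC
  rw [← hUr, ← hQr, ← hP, ← hBx, ← hom, ← hρ, hK0]
  field_simp

end Pool.Agent.NRM
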