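import Pool.Agent.NRM.StB
import Pool.Agent.RHP.Ev

/-!
NRM, module CONE (offer 10691): bounded solutions of `ev G w = c` over a locally compact field.
-/

set_option autoImplicit false

namespace Pool.Agent.NRM

open scoped BigOperators Topology
open Classical NumberField IsDedekindDomain
open Pool.Agent.RHP (Mon mono ev Sys Prim pd WB WW)

/-- all elements near `1` are `D`-th powers of bounded elements -/
theorem CONE_root (L : Type) [NormedField L] [ProperSpace L] (hx : ∃ x : L, 1 < ‖x‖) (D : ℕ)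
    (hD : (D : L) ≠ 0) : ∀ᶠ u : L in 𝓝 1, ∃ T : L, T ^ D = u ∧ ‖T‖ ≤ 2 := by
  let inst : NontriviallyNormedField L := { (inferInstance : NormedField L) with
    non_trivial := hx }
  have hc : CompleteSpace L := inferInstance
  have hd : HasStrictDerivAt (fun T : L => T ^ D) ((D : L) * 1 ^ (D - 1)) 1 :=
    hasStrictDerivAt_pow D 1
  have hd0 : (D : L) * 1 ^ (D - 1) ≠ 0 := by
    rw [one_pow, mul_one]
    exact hD
  have hm := hd.map_nhds_eq hd0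
  rw [one_pow] at hm
  have hball : {T : L | ‖T‖ ≤ 2} ∈ 𝓝 (1 : L) := by
    have h1 : Metric.closedBall (1 : L) 1 ∈ 𝓝 (1 : L) := Metric.closedBall_mem_nhds _ one_pos
    refine Filter.mem_of_superset h1 ?_
    intro T hT
    rw [Metric.mem_closedBall, dist_eq_norm] at hT
    have h2 : ‖T‖ ≤ ‖T - 1‖ + ‖(1 : L)‖ := by
      have h3 := norm_add_le (T - 1) 1
      rwa [sub_add_cancel] at h3
    rw [norm_one] at h2
    show ‖T‖ ≤ 2
    linarith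
  have h4 : (fun T : L => T ^ D) '' {T : L | ‖T‖ ≤ 2} ∈ 𝓝 (1 : L) := by
    rw [← hm]
    exact Filter.image_mem_map hball
  refine Filter.mem_of_superset h4 ?_
  rintro u ⟨T, hT, rfl⟩
  exact ⟨T, rfl, hT⟩

/-- bounded solutions on the compact annulus -/
theorem CONE_ann (L : Type) [NormedField L] [ProperSpace L] (hx : ∃ x : L, 1 < ‖x‖) (r D : ℕ)
    (hD : (D : L) ≠ 0) (G : Mon r D → L) (lo : ℝ) (hlo : 0 < lo) :
    ∃ C : ℝ, 0 ≤ C ∧ ∀ c ∈ {c : L | lo ≤ ‖c‖ ∧ ‖c‖ ≤ 1}, (∃ w, ev G w = c) →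
      ∃ w, ev G w = c ∧ ∀ j, ‖w j‖ ≤ C := by
  have hK : IsCompact {c : L | lo ≤ ‖c‖ ∧ ‖c‖ ≤ 1} := by
    have h1 : {c : L | lo ≤ ‖c‖ ∧ ‖c‖ ≤ 1} = Metric.closedBall (0 : L) 1 ∩ {c : L | lo ≤ ‖c‖} := by
      ext c
      rw [Set.mem_inter_iff, mem_closedBall_zero_iff]
      exact and_comm
    rw [h1]
    exact (isCompact_closedBall (0 : L) 1).inter_right (isClosed_le continuous_const continuous_norm)
  refine IsCompact.induction_on (p := fun S : Set L => ∃ C : ℝ, 0 ≤ C ∧ ∀ c ∈ S, (∃ w, ev G w = c) →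
      ∃ w, ev G w = c ∧ ∀ j, ‖w j‖ ≤ C) hK ⟨0, le_refl _, fun c hc => absurd hc (Set.notMem_empty c)⟩
    ?_ ?_ ?_
  · rintro S T hST ⟨C, hC, h⟩
    exact ⟨C, hC, fun c hc => h c (hST hc)⟩
  · rintro S T ⟨C, hC, h⟩ ⟨C', hC', h'⟩
    refine ⟨max C C', le_max_of_le_left hC, ?_⟩
    rintro c (hc | hc) hw
    · obtain ⟨w, hw1, hw2⟩ := h c hc hw
      exact ⟨w, hw1, fun j => (hw2 j).trans (le_max_left _ _)⟩
    · obtain ⟨w, hw1, hw2⟩ := h' c hc hw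
      exact ⟨w, hw1, fun j => (hw2 j).trans (le_max_right _ _)⟩
  · intro x hxm
    have hx0 : x ≠ 0 := by
      intro h0
      have h1 := hxm.1
      rw [h0, norm_zero] at h1
      linarith
    have hroot := CONE_root L hx D hD
    have hcont : ContinuousAt (fun q : L × L => q.1 / q.2) (x, x) :=
      ContinuousAt.div continuousAt_fst continuousAt_snd hx0
    have h2 : Filter.Tendsto (fun q : L × L => q.1 / q.2) (𝓝 (x, x)) (𝓝 1) := by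
      have h3 : ((x, x) : L × L).1 / ((x, x) : L × L).2 = 1 := div_self hx0
      have h4 := hcont.tendsto
      rw [h3] at h4
      exact h4
    have h5 := h2.eventually hroot
    rw [nhds_prod_eq] at h5
    obtain ⟨t1, ht1, t2, ht2, h6⟩ := Filter.mem_prod_iff.mp h5
    have h7 : t1 ∩ t2 ∩ {y : L | y ≠ 0} ∈ 𝓝 x :=
      Filter.inter_mem (Filter.inter_mem ht1 ht2) (isOpen_ne.mem_nhds hx0)
    refine ⟨t1 ∩ t2 ∩ {y : L | y ≠ 0}, mem_nhdsWithin_of_mem_nhds h7, ?_⟩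
    by_cases hex : ∃ c' ∈ t1 ∩ t2 ∩ {y : L | y ≠ 0}, ∃ w, ev G w = c'
    · obtain ⟨c', hc', w', hw'⟩ := hex
      refine ⟨2 * ∑ j, ‖w' j‖, by positivity, ?_⟩
      intro c hc _
      have h8 : (c, c') ∈ t1 ×ˢ t2 := ⟨hc.1.1, hc'.1.2⟩
      obtain ⟨T, hT, hT2⟩ := h6 h8
      have hc'0 : c' ≠ 0 := hc'.2
      refine ⟨fun i => T * w' i, ?_, ?_⟩
      · rw [Pool.Agent.RHP.ev_smul_pt, hw', hT]
        exact div_mul_cancel₀ c hc'0
      · intro j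
        show ‖T * w' j‖ ≤ _
        rw [norm_mul]
        have h9 : ‖w' j‖ ≤ ∑ j, ‖w' j‖ :=
          Finset.single_le_sum (f := fun j => ‖w' j‖) (fun _ _ => norm_nonneg _) (Finset.mem_univ j)
        exact mul_le_mul hT2 h9 (norm_nonneg _) (by norm_num)
    · refine ⟨0, le_refl _, ?_⟩
      intro c hc hw
      exact absurd ⟨c, hc, hw⟩ hex

theorem thm_CONE : St_CONE := by
  intro L _ _ hx r D hD1 hDL G
  obtain ⟨a, ha⟩ := hx
  have ha0 : a ≠ 0 := by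
    intro h0
    rw [h0, norm_zero] at ha
    linarith
  have hq0 : 0 < ‖a‖ := norm_pos_iff.mpr ha0
  have hy : 1 < ‖a‖ ^ D := one_lt_pow₀ ha (by omega)
  have hy0 : 0 < ‖a‖ ^ D := lt_trans one_pos hy
  obtain ⟨C, hC, hann⟩ := CONE_ann L ⟨a, ha⟩ r D hDL G (‖a‖ ^ D)⁻¹ (inv_pos.mpr hy0)
  refine ⟨‖a‖ ^ D * (C + 1) ^ D, by positivity, ?_⟩
  rintro c ⟨w, hw⟩
  by_cases hc0 : c = 0
  · refine ⟨fun i => 0 * w i, ?_, ?_⟩
    · rw [Pool.Agent.RHP.ev_smul_pt, zero_pow (by omega), zero_mul, hc0]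
    · intro j
      show ‖0 * w j‖ ^ D ≤ _
      rw [zero_mul, norm_zero, zero_pow (by omega), hc0, norm_zero, mul_zero]
  · have hcn : 0 < ‖c‖ := norm_pos_iff.mpr hc0
    obtain ⟨n, hn1, hn2⟩ := exists_mem_Ioc_zpow hcn hy
    set b : L := a ^ (-(n + 1)) with hb
    have hb0 : b ≠ 0 := zpow_ne_zero _ ha0
    have hbn : ‖b‖ ^ D = ((‖a‖ ^ D) ^ (n + 1))⁻¹ := by
      rw [hb, norm_zpow, zpow_neg, inv_pow, ← zpow_natCast, ← zpow_natCast, ← zpow_mul, ← zpow_mul,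
        mul_comm]
    have hyn : 0 < (‖a‖ ^ D) ^ (n + 1) := zpow_pos hy0 _
    have hcb : ‖b ^ D * c‖ = ((‖a‖ ^ D) ^ (n + 1))⁻¹ * ‖c‖ := by
      rw [norm_mul, norm_pow, hbn]
    have hmem : b ^ D * c ∈ {c : L | (‖a‖ ^ D)⁻¹ ≤ ‖c‖ ∧ ‖c‖ ≤ 1} := by
      constructor
      · rw [hcb, zpow_add_one₀ hy0.ne', mul_inv]
        have hyn0 : 0 < (‖a‖ ^ D) ^ n := zpow_pos hy0 _
        have h1 : ((‖a‖ ^ D) ^ n)⁻¹ * ‖c‖ ≥ 1 := by
          rw [ge_iff_le, ← div_eq_inv_mul, le_div_iff₀ hyn0, one_mul]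
          exact hn1.le
        have h2 : ((‖a‖ ^ D) ^ n)⁻¹ * (‖a‖ ^ D)⁻¹ * ‖c‖ = (‖a‖ ^ D)⁻¹ * (((‖a‖ ^ D) ^ n)⁻¹ * ‖c‖) := by
          ring
        rw [h2]
        have h3 : 0 < (‖a‖ ^ D)⁻¹ := inv_pos.mpr hy0
        calc (‖a‖ ^ D)⁻¹ = (‖a‖ ^ D)⁻¹ * 1 := (mul_one _).symm
          _ ≤ (‖a‖ ^ D)⁻¹ * (((‖a‖ ^ D) ^ n)⁻¹ * ‖c‖) := mul_le_mul_of_nonneg_left h1 h3.le
      · rw [hcb, ← div_eq_inv_mul, div_le_one hyn]
        exact hn2
    obtain ⟨w', hw', hw2⟩ := hann (b ^ D * c) hmem ⟨fun i => b * w i, by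
      rw [Pool.Agent.RHP.ev_smul_pt, hw]⟩
    refine ⟨fun i => b⁻¹ * w' i, ?_, ?_⟩
    · rw [Pool.Agent.RHP.ev_smul_pt, hw', ← mul_assoc, inv_pow,
        inv_mul_cancel₀ (pow_ne_zero D hb0), one_mul]
    · intro j
      show ‖b⁻¹ * w' j‖ ^ D ≤ _
      have h1 : ‖b⁻¹ * w' j‖ ^ D = (‖a‖ ^ D) ^ (n + 1) * ‖w' j‖ ^ D := by
        rw [norm_mul, mul_pow, norm_inv, inv_pow, hbn, inv_inv]
      have h2 : (‖a‖ ^ D) ^ (n + 1) ≤ ‖a‖ ^ D * ‖c‖ := by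
        rw [zpow_add_one₀ hy0.ne', mul_comm]
        exact mul_le_mul_of_nonneg_left hn1.le hy0.le
      have h3 : ‖w' j‖ ^ D ≤ (C + 1) ^ D :=
        pow_le_pow_left₀ (norm_nonneg _) ((hw2 j).trans (by linarith)) D
      rw [h1]
      calc (‖a‖ ^ D) ^ (n + 1) * ‖w' j‖ ^ D ≤ (‖a‖ ^ D * ‖c‖) * (C + 1) ^ D :=
            mul_le_mul h2 h3 (by positivity) (by positivity)
        _ = ‖a‖ ^ D * (C + 1) ^ D * ‖c‖ := by ring

end Pool.Agent.NRM
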