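import Pool.Agent.NRM.StB

/-!
NRM [DETN]: the local lower bound for individual forms and cells (port of `RHCW/DETCW.lean`, helper22).
-/

set_option autoImplicit false

namespace Pool.Agent.NRM

open scoped BigOperators
open Classical NumberField IsDedekindDomain
open Pool.Agent.RHP (Mon mono ev Sys Prim pd WB WW WW_pos WW_cop)
open Pool.Agent.RHK Pool.Agent.RHC
open Pool.Agent.RHKB (mI hh jj qv MK uu BadK)
open Pool.Agent.RHCB (BadC cred cemb uk PrC hM)
open Pool.Agent.RHCW (cmk)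

private theorem DETN_XX (s c t : ℕ) : t ≤ XC s c t := by
  unfold XC
  exact Nat.le_self_pow (by omega) t

/-- every `g` with `1 ≤ g ≤ m` divides `WW m` -/
private theorem DETN_dvd (m g : ℕ) (hg : 1 ≤ g) (hg' : g ≤ m) : g ∣ WW m := by
  have hg0 : g ≠ 0 := by omega
  rw [← Nat.factorization_le_iff_dvd hg0 (WW_pos m).ne']
  intro p
  by_cases hp : p.Prime
  · by_cases hpm : p ≤ m
    · have h1 : g.factorization p ≤ m := by
        have h2 : p ^ g.factorization p ∣ g := Nat.ordProj_dvd g p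
        have h3 : p ^ g.factorization p ≤ g := Nat.le_of_dvd hg h2
        have h4 : g.factorization p < p ^ g.factorization p := Nat.lt_pow_self hp.one_lt
        omega
      have h5 : p ^ m ∣ WW m := by
        unfold WW
        apply Finset.dvd_prod_of_mem (fun p => p ^ m)
        rw [Finset.mem_filter, Finset.mem_range]
        exact ⟨by omega, hp⟩
      have h6 : m ≤ (WW m).factorization p :=
        (hp.pow_dvd_iff_le_factorization (WW_pos m).ne').1 h5
      omega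
    · have : ¬ p ∣ g := fun hd => by
        have := Nat.le_of_dvd hg hd
        omega
      rw [Nat.factorization_eq_zero_of_not_dvd this]
      exact Nat.zero_le _
  · rw [Nat.factorization_eq_zero_of_not_prime _ hp]
    exact Nat.zero_le _

theorem thm_DETN (hR : St_RCN) (hN : St_NLOWN) : St_DETN := by
  intro K _ _ s r D m hyp g hg A B dl c v hdl hBA hc1 hv1 q hq δ ε σ₀ hδ hε hε16 hσ
  have hs := hyp.hs
  have hD := hyp.hD
  have hA : 1 ≤ A := le_trans (Nat.one_le_iff_ne_zero.2 (Nat.mul_ne_zero (by omega) (by omega))) hBA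
  have hb : 1 ≤ dl ^ D := Nat.one_le_pow _ _ hdl
  obtain ⟨c₁, C', hc, hC', hR⟩ := hR K s r D m (by omega) (by omega) g A B dl hdl hBA δ ε hδ hε hε16
  refine ⟨σ₀ * (c₁ / 2) / (2 * 3 ^ dg K * ((dl ^ D : ℕ) : ℝ) ^ dg K), by positivity,
    max (max (max 1 q) (dl ^ D)) ⌈2 * C' / c₁⌉₊, ?_⟩
  intro m0 hm0 κ hκ
  have hm1 : 1 ≤ m0 := (((le_max_left _ _).trans (le_max_left _ _)).trans (le_max_left _ _)).trans hm0
  have hmq : q ≤ m0 := (((le_max_right _ _).trans (le_max_left _ _)).trans (le_max_left _ _)).trans hm0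
  have hmb : dl ^ D ≤ m0 := ((le_max_right _ _).trans (le_max_left _ _)).trans hm0
  have hm3 : ⌈2 * C' / c₁⌉₊ ≤ m0 := (le_max_right _ _).trans hm0
  have hm0r : (0 : ℝ) < m0 := by exact_mod_cast hm1
  have hcC : c₁ / 2 ≤ c₁ - C' / m0 := by
    have h1 : 2 * C' / c₁ ≤ m0 := (Nat.le_ceil _).trans (by exact_mod_cast hm3)
    have h2 : C' / m0 ≤ c₁ / 2 := by
      rw [div_le_div_iff₀ hm0r (by norm_num)]
      rw [div_le_iff₀ hc] at h1
      linarith
    linarith
  have hW := WW_pos m0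
  have hqW : q ∣ WW m0 := DETN_dvd m0 q hq hmq
  have hbW : dl ^ D ∣ WW m0 := DETN_dvd m0 (dl ^ D) hb hmb
  have hbW' : dl ^ D * (WW m0 / dl ^ D) = WW m0 := Nat.mul_div_cancel' hbW
  have hW' : 0 < WW m0 / dl ^ D := Nat.div_pos (Nat.le_of_dvd hW hbW) hb
  obtain ⟨X0, hR⟩ := hR (WW m0) κ m0 hW hκ hm1 (WW_cop m0)
  obtain ⟨t1, hN⟩ := hN K s r D m hyp g hg A c v (dl ^ D) hA hc1 hv1 hb (c₁ / 2) σ₀
    (by positivity) hσ κ (WW m0 / dl ^ D) q hκ hW' (by rw [hbW']; exact hqW)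
  rw [hbW'] at hN
  refine ⟨max (max X0 t1) 1, fun t ht V H hH ρ₀ ω₀ f hf hs z₀ hz₀ hzB hZ => ?_⟩
  have ht1 : 1 ≤ t := (le_max_right _ _).trans ht
  have htX0 : X0 ≤ t := ((le_max_left _ _).trans (le_max_left _ _)).trans ht
  have htt1 : t1 ≤ t := ((le_max_right _ _).trans (le_max_left _ _)).trans ht
  have htV : t ≤ V := (Nat.le_self_pow (by omega) t).trans hH.1
  have htX := DETN_XX s c t
  have hcell : CellN q ρ₀ ω₀ z₀ (2 * ε) (XC s c t) (dl * QN s m c t V) =
      {p | p ∈ {p : (Fin s → 𝓞 K) × (Fin r → 𝓞 K) |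
          NearN z₀ (2 * ε) (XC s c t) (dl * (XC s c t ^ m * V)) p} ∧
        (∀ l, (q : 𝓞 K) ∣ p.1 l - ρ₀ l) ∧ ∀ j, (q : 𝓞 K) ∣ p.2 j - ω₀ j} := by
    ext p
    exact and_comm
  rw [hcell]
  refine hN t htt1 V H hH ρ₀ ω₀ f hs _ fun ρ ω hρ => ?_
  refine le_trans ?_ (hR (XC s c t) V H (htX0.trans htX) (htX0.trans htV) hH.2.2.1 hH.2.2.2 f hf
    z₀ hz₀ hzB hZ ρ ω hρ)
  have hQ : (QN s m c t V : ℝ) = (XC s c t : ℝ) ^ m * V := by
    unfold QN
    push_cast
    ring
  rw [hQ]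
  refine div_le_div_of_nonneg_right ?_ (by positivity)
  exact mul_le_mul_of_nonneg_right hcC (by positivity)

end Pool.Agent.NRM
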