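import Pool.Agent.NRM.StA

/-!
NRM [DIV] (helper70): the number of the divisors of an ideal.
-/

set_option autoImplicit false

namespace Pool.Agent.NRM

open NumberField UniqueFactorizationMonoid

/-- `e + 1 ≤ C 2^(e ε)` -/
theorem DIV_lin {ε : ℝ} (hε : 0 < ε) : ∃ C : ℝ, 1 ≤ C ∧ ∀ e : ℕ, (e : ℝ) + 1 ≤ C * (2 : ℝ) ^ (e * ε) := by
  refine ⟨1 + 1 / (ε * Real.log 2), ?_, fun e => ?_⟩
  · have : 0 < Real.log 2 := Real.log_pos (by norm_num)
    have : 0 ≤ 1 / (ε * Real.log 2) := by positivity
    linarith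
  · have hl : 0 < Real.log 2 := Real.log_pos (by norm_num)
    have h1 : (2 : ℝ) ^ (e * ε) = Real.exp (Real.log 2 * (e * ε)) :=
      Real.rpow_def_of_pos (by norm_num) _
    have h2 := Real.add_one_le_exp (Real.log 2 * (e * ε))
    have h3 : (0 : ℝ) ≤ e := Nat.cast_nonneg _
    have h4 : 1 ≤ Real.exp (Real.log 2 * (e * ε)) := Real.one_le_exp (by positivity)
    have h5 : (e : ℝ) ≤ 1 / (ε * Real.log 2) * Real.exp (Real.log 2 * (e * ε)) := by
      rw [div_mul_eq_mul_div, one_mul, le_div_iff₀ (by positivity)]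
      linarith
    rw [h1, add_mul, one_mul]
    linarith

theorem thm_DIV : St_DIV := by
  intro L _ _ ε hε
  classical
  obtain ⟨C1, hC1, hlin⟩ := DIV_lin hε
  obtain ⟨n, hn⟩ := exists_nat_ge ((2 : ℝ) ^ (1 / ε))
  set F : Finset (Ideal (𝓞 L)) := (Ideal.finite_setOfPred_absNorm_le (S := 𝓞 L) n).toFinset with hF
  refine ⟨C1 ^ F.card, by positivity, ?_⟩
  intro J S hJ hS
  set m : Multiset (Ideal (𝓞 L)) := normalizedFactors J with hm
  have hS0 : ∀ I ∈ S, I ≠ ⊥ := fun I hI h0 => hJ (le_bot_iff.1 (h0 ▸ hS I hI))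
  have hSm : ∀ I ∈ S, normalizedFactors I ≤ m := fun I hI =>
    (dvd_iff_normalizedFactors_le_normalizedFactors (hS0 I hI) hJ).1 (Ideal.dvd_iff_le.2 (hS I hI))
  -- the number of the divisors
  have h1 : S.card ≤ ∏ P ∈ m.toFinset, (m.count P + 1) := by
    have h2 : S.card ≤ (m.toFinset.pi fun P => Finset.range (m.count P + 1)).card := by
      refine Finset.card_le_card_of_injOn
        (fun I => fun P _ => (normalizedFactors I).count P) (fun I hI => ?_) ?_
      · rw [Finset.mem_coe, Finset.mem_pi]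
        intro P _
        rw [Finset.mem_range, Nat.lt_succ_iff]
        exact Multiset.le_iff_count.1 (hSm I hI) P
      · intro I hI I' hI' h
        have h3 : normalizedFactors I = normalizedFactors I' := by
          ext P
          by_cases hP : P ∈ m.toFinset
          · exact congrFun (congrFun h P) hP
          · have h4 : P ∉ m := fun h => hP (Multiset.mem_toFinset.2 h)
            have h5 : ∀ I'' ∈ S, (normalizedFactors I'').count P = 0 := fun I'' hI'' =>
              Multiset.count_eq_zero_of_notMem fun h6 => h4 (Multiset.mem_of_le (hSm I'' hI'') h6)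
            rw [h5 I hI, h5 I' hI']
        rw [← Ideal.prod_normalizedFactors_eq_self (hS0 I hI),
          ← Ideal.prod_normalizedFactors_eq_self (hS0 I' hI'), h3]
    refine h2.trans (le_of_eq ?_)
    rw [Finset.card_pi]
    exact Finset.prod_congr rfl fun P _ => Finset.card_range _
  -- the norm of `J`
  have h2 : (Ideal.absNorm J : ℝ) = ∏ P ∈ m.toFinset, (Ideal.absNorm P : ℝ) ^ (m.count P) := by
    have h3 : Ideal.absNorm J = ∏ P ∈ m.toFinset, Ideal.absNorm P ^ (m.count P) := by
      conv_lhs => rw [← Ideal.prod_normalizedFactors_eq_self hJ]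
      rw [map_multiset_prod, Finset.prod_multiset_map_count]
    rw [h3]
    push_cast
    rfl
  have h3 : (Ideal.absNorm J : ℝ) ^ ε =
      ∏ P ∈ m.toFinset, ((Ideal.absNorm P : ℝ) ^ (m.count P)) ^ ε := by
    rw [h2, Real.finsetProd_rpow _ _ (fun P _ => by positivity)]
  have hP2 : ∀ P ∈ m.toFinset, (2 : ℝ) ≤ Ideal.absNorm P := by
    intro P hP
    have hPp : Prime P := prime_of_normalized_factor P (Multiset.mem_toFinset.1 hP)
    have e0 : Ideal.absNorm P ≠ 0 := fun h => hPp.ne_zero (Ideal.absNorm_eq_zero_iff.1 h)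
    have e1 : Ideal.absNorm P ≠ 1 := fun h => by
      rw [Ideal.absNorm_eq_one_iff] at h
      exact (Ideal.isPrime_of_prime hPp).ne_top h
    have : 2 ≤ Ideal.absNorm P := by omega
    exact_mod_cast this
  have hterm : ∀ P ∈ m.toFinset, ((m.count P : ℝ) + 1) ≤
      (if P ∈ F then C1 else 1) * ((Ideal.absNorm P : ℝ) ^ (m.count P)) ^ ε := by
    intro P hP
    have hN := hP2 P hP
    have hN0 : (0 : ℝ) ≤ Ideal.absNorm P := Nat.cast_nonneg _
    have e1 : ((Ideal.absNorm P : ℝ) ^ (m.count P)) ^ ε =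
        (Ideal.absNorm P : ℝ) ^ ((m.count P : ℝ) * ε) := by
      rw [← Real.rpow_natCast, ← Real.rpow_mul hN0]
    rw [e1]
    by_cases hPF : P ∈ F
    · rw [if_pos hPF]
      refine (hlin (m.count P)).trans ?_
      refine mul_le_mul_of_nonneg_left ?_ (by linarith)
      exact Real.rpow_le_rpow (by norm_num) hN (by positivity)
    · rw [if_neg hPF, one_mul]
      have e2 : n < Ideal.absNorm P := by
        by_contra h
        exact hPF ((Set.Finite.mem_toFinset _).2 (not_lt.1 h))
      have e3 : (2 : ℝ) ^ (1 / ε) ≤ Ideal.absNorm P := by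
        have : (n : ℝ) < Ideal.absNorm P := by exact_mod_cast e2
        linarith
      have e4 : ((2 : ℝ) ^ (1 / ε)) ^ ((m.count P : ℝ) * ε) ≤
          (Ideal.absNorm P : ℝ) ^ ((m.count P : ℝ) * ε) :=
        Real.rpow_le_rpow (by positivity) e3 (by positivity)
      have e5 : ((2 : ℝ) ^ (1 / ε)) ^ ((m.count P : ℝ) * ε) = 2 ^ (m.count P) := by
        rw [← Real.rpow_mul (by norm_num), ← Real.rpow_natCast]
        congr 1
        field_simp
      have e6 : m.count P + 1 ≤ 2 ^ (m.count P) := Nat.lt_two_pow_self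
      have e7 : (m.count P : ℝ) + 1 ≤ 2 ^ (m.count P) := by exact_mod_cast e6
      rw [e5] at e4
      exact e7.trans e4
  calc (S.card : ℝ) ≤ ∏ P ∈ m.toFinset, ((m.count P : ℝ) + 1) := by exact_mod_cast h1
    _ ≤ ∏ P ∈ m.toFinset, ((if P ∈ F then C1 else 1) * ((Ideal.absNorm P : ℝ) ^ (m.count P)) ^ ε) :=
        Finset.prod_le_prod (fun P _ => by positivity) hterm
    _ = (∏ P ∈ m.toFinset, (if P ∈ F then C1 else 1)) * (Ideal.absNorm J : ℝ) ^ ε := by
        rw [Finset.prod_mul_distrib, h3]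
    _ ≤ C1 ^ F.card * (Ideal.absNorm J : ℝ) ^ ε := by
        refine mul_le_mul_of_nonneg_right ?_ (by positivity)
        rw [← Finset.prod_filter, Finset.prod_const]
        refine pow_le_pow_right₀ hC1 (Finset.card_le_card fun P hP => (Finset.mem_filter.1 hP).2)

end Pool.Agent.NRM
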