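import Pool.Agent.NRM.StA
import Pool.Agent.RHM.StA

/-!
NRM, FAMG: the values of `g` satisfy the three properties `FAM`.
-/

set_option autoImplicit false

namespace Pool.Agent.NRM

open scoped BigOperators
open Classical NumberField IsDedekindDomain
open Pool.Agent.RHP (Mon mono ev Sys Prim pd WB WW)
open Pool.Agent.RHK Pool.Agent.RHC

section FAMG_aux

variable {K : Type} [Field K] [NumberField K] {r D : ℕ}

theorem FAMG_dg : 1 ≤ dg K := Module.finrank_pos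

theorem FAMG_card (g : Mon r D → 𝓞 K) (b U : ℕ) : (BG g b U).card ≤ (bx K r (U : ℝ)).card :=
  Finset.card_filter_le _ _

theorem FAMG_mem {g : Mon r D → 𝓞 K} {b U : ℕ} {w : Fin r → 𝓞 K} (h : w ∈ BG g b U) :
    w ∈ bx K r (U : ℝ) ∧ (b : 𝓞 K) * aG g b w = ev g w ∧ ev g w ≠ 0 := by
  have h1 := Finset.mem_filter.1 h
  exact ⟨h1.1, aG_mul h1.2.1, h1.2.2⟩

/-- property (ii) -/
theorem FAMG_van (g : Mon r D → 𝓞 K) (C1 C2 : ℝ) (hC1 : 0 < C1) (hC2 : 0 < C2)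
    (h1 : ∀ X : ℕ, 1 ≤ X → ((bx K r (X : ℝ)).card : ℝ) ≤ C1 * ((X : ℝ) ^ r) ^ dg K)
    (h2 : ∀ (U : ℕ) (a : 𝓞 K) (I : Ideal (𝓞 K)), 1 ≤ U → I ≠ ⊥ →
      (((bx K r (U : ℝ)).filter fun w => ev g w - a ∈ I).card : ℝ) * (U : ℝ) ^ dg K ≤
        C2 * ((U : ℝ) ^ r) ^ dg K * ((U : ℝ) ^ dg K * rp (Ideal.absNorm I) (MM D) + 1))
    (b A Q : ℕ) (hA : 1 ≤ A) (hQ : 1 ≤ Q) (I : Ideal (𝓞 K)) (hI : I ≠ ⊥) (lam : 𝓞 K) :
    (((BG g b (A * Q) ×ˢ BG g b (A * Q)).filter fun p => aG g b p.2 - lam * aG g b p.1 ∈ I).card : ℝ)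
      ≤ (C1 * C2 * (((A : ℝ) ^ r) ^ dg K) ^ 2) * (((Q : ℝ) ^ r) ^ dg K) ^ 2 *
        (rp (Ideal.absNorm I) (MM D) + 1 / (Q : ℝ) ^ dg K) := by
  set U := A * Q with hU
  have hU1 : 1 ≤ U := Nat.one_le_iff_ne_zero.2 (mul_ne_zero (by omega) (by omega))
  have hUr : (0 : ℝ) < U := by exact_mod_cast hU1
  have hQr : (0 : ℝ) < Q := by exact_mod_cast hQ
  have hAr : (1 : ℝ) ≤ A := by exact_mod_cast hA
  have hUp : (0 : ℝ) < (U : ℝ) ^ dg K := pow_pos hUr _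
  have hrp : 0 ≤ rp (Ideal.absNorm I) (MM D) := Real.rpow_nonneg (Nat.cast_nonneg _) _
  set N : ℝ := C2 * ((U : ℝ) ^ r) ^ dg K * (rp (Ideal.absNorm I) (MM D) + 1 / (U : ℝ) ^ dg K)
    with hN
  have hN0 : 0 ≤ N := by positivity
  have hfib : ∀ w ∈ BG g b U,
      (((BG g b U).filter fun w' => aG g b w' - lam * aG g b w ∈ I).card : ℝ) ≤ N := by
    intro w hw
    have hsub : ((BG g b U).filter fun w' => aG g b w' - lam * aG g b w ∈ I) ⊆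
        (bx K r (U : ℝ)).filter fun w' => ev g w' - lam * ev g w ∈ I := by
      intro w' hw'
      have h3 := Finset.mem_filter.1 hw'
      refine Finset.mem_filter.2 ⟨(FAMG_mem h3.1).1, ?_⟩
      rw [← (FAMG_mem h3.1).2.1, ← (FAMG_mem hw).2.1]
      have h4 := I.mul_mem_left (b : 𝓞 K) h3.2
      have h5 : (b : 𝓞 K) * (aG g b w' - lam * aG g b w) =
          (b : 𝓞 K) * aG g b w' - lam * ((b : 𝓞 K) * aG g b w) := by ring
      rw [h5] at h4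
      exact h4
    have h6 : (((BG g b U).filter fun w' => aG g b w' - lam * aG g b w ∈ I).card : ℝ) ≤
        (((bx K r (U : ℝ)).filter fun w' => ev g w' - lam * ev g w ∈ I).card : ℝ) := by
      exact_mod_cast Finset.card_le_card hsub
    refine h6.trans ?_
    have h7 := h2 U (lam * ev g w) I hU1 hI
    rw [← le_div_iff₀ hUp] at h7
    refine h7.trans (le_of_eq ?_)
    rw [hN]
    field_simp
  have hcount : (((BG g b U ×ˢ BG g b U).filter fun p =>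
      aG g b p.2 - lam * aG g b p.1 ∈ I).card : ℝ) =
      ∑ w ∈ BG g b U, (((BG g b U).filter fun w' => aG g b w' - lam * aG g b w ∈ I).card : ℝ) := by
    rw [Finset.card_filter, Finset.sum_product]
    push_cast
    refine Finset.sum_congr rfl fun w _ => ?_
    rw [Finset.card_filter]
    push_cast
    rfl
  rw [hcount]
  have hsum := Finset.sum_le_card_nsmul (BG g b U) _ N hfib
  refine hsum.trans ?_
  rw [nsmul_eq_mul]
  have hc : ((BG g b U).card : ℝ) ≤ C1 * ((U : ℝ) ^ r) ^ dg K :=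
    (by exact_mod_cast FAMG_card g b U : ((BG g b U).card : ℝ) ≤ ((bx K r (U : ℝ)).card : ℝ)).trans
      (h1 U hU1)
  have hUQ : (1 : ℝ) / (U : ℝ) ^ dg K ≤ 1 / (Q : ℝ) ^ dg K := by
    apply one_div_le_one_div_of_le (pow_pos hQr _)
    apply pow_le_pow_left₀ hQr.le
    rw [hU]
    push_cast
    nlinarith
  have hsplit : ((U : ℝ) ^ r) ^ dg K = ((A : ℝ) ^ r) ^ dg K * ((Q : ℝ) ^ r) ^ dg K := by
    rw [hU]
    push_cast
    rw [mul_pow, mul_pow]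
  calc ((BG g b U).card : ℝ) * N ≤ (C1 * ((U : ℝ) ^ r) ^ dg K) * N :=
        mul_le_mul_of_nonneg_right hc hN0
    _ ≤ (C1 * ((U : ℝ) ^ r) ^ dg K) * (C2 * ((U : ℝ) ^ r) ^ dg K *
        (rp (Ideal.absNorm I) (MM D) + 1 / (Q : ℝ) ^ dg K)) := by
        rw [hN]
        gcongr
    _ = _ := by
        rw [hsplit]
        ring

/-- the power of the parameter `t` -/
theorem FAMG_key (rho : ℕ) (hrho : 1 ≤ rho) (kap : ℝ) (hkap : 0 ≤ kap) (s m c v A : ℕ)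
    (hpar : kap * (m * (c * (s - 1 : ℕ) + 1) + v) + 2 ≤ s * (c * (s - 1 : ℕ) + 1))
    (t V : ℕ) (ht : 1 ≤ t) (hV : V ≤ (2 * t) ^ v) :
    (t : ℝ) * (((A * QN s m c t V : ℕ) : ℝ) ^ kap) ^ rho ≤
      ((A : ℝ) ^ kap) ^ rho * (((2 : ℝ) ^ v) ^ kap) ^ rho * ((XC s c t : ℝ) ^ s) ^ rho := by
  have htr : (1 : ℝ) ≤ t := by exact_mod_cast ht
  have ht0 : (0 : ℝ) < t := by linarith
  set e : ℕ := m * (c * (s - 1) + 1) + v with he
  have hQ : (QN s m c t V : ℝ) ≤ 2 ^ v * (t : ℝ) ^ e := by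
    have h1 : QN s m c t V ≤ 2 ^ v * t ^ e := by
      unfold QN XC
      calc (t ^ (c * (s - 1) + 1)) ^ m * V ≤ (t ^ (c * (s - 1) + 1)) ^ m * (2 * t) ^ v :=
            Nat.mul_le_mul_left _ hV
        _ = 2 ^ v * t ^ e := by
            rw [he, ← pow_mul, mul_pow, pow_add, mul_comm (c * (s - 1) + 1) m]
            ring
    exact_mod_cast h1
  have hQ0 : (0 : ℝ) ≤ QN s m c t V := Nat.cast_nonneg _
  have hA0 : (0 : ℝ) ≤ A := Nat.cast_nonneg _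
  have hQk : (QN s m c t V : ℝ) ^ kap ≤ ((2 : ℝ) ^ v) ^ kap * (t : ℝ) ^ ((e : ℝ) * kap) := by
    have h1 := Real.rpow_le_rpow hQ0 hQ hkap
    rw [Real.mul_rpow (by positivity) (by positivity)] at h1
    have h2 : ((t : ℝ) ^ e) ^ kap = (t : ℝ) ^ ((e : ℝ) * kap) := by
      rw [← Real.rpow_natCast, ← Real.rpow_mul ht0.le]
    rwa [h2] at h1
  have hexp : (e : ℝ) * kap ≤ (((c * (s - 1) + 1) * s : ℕ) : ℝ) - 1 := by
    rw [he]
    push_cast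
    nlinarith [hpar]
  have hXs : ((XC s c t : ℝ) ^ s) = (t : ℝ) ^ ((c * (s - 1) + 1) * s) := by
    unfold XC
    push_cast
    rw [← pow_mul]
  have hstep : (t : ℝ) * (QN s m c t V : ℝ) ^ kap ≤ ((2 : ℝ) ^ v) ^ kap * (XC s c t : ℝ) ^ s := by
    have h1 : (t : ℝ) ^ ((e : ℝ) * kap) ≤ (t : ℝ) ^ ((((c * (s - 1) + 1) * s : ℕ) : ℝ) - 1) :=
      Real.rpow_le_rpow_of_exponent_le htr hexp
    have h2 : (t : ℝ) * (t : ℝ) ^ ((((c * (s - 1) + 1) * s : ℕ) : ℝ) - 1) =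
        (XC s c t : ℝ) ^ s := by
      rw [Real.rpow_sub_one ht0.ne', Real.rpow_natCast, hXs]
      field_simp
    calc (t : ℝ) * (QN s m c t V : ℝ) ^ kap
        ≤ t * (((2 : ℝ) ^ v) ^ kap * (t : ℝ) ^ ((((c * (s - 1) + 1) * s : ℕ) : ℝ) - 1)) := by
          apply mul_le_mul_of_nonneg_left _ ht0.le
          exact hQk.trans (mul_le_mul_of_nonneg_left h1 (by positivity))
      _ = ((2 : ℝ) ^ v) ^ kap * ((t : ℝ) * (t : ℝ) ^ ((((c * (s - 1) + 1) * s : ℕ) : ℝ) - 1)) := by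
          ring
      _ = _ := by rw [h2]
  have hU : (((A * QN s m c t V : ℕ) : ℝ)) ^ kap = (A : ℝ) ^ kap * (QN s m c t V : ℝ) ^ kap := by
    rw [Nat.cast_mul, Real.mul_rpow hA0 hQ0]
  rw [hU, mul_pow]
  have hQk0 : 0 ≤ (QN s m c t V : ℝ) ^ kap := Real.rpow_nonneg hQ0 _
  have ht1 : (t : ℝ) ≤ (t : ℝ) ^ rho := le_self_pow₀ htr (by omega)
  calc (t : ℝ) * (((A : ℝ) ^ kap) ^ rho * ((QN s m c t V : ℝ) ^ kap) ^ rho)
      ≤ (t : ℝ) ^ rho * (((A : ℝ) ^ kap) ^ rho * ((QN s m c t V : ℝ) ^ kap) ^ rho) :=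
        mul_le_mul_of_nonneg_right ht1 (by positivity)
    _ = ((A : ℝ) ^ kap) ^ rho * ((t : ℝ) * (QN s m c t V : ℝ) ^ kap) ^ rho := by
        rw [mul_pow (t : ℝ)]
        ring
    _ ≤ ((A : ℝ) ^ kap) ^ rho * (((2 : ℝ) ^ v) ^ kap * (XC s c t : ℝ) ^ s) ^ rho := by
        apply mul_le_mul_of_nonneg_left _ (by positivity)
        exact pow_le_pow_left₀ (by positivity) hstep _
    _ = _ := by
        rw [mul_pow]
        ring

/-- property (iii) -/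
theorem FAMG_diag (g : Mon r D → 𝓞 K) (kap C3 : ℝ) (hkap : 0 ≤ kap) (hC3 : 0 < C3)
    (h3 : ∀ U : ℕ, 1 ≤ U →
      (((bx K r (U : ℝ) ×ˢ bx K r (U : ℝ)).filter fun p =>
        ev g p.1 = ev g p.2 ∧ ev g p.1 ≠ 0).card : ℝ) * ((U : ℝ) ^ D) ^ dg K ≤
        C3 * ((U : ℝ) ^ (2 * r)) ^ dg K * ((U : ℝ) ^ kap) ^ dg K)
    (s m c v A b : ℕ) (hA : 1 ≤ A)
    (hpar : kap * (m * (c * (s - 1 : ℕ) + 1) + v) + 2 ≤ s * (c * (s - 1 : ℕ) + 1))
    (t V H : ℕ) (ht : 1 ≤ t) (hCR : CR D v t V H) :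
    (((BG g b (A * QN s m c t V) ×ˢ BG g b (A * QN s m c t V)).filter fun p =>
      aG g b p.1 = aG g b p.2).card : ℝ) * t * ((H : ℝ) * (XC s c t : ℝ) ^ (D * m)) ^ dg K ≤
    (((2 : ℝ) ^ D) ^ dg K * C3 * (((A : ℝ) ^ r) ^ dg K) ^ 2 *
      (((A : ℝ) ^ kap) ^ dg K * (((2 : ℝ) ^ v) ^ kap) ^ dg K)) *
      ((XC s c t : ℝ) ^ s) ^ dg K * (((QN s m c t V : ℝ) ^ r) ^ dg K) ^ 2 := by
  obtain ⟨hV1, hV2, -, hH⟩ := hCR
  have hV : 1 ≤ V := le_trans (Nat.one_le_pow _ _ ht) hV1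
  have hX : 1 ≤ XC s c t := Nat.one_le_pow _ _ ht
  set Q := QN s m c t V with hQdef
  have hQ : 1 ≤ Q := by
    rw [hQdef]
    exact Nat.one_le_iff_ne_zero.2 (mul_ne_zero (pow_ne_zero _ (by omega)) (by omega))
  set U := A * Q with hU
  have hU1 : 1 ≤ U := Nat.one_le_iff_ne_zero.2 (mul_ne_zero (by omega) (by omega))
  have hcard : (((BG g b U ×ˢ BG g b U).filter fun p => aG g b p.1 = aG g b p.2).card : ℝ) ≤
      (((bx K r (U : ℝ) ×ˢ bx K r (U : ℝ)).filter fun p =>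
        ev g p.1 = ev g p.2 ∧ ev g p.1 ≠ 0).card : ℝ) := by
    have hsub : ((BG g b U ×ˢ BG g b U).filter fun p => aG g b p.1 = aG g b p.2) ⊆
        (bx K r (U : ℝ) ×ˢ bx K r (U : ℝ)).filter fun p =>
        ev g p.1 = ev g p.2 ∧ ev g p.1 ≠ 0 := by
      intro p hp
      have h4 := Finset.mem_filter.1 hp
      have h5 := Finset.mem_product.1 h4.1
      refine Finset.mem_filter.2 ⟨Finset.mem_product.2 ⟨(FAMG_mem h5.1).1, (FAMG_mem h5.2).1⟩,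
        ?_, (FAMG_mem h5.1).2.2⟩
      rw [← (FAMG_mem h5.1).2.1, ← (FAMG_mem h5.2).2.1, h4.2]
    exact_mod_cast Finset.card_le_card hsub
  have hHX : (H : ℝ) * (XC s c t : ℝ) ^ (D * m) ≤ 2 ^ D * (U : ℝ) ^ D := by
    have h4 : H * XC s c t ^ (D * m) ≤ 2 ^ D * U ^ D := by
      calc H * XC s c t ^ (D * m) ≤ (2 * V) ^ D * XC s c t ^ (D * m) := by
            apply Nat.mul_le_mul_right
            exact hH.trans (Nat.pow_le_pow_left (by omega) _)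
        _ = 2 ^ D * Q ^ D := by
            rw [hQdef, QN, mul_pow, mul_pow, ← pow_mul, mul_comm D m]
            ring
        _ ≤ 2 ^ D * U ^ D := by
            apply Nat.mul_le_mul_left
            apply Nat.pow_le_pow_left
            rw [hU]
            exact Nat.le_mul_of_pos_left _ (by omega)
    exact_mod_cast h4
  have h6 := h3 U hU1
  have h7 := FAMG_key (dg K) FAMG_dg kap hkap s m c v A hpar t V ht hV2
  rw [← hQdef, ← hU] at h7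
  set N := (((bx K r (U : ℝ) ×ˢ bx K r (U : ℝ)).filter fun p =>
        ev g p.1 = ev g p.2 ∧ ev g p.1 ≠ 0).card : ℝ) with hN
  have hN0 : 0 ≤ N := Nat.cast_nonneg _
  have hpw : ((H : ℝ) * (XC s c t : ℝ) ^ (D * m)) ^ dg K ≤
      ((2 : ℝ) ^ D) ^ dg K * ((U : ℝ) ^ D) ^ dg K := by
    rw [← mul_pow]
    exact pow_le_pow_left₀ (by positivity) hHX _
  have hsplit : ((U : ℝ) ^ (2 * r)) ^ dg K =
      (((A : ℝ) ^ r) ^ dg K) ^ 2 * (((Q : ℝ) ^ r) ^ dg K) ^ 2 := by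
    rw [hU]
    push_cast
    rw [← mul_pow, ← mul_pow, ← mul_pow, ← pow_mul, ← pow_mul, ← pow_mul]
    congr 1
    ring
  calc (((BG g b U ×ˢ BG g b U).filter fun p => aG g b p.1 = aG g b p.2).card : ℝ) * t *
        ((H : ℝ) * (XC s c t : ℝ) ^ (D * m)) ^ dg K
      ≤ N * t * (((2 : ℝ) ^ D) ^ dg K * ((U : ℝ) ^ D) ^ dg K) := by gcongr
    _ = ((2 : ℝ) ^ D) ^ dg K * t * (N * ((U : ℝ) ^ D) ^ dg K) := by ring
    _ ≤ ((2 : ℝ) ^ D) ^ dg K * t * (C3 * ((U : ℝ) ^ (2 * r)) ^ dg K * ((U : ℝ) ^ kap) ^ dg K) := by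
        apply mul_le_mul_of_nonneg_left h6 (by positivity)
    _ = ((2 : ℝ) ^ D) ^ dg K * C3 * ((U : ℝ) ^ (2 * r)) ^ dg K *
        (t * ((U : ℝ) ^ kap) ^ dg K) := by ring
    _ ≤ ((2 : ℝ) ^ D) ^ dg K * C3 * ((U : ℝ) ^ (2 * r)) ^ dg K *
        (((A : ℝ) ^ kap) ^ dg K * (((2 : ℝ) ^ v) ^ kap) ^ dg K * ((XC s c t : ℝ) ^ s) ^ dg K) := by
        apply mul_le_mul_of_nonneg_left h7 (by positivity)
    _ = _ := by
        rw [hsplit]
        ring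

end FAMG_aux

theorem thm_FAMG (hVG : St_VG) (hPBC : RHM.St_PBC) : St_FAMG := by
  intro K _ _ s r D m hN g hg kap hkap hdgn c v hpar A b hA hb
  obtain ⟨C1, hC1, h1⟩ := hPBC K r
  obtain ⟨C2, hC2, h2⟩ := hVG K r D hN.hD g hg
  obtain ⟨C3, hC3, h3⟩ := hdgn
  have hA0 : (0 : ℝ) < A := by exact_mod_cast hA
  set Ca : ℝ := C1 * ((A : ℝ) ^ r) ^ dg K with hCa
  set Cb : ℝ := C1 * C2 * (((A : ℝ) ^ r) ^ dg K) ^ 2 with hCb
  set Cc : ℝ := ((2 : ℝ) ^ D) ^ dg K * C3 * (((A : ℝ) ^ r) ^ dg K) ^ 2 *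
      (((A : ℝ) ^ kap) ^ dg K * (((2 : ℝ) ^ v) ^ kap) ^ dg K) with hCc
  have hCa0 : 0 < Ca := by positivity
  have hCb0 : 0 < Cb := by positivity
  have hCc0 : 0 < Cc := by positivity
  refine ⟨Ca + Cb + Cc, by positivity, fun t ht V H hCR => ?_⟩
  have hV : 1 ≤ V := le_trans (Nat.one_le_pow _ _ ht) hCR.1
  have hX : 1 ≤ XC s c t := Nat.one_le_pow _ _ ht
  have hQ : 1 ≤ QN s m c t V :=
    Nat.one_le_iff_ne_zero.2 (mul_ne_zero (pow_ne_zero _ (by omega)) (by omega))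
  have hU1 : 1 ≤ A * QN s m c t V := Nat.one_le_iff_ne_zero.2 (mul_ne_zero (by omega) (by omega))
  refine ⟨?_, fun I hI lam => ?_, ?_⟩
  · have h4 : ((BG g b (A * QN s m c t V)).card : ℝ) ≤ C1 * (((A * QN s m c t V : ℕ) : ℝ) ^ r) ^ dg K :=
      (by exact_mod_cast FAMG_card g b _ : ((BG g b (A * QN s m c t V)).card : ℝ) ≤
        ((bx K r (((A * QN s m c t V : ℕ)) : ℝ)).card : ℝ)).trans (h1 _ hU1)
    refine h4.trans ?_
    push_cast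
    rw [mul_pow, mul_pow, ← mul_assoc]
    apply mul_le_mul_of_nonneg_right _ (by positivity)
    linarith
  · refine (FAMG_van g C1 C2 hC1 hC2 h1 h2 b A _ hA hQ I hI lam).trans ?_
    have hrp : 0 ≤ rp (Ideal.absNorm I) (MM D) := Real.rpow_nonneg (Nat.cast_nonneg _) _
    gcongr
    linarith
  · refine (FAMG_diag g kap C3 hkap hC3 h3 s m c v A b hA hpar t V H ht hCR).trans ?_
    gcongr
    linarith

end Pool.Agent.NRM
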