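import Pool.Agent.NRM.StB
import Pool.Agent.RHC.Final

/-!
NRM, module FINN: Chebyshev for the points in finitely many cells (port of RHCW/FINCW.lean).
-/

set_option autoImplicit false

namespace Pool.Agent.NRM

open scoped BigOperators
open Classical NumberField IsDedekindDomain
open Pool.Agent.RHP (Mon mono ev Sys Prim pd WB WW WW_pos dvd_WW)
open Pool.Agent.RHK Pool.Agent.RHC
open Pool.Agent.RHKB (mI hh jj qv MK uu BadK)
open Pool.Agent.RHCB (BadC cred cemb uk PrC hM)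
open Pool.Agent.RHCW (cmk)

section

variable {K : Type} [Field K] [NumberField K] {s r D m : ℕ}

/-- the expected number is positive -/
theorem FINN_EN_pos (rho s D m r c v t V H : ℕ) (ht : 1 ≤ t) (hH : CR D v t V H) :
    0 < EN rho s D m r c t V H := by
  obtain ⟨h1, -, h3, -⟩ := hH
  have hV : 0 < V := lt_of_lt_of_le (pow_pos (by omega) v) h1
  have hH : 0 < H := lt_of_lt_of_le (pow_pos hV D) h3
  have hX : 0 < XC s c t := XC_pos s c t ht
  have hX' : (0 : ℝ) < (XC s c t : ℝ) := by exact_mod_cast hX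
  have hQ' : (0 : ℝ) < (QN s m c t V : ℝ) := by
    have : 0 < QN s m c t V := Nat.mul_pos (pow_pos hX m) hV
    exact_mod_cast this
  have hH' : (0 : ℝ) < (H : ℝ) := by exact_mod_cast hH
  unfold EN
  positivity

/-- Chebyshev -/
theorem FINN_cheb {Q : Type} (B : Finset Q) (a : Q → 𝓞 K) (P : Set ((Fin s → 𝓞 K) × Q))
    (c v t V H κ W : ℕ) (γ : ℝ) (hγ : 0 < γ) (ht : 1 ≤ t) (hH : CR D v t V H)
    (ε : ℝ) (hs : ∑ F ∈ box K s (D * m) H, (NA B a P c t F - NAL B a P c t H κ W F) ^ 2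
      ≤ ε * EN (dg K) s D m r c t V H ^ 2 * ((box K s (D * m) H).card : ℝ)) :
    (((box K s (D * m) H).filter fun F => NA B a P c t F = 0 ∧
      γ * EN (dg K) s D m r c t V H ≤ NAL B a P c t H κ W F).card : ℝ)
      ≤ ε / γ ^ 2 * ((box K s (D * m) H).card : ℝ) := by
  have hE := FINN_EN_pos (dg K) s D m r c v t V H ht hH
  obtain ⟨E, hEd⟩ : ∃ E : ℝ, E = EN (dg K) s D m r c t V H := ⟨_, rfl⟩
  rw [← hEd] at hE hs ⊢
  have hcE : 0 < γ * E := mul_pos hγ hE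
  obtain ⟨S, hS⟩ : ∃ S : Finset (Mon s (D * m) → 𝓞 K), S = (box K s (D * m) H).filter fun F =>
    NA B a P c t F = 0 ∧ γ * E ≤ NAL B a P c t H κ W F := ⟨_, rfl⟩
  rw [← hS]
  have h1 : (S.card : ℝ) * (γ * E) ^ 2 ≤
      ∑ F ∈ box K s (D * m) H, (NA B a P c t F - NAL B a P c t H κ W F) ^ 2 := by
    calc (S.card : ℝ) * (γ * E) ^ 2
        = ∑ F ∈ S, (γ * E) ^ 2 := by
          rw [Finset.sum_const, nsmul_eq_mul]
      _ ≤ ∑ F ∈ S, (NA B a P c t F - NAL B a P c t H κ W F) ^ 2 := by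
          apply Finset.sum_le_sum
          intro F hF
          rw [hS] at hF
          obtain ⟨_, hF1, hF2⟩ := Finset.mem_filter.1 hF
          rw [hF1, zero_sub, neg_sq]
          exact pow_le_pow_left₀ hcE.le hF2 2
      _ ≤ ∑ F ∈ box K s (D * m) H, (NA B a P c t F - NAL B a P c t H κ W F) ^ 2 := by
          apply Finset.sum_le_sum_of_subset_of_nonneg
          · rw [hS]
            exact Finset.filter_subset _ _
          intros
          positivity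
  have h2 := h1.trans hs
  have h3 : (γ * E) ^ 2 = γ ^ 2 * E ^ 2 := by ring
  rw [h3] at h2
  have h4 : 0 < E ^ 2 := by positivity
  have h5 : 0 < γ ^ 2 := by positivity
  have h6 : (S.card : ℝ) * γ ^ 2 ≤ ε * ((box K s (D * m) H).card : ℝ) := by
    have : ((S.card : ℝ) * γ ^ 2) * E ^ 2 ≤
        (ε * ((box K s (D * m) H).card : ℝ)) * E ^ 2 := by
      nlinarith [h2]
    exact le_of_mul_le_mul_right this h4
  rw [div_mul_eq_mul_div, le_div_iff₀ h5]
  exact h6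

/-- a good point in the set `P` -/
theorem FINN_point {g : Mon r D → 𝓞 K} {b U : ℕ} {P : Set ((Fin s → 𝓞 K) × (Fin r → 𝓞 K))}
    {c t : ℕ} {f : Mon s (D * m) → 𝓞 K} (h : NA (BG g b U) (aG g b) P c t f ≠ 0) :
    ∃ p : (Fin s → 𝓞 K) × (Fin r → 𝓞 K), Prim p.1 ∧ p ∈ P ∧
      (b : 𝓞 K) * ev f p.1 = ev g p.2 := by
  unfold NA at h
  obtain ⟨x, hx, h1⟩ := Finset.exists_ne_zero_of_sum_ne_zero h
  obtain ⟨w, hw, h2⟩ := Finset.exists_ne_zero_of_sum_ne_zero h1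
  have hP : (x, w) ∈ P := by
    by_contra h3
    exact h2 (if_neg h3)
  rw [if_pos hP] at h2
  have h3 : ev f x = aG g b w := by
    by_contra h3
    exact h2 (if_neg h3)
  unfold CG at hx
  rw [Finset.mem_filter] at hx
  unfold BG at hw
  rw [Finset.mem_filter] at hw
  refine ⟨(x, w), hx.2.1, hP, ?_⟩
  change (b : 𝓞 K) * ev f x = ev g w
  rw [h3, aG_mul hw.2.1]

end

/-- a set covered by one set and a finite family of sets -/
theorem FINN_cover {α τ : Type} (S : Finset α) (T : Finset τ) (p q : α → Prop)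
    (u : τ → α → Prop) [DecidablePred p] [DecidablePred q] [∀ i, DecidablePred (u i)] (a b : ℝ)
    (h : ∀ F ∈ S, p F → q F ∨ ∃ i ∈ T, u i F)
    (hq : ((S.filter q).card : ℝ) ≤ a) (hu : ∀ i ∈ T, ((S.filter (u i)).card : ℝ) ≤ b) :
    ((S.filter p).card : ℝ) ≤ a + T.card * b := by
  have h1 : S.filter p ⊆ S.filter q ∪ T.biUnion fun i => S.filter (u i) := by
    intro F hF
    rw [Finset.mem_filter] at hF
    rw [Finset.mem_union, Finset.mem_filter, Finset.mem_biUnion]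
    rcases h F hF.1 hF.2 with h2 | ⟨i, hi, h2⟩
    · exact Or.inl ⟨hF.1, h2⟩
    · exact Or.inr ⟨i, hi, Finset.mem_filter.2 ⟨hF.1, h2⟩⟩
  have h2 : ((S.filter p).card : ℝ) ≤
      ((S.filter q).card : ℝ) + ∑ i ∈ T, ((S.filter (u i)).card : ℝ) := by
    have h3 := (Finset.card_le_card h1).trans ((Finset.card_union_le _ _).trans
      (Nat.add_le_add_left Finset.card_biUnion_le _))
    exact_mod_cast h3
  refine h2.trans (add_le_add hq ?_)
  calc ∑ i ∈ T, ((S.filter (u i)).card : ℝ) ≤ ∑ i ∈ T, b := Finset.sum_le_sum hu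
    _ = T.card * b := by rw [Finset.sum_const, nsmul_eq_mul]

theorem thm_FINN (hL : St_LLSN) : St_FINN := by
  intro K _ _ s r D m hyp g hg par ε hε
  obtain ⟨p00, hp⟩ := hL K s r D m hyp g hg (ε / 2) (by positivity)
  refine ⟨p00, fun p0 hp0 B dl q hdl hq hdlp hqp η hη hη' T => ?_⟩
  obtain ⟨c, v, hc, hv, sm, hfam⟩ := par
  obtain ⟨A, hA⟩ : ∃ A : ℕ, A = dl * (B + 1) := ⟨_, rfl⟩
  obtain ⟨b, hb⟩ : ∃ b : ℕ, b = dl ^ D := ⟨_, rfl⟩
  have hA1 : 1 ≤ A := by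
    rw [hA]
    exact Nat.mul_pos hdl (Nat.succ_pos B)
  have hb1 : 1 ≤ b := by
    rw [hb]
    exact Nat.pow_pos hdl
  obtain ⟨γ, hγ, m2, h2⟩ := hp p0 hp0 A B dl c v q hdl hA.ge hc hv hq hdlp hqp η hη hη'
  rw [← hb] at h2 ⊢
  obtain ⟨C0, hC0, hF⟩ := hfam A b hA1 hb1
  have hT : (0 : ℝ) < 2 * (T.card + 1) := by positivity
  obtain ⟨κ, m1, hκ, h3⟩ := sm C0 (γ ^ 2 * (ε / (2 * (T.card + 1)))) hC0 (by positivity)
  obtain ⟨M, hM⟩ : ∃ M, M = max m2 ((m1 + 1) * b) := ⟨_, rfl⟩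
  have hMb : (m1 + 1) * b ≤ M := by
    rw [hM]
    exact le_max_right _ _
  have hbM : b ∣ WW M := by
    refine dvd_WW M b hb1 (le_trans ?_ hMb)
    nlinarith
  have hW : 0 < WW M / b := Nat.div_pos (Nat.le_of_dvd (WW_pos M) hbM) hb1
  obtain ⟨t1, h4⟩ := h3 (WW M / b) hW (fun g' hg1 hg2 => by
    have h5 : g' * b ∣ WW M := by
      refine dvd_WW M (g' * b) (Nat.mul_pos hg1 hb1) (le_trans ?_ hMb)
      exact Nat.mul_le_mul_right b (by omega)
    rw [Nat.dvd_div_iff_mul_dvd hbM, mul_comm]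
    exact h5)
  obtain ⟨t2, h5⟩ := h2 M (by rw [hM]; exact le_max_left _ _) κ hκ
  obtain ⟨V0, hV0⟩ := exists_root v (max t1 t2) hv
  have hD : 1 ≤ D := by
    have := hyp.hD
    omega
  refine ⟨(V0 + 1) ^ D, fun H hH V hV1 hV2 => ?_⟩
  have hVV : V0 ≤ V := by
    by_contra hcon
    have h6 : (V + 1) ^ D < (V0 + 1) ^ D := Nat.pow_lt_pow_left (by omega) (by omega)
    omega
  obtain ⟨t, ht, ht1, g3, g4⟩ := hV0 V hVV
  have hR : CR D v t V H := ⟨g3, g4.trans (Nat.pow_le_pow_left (by omega) _), hV1, hV2⟩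
  have h7 := h5 t ((le_max_right _ _).trans ht) V H hR
  have hfin := FINN_cover (box K s (D * m) H) T
    (fun f => ∃ τ ∈ T, (∀ v : InfinitePlace K, InfZN v V B g (τ.2.2 v) η f) ∧
        (∀ v, LowP p0 v → LocZN v b q g τ.1 τ.2.1 f) ∧
        ¬ ∃ (X : ℕ) (p : (Fin s → 𝓞 K) × (Fin r → 𝓞 K)), 0 < X ∧ Prim p.1 ∧
          p ∈ CellN q τ.1 τ.2.1 τ.2.2 (3 * η) X (dl * (X ^ m * V)) ∧
          (b : 𝓞 K) * ev f p.1 = ev g p.2) _
    (fun τ F => NA (BG g b (A * QN s m c t V)) (aG g b)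
        (CellN q τ.1 τ.2.1 τ.2.2 (3 * η) (XC s c t) (dl * QN s m c t V)) c t F = 0 ∧
      γ * EN (dg K) s D m r c t V H ≤ NAL (BG g b (A * QN s m c t V)) (aG g b)
        (CellN q τ.1 τ.2.1 τ.2.2 (3 * η) (XC s c t) (dl * QN s m c t V)) c t H κ (WW M / b) F)
    _ (ε / (2 * (T.card + 1)) * ((box K s (D * m) H).card : ℝ)) ?_ h7 ?_
  · refine hfin.trans ?_
    have hn : (0 : ℝ) ≤ ((box K s (D * m) H).card : ℝ) := Nat.cast_nonneg _
    have h8 : (T.card : ℝ) * (ε / (2 * (T.card + 1))) ≤ ε / 2 := by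
      rw [← mul_div_assoc, div_le_div_iff₀ hT (by norm_num)]
      nlinarith
    calc ε / 2 * ((box K s (D * m) H).card : ℝ) +
          (T.card : ℝ) * (ε / (2 * (T.card + 1)) * ((box K s (D * m) H).card : ℝ))
        = (ε / 2 + (T.card : ℝ) * (ε / (2 * (T.card + 1)))) *
            ((box K s (D * m) H).card : ℝ) := by ring
      _ ≤ ε * ((box K s (D * m) H).card : ℝ) :=
          mul_le_mul_of_nonneg_right (by linarith) hn
  · rintro F - ⟨τ, hτ, hF1, hF2, hF3⟩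
    have hN : NA (BG g b (A * QN s m c t V)) (aG g b)
        (CellN q τ.1 τ.2.1 τ.2.2 (3 * η) (XC s c t) (dl * QN s m c t V)) c t F = 0 := by
      by_contra hN
      obtain ⟨p, hp1, hp2, hp3⟩ := FINN_point hN
      exact hF3 ⟨XC s c t, p, XC_pos s c t ht1, hp1, hp2, hp3⟩
    by_cases hc1 : γ * EN (dg K) s D m r c t V H ≤ NAL (BG g b (A * QN s m c t V)) (aG g b)
        (CellN q τ.1 τ.2.1 τ.2.2 (3 * η) (XC s c t) (dl * QN s m c t V)) c t H κ (WW M / b) F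
    · exact Or.inr ⟨τ, hτ, hN, hc1⟩
    · exact Or.inl ⟨τ.1, τ.2.1, τ.2.2, hF1, hF2, not_le.1 hc1⟩
  · intro τ _
    have h6 := h4 t ((le_max_left _ _).trans ht) V H hR (Fin r → 𝓞 K)
      (BG g b (A * QN s m c t V)) (aG g b) (hF t ht1 V H hR)
      (CellN q τ.1 τ.2.1 τ.2.2 (3 * η) (XC s c t) (dl * QN s m c t V))
    have h8 := FINN_cheb (BG g b (A * QN s m c t V)) (aG g b)
      (CellN q τ.1 τ.2.1 τ.2.2 (3 * η) (XC s c t) (dl * QN s m c t V)) c v t V H κ (WW M / b)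
      γ hγ ht1 hR _ h6
    have h10 : γ ^ 2 * (ε / (2 * (T.card + 1))) / γ ^ 2 = ε / (2 * (T.card + 1)) := by
      field_simp
    rw [h10] at h8
    exact h8

end Pool.Agent.NRM
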