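import Pool.Agent.NRM.StB
import Pool.Agent.RHCW.TOPCW

/-!
# NRM, module FPL: the finite places, from local points to residue classes (helper57)
-/

set_option autoImplicit false

namespace Pool.Agent.NRM

open scoped BigOperators
open Classical NumberField IsDedekindDomain
open Pool.Agent.RHP (Mon mono ev Sys Prim pd WB WW)
open Pool.Agent.RHK Pool.Agent.RHC
open Pool.Agent.RHKB (mI hh jj qv MK uu BadK)
open Pool.Agent.RHCB (BadC cred cemb uk PrC hM f00 PCNC_int UIFTC_max UIFTC_norm_smul)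
open Pool.Agent.RHCW (cmk TOPCW_reps TOPCW_cast TOPCW_int TOPCW_sub TOPCW_dvd TOPCW_crt)

section

variable {K : Type} [Field K] [NumberField K]

private theorem FPL_mem {p0 : ℕ} {v : HeightOneSpectrum (𝓞 K)} (h : LowP p0 v) :
    ((p0.factorial : ℕ) : 𝓞 K) ∈ v.asIdeal := by
  obtain ⟨p, hp, hp0, hv⟩ := h
  obtain ⟨k, hk⟩ := (hp.dvd_factorial).2 hp0
  rw [hk, Nat.cast_mul]
  exact Ideal.mul_mem_right _ _ hv

private theorem FPL_fin (p0 : ℕ) : {v : HeightOneSpectrum (𝓞 K) | LowP p0 v}.Finite := by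
  have h1 : {v : HeightOneSpectrum (𝓞 K) |
      v.asIdeal ∣ Ideal.span {((p0.factorial : ℕ) : 𝓞 K)}}.Finite := by
    refine Ideal.finite_factors ?_
    rw [Ideal.zero_eq_bot, Ne, Ideal.span_singleton_eq_bot]
    exact_mod_cast (Nat.factorial_pos p0).ne'
  refine h1.subset fun v hv => ?_
  exact (Ideal.dvd_span_singleton).2 (FPL_mem hv)

private theorem FPL_half (hv : RHKB.St_PLV) {p0 : ℕ} {v : HeightOneSpectrum (𝓞 K)}
    (h : LowP p0 v) : ‖((p0.factorial : ℕ) : v.adicCompletion K)‖ ≤ 1 / 2 := by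
  obtain ⟨-, hq1, -, -, hjj, -, -⟩ := hv K v
  have h1 := (hjj ((p0.factorial : ℕ) : 𝓞 K) 1).2 (by
    rw [pow_one]
    exact FPL_mem h)
  rw [pow_one] at h1
  rw [TOPCW_cast]
  refine h1.trans ?_
  rw [one_div]
  have h2 : (2 : ℝ) ≤ qv v := by exact_mod_cast hq1
  exact inv_anti₀ (by norm_num) h2

private theorem FPL_ne (v : HeightOneSpectrum (𝓞 K)) (n : ℕ) (hn : 0 < n) :
    (n : v.adicCompletion K) ≠ 0 := by
  intro h
  rw [TOPCW_cast] at h
  have h1 : ((n : 𝓞 K) : K) = 0 := (algebraMap K (v.adicCompletion K)).injective (by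
    rw [map_zero]
    exact h)
  have h2 : (n : 𝓞 K) = 0 := RingOfIntegers.coe_eq_zero_iff.1 h1
  have h3 : n = 0 := by exact_mod_cast h2
  omega

/-- scaling a point -/
private theorem FPL_scale {L : Type} [NormedField L] [Algebra K L] {s r D m : ℕ}
    (g : Mon r D → 𝓞 K) (f : Mon s (D * m) → 𝓞 K) (x : Fin s → L) (w : Fin r → L)
    (hp : IsPtN g f x w) :
    ∃ (c : L) (z : Fin r ⊕ Fin s → L), c ≠ 0 ∧ ‖c‖ = ‖x‖ ∧ (∀ l, x l = c * xz z l) ∧
      (∀ j, w j = c ^ m * wz z j) ∧ ‖xz z‖ = 1 ∧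
      ev (cemb (1 : L) f) (xz z) = ev (gL L g) (wz z) := by
  obtain ⟨hx, he⟩ := hp
  obtain ⟨l₀, hl₀, hl₀'⟩ := UIFTC_max x hx
  have hxn : ‖x‖ ≠ 0 := norm_ne_zero_iff.2 hx
  refine ⟨x l₀, Sum.elim (fun j => ((x l₀) ^ m)⁻¹ * w j) (fun l => (x l₀)⁻¹ * x l), hl₀', hl₀,
    ?_, ?_, ?_, ?_⟩
  · intro l
    show x l = x l₀ * ((x l₀)⁻¹ * x l)
    rw [mul_inv_cancel_left₀ hl₀']
  · intro j
    show w j = x l₀ ^ m * ((x l₀ ^ m)⁻¹ * w j)
    rw [mul_inv_cancel_left₀ (pow_ne_zero _ hl₀')]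
  · show ‖fun l => (x l₀)⁻¹ * x l‖ = 1
    rw [UIFTC_norm_smul, norm_inv, hl₀]
    exact inv_mul_cancel₀ hxn
  · show ev (cemb (1 : L) f) (fun l => (x l₀)⁻¹ * x l) =
      ev (gL L g) (fun j => ((x l₀) ^ m)⁻¹ * w j)
    rw [Pool.Agent.RHP.ev_smul_pt, Pool.Agent.RHP.ev_smul_pt, he, inv_pow, inv_pow, ← pow_mul,
      mul_comm m D]

private theorem FPL_cemb {L : Type} [Field L] [Algebra K L] {s d : ℕ} (b : L) (f : Mon s d → 𝓞 K)
    (x : Fin s → L) : ev (cemb b f) x = b * ev (cemb (1 : L) f) x := by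
  have h1 : ev (cemb b f) x = b * ev (fun μ => jj L (f μ)) x :=
    Pool.Agent.RHP.ev_smul b (fun μ => jj L (f μ)) x
  have h2 : ev (cemb (1 : L) f) x = 1 * ev (fun μ => jj L (f μ)) x :=
    Pool.Agent.RHP.ev_smul 1 (fun μ => jj L (f μ)) x
  rw [h1, h2, one_mul]

/-- the local point at a place which divides a small prime number, with the denominator `dl` -/
private theorem FPL_pt {L : Type} [NormedField L] [Algebra K L] {s r D m : ℕ} (hD : 1 ≤ D)
    (g : Mon r D → 𝓞 K) (f : Mon s (D * m) → 𝓞 K) (z : Fin r ⊕ Fin s → L) (hz : ‖xz z‖ = 1)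
    (he : ev (cemb (1 : L) f) (xz z) = ev (gL L g) (wz z)) (dl : ℕ) (B : ℝ)
    (hB : ∀ j, ‖wz z j‖ ^ D ≤ B) (hdl : ‖(dl : L)‖ ^ D * B ≤ 1) :
    ∃ u : Fin r ⊕ Fin s → L, (∀ l, ‖u l‖ ≤ 1) ∧ ‖xz u‖ = 1 ∧ (∀ l, xz u l = xz z l) ∧
      (∀ j, wz u j = dl * wz z j) ∧
      ev (cemb ((dl ^ D : ℕ) : L) f) (xz u) = ev (cemb (1 : L) g) (wz u) := by
  refine ⟨Sum.elim (fun j => (dl : L) * wz z j) (xz z), ?_, hz, fun l => rfl, fun j => rfl, ?_⟩
  · rintro (j | l)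
    · show ‖(dl : L) * wz z j‖ ≤ 1
      have h1 : ‖(dl : L) * wz z j‖ ^ D ≤ 1 := by
        rw [norm_mul, mul_pow]
        exact (mul_le_mul_of_nonneg_left (hB j) (by positivity)).trans hdl
      by_contra h2
      push Not at h2
      exact absurd (one_lt_pow₀ h2 (by omega)) (not_lt.2 h1)
    · show ‖xz z l‖ ≤ 1
      rw [← hz]
      exact norm_le_pi_norm (xz z) l
  · show ev (cemb ((dl ^ D : ℕ) : L) f) (xz z) = ev (cemb (1 : L) g) (fun j => (dl : L) * wz z j)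
    rw [FPL_cemb, he, Pool.Agent.RHP.ev_smul_pt]
    push_cast
    rfl

end

theorem thm_FPL (h1 : St_CONE) (h2 : RHKB.St_PLV) : St_FPL := by
  intro K _ _ s r D m hyp g p0 S hS η δ hη hδ
  have hD : 1 ≤ D := by
    have := hyp.hD
    omega
  -- the constants
  have hcone : ∀ v : HeightOneSpectrum (𝓞 K), ∃ C : ℝ, 0 < C ∧ ∀ c : v.adicCompletion K,
      (∃ w, ev (gL (v.adicCompletion K) g) w = c) →
      ∃ w, ev (gL (v.adicCompletion K) g) w = c ∧ ∀ j, ‖w j‖ ^ D ≤ C * ‖c‖ := by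
    intro v
    obtain ⟨hprop, -, hx, -⟩ := h2 K v
    exact h1 (v.adicCompletion K) hx r D hD (FPL_ne v D (by omega)) _
  choose C hC0 hC using hcone
  have hfin := FPL_fin (K := K) p0
  set L0 : Finset (HeightOneSpectrum (𝓞 K)) := hfin.toFinset with hL0
  have hL0m : ∀ v, v ∈ L0 ↔ LowP p0 v := fun v => by
    rw [hL0, Set.Finite.mem_toFinset]
    rfl
  obtain ⟨B, hBη, hBC⟩ : ∃ B : ℝ, η⁻¹ ≤ B ∧ ∀ v, LowP p0 v → C v ≤ B := by
    refine ⟨η⁻¹ + ∑ v ∈ L0, C v, le_add_of_nonneg_right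
      (Finset.sum_nonneg fun v _ => (hC0 v).le), fun v hv => ?_⟩
    have h3 := Finset.single_le_sum (fun v _ => (hC0 v).le) ((hL0m v).2 hv)
    have h4 : 0 < η⁻¹ := inv_pos.2 hη
    linarith
  have hB0 : 0 < B := (inv_pos.2 hη).trans_le hBη
  obtain ⟨N, hN⟩ := pow_unbounded_of_one_lt B (one_lt_two (α := ℝ))
  obtain ⟨N2, hN2⟩ : ∃ n : ℕ, (1 / 2 : ℝ) ^ n < min η (η * δ) :=
    exists_pow_lt_of_lt_one (lt_min hη (mul_pos hη hδ)) (by norm_num)
  set F : ℕ := p0.factorial with hF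
  have hF0 : 0 < F := Nat.factorial_pos p0
  have hprime : ∀ (n p : ℕ), p.Prime → p ∣ F ^ n → p ≤ p0 := fun n p hp hpn =>
    (hp.dvd_factorial).1 (hp.dvd_of_dvd_pow hpn)
  have hdl0 : 0 < F ^ N := pow_pos hF0 N
  have hq0 : 0 < F ^ (N + N2) := pow_pos hF0 _
  -- norms of the denominator and of the modulus
  have hdl1 : ∀ v : HeightOneSpectrum (𝓞 K), LowP p0 v →
      ‖((F ^ N : ℕ) : v.adicCompletion K)‖ ^ D * B ≤ 1 := by
    intro v hv
    have h3 := FPL_half h2 hv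
    have h4 : ‖((F ^ N : ℕ) : v.adicCompletion K)‖ ≤ (1 / 2) ^ N := by
      rw [Nat.cast_pow, norm_pow]
      exact pow_le_pow_left₀ (norm_nonneg _) h3 N
    have h5 : ‖((F ^ N : ℕ) : v.adicCompletion K)‖ ^ D ≤ (1 / 2) ^ N := by
      refine (pow_le_of_le_one (norm_nonneg _) (h4.trans (pow_le_one₀ (by norm_num)
        (by norm_num))) (by omega)).trans h4
    calc ‖((F ^ N : ℕ) : v.adicCompletion K)‖ ^ D * B ≤ (1 / 2) ^ N * 2 ^ N :=
          mul_le_mul h5 hN.le hB0.le (by positivity)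
      _ = 1 := by
          rw [← mul_pow]
          norm_num
  have hq1 : ∀ v : HeightOneSpectrum (𝓞 K), LowP p0 v →
      ‖((F ^ (N + N2) : ℕ) : v.adicCompletion K)‖ ≤ η ∧
      ‖((F ^ (N + N2) : ℕ) : v.adicCompletion K)‖ ^ D ≤
        η * δ * ‖((F ^ N : ℕ) : v.adicCompletion K)‖ ^ D := by
    intro v hv
    have h3 := FPL_half h2 hv
    have h4 : ‖((F ^ (N + N2) : ℕ) : v.adicCompletion K)‖ =
        ‖((F ^ N : ℕ) : v.adicCompletion K)‖ * ‖(F : v.adicCompletion K)‖ ^ N2 := by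
      rw [pow_add, Nat.cast_mul, norm_mul, Nat.cast_pow F N2, norm_pow]
    have h5 : ‖(F : v.adicCompletion K)‖ ^ N2 ≤ (1 / 2) ^ N2 :=
      pow_le_pow_left₀ (norm_nonneg _) h3 N2
    have h6 : ‖((F ^ N : ℕ) : v.adicCompletion K)‖ ≤ 1 := by
      rw [TOPCW_cast]
      exact TOPCW_int h2 v _
    have h7 : ‖(F : v.adicCompletion K)‖ ^ N2 ≤ η := h5.trans (hN2.le.trans (min_le_left _ _))
    have h8 : ‖(F : v.adicCompletion K)‖ ^ N2 ≤ η * δ :=
      h5.trans (hN2.le.trans (min_le_right _ _))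
    have h9 : ‖(F : v.adicCompletion K)‖ ^ N2 ≤ 1 :=
      h5.trans (pow_le_one₀ (by norm_num) (by norm_num))
    refine ⟨?_, ?_⟩
    · rw [h4]
      exact (mul_le_of_le_one_left (by positivity) h6).trans h7
    · rw [h4, mul_pow, mul_comm]
      refine mul_le_mul_of_nonneg_right ?_ (by positivity)
      exact (pow_le_of_le_one (by positivity) h9 (by omega)).trans h8
  obtain ⟨R, hR⟩ := TOPCW_reps (K := K) (F ^ (N + N2)) hq0
  refine ⟨F ^ N, F ^ (N + N2), hdl0, hq0, hprime N, hprime (N + N2),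
    (Fintype.piFinset fun _ : Fin s => R) ×ˢ (Fintype.piFinset fun _ : Fin r => R), ?_⟩
  intro f hf hloc z a hza
  -- the local points
  have e1 : ∀ v : HeightOneSpectrum (𝓞 K), ∃ u : Fin r ⊕ Fin s → v.adicCompletion K,
      (∀ l, ‖u l‖ ≤ 1) ∧ (LowP p0 v → ‖xz u‖ = 1 ∧
        ev (cemb (((F ^ N) ^ D : ℕ) : v.adicCompletion K) f) (xz u) =
          ev (cemb (1 : v.adicCompletion K) g) (wz u)) ∧
      (v ∈ S → ∃ c : v.adicCompletion K, ‖c‖ = ‖z v‖ ∧ (∀ l, z v l = c * xz u l) ∧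
        ∀ j, ((F ^ N : ℕ) : v.adicCompletion K) * a v j = c ^ m * wz u j) := by
    intro v
    by_cases hvS : v ∈ S
    · have hlow := hS v hvS
      obtain ⟨hp, μ, hμ⟩ := hza v hvS
      obtain ⟨c, y, hc0, hcn, hcx, hcw, hy1, hye⟩ := FPL_scale g f (z v) (a v) hp
      have hcn0 : 0 < ‖c‖ := norm_pos_iff.2 hc0
      have hyB : ∀ j, ‖wz y j‖ ^ D ≤ B := by
        intro j
        refine le_trans ?_ hBη
        have h3 := hμ j
        have h4 : ‖jj (v.adicCompletion K) (f μ)‖ ≤ 1 := TOPCW_int h2 v _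
        have h5 : ‖a v j‖ ^ D = ‖z v‖ ^ (D * m) * ‖wz y j‖ ^ D := by
          rw [hcw j, norm_mul, norm_pow, mul_pow, hcn, ← pow_mul, mul_comm m D]
        have h6 : 0 < ‖z v‖ ^ (D * m) := by
          rw [← hcn]
          positivity
        rw [h5] at h3
        have h7 : ‖jj (v.adicCompletion K) (f μ)‖ * ‖z v‖ ^ (D * m) ≤ ‖z v‖ ^ (D * m) :=
          mul_le_of_le_one_left h6.le h4
        have h8 : η * (‖z v‖ ^ (D * m) * ‖wz y j‖ ^ D) ≤ ‖z v‖ ^ (D * m) := h3.trans h7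
        have h9 : ‖z v‖ ^ (D * m) * (η * ‖wz y j‖ ^ D) ≤ ‖z v‖ ^ (D * m) * 1 := by
          rw [mul_one]
          refine (le_of_eq ?_).trans h8
          ring
        have h10 : η * ‖wz y j‖ ^ D ≤ 1 := le_of_mul_le_mul_left h9 h6
        rw [← one_div, le_div_iff₀ hη, mul_comm]
        exact h10
      obtain ⟨u, hu1, hu2, hu3, hu4, hu5⟩ := FPL_pt hD g f y hy1 hye (F ^ N) B hyB (hdl1 v hlow)
      refine ⟨u, hu1, fun _ => ⟨hu2, hu5⟩, fun _ => ⟨c, hcn, fun l => ?_, fun j => ?_⟩⟩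
      · rw [hu3]
        exact hcx l
      · rw [hu4, hcw j]
        ring
    · by_cases hlow : LowP p0 v
      · obtain ⟨x, w, hp⟩ := hloc v
        obtain ⟨c, y, -, -, -, -, hy1, hye⟩ := FPL_scale g f x w hp
        have hn1 : ‖ev (cemb (1 : v.adicCompletion K) f) (xz y)‖ ≤ 1 := by
          refine PCNC_int (h2 K v).2.2.2.1 _ (fun μ => ?_) _ fun l => ?_
          · unfold cemb
            rw [one_mul]
            exact TOPCW_int h2 v (f μ)
          · rw [← hy1]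
            exact norm_le_pi_norm (xz y) l
        obtain ⟨w', hw', hwb⟩ := hC v _ ⟨wz y, hye.symm⟩
        obtain ⟨u, hu1, hu2, hu3, hu4, hu5⟩ := FPL_pt hD g f (Sum.elim w' (xz y)) hy1 hw'.symm
          (F ^ N) B (fun j => (hwb j).trans
            ((mul_le_of_le_one_right (hC0 v).le hn1).trans (hBC v hlow))) (hdl1 v hlow)
        exact ⟨u, hu1, fun _ => ⟨hu2, hu5⟩, fun h => absurd h hvS⟩
      · refine ⟨fun _ => 0, fun l => ?_, fun h => absurd h hlow, fun h => absurd h hvS⟩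
        rw [norm_zero]
        exact zero_le_one
  choose u hu1 hu2 hu3 using e1
  -- the cell
  have e3 : ∀ l : Fin r ⊕ Fin s, ∃ a' ∈ R, ∀ v, ‖u v l - jj (v.adicCompletion K) a'‖ ≤
      ‖((F ^ (N + N2) : ℕ) : v.adicCompletion K)‖ := by
    intro l
    obtain ⟨a₀, ha₀⟩ := TOPCW_crt h2 (F ^ (N + N2)) hq0 (fun v => u v l) fun v => hu1 v l
    obtain ⟨a₁, ha₁, hd⟩ := hR a₀
    refine ⟨a₁, ha₁, fun v => ?_⟩
    have h3 : u v l - jj (v.adicCompletion K) a₁ = (u v l - jj (v.adicCompletion K) a₀) +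
        jj (v.adicCompletion K) (a₀ - a₁) := by
      rw [map_sub]
      ring
    rw [h3]
    exact ((h2 K v).2.2.2.1 _ _).trans (max_le (ha₀ v) (TOPCW_dvd h2 v _ _ hd))
  choose A hAR hA using e3
  refine ⟨(fun l => A (Sum.inr l), fun j => A (Sum.inl j)), ?_, ?_, ?_⟩
  · rw [Finset.mem_product, Fintype.mem_piFinset, Fintype.mem_piFinset]
    exact ⟨fun l => hAR _, fun j => hAR _⟩
  · intro v hlow
    obtain ⟨g1, g2⟩ := hu2 v hlow
    exact ⟨u v, g1, fun j => hu1 v (Sum.inl j), ⟨fun l => hA (Sum.inr l) v, fun j => hA (Sum.inl j) v⟩,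
      g2⟩
  · intro p hp1 hp2 v hvS
    obtain ⟨c, g1, g2, g3⟩ := hu3 v hvS
    obtain ⟨q1, q2⟩ := hq1 v (hS v hvS)
    have hx : ∀ (l : Fin r ⊕ Fin s) (x : 𝓞 K), ((F ^ (N + N2) : ℕ) : 𝓞 K) ∣ x - A l →
        ‖jj (v.adicCompletion K) x - u v l‖ ≤ ‖((F ^ (N + N2) : ℕ) : v.adicCompletion K)‖ := by
      intro l x hx
      have h3 : jj (v.adicCompletion K) x - u v l = jj (v.adicCompletion K) (x - A l) -
          (u v l - jj (v.adicCompletion K) (A l)) := by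
        rw [map_sub]
        ring
      rw [h3]
      exact (TOPCW_sub h2 v _ _).trans (max_le (TOPCW_dvd h2 v _ _ hx) (hA l v))
    obtain ⟨μ, hμ⟩ := hf v hvS
    refine ⟨c, fun l => ?_, μ, fun j => ?_⟩
    · have h3 : c * algebraMap K (v.adicCompletion K) (p.1 l : K) - z v l =
          c * (jj (v.adicCompletion K) (p.1 l) - u v (Sum.inr l)) := by
        rw [g2 l, mul_sub]
        rfl
      rw [h3, norm_mul, g1, mul_comm]
      exact mul_le_mul_of_nonneg_right ((hx (Sum.inr l) _ (hp1 l)).trans q1) (norm_nonneg _)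
    · have hdn : ((F ^ N : ℕ) : v.adicCompletion K) ≠ 0 := FPL_ne v _ hdl0
      have h3 : c ^ m * algebraMap K (v.adicCompletion K) ((p.2 j : K) / ((F ^ N : ℕ) : K)) -
          a v j = c ^ m * (jj (v.adicCompletion K) (p.2 j) - u v (Sum.inl j)) /
            ((F ^ N : ℕ) : v.adicCompletion K) := by
        rw [eq_div_iff hdn, map_div₀, map_natCast, sub_mul, mul_div_assoc', mul_sub,
          div_mul_cancel₀ _ hdn, mul_comm (a v j), g3 j]
        rfl
      have hdp : 0 < ‖((F ^ N : ℕ) : v.adicCompletion K)‖ ^ D := by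
        have := norm_pos_iff.2 hdn
        positivity
      rw [h3, norm_div, norm_mul, norm_pow, g1, div_pow, mul_pow, ← pow_mul, mul_comm m D,
        div_le_iff₀ hdp]
      have h4 : ‖jj (v.adicCompletion K) (p.2 j) - u v (Sum.inl j)‖ ^ D ≤
          η * δ * ‖((F ^ N : ℕ) : v.adicCompletion K)‖ ^ D :=
        (pow_le_pow_left₀ (norm_nonneg _) (hx (Sum.inl j) _ (hp2 j)) D).trans q2
      calc ‖z v‖ ^ (D * m) * ‖jj (v.adicCompletion K) (p.2 j) - u v (Sum.inl j)‖ ^ D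
          ≤ ‖z v‖ ^ (D * m) * (η * δ * ‖((F ^ N : ℕ) : v.adicCompletion K)‖ ^ D) :=
            mul_le_mul_of_nonneg_left h4 (by positivity)
        _ ≤ ‖z v‖ ^ (D * m) * (η * ‖jj (v.adicCompletion K) (f μ)‖ *
              ‖((F ^ N : ℕ) : v.adicCompletion K)‖ ^ D) := by
            refine mul_le_mul_of_nonneg_left ?_ (by positivity)
            refine mul_le_mul_of_nonneg_right ?_ (by positivity)
            exact mul_le_mul_of_nonneg_left hμ hη.le
        _ = η * ‖jj (v.adicCompletion K) (f μ)‖ * ‖z v‖ ^ (D * m) *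
              ‖((F ^ N : ℕ) : v.adicCompletion K)‖ ^ D := by ring

end Pool.Agent.NRM
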