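import Pool.Agent.NRM.StB
import Pool.Agent.RHCB.SMLC
import Pool.Agent.RHCB.UIFTC

/-!
NRM, [IPL]: the infinite places, from local points to a finite net.
-/

set_option autoImplicit false

namespace Pool.Agent.NRM

open scoped BigOperators
open Classical NumberField IsDedekindDomain
open Pool.Agent.RHP (Mon mono ev Sys Prim pd WB WW)
open Pool.Agent.RHK Pool.Agent.RHC
open Pool.Agent.RHKB (mI hh jj qv MK uu BadK)
open Pool.Agent.RHCB (BadC cred cemb uk PrC hM SMLC_nat UIFTC_max UIFTC_norm_smul)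

variable {K : Type} [Field K] [NumberField K]

/-- scaling of a point at an infinite place -/
theorem IPL_inf (hw : RHKB.St_PLW) (v : InfinitePlace K) {s r D m : ℕ} (hD : 1 ≤ D)
    (g : Mon r D → 𝓞 K) (f : Mon s (D * m) → 𝓞 K) (H V : ℕ) (hV : 1 ≤ V)
    (hHV : H ≤ (V + 1) ^ D) (hf : ∀ μ, f μ ∈ cb K H) (η : ℝ) (hη : 0 < η) (B : ℕ)
    (hB : η⁻¹ * (MK K * 2 ^ D) ≤ (B : ℝ) ^ D) (x : Fin s → v.Completion)
    (a : Fin r → v.Completion) (hp : IsPtN g f x a) (hs : SizN D m f η x a) :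
    ∃ (c : v.Completion) (z : Fin r ⊕ Fin s → v.Completion), ‖c‖ = 4 / 3 * ‖x‖ ∧
      (∀ l : Fin s, x l = c * z (Sum.inr l)) ∧
      (∀ j : Fin r, a j = c ^ m * ((V : v.Completion) * z (Sum.inl j))) ∧
      ‖xz z‖ = 3 / 4 ∧ (∀ j, ‖wz z j‖ ≤ B) ∧
      ev (cemb (uk v D V) f) (xz z) = ev (cemb (1 : v.Completion) g) (wz z) := by
  obtain ⟨hx, he⟩ := hp
  obtain ⟨l₀, hl₀, hl₀'⟩ := UIFTC_max x hx
  have hxn : ‖x‖ ≠ 0 := norm_ne_zero_iff.2 hx
  have hxp : 0 < ‖x‖ := lt_of_le_of_ne (norm_nonneg _) (Ne.symm hxn)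
  obtain ⟨-, -, hjj, hq, hcb, -⟩ := hw K v
  have hnat := SMLC_nat hw K v
  have hVr : (0 : ℝ) < V := by exact_mod_cast hV
  have hV0 : (V : v.Completion) ≠ 0 := by
    intro h
    have h1 := hnat V
    rw [h, norm_zero] at h1
    linarith
  have h43 : ‖((4 / 3 : ℚ) : v.Completion)‖ = 4 / 3 := by
    rw [hq]
    norm_num
  have h43' : ((4 / 3 : ℚ) : v.Completion) ≠ 0 := by
    intro h
    rw [h, norm_zero] at h43
    norm_num at h43
  obtain ⟨c, hc⟩ : ∃ c : v.Completion, c = ((4 / 3 : ℚ) : v.Completion) * x l₀ := ⟨_, rfl⟩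
  have hc0 : c ≠ 0 := by
    rw [hc]
    exact mul_ne_zero h43' hl₀'
  have hcn : ‖c‖ = 4 / 3 * ‖x‖ := by
    rw [hc, norm_mul, h43, hl₀]
  have hc1 : c ^ m * (V : v.Completion) ≠ 0 := mul_ne_zero (pow_ne_zero _ hc0) hV0
  have e1 : ev (cemb (uk v D V) f) (fun l => c⁻¹ * x l) =
      ev (cemb (1 : v.Completion) g) (fun j => (c ^ m * (V : v.Completion))⁻¹ * a j) := by
    have h1 : cemb (uk v D V) f = fun μ => uk v D V * cemb (1 : v.Completion) f μ := by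
      funext μ
      show uk v D V * jj v.Completion (f μ) = uk v D V * (1 * jj v.Completion (f μ))
      rw [one_mul]
    rw [h1, Pool.Agent.RHP.ev_smul, Pool.Agent.RHP.ev_smul_pt, Pool.Agent.RHP.ev_smul_pt, he]
    unfold uk gL
    push_cast
    rw [mul_inv, mul_pow, inv_pow, inv_pow, inv_pow, ← pow_mul, mul_comm D m]
    ring
  have e2 : ‖fun l => c⁻¹ * x l‖ = 3 / 4 := by
    rw [UIFTC_norm_smul, norm_inv, hcn]
    field_simp
  refine ⟨c, Sum.elim (fun j => (c ^ m * (V : v.Completion))⁻¹ * a j) (fun l => c⁻¹ * x l), hcn,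
    ?_, ?_, e2, ?_, e1⟩
  · intro l
    show x l = c * (c⁻¹ * x l)
    rw [mul_inv_cancel_left₀ hc0]
  · intro j
    show a j = c ^ m * ((V : v.Completion) * ((c ^ m * (V : v.Completion))⁻¹ * a j))
    rw [← mul_assoc, mul_inv_cancel_left₀ hc1]
  · intro j
    obtain ⟨μ, hμ⟩ := hs
    show ‖(c ^ m * (V : v.Completion))⁻¹ * a j‖ ≤ B
    have h4 : H ≤ 2 ^ D * V ^ D := by
      refine hHV.trans ?_
      rw [← mul_pow]
      exact Nat.pow_le_pow_left (by omega) D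
    have h5 : (H : ℝ) ≤ 2 ^ D * (V : ℝ) ^ D := by exact_mod_cast h4
    have h6 : ‖jj v.Completion (f μ)‖ ≤ MK K * (2 ^ D * (V : ℝ) ^ D) := by
      rw [hjj]
      exact (hcb H _ (hf μ)).trans (mul_le_mul_of_nonneg_left h5 (Nat.cast_nonneg _))
    have h7 : ‖a j‖ ^ D ≤ η⁻¹ * (MK K * (2 ^ D * (V : ℝ) ^ D) * ‖x‖ ^ (D * m)) := by
      rw [← div_eq_inv_mul, le_div_iff₀ hη, mul_comm]
      exact (hμ j).trans (mul_le_mul_of_nonneg_right h6 (by positivity))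
    have h8 : ‖(c ^ m * (V : v.Completion))⁻¹ * a j‖ ^ D ≤ (B : ℝ) ^ D := by
      refine le_trans ?_ hB
      rw [norm_mul, norm_inv, norm_mul, norm_pow, hnat, hcn, mul_pow, inv_pow,
        inv_mul_le_iff₀ (by positivity)]
      refine h7.trans ?_
      have h9 : ((4 / 3 * ‖x‖) ^ m * (V : ℝ)) ^ D =
          (4 / 3) ^ (D * m) * ‖x‖ ^ (D * m) * (V : ℝ) ^ D := by
        rw [mul_pow, ← pow_mul, mul_comm m D, mul_pow]
      rw [h9]
      have h10 : (1 : ℝ) ≤ (4 / 3) ^ (D * m) := one_le_pow₀ (by norm_num)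
      calc η⁻¹ * (MK K * (2 ^ D * (V : ℝ) ^ D) * ‖x‖ ^ (D * m))
          = 1 * (η⁻¹ * (MK K * (2 ^ D * (V : ℝ) ^ D) * ‖x‖ ^ (D * m))) := (one_mul _).symm
        _ ≤ (4 / 3) ^ (D * m) * (η⁻¹ * (MK K * (2 ^ D * (V : ℝ) ^ D) * ‖x‖ ^ (D * m))) :=
            mul_le_mul_of_nonneg_right h10 (by positivity)
        _ = (4 / 3) ^ (D * m) * ‖x‖ ^ (D * m) * (V : ℝ) ^ D * (η⁻¹ * (MK K * 2 ^ D)) := by ring
    exact le_of_pow_le_pow_left₀ (by omega) (Nat.cast_nonneg _) h8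

/-- a finite net -/
theorem IPL_net (hw : RHKB.St_PLW) (r s : ℕ) (B ρ : ℝ) (hρ : 0 < ρ) :
    ∃ T : Finset ((v : InfinitePlace K) → Fin r ⊕ Fin s → v.Completion),
      ∀ z : (v : InfinitePlace K) → Fin r ⊕ Fin s → v.Completion, (∀ v l, ‖z v l‖ ≤ B) →
        ∃ y ∈ T, ∀ v l, ‖z v l - y v l‖ ≤ ρ := by
  have hp : ∀ v : InfinitePlace K, ProperSpace v.Completion := fun v => (hw K v).1
  have h1 : TotallyBounded (Metric.closedBall
      (0 : (v : InfinitePlace K) → Fin r ⊕ Fin s → v.Completion) (max B 0)) :=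
    (isCompact_closedBall _ _).totallyBounded
  obtain ⟨T, hT, hT'⟩ := Metric.totallyBounded_iff.1 h1 ρ hρ
  refine ⟨hT.toFinset, fun z hz => ?_⟩
  have h2 : z ∈ Metric.closedBall (0 : (v : InfinitePlace K) → Fin r ⊕ Fin s → v.Completion)
      (max B 0) := by
    rw [mem_closedBall_zero_iff, pi_norm_le_iff_of_nonneg (le_max_right _ _)]
    intro v
    rw [pi_norm_le_iff_of_nonneg (le_max_right _ _)]
    exact fun l => (hz v l).trans (le_max_left _ _)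
  obtain ⟨y, hy, hyz⟩ := Set.mem_iUnion₂.1 (hT' h2)
  refine ⟨y, hT.mem_toFinset.2 hy, fun v l => ?_⟩
  rw [Metric.mem_ball, dist_eq_norm] at hyz
  have h3 : ‖(z - y) v l‖ ≤ ‖z - y‖ := (norm_le_pi_norm ((z - y) v) l).trans
    (norm_le_pi_norm (z - y) v)
  exact h3.trans hyz.le

theorem thm_IPL (h1 : RHKB.St_PLW) : St_IPL := by
  intro K _ _ s r D m hyp g η δ hη hδ
  have hD : 1 ≤ D := by
    have := hyp.hD
    omega
  obtain ⟨B, hB1, hB⟩ : ∃ B : ℕ, 1 ≤ B ∧ η⁻¹ * (MK K * 2 ^ D) ≤ (B : ℝ) ^ D := by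
    refine ⟨⌈η⁻¹ * (MK K * 2 ^ D)⌉₊ + 1, by omega, ?_⟩
    have h2 : (1 : ℝ) ≤ ((⌈η⁻¹ * (MK K * 2 ^ D)⌉₊ + 1 : ℕ) : ℝ) := by
      push_cast
      have : (0 : ℝ) ≤ (⌈η⁻¹ * (MK K * 2 ^ D)⌉₊ : ℝ) := Nat.cast_nonneg _
      linarith
    refine le_trans ?_ (le_self_pow₀ h2 (by omega))
    push_cast
    have := Nat.le_ceil (η⁻¹ * ((MK K : ℝ) * 2 ^ D))
    linarith
  obtain ⟨ρ, hr0, hr16, hr1, hr2⟩ : ∃ ρ : ℝ, 0 < ρ ∧ ρ ≤ 1 / 16 ∧ 4 * ρ ≤ 3 / 4 * η ∧
      4 * ρ ≤ η * δ * (3 / 4) ^ (D * m) := by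
    refine ⟨min (1 / 16) (min (3 / 16 * η) (η * δ * (3 / 4) ^ (D * m) / 4)), ?_, min_le_left _ _,
      ?_, ?_⟩
    · exact lt_min (by norm_num) (lt_min (by positivity) (by positivity))
    · have h := (min_le_right (1 / 16 : ℝ) (min (3 / 16 * η) (η * δ * (3 / 4) ^ (D * m) / 4))).trans
        (min_le_left _ _)
      linarith
    · have h := (min_le_right (1 / 16 : ℝ) (min (3 / 16 * η) (η * δ * (3 / 4) ^ (D * m) / 4))).trans
        (min_le_right _ _)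
      linarith
  obtain ⟨T, hT⟩ := IPL_net (K := K) h1 r s B ρ hr0
  refine ⟨B, ρ, hr0, hr16, T, ?_⟩
  intro dl V H hdl hV hVH hHV f hf hSi y b hyb
  have hfb : ∀ μ, f μ ∈ cb K H := by
    unfold box at hf
    rw [Fintype.mem_piFinset] at hf
    exact hf
  have e2 := fun v : InfinitePlace K => IPL_inf h1 v hD g f H V hV hHV hfb η hη B hB (y v) (b v)
    (hyb v).1 (hyb v).2
  choose c' u' hc1 hc2 hc3 hu1' hu2' hu3' using e2
  have hBr : (1 : ℝ) ≤ B := by exact_mod_cast hB1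
  obtain ⟨y₀, hy₀, hy₀'⟩ := hT u' fun v l => by
    rcases l with j | l
    · exact hu2' v j
    · have h2 := norm_le_pi_norm (xz (u' v)) l
      rw [hu1' v] at h2
      have h3 : ‖u' v (Sum.inr l)‖ ≤ 3 / 4 := h2
      linarith
  refine ⟨y₀, hy₀, fun v => ⟨u' v, hu1' v, hu2' v, fun l => hy₀' v l, hu3' v⟩, ?_⟩
  intro X p hX hp v
  have hnat := SMLC_nat h1 K v
  have hXr : (0 : ℝ) < X := by exact_mod_cast hX
  have hVr : (0 : ℝ) < V := by exact_mod_cast hV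
  have hne : ∀ Q : ℕ, 0 < Q → (Q : v.Completion) ≠ 0 := by
    intro Q hQ h
    have h2 := hnat Q
    rw [h, norm_zero] at h2
    have h3 : (0 : ℝ) < Q := by exact_mod_cast hQ
    linarith
  have hX0 := hne X hX
  have hV0 := hne V hV
  have hdl0 := hne dl hdl
  have hyn : 0 ≤ ‖y v‖ := norm_nonneg _
  -- near points
  have hx : ∀ (l : Fin r ⊕ Fin s) (Q : ℕ) (x : 𝓞 K), 0 < Q →
      ‖jj v.Completion x - (Q : v.Completion) * y₀ v l‖ ≤ 3 * ρ * Q →
      ‖(Q : v.Completion)⁻¹ * jj v.Completion x - u' v l‖ ≤ 4 * ρ := by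
    intro l Q x hQ hx
    have hQr : (0 : ℝ) < Q := by exact_mod_cast hQ
    have hQ0 := hne Q hQ
    have h2 : (Q : v.Completion)⁻¹ * jj v.Completion x - u' v l =
        (Q : v.Completion)⁻¹ * (jj v.Completion x - (Q : v.Completion) * y₀ v l) -
        (u' v l - y₀ v l) := by
      rw [mul_sub, inv_mul_cancel_left₀ hQ0]
      ring
    rw [h2]
    refine (norm_sub_le _ _).trans ?_
    rw [norm_mul, norm_inv, hnat]
    have h3 : (Q : ℝ)⁻¹ * ‖jj v.Completion x - (Q : v.Completion) * y₀ v l‖ ≤ 3 * ρ := by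
      rw [inv_mul_le_iff₀ hQr]
      exact hx.trans (le_of_eq (by ring))
    have h4 := hy₀' v l
    linarith
  refine ⟨c' v * (X : v.Completion)⁻¹, fun l => ?_, ?_⟩
  · have h2 : c' v * (X : v.Completion)⁻¹ * algebraMap K v.Completion (p.1 l : K) - y v l =
        c' v * ((X : v.Completion)⁻¹ * jj v.Completion (p.1 l) - u' v (Sum.inr l)) := by
      rw [hc2 v l, mul_sub, mul_assoc]
      rfl
    rw [h2, norm_mul, hc1 v]
    have h3 := hx (Sum.inr l) X (p.1 l) hX ((hp v).1 l)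
    calc 4 / 3 * ‖y v‖ * ‖(X : v.Completion)⁻¹ * jj v.Completion (p.1 l) - u' v (Sum.inr l)‖
        ≤ 4 / 3 * ‖y v‖ * (4 * ρ) := mul_le_mul_of_nonneg_left h3 (by positivity)
      _ ≤ 4 / 3 * ‖y v‖ * (3 / 4 * η) := mul_le_mul_of_nonneg_left hr1 (by positivity)
      _ = η * ‖y v‖ := by ring
  · obtain ⟨μ, hμ⟩ := hSi v
    refine ⟨μ, fun j => ?_⟩
    have hXV : 0 < dl * (X ^ m * V) := Nat.mul_pos hdl (Nat.mul_pos (pow_pos hX m) hV)
    have h2 := hx (Sum.inl j) (dl * (X ^ m * V)) (p.2 j) hXV ((hp v).2 j)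
    have h3 : (c' v * (X : v.Completion)⁻¹) ^ m *
        algebraMap K v.Completion ((p.2 j : K) / (dl : K)) - b v j =
        c' v ^ m * (V : v.Completion) *
          (((dl * (X ^ m * V) : ℕ) : v.Completion)⁻¹ * jj v.Completion (p.2 j) -
            u' v (Sum.inl j)) := by
      rw [hc3 v, mul_sub, map_div₀, map_natCast]
      have h4 : algebraMap K v.Completion (p.2 j : K) = jj v.Completion (p.2 j) := rfl
      rw [h4]
      push_cast
      rw [mul_pow, inv_pow]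
      field_simp
    rw [h3, norm_mul, norm_mul, norm_pow, hc1 v, hnat]
    have h5 : ‖((dl * (X ^ m * V) : ℕ) : v.Completion)⁻¹ * jj v.Completion (p.2 j) -
        u' v (Sum.inl j)‖ ^ D ≤ η * δ * (3 / 4) ^ (D * m) := by
      refine (pow_le_pow_left₀ (norm_nonneg _) h2 D).trans ?_
      exact (pow_le_of_le_one (by linarith) (by linarith) (by omega)).trans hr2
    have h6 : (V : ℝ) ^ D ≤ H := by exact_mod_cast hVH
    have h7 : ((4 / 3 * ‖y v‖) ^ m) ^ D = (4 / 3) ^ (D * m) * ‖y v‖ ^ (D * m) := by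
      rw [← pow_mul, mul_comm m D, mul_pow]
    rw [mul_pow, mul_pow, h7]
    have h8 : ((4 : ℝ) / 3) ^ (D * m) * (3 / 4) ^ (D * m) = 1 := by
      rw [← mul_pow]
      norm_num
    calc (4 / 3) ^ (D * m) * ‖y v‖ ^ (D * m) * (V : ℝ) ^ D *
          ‖((dl * (X ^ m * V) : ℕ) : v.Completion)⁻¹ * jj v.Completion (p.2 j) -
            u' v (Sum.inl j)‖ ^ D
        ≤ (4 / 3) ^ (D * m) * ‖y v‖ ^ (D * m) * H * (η * δ * (3 / 4) ^ (D * m)) := by
          refine mul_le_mul ?_ h5 (by positivity) (by positivity)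
          exact mul_le_mul_of_nonneg_left h6 (by positivity)
      _ = ((4 / 3) ^ (D * m) * (3 / 4) ^ (D * m)) * (η * (δ * H) * ‖y v‖ ^ (D * m)) := by ring
      _ = η * (δ * H) * ‖y v‖ ^ (D * m) := by rw [h8, one_mul]
      _ ≤ η * ‖jj v.Completion (f μ)‖ * ‖y v‖ ^ (D * m) := by
          refine mul_le_mul_of_nonneg_right ?_ (by positivity)
          exact mul_le_mul_of_nonneg_left hμ hη.le

end Pool.Agent.NRM
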