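import Pool.Agent.NRM.StA

/-!
NRM: [LNP] the restriction of a form to a line is a polynomial (helper52).
-/

set_option autoImplicit false
set_option linter.unusedVariables false

namespace Pool.Agent.NRM

open scoped BigOperators
open Pool.Agent.RHP (Mon mono ev)

/-- degrees and leading coefficients of products -/
private theorem LNP_prod {A : Type} [CommRing A] {ι : Type} (s : Finset ι)
    (f : ι → Polynomial A) (n : ι → ℕ) (h : ∀ i ∈ s, (f i).natDegree ≤ n i) :
    (∏ i ∈ s, f i).natDegree ≤ ∑ i ∈ s, n i ∧
      (∏ i ∈ s, f i).coeff (∑ i ∈ s, n i) = ∏ i ∈ s, (f i).coeff (n i) := by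
  classical
  induction s using Finset.induction_on with
  | empty => simp
  | insert a s ha ih =>
    have h1 := h a (Finset.mem_insert_self a s)
    obtain ⟨h2, h3⟩ := ih fun i hi => h i (Finset.mem_insert_of_mem hi)
    rw [Finset.prod_insert ha, Finset.sum_insert ha, Finset.prod_insert ha]
    exact ⟨(Polynomial.natDegree_mul_le).trans (Nat.add_le_add h1 h2), by
      rw [Polynomial.coeff_mul_add_eq_of_natDegree_le h1 h2, h3]⟩

theorem thm_LNP : St_LNP := by
  intro A _ r D g w0 e
  have hL : ∀ j, (Polynomial.C (w0 j) + Polynomial.X * Polynomial.C (e j)).natDegree ≤ 1 := by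
    intro j
    refine (Polynomial.natDegree_add_le _ _).trans (max_le ?_ ?_)
    · rw [Polynomial.natDegree_C]
      exact Nat.zero_le 1
    · refine (Polynomial.natDegree_mul_le).trans ?_
      rw [Polynomial.natDegree_C, Nat.add_zero]
      exact Polynomial.natDegree_X_le
  have hc : ∀ j, (Polynomial.C (w0 j) + Polynomial.X * Polynomial.C (e j)).coeff 1 = e j := by
    intro j
    rw [Polynomial.coeff_add, Polynomial.coeff_C_of_ne_zero one_ne_zero, zero_add,
      Polynomial.coeff_X_mul, Polynomial.coeff_C_zero]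
  have hm : ∀ m : Mon r D,
      (∏ j, (Polynomial.C (w0 j) + Polynomial.X * Polynomial.C (e j)) ^ m.1 j).natDegree ≤ D ∧
      (∏ j, (Polynomial.C (w0 j) + Polynomial.X * Polynomial.C (e j)) ^ m.1 j).coeff D =
        mono e m.1 := by
    intro m
    have h1 := LNP_prod Finset.univ
      (fun j => (Polynomial.C (w0 j) + Polynomial.X * Polynomial.C (e j)) ^ m.1 j) m.1
      (fun j _ => by
        have h2 := Polynomial.natDegree_pow_le_of_le (m.1 j) (hL j)
        rw [Nat.mul_one] at h2
        exact h2)
    rw [m.sum_eq] at h1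
    refine ⟨h1.1, h1.2.trans (Finset.prod_congr rfl fun j _ => ?_)⟩
    have h2 := Polynomial.coeff_pow_of_natDegree_le (m := m.1 j) (hL j)
    rw [Nat.mul_one, hc j] at h2
    exact h2
  refine ⟨∑ m : Mon r D, Polynomial.C (g m) *
    ∏ j, (Polynomial.C (w0 j) + Polynomial.X * Polynomial.C (e j)) ^ m.1 j, fun T => ?_, ?_, ?_⟩
  · rw [Polynomial.eval_finsetSum]
    refine Finset.sum_congr rfl fun m _ => ?_
    rw [Polynomial.eval_mul, Polynomial.eval_C, Polynomial.eval_prod]
    congr 1
    refine Finset.prod_congr rfl fun j _ => ?_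
    rw [Polynomial.eval_pow, Polynomial.eval_add, Polynomial.eval_C, Polynomial.eval_mul,
      Polynomial.eval_X, Polynomial.eval_C]
  · refine Polynomial.natDegree_sum_le_of_forall_le _ _ fun m _ => ?_
    exact (Polynomial.natDegree_C_mul_le _ _).trans (hm m).1
  · rw [Polynomial.finsetSum_coeff]
    refine Finset.sum_congr rfl fun m _ => ?_
    rw [Polynomial.coeff_C_mul, (hm m).2]

end Pool.Agent.NRM
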