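import Pool.Agent.NRM.StA
import Pool.Agent.RHK.IDL
import Pool.Agent.RHK.IDU
import Pool.Agent.RHK.CMP
import Pool.Agent.RHK.CELL
import Pool.Agent.RHK.DVN
import Pool.Agent.RHM.PBC

/-!
NRM, block A, [VG]: the number of the solutions of `g(w) = a` modulo an ideal in a box.
-/

set_option autoImplicit false

namespace Pool.Agent.NRM

open scoped BigOperators
open Classical NumberField IsDedekindDomain
open Pool.Agent.RHP (Mon mono ev Sys Prim)
open Pool.Agent.RHK Pool.Agent.RHC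

/-- a form which is not zero has a value which is not zero -/
theorem VG_exists {A : Type} [CommRing A] [IsDomain A] [Infinite A] {r D : ℕ} (g : Mon r D → A)
    (hg : g ≠ 0) : ∃ e : Fin r → A, ev g e ≠ 0 := by
  by_contra hcon
  push Not at hcon
  apply hg
  let P : (Mon r D → A) → MvPolynomial (Fin r) A := fun f =>
    ∑ m : Mon r D, MvPolynomial.monomial (Finsupp.equivFunOnFinite.symm m.1) (f m)
  have hP : ∀ f z, MvPolynomial.eval z (P f) = ev f z := by
    intro f z
    simp only [P, map_sum, MvPolynomial.eval_monomial]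
    unfold ev mono
    refine Finset.sum_congr rfl fun m _ => ?_
    congr 1
    rw [Finsupp.prod_fintype _ _ (fun i => by simp)]
    rfl
  have hc : ∀ f (m : Mon r D), MvPolynomial.coeff (Finsupp.equivFunOnFinite.symm m.1) (P f) = f m := by
    intro f m
    simp only [P, MvPolynomial.coeff_sum, MvPolynomial.coeff_monomial]
    rw [Fintype.sum_eq_single m]
    · rw [if_pos rfl]
    · intro b hb
      rw [if_neg]
      intro he
      exact hb (Subtype.ext (Finsupp.equivFunOnFinite.symm.injective he))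
  have hPP : P g = 0 := by
    apply MvPolynomial.funext
    intro z
    rw [hP, hcon z, map_zero]
  funext m
  rw [← hc g m, hPP, MvPolynomial.coeff_zero]
  rfl

/-- the number of the integers of size at most `U` -/
theorem VG_pb (K : Type) [Field K] [NumberField K] : ∃ c : ℝ, 0 < c ∧ ∀ U : ℕ, 1 ≤ U →
    c * (U : ℝ) ^ dg K ≤ ((pb K (U : ℝ)).card : ℝ) := by
  obtain ⟨c, hc, h⟩ := Pool.Agent.RHK.thm_IDL Pool.Agent.RHK.thm_CMP Pool.Agent.RHK.thm_CELL K
  refine ⟨c, hc, fun U hU => ?_⟩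
  have hU1 : (1 : ℝ) ≤ U := by exact_mod_cast hU
  have h2 : PT (K := K) (fun _ => (U : ℝ)) = (U : ℝ) ^ dg K := prod_pow_mult _
  have h3 := h ⊤ (fun _ => (U : ℝ)) (fun _ => by linarith) top_ne_bot
  rw [Ideal.absNorm_top, Nat.cast_one, mul_one, h2] at h3
  have h4 : (pT (K := K) fun _ => (U : ℝ)).filter (fun a => a ∈ (⊤ : Ideal (𝓞 K))) =
      pb K (U : ℝ) := by
    ext a
    rw [Finset.mem_filter, mem_pT, mem_pb]
    exact ⟨fun h => h.1, fun h => ⟨h, Submodule.mem_top⟩⟩
  rwa [h4] at h3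

theorem thm_VG (h1 : St_LNP) (h2 : St_VDG) : St_VG := by
  intro K _ _ r D hD g hg
  have : Infinite (𝓞 K) := Infinite.of_injective (Nat.cast : ℕ → 𝓞 K) Nat.cast_injective
  obtain ⟨e, he⟩ := VG_exists g hg
  obtain ⟨C1, hC1, hV⟩ := h2 K D hD (ev g e) he
  obtain ⟨c, hc, hpb⟩ := VG_pb K
  obtain ⟨C2, hC2, hbx⟩ :=
    Pool.Agent.RHM.thm_PBC (Pool.Agent.RHK.thm_IDU Pool.Agent.RHK.thm_DVN Pool.Agent.RHK.thm_CELL) K r
  obtain ⟨E, hE⟩ : ∃ E : ℕ, ∀ (v : InfinitePlace K) (j : Fin r), av v (e j) ≤ E := by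
    refine ⟨⌈∑ v : InfinitePlace K, ∑ j : Fin r, av v (e j)⌉₊, fun v j => ?_⟩
    refine le_trans ?_ (Nat.le_ceil _)
    refine le_trans ?_ (Finset.single_le_sum (f := fun v : InfinitePlace K => ∑ j : Fin r, av v (e j))
      (fun v _ => Finset.sum_nonneg fun j _ => av_nonneg v (e j)) (Finset.mem_univ v))
    exact Finset.single_le_sum (f := fun j : Fin r => av v (e j))
      (fun j _ => av_nonneg v (e j)) (Finset.mem_univ j)
  refine ⟨C1 / c * C2 * (((1 + E : ℕ) : ℝ) ^ r) ^ dg K, by positivity, ?_⟩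
  intro U a I hU hI
  set S := (bx K r (U : ℝ)).filter fun w => ev g w - a ∈ I with hS
  set B : ℝ := (U : ℝ) ^ dg K * rp (Ideal.absNorm I) (MM D) + 1 with hB
  have hB0 : 0 ≤ B := by
    rw [hB]
    have : 0 ≤ rp (Ideal.absNorm I) (MM D) := Real.rpow_nonneg (Nat.cast_nonneg _) _
    positivity
  -- the translates
  have hcount : ((S.card : ℝ)) * ((pb K (U : ℝ)).card : ℝ) ≤
      ((bx K r (((1 + E) * U : ℕ) : ℝ)).card : ℝ) * (C1 * B) := by
    have hinj : (S ×ˢ pb K (U : ℝ)).card ≤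
        ((bx K r (((1 + E) * U : ℕ) : ℝ)).sigma fun w0 =>
          (pb K (U : ℝ)).filter fun T => ev g (fun j => w0 j + T * e j) - a ∈ I).card := by
      refine Finset.card_le_card_of_injOn
        (fun p => (⟨fun j => p.1 j - p.2 * e j, p.2⟩ : (_ : Fin r → 𝓞 K) × 𝓞 K)) ?_ ?_
      · rintro ⟨w, T⟩ hp
        rw [Finset.mem_coe, Finset.mem_product, hS, Finset.mem_filter, Fintype.mem_piFinset] at hp
        rw [Finset.mem_coe, Finset.mem_sigma, Fintype.mem_piFinset, Finset.mem_filter]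
        refine ⟨fun j => ?_, hp.2, ?_⟩
        · rw [mem_pb]
          intro v
          have h3 : av v (w j) ≤ U := mem_pb.1 (hp.1.1 j) v
          have h4 : av v T ≤ U := mem_pb.1 hp.2 v
          have h5 : av v (T * e j) ≤ U * E := by
            rw [av_mul]
            exact mul_le_mul h4 (hE v j) (av_nonneg v _) (Nat.cast_nonneg _)
          have h6 := av_sub_le v (w j) (T * e j)
          push_cast
          show av v (w j - T * e j) ≤ _
          linarith
        · show ev g (fun j => w j - T * e j + T * e j) - a ∈ I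
          have h3 : (fun j => w j - T * e j + T * e j) = w := by
            funext j
            ring
          rw [h3]
          exact hp.1.2
      · rintro ⟨w, T⟩ _ ⟨w', T'⟩ _ hpq
        rw [Sigma.mk.injEq] at hpq
        obtain ⟨h3, h4⟩ := hpq
        have h5 : T = T' := eq_of_heq h4
        subst h5
        refine Prod.ext ?_ rfl
        funext j
        exact sub_left_injective (congrFun h3 j)
    have h3 : (((bx K r (((1 + E) * U : ℕ) : ℝ)).sigma fun w0 =>
          (pb K (U : ℝ)).filter fun T => ev g (fun j => w0 j + T * e j) - a ∈ I).card : ℝ) ≤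
        ((bx K r (((1 + E) * U : ℕ) : ℝ)).card : ℝ) * (C1 * B) := by
      rw [Finset.card_sigma]
      push_cast
      rw [← nsmul_eq_mul]
      refine Finset.sum_le_card_nsmul _ _ _ fun w0 _ => ?_
      obtain ⟨P, hP1, hP2, hP3⟩ := h1 (𝓞 K) r D g w0 e
      have h4 := hV U P a I hP2 hP3 hU hI
      simp only [hP1] at h4
      exact h4
    rw [Finset.card_product] at hinj
    refine le_trans ?_ h3
    exact_mod_cast hinj
  have h5 := hpb U hU
  have h6 := hbx ((1 + E) * U) (by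
    rw [Nat.one_le_iff_ne_zero]
    exact Nat.mul_ne_zero (by omega) (by omega))
  have hS0 : (0 : ℝ) ≤ (S.card : ℝ) := Nat.cast_nonneg _
  have h7 : (S.card : ℝ) * (U : ℝ) ^ dg K * c ≤
      (C2 * ((((1 + E) * U : ℕ) : ℝ) ^ r) ^ dg K) * (C1 * B) := by
    calc (S.card : ℝ) * (U : ℝ) ^ dg K * c = (S.card : ℝ) * (c * (U : ℝ) ^ dg K) := by ring
      _ ≤ (S.card : ℝ) * ((pb K (U : ℝ)).card : ℝ) := mul_le_mul_of_nonneg_left h5 hS0
      _ ≤ ((bx K r (((1 + E) * U : ℕ) : ℝ)).card : ℝ) * (C1 * B) := hcount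
      _ ≤ _ := mul_le_mul_of_nonneg_right h6 (by positivity)
  have h8 : ((((1 + E) * U : ℕ) : ℝ) ^ r) ^ dg K =
      (((1 + E : ℕ) : ℝ) ^ r) ^ dg K * ((U : ℝ) ^ r) ^ dg K := by
    rw [Nat.cast_mul, mul_pow, mul_pow]
  rw [h8] at h7
  have h9 : C1 / c * C2 * (((1 + E : ℕ) : ℝ) ^ r) ^ dg K * ((U : ℝ) ^ r) ^ dg K * B =
      (C2 * ((((1 + E : ℕ) : ℝ) ^ r) ^ dg K * ((U : ℝ) ^ r) ^ dg K)) * (C1 * B) / c := by
    field_simp
  rw [h9, le_div_iff₀ hc]
  exact h7

end Pool.Agent.NRM
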