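import Pool.Agent.NRM.Defs

/-!
NRM (NORM), block B (the local lower bound, cells, conclusion): statements of the modules (helper95).  Every
module proves `theorem thm_NAME : St_NAME`, or `theorem thm_NAME (h : St_OTHER) ... : St_NAME`, with other
statements (of this file, of RHCB/StB, RHKB/StB, RHCW/St or RHC/StA) as hypotheses.  Most modules are ports of
modules of RHCW (statements RHCW/St.lean) or RHCB (RHCB/StB.lean): a scalar `w` becomes a vector `w : Fin r → A`,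
`w^k` becomes `ev g w`, `k = D`.  `rho = dg K`, `Q = QN s m c t V = X^m V`.
-/

set_option autoImplicit false

namespace Pool.Agent.NRM

open scoped BigOperators
open Classical NumberField IsDedekindDomain
open Pool.Agent.RHP (Mon mono ev Sys Prim pd WB WW)
open Pool.Agent.RHK Pool.Agent.RHC
open Pool.Agent.RHKB (mI hh jj qv MK uu BadK)
open Pool.Agent.RHCB (BadC cred cemb uk PrC hM f00)
open Pool.Agent.RHCW (cmk)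

/-- the place `v` divides a prime number `p ≤ p0` -/
def LowP {K : Type} [Field K] [NumberField K] (p0 : ℕ) (v : HeightOneSpectrum (𝓞 K)) : Prop :=
  ∃ p : ℕ, p.Prime ∧ p ≤ p0 ∧ (p : 𝓞 K) ∈ v.asIdeal

/-! ### Finite rings -/

/-- [VDQP] (Vandermonde) the number of the solutions of `P(T) = a` in a finite quotient; port of RHCB/VDQ.lean.
PROOF.  As there: for `D + 1` different `T_0, .., T_D` in a cube with `φ(P(T_i)) = a` the matrix with the entries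
`T_i^j` (`j < D`), `P(T_i)` (`j = D`) is the Vandermonde matrix times an upper triangular matrix with the diagonal
`1, .., 1, alpha`, so its determinant is `alpha ∏ (T_j - T_i) ≠ 0`, and it is in the kernel `h` of `φ`.  The value at
every infinite place is at most `av v alpha (MK n)^M`: choose `n` with `C_alpha (MK n)^(rho M) < N`. -/
def St_VDQP : Prop :=
  ∀ (K : Type) [Field K] [NumberField K] (D : ℕ), 2 ≤ D → ∀ alpha : 𝓞 K, alpha ≠ 0 → ∃ C : ℝ, 0 < C ∧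
    ∀ (B : Type) [CommRing B] [Finite B] (φ : 𝓞 K →+* B), Function.Surjective φ →
      ∀ P : Polynomial (𝓞 K), P.natDegree ≤ D → P.coeff D = alpha → ∀ a : B,
      (Nat.card {T : B // (P.map φ).eval T = a} : ℝ) * (Nat.card B : ℝ) ^ ((1 : ℝ) / MM D) ≤
        C * (Nat.card B : ℝ)

/-- [VDQN] the number of the solutions of `g(ω) = a` in a finite quotient; from LNP (StA), VDQP.
PROOF.  `e` with `ev g e ≠ 0`.  `|B| #{ω : g(ω) = a} = #{(ω₀, T) : g(ω₀ + T φ(e)) = a}` (for every `T` the map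
`ω₀ ↦ ω₀ + T φ(e)` is a bijection).  For given `ω₀` (lift it to `𝓞 K`): VDQP with the polynomial of LNP,
`alpha = ev g e`. -/
def St_VDQN : Prop :=
  ∀ (K : Type) [Field K] [NumberField K] (r D : ℕ), 2 ≤ D → ∀ g : Mon r D → 𝓞 K, g ≠ 0 →
    ∃ C : ℝ, 0 < C ∧ ∀ (B : Type) [CommRing B] [Finite B] (φ : 𝓞 K →+* B), Function.Surjective φ →
      ∀ a : B, (Nat.card {ω : Fin r → B // ev (fun μ => φ (g μ)) ω = a} : ℝ) *
        (Nat.card B : ℝ) ^ ((1 : ℝ) / MM D) ≤ C * (Nat.card B : ℝ) ^ r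

/-- [SIGN], from UNI, CNTH, PRM (RHKB), PAIRC (RHCB), VDQN.  Port of RHCB/SIGC.lean.  `A = 𝓞/(q)`, `b` is a unit of
`A`, so `b f(ρ) = g(ω)` iff `f(ρ) = b⁻¹ g(ω)`.  First moment: `∑_f sigN = Q #{ρ primitive}/|A|^s`, `Q = #{f}`
(every `(ρ, ω)` belongs to `Q/|A|` forms).  Second moment: for `(ρ, ω), (ρ', ω')` and `J = mI ρ ρ'` the number of the
forms is zero unless `g(ω') = lam^d g(ω)` modulo `J`, and at most `|A/J| Q/|A|^2` (PAIRC); for given `ω` the number of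
these `ω'` is at most `|A|^r C |A/J|^(-1/M)` (VDQN for `A/J`), and `|A|^r` for `J = ⊤`; CNTH for the `ρ'`.  The rest is
unchanged; `C` does not depend on `b`, `q`. -/
def St_SIGN : Prop :=
  ∀ (K : Type) [Field K] [NumberField K] (s r D d : ℕ), 3 ≤ s → 2 ≤ D → 1 ≤ d →
    ∀ g : Mon r D → 𝓞 K, g ≠ 0 → ∃ C : ℝ, 0 < C ∧ ∀ q b : ℕ, 0 < q → b.Coprime q →
    (Nat.card {f : Mon s d → 𝓞 K ⧸ Ideal.span {(q : 𝓞 K)} //
      sigN b (cred (Ideal.span {(q : 𝓞 K)}) g) f < 1 / 2} : ℝ) ≤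
      C * (hh (𝓞 K ⧸ Ideal.span {(q : 𝓞 K)}) + hM (𝓞 K ⧸ Ideal.span {(q : 𝓞 K)}) (MM D)) *
        (Nat.card (Mon s d → 𝓞 K ⧸ Ideal.span {(q : 𝓞 K)}) : ℝ)

/-- [CRTN].  Port of RHCW/CRTCW.lean. -/
def St_CRTN : Prop :=
  ∀ (K : Type) [Field K] [NumberField K] (I J : Ideal (𝓞 K)), I ≠ ⊥ → J ≠ ⊥ → IsCoprime I J →
    ∀ (s r D d b q : ℕ) (g : Mon r D → 𝓞 K) (ρ₀ : Fin s → 𝓞 K) (ω₀ : Fin r → 𝓞 K)
      (f : Mon s d → 𝓞 K),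
      wsigN b q (cred (I * J) g) (cmk (I * J) ρ₀) (cmk (I * J) ω₀) (cred (I * J) f) =
        wsigN b q (cred I g) (cmk I ρ₀) (cmk I ω₀) (cred I f) *
          wsigN b q (cred J g) (cmk J ρ₀) (cmk J ω₀) (cred J f)

/-- [WABN], from CRTN.  Port of RHCW/WABCW.lean: modulo `WB p0 m0` the integer `q` is a unit, so the congruence is
always true there. -/
def St_WABN : Prop :=
  ∀ (K : Type) [Field K] [NumberField K] (p0 : ℕ), ∃ S : Finset (HeightOneSpectrum (𝓞 K)),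
    (∀ v ∈ S, LowP p0 v) ∧
    ∀ m0 : ℕ, p0 ≤ m0 → 0 < WB p0 m0 ∧ (∀ p : ℕ, p.Prime → p ∣ WB p0 m0 → p0 < p) ∧
      ∃ n : HeightOneSpectrum (𝓞 K) → ℕ, ∀ q : ℕ, 0 < q → (∀ p : ℕ, p.Prime → p ∣ q → p ≤ p0) →
        ∀ (s r D d b : ℕ) (g : Mon r D → 𝓞 K) (ρ₀ : Fin s → 𝓞 K) (ω₀ : Fin r → 𝓞 K)
        (f : Mon s d → 𝓞 K),
        wsigN b q (cred (Ideal.span {(WW m0 : 𝓞 K)}) g) (cmk (Ideal.span {(WW m0 : 𝓞 K)}) ρ₀)
          (cmk (Ideal.span {(WW m0 : 𝓞 K)}) ω₀) (cred (Ideal.span {(WW m0 : 𝓞 K)}) f) =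
          (∏ v ∈ S, wsigN b q (cred (v.asIdeal ^ n v) g) (cmk (v.asIdeal ^ n v) ρ₀)
            (cmk (v.asIdeal ^ n v) ω₀) (cred (v.asIdeal ^ n v) f)) *
            sigN b (cred (Ideal.span {(WB p0 m0 : 𝓞 K)}) g)
              (cred (Ideal.span {(WB p0 m0 : 𝓞 K)}) f)

/-! ### Points near a nonsingular point, over a locally compact field -/

/-- [CONE] bounded solutions.  PROOF.  `c = 0`: `w = 0`.  Let `c ≠ 0`, `c = ev G w`, and `1 < ‖x‖`.  Multiplying `w` by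
`x^j` multiplies `c` by `x^(jD)`, so we may assume that `c` is in the compact set
`Ann = {‖x‖^(-D) ≤ ‖c‖ ≤ 1}` (the claim for `x^(jD) c` implies the claim for `c`).  The map `T ↦ T^D` has the strict
derivative `D ≠ 0` at `1`, so for some `ε₀ > 0` every `u` with `‖u - 1‖ ≤ ε₀` is `T^D` with `‖T‖ ≤ 2`
(`HasStrictDerivAt.map_nhds_eq`).  Cover `Ann` by finitely many sets on which all quotients `c/c'` satisfy
`‖c/c' - 1‖ ≤ ε₀` (`‖c - c'‖ ≤ ε₀ ‖x‖^(-D)`); for each of them which contains a value `ev G w` choose one `w_i`.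
Then `c = T^D ev G w_i = ev G (T w_i)`, `‖T w_i‖ ≤ 2 ‖w_i‖` and `‖c‖ ≥ ‖x‖^(-D)`. -/
def St_CONE : Prop :=
  ∀ (L : Type) [NormedField L] [ProperSpace L], (∃ x : L, 1 < ‖x‖) → ∀ (r D : ℕ), 1 ≤ D →
    (D : L) ≠ 0 → ∀ G : Mon r D → L, ∃ C : ℝ, 0 < C ∧ ∀ c : L, (∃ w, ev G w = c) →
      ∃ w, ev G w = c ∧ ∀ j, ‖w j‖ ^ D ≤ C * ‖c‖

/-- [IFTN], from `RHP.thm_IFT`.  Port of RHCB/IFTC.lean: one form of degree `D m` in the variables `(u, w, x)`: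
`f(x) - u^(D m - D) G(w)` at the point `(1, z₀)`; its derivative with respect to `w_j` is `- pd j G w`. -/
def St_IFTN : Prop :=
  ∀ (L : Type) [NontriviallyNormedField L] [CompleteSpace L] (s r D m : ℕ), 1 ≤ D → 1 ≤ m →
    ∀ (f₀ : Mon s (D * m) → L) (G : Mon r D → L) (z₀ : Fin r ⊕ Fin s → L) (j : Fin r ⊕ Fin s),
    ev f₀ (xz z₀) = ev G (wz z₀) →
    ((∃ i : Fin r, j = Sum.inl i ∧ pd i G (wz z₀) ≠ 0) ∨
      ∃ l : Fin s, j = Sum.inr l ∧ pd l f₀ (xz z₀) ≠ 0) →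
    ∀ ε : ℝ, 0 < ε → ∃ δ : ℝ, 0 < δ ∧ ∀ f : Mon s (D * m) → L, (∀ μ, ‖f μ - f₀ μ‖ ≤ δ) →
      ∀ κ : Fin r ⊕ Fin s → L, (∀ l, ‖κ l - z₀ l‖ ≤ δ) →
        ∃ z : Fin r ⊕ Fin s → L, (∀ l, l ≠ j → z l = κ l) ∧ (∀ l, ‖z l - z₀ l‖ ≤ ε) ∧
          ev f (xz z) = ev G (wz z)

/-- [UIFTN], from IFTN, `RHKB.St_LIPK` (or what `thm_UIFTCW` uses).  Port of RHCW/UIFTCW.lean: compactness of the set
of the `(f, z)` with `‖f μ‖ ≤ B0`, not `BadC τ f`, `‖x‖ = ‖c‖`, `‖w_j‖ ≤ B1`, `f(x) = G(w)`.  At such `(f₀, z₀)` some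
derivative is not zero: otherwise `D G(w₀) = ∑ w₀_j pd j G w₀ = 0` (Euler), so `f₀(x₀) = G(w₀) = 0` and all
`pd l f₀ x₀ = 0`, so `BadC τ f₀` (scale `x₀` to norm one). -/
def St_UIFTN : Prop :=
  ∀ (L : Type) [NormedField L] [ProperSpace L], (∃ x : L, 1 < ‖x‖) →
    ∀ (s r D m : ℕ), 1 ≤ D → 1 ≤ m → (D : L) ≠ 0 → ∀ G : Mon r D → L, ∀ c : L, c ≠ 0 →
    ∀ (B0 B1 : ℕ) (τ ε : ℝ), 0 < τ → 0 < ε →
      ∃ δ : ℝ, 0 < δ ∧ ∀ f : Mon s (D * m) → L, (∀ μ, ‖f μ‖ ≤ B0) → ¬ BadC τ f →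
        ∀ z : Fin r ⊕ Fin s → L, ‖xz z‖ = ‖c‖ → (∀ j, ‖wz z j‖ ≤ B1) →
          ev f (xz z) = ev G (wz z) → NZN f G z δ ε

/-- [NZ0N], from IFTN.  Port of RHCB/NZ0C.lean.  At `x₀ = c e_last`, `w₀ = a c^m e`, `f₀ = a^D G(e) f00`:
`f₀(x₀) = a^D G(e) c^(Dm) = G(w₀)`, and `∑_j w₀_j pd j G w₀ = D G(w₀) ≠ 0`, so some `pd j G w₀ ≠ 0`. -/
def St_NZ0N : Prop :=
  ∀ (L : Type) [NormedField L] [ProperSpace L], (∃ x : L, 1 < ‖x‖) →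
    ∀ (s r D m : ℕ), 1 ≤ s → 1 ≤ D → 1 ≤ m → (D : L) ≠ 0 → ∀ (G : Mon r D → L) (e : Fin r → L),
      ev G e ≠ 0 → ∀ a c : L, a ≠ 0 → c ≠ 0 →
    ∀ ε : ℝ, 0 < ε → ∃ z₀ : Fin r ⊕ Fin s → L, ‖xz z₀‖ = ‖c‖ ∧ (∀ j, wz z₀ j = a * c ^ m * e j) ∧
      ∃ δ : ℝ, 0 < δ ∧ ∀ f : Mon s (D * m) → L,
        (∀ μ, ‖f μ - a ^ D * ev G e * f00 L s (D * m) μ‖ ≤ δ) → NZN f G z₀ δ ε

/-! ### Finite places -/

/-- [PCNN], from `RHKB.St_PLV`.  Port of RHCW/PCNCW.lean, with `s + r - 1` free coordinates: the points `z` of `NZN`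
are within `‖q‖/2 < 1` of `z₀`, so they have `‖x‖ = 1` and integral coordinates; `|A|^(s+r-1)` in the
normalisation. -/
def St_PCNN : Prop :=
  ∀ (K : Type) [Field K] [NumberField K] (v : HeightOneSpectrum (𝓞 K)) (q : ℕ), 0 < q →
    ∀ (s r D d : ℕ) (δ : ℝ), 0 < δ → ∃ c : ℝ, 0 < c ∧
    ∀ (b : ℕ) (g : Mon r D → 𝓞 K) (ρ₀ : Fin s → 𝓞 K) (ω₀ : Fin r → 𝓞 K) (f : Mon s d → 𝓞 K)
      (z₀ : Fin r ⊕ Fin s → v.adicCompletion K), ‖xz z₀‖ = 1 → (∀ j, ‖wz z₀ j‖ ≤ 1) →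
      (∀ l, ‖xz z₀ l - jj (v.adicCompletion K) (ρ₀ l)‖ ≤ ‖(q : v.adicCompletion K)‖) →
      (∀ j, ‖wz z₀ j - jj (v.adicCompletion K) (ω₀ j)‖ ≤ ‖(q : v.adicCompletion K)‖) →
      NZN (cemb (b : v.adicCompletion K) f) (gL (v.adicCompletion K) g) z₀ δ
        (‖(q : v.adicCompletion K)‖ / 2) →
        ∀ j : ℕ, c ≤ wsigN b q (cred (v.asIdeal ^ j) g) (cmk (v.asIdeal ^ j) ρ₀)
          (cmk (v.asIdeal ^ j) ω₀) (cred (v.asIdeal ^ j) f)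

/-- [SIGLOWN], from SIGN, `RHKB.St_HSUM`, `RHCB.St_HMQ`, WABN, `RHCB.St_BADC`, UIFTN, PCNN, `RHCB.St_EQUC`,
`RHKB.St_PLV`.  Port of RHCW/SIGLOWCW.lean with a NEW ORDER OF THE QUANTIFIERS: the exceptional sets
`{sigN (WB p0 m0) < 1/2}` (SIGN, EQUC; `b` is coprime to `WB p0 m0` because all primes of `b` are `≤ p0`) and
`{BadC τ_v (cemb 1 f)}`, `v ∈ S`, depend on `ε` and `p0` only (the first: on `p0, m0, b`), not on the class.  For the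
other `f`, every `(ρ₀, ω₀)` and `v ∈ S` (`LowP p0 v`): `cemb b f` has coefficients of norm at most one and is not
`BadC (‖b‖ τ_v)`; UIFTN with `c = 1`, `B0 = B1 = 1`, `ε = ‖q‖/2` at the point of LocZN, PCNN; WABN.  `p00` is chosen such
that SIGN, HSUM, HMQ give at most `ε/2` for all `p0 ≥ p00`. -/
def St_SIGLOWN : Prop :=
  ∀ (K : Type) [Field K] [NumberField K] (s r D m : ℕ), NHyp s D m → ∀ g : Mon r D → 𝓞 K, g ≠ 0 →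
    ∀ ε : ℝ, 0 < ε → ∃ p00 : ℕ, ∀ p0 ≥ p00, ∀ b q : ℕ, 0 < b → 0 < q →
    (∀ p : ℕ, p.Prime → p ∣ b → p ≤ p0) → (∀ p : ℕ, p.Prime → p ∣ q → p ≤ p0) →
    ∃ σ₀ : ℝ, 0 < σ₀ ∧ ∃ m2 : ℕ, ∀ m0 ≥ m2, ∃ H0 : ℕ, ∀ H ≥ H0,
      (((box K s (D * m) H).filter fun f => ∃ (ρ₀ : Fin s → 𝓞 K) (ω₀ : Fin r → 𝓞 K),
        (∀ v, LowP p0 v → LocZN v b q g ρ₀ ω₀ f) ∧
        wsigN b q (cred (Ideal.span {(WW m0 : 𝓞 K)}) g) (cmk (Ideal.span {(WW m0 : 𝓞 K)}) ρ₀)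
          (cmk (Ideal.span {(WW m0 : 𝓞 K)}) ω₀) (cred (Ideal.span {(WW m0 : 𝓞 K)}) f) <
          σ₀).card : ℝ) ≤ ε * ((box K s (D * m) H).card : ℝ)

/-! ### Infinite places -/

/-- [NPRN] (the points with nonprimitive `x` in a union of boxes).  Port of RHCB/NPRC.lean: for a fixed vector `w`
NPRB for `x`; `∑_w #I(w) ≤ #ι (C θ Q/W)^(r rho)` and the number of the `w` is at most `(C A Q)^(r rho)` (CUP for
every coordinate). -/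
def St_NPRN : Prop :=
  ∀ (K : Type) [Field K] [NumberField K] (s r : ℕ), 2 ≤ s → ∃ C : ℝ, 0 < C ∧
    ∀ W m0 : ℕ, 0 < W → 1 ≤ m0 → (∀ h : ℕ, 1 < h → h ≤ m0 → ¬ h.Coprime W) →
    ∀ (ρ : Fin s → 𝓞 K) (ω : Fin r → 𝓞 K), PrC W ρ → ∀ (A X Q : ℕ) (θ : ℝ), 0 < A → 0 < X →
      0 < Q → 0 < θ → θ ≤ 1 → (W : ℝ) ≤ θ * X → (W : ℝ) ≤ θ * Q → ∀ (ι : Type) [Fintype ι]
      (y : ι → (v : InfinitePlace K) → Fin r ⊕ Fin s → v.Completion),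
      (((bx K s (X : ℝ) ×ˢ bx K r ((A * Q : ℕ) : ℝ)).filter fun p => p.1 ≠ 0 ∧ ¬ Prim p.1 ∧
        (∀ l, (W : 𝓞 K) ∣ p.1 l - ρ l) ∧ (∀ j, (W : 𝓞 K) ∣ p.2 j - ω j) ∧
        ∃ i, ∀ v : InfinitePlace K,
          (∀ l, ‖jj v.Completion (p.1 l) - y i v (Sum.inr l)‖ ≤ θ * X) ∧
          ∀ j, ‖jj v.Completion (p.2 j) - y i v (Sum.inl j)‖ ≤ θ * Q).card : ℝ) ≤
        (C * (Fintype.card ι / m0) * (θ / W) ^ (dg K * (s + r)) +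
          C * (A : ℝ) ^ (dg K * r) / X * (W / θ) ^ (dg K * s)) * ((X : ℝ) ^ s * (Q : ℝ) ^ r) ^ dg K

/-- [CENN], from `RHKB.St_SEP`.  Port of RHCW/CENCW.lean, with the `s + r - 1` coordinates different from `j`. -/
def St_CENN : Prop :=
  ∀ (K : Type) [Field K] [NumberField K] (s r D d : ℕ) (δ ε : ℝ), 0 < δ → 0 < ε →
    ∃ θ₀ c : ℝ, 0 < θ₀ ∧ 0 < c ∧ ∀ (F : (v : InfinitePlace K) → Mon s d → v.Completion)
      (G : (v : InfinitePlace K) → Mon r D → v.Completion)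
      (z₀ : (v : InfinitePlace K) → Fin r ⊕ Fin s → v.Completion),
      (∀ v, NZN (F v) (G v) (z₀ v) δ ε) → ∀ θ : ℝ, 0 < θ → θ ≤ θ₀ →
      ∃ (ι : Type) (_ : Fintype ι) (y : ι → (v : InfinitePlace K) → Fin r ⊕ Fin s → v.Completion),
        (∀ i v, ev (F v) (xz (y i v)) = ev (G v) (wz (y i v))) ∧
        (∀ i v l, ‖y i v l - z₀ v l‖ ≤ ε) ∧
        (∀ i i', i ≠ i' → ∃ v l, 2 * θ < ‖y i v l - y i' v l‖) ∧
        c * (1 / θ) ^ (dg K * (s + r - 1)) ≤ (Fintype.card ι : ℝ)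

/-- [SMLN] (the points near a centre).  Port of RHCB/SMLC.lean.  With `x = X ξ`, `w = dl X^m V ζ`:
`dl^D f(x) - g(w) = dl^D X^(Dm) V^D (φ(ξ) - g(ζ))`, `φ = cemb (uk v D V) f`; LIPK for `φ` and for `g`; `V^D ≤ H`. -/
def St_SMLN : Prop :=
  ∀ (K : Type) [Field K] [NumberField K] (s r D m : ℕ), 1 ≤ s → 1 ≤ D → ∀ g : Mon r D → 𝓞 K,
    ∀ B dl : ℕ, 1 ≤ dl → ∃ Λ : ℝ, 0 < Λ ∧
    ∀ V H X : ℕ, 0 < V → 0 < X → V ^ D ≤ H → H ≤ (V + 1) ^ D →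
    ∀ f : Mon s (D * m) → 𝓞 K, f ∈ box K s (D * m) H →
    ∀ θ : ℝ, 0 < θ → θ ≤ 1 / 16 → ∀ y : (v : InfinitePlace K) → Fin r ⊕ Fin s → v.Completion,
      (∀ v, ev (cemb (uk v D V) f) (xz (y v)) = ev (gL v.Completion g) (wz (y v))) →
      (∀ v, 11 / 16 ≤ ‖xz (y v)‖ ∧ ‖xz (y v)‖ ≤ 13 / 16 ∧ ∀ j, ‖wz (y v) j‖ ≤ (B : ℝ) + 1 / 16) →
      ∀ (x : Fin s → 𝓞 K) (w : Fin r → 𝓞 K), NearN y θ X (dl * (X ^ m * V)) (x, w) →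
        x ∈ bx K s (X : ℝ) ∧ (∀ v : InfinitePlace K, (X : ℝ) < 2 * vs v x) ∧
        (∀ (v : InfinitePlace K) (j : Fin r),
          av v (w j) ≤ ((B : ℝ) + 1) * ((dl * (X ^ m * V) : ℕ) : ℝ)) ∧
        (cz (((dl ^ D : ℕ) : 𝓞 K) * ev f x - ev g w) : ℝ) ≤ Λ * θ * H * (X : ℝ) ^ (D * m)

/-- [RCN], from CENN, SMLN, `RHKB.St_CLOW`, NPRN, `RHKB.St_PLW`.  Port of RHCW/RCCW.lean.  `θ = c₁/κ`; the boxes around
the centres contain at least `(c (θ X/W)^rho)^s (c (θ Q'/W)^rho)^r` points, `Q' = dl X^m V ≥ X^m V`, and there are at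
least `c (κ/c₁)^(rho (s+r-1))` centres.  NPRN with `Q'` (the box of the `w` in `RCnN` is contained in
`bx K r (A Q')`). -/
def St_RCN : Prop :=
  ∀ (K : Type) [Field K] [NumberField K] (s r D m : ℕ), 2 ≤ s → 1 ≤ D → ∀ g : Mon r D → 𝓞 K,
    ∀ A B dl : ℕ, 1 ≤ dl → dl * (B + 1) ≤ A → ∀ δ ε : ℝ, 0 < δ → 0 < ε → ε ≤ 1 / 16 →
    ∃ c C : ℝ, 0 < c ∧ 0 < C ∧ ∀ W κ m0 : ℕ, 0 < W → 0 < κ → 0 < m0 →
      (∀ h : ℕ, 1 < h → h ≤ m0 → ¬ h.Coprime W) →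
      ∃ X0 : ℕ, ∀ X V H : ℕ, X0 ≤ X → X0 ≤ V → V ^ D ≤ H → H ≤ (V + 1) ^ D →
        ∀ f : Mon s (D * m) → 𝓞 K, f ∈ box K s (D * m) H →
        ∀ z₀ : (v : InfinitePlace K) → Fin r ⊕ Fin s → v.Completion,
        (∀ v, ‖xz (z₀ v)‖ = 3 / 4) → (∀ v j, ‖wz (z₀ v) j‖ ≤ B) →
        (∀ v : InfinitePlace K, NZN (cemb (uk v D V) f) (gL v.Completion g) (z₀ v) δ ε) →
        ∀ (ρ : Fin s → 𝓞 K) (ω : Fin r → 𝓞 K), PrC W ρ →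
          (c - C / m0) * ((X : ℝ) ^ s * ((X : ℝ) ^ m * V) ^ r) ^ dg K /
            ((κ : ℝ) ^ dg K * (W : ℝ) ^ (dg K * (s + r))) ≤
            (RCnN {p | NearN z₀ (2 * ε) X (dl * (X ^ m * V)) p} (dl ^ D) g (A * (X ^ m * V)) X H κ W
              f ρ ω : ℝ)

/-! ### Assembly -/

/-- [NLOWN], from `RHCB.St_NGCC`, `RHKB.St_CUP`, GZ (StA).  Port of RHCW/NLOWCW.lean.  Modulus `b W`: at least
`σ₀ |A|^(s+r-1)` classes `(ρ, ω)`, `|A| = (b W)^rho`, each with at least `c₁ (X^s Q^r)^rho / (κ^rho |A|^(s+r))` points.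
For such a point `b ∣ g(w)` (as `b W` divides `b f(x) - g(w)`), `W ∣ f(x) - a_w`, and
`b cz (f(x) - a_w) = cz (b f(x) - g(w))`, so `cz (f(x) - a_w) ≤ ThC`.  Subtract the `x` on hyperplanes of small height
(`≤ C X^(s rho)/t` times `#bx (A Q) ≤ (C A Q)^(r rho)`) and the `w` with `g(w) = 0`
(`≤ C ((A Q)^r)^rho/(A Q)^rho` by GZ, times `#bx X`).  Every other point contributes
`1/TC ≥ (κ W/(3 H X^(Dm)))^rho`. -/
def St_NLOWN : Prop :=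
  ∀ (K : Type) [Field K] [NumberField K] (s r D m : ℕ), NHyp s D m → ∀ g : Mon r D → 𝓞 K, g ≠ 0 →
    ∀ A c v b : ℕ, 1 ≤ A → 1 ≤ c → 1 ≤ v → 1 ≤ b → ∀ c₁ σ₀ : ℝ, 0 < c₁ → 0 < σ₀ →
    ∀ κ W q : ℕ, 0 < κ → 0 < W → q ∣ b * W → ∃ t0 : ℕ, ∀ t ≥ t0, ∀ V H : ℕ, CR D v t V H →
    ∀ (ρ₀ : Fin s → 𝓞 K) (ω₀ : Fin r → 𝓞 K) (f : Mon s (D * m) → 𝓞 K),
    σ₀ ≤ wsigN b q (cred (Ideal.span {((b * W : ℕ) : 𝓞 K)}) g)
      (cmk (Ideal.span {((b * W : ℕ) : 𝓞 K)}) ρ₀) (cmk (Ideal.span {((b * W : ℕ) : 𝓞 K)}) ω₀)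
      (cred (Ideal.span {((b * W : ℕ) : 𝓞 K)}) f) →
    ∀ P : Set ((Fin s → 𝓞 K) × (Fin r → 𝓞 K)),
    (∀ (ρ : Fin s → 𝓞 K) (ω : Fin r → 𝓞 K), PrC (b * W) ρ →
      c₁ * ((XC s c t : ℝ) ^ s * (QN s m c t V : ℝ) ^ r) ^ dg K /
        ((κ : ℝ) ^ dg K * ((b * W : ℕ) : ℝ) ^ (dg K * (s + r))) ≤
        (RCnN P b g (A * QN s m c t V) (XC s c t) H κ (b * W) f ρ ω : ℝ)) →
      σ₀ * c₁ / (2 * 3 ^ dg K * (b : ℝ) ^ dg K) * EN (dg K) s D m r c t V H ≤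
        NAL (BG g b (A * QN s m c t V)) (aG g b)
          {p | p ∈ P ∧ (∀ l, (q : 𝓞 K) ∣ p.1 l - ρ₀ l) ∧ ∀ j, (q : 𝓞 K) ∣ p.2 j - ω₀ j}
          c t H κ W f

/-- [DETN], from RCN, NLOWN.  Port of RHCW/DETCW.lean.  `b = dl^D`, `m2 ≥ b, q` so that `b` and `q` divide `WW m0`,
`W = WW m0 / b`. -/
def St_DETN : Prop :=
  ∀ (K : Type) [Field K] [NumberField K] (s r D m : ℕ), NHyp s D m → ∀ g : Mon r D → 𝓞 K, g ≠ 0 →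
    ∀ A B dl c v : ℕ, 1 ≤ dl → dl * (B + 1) ≤ A → 1 ≤ c → 1 ≤ v → ∀ (q : ℕ), 0 < q →
    ∀ δ ε σ₀ : ℝ, 0 < δ → 0 < ε → ε ≤ 1 / 16 → 0 < σ₀ → ∃ γ : ℝ, 0 < γ ∧ ∃ m2 : ℕ, ∀ m0 ≥ m2,
    ∀ κ : ℕ, 0 < κ → ∃ t0 : ℕ, ∀ t ≥ t0, ∀ V H : ℕ, CR D v t V H →
    ∀ (ρ₀ : Fin s → 𝓞 K) (ω₀ : Fin r → 𝓞 K) (f : Mon s (D * m) → 𝓞 K), f ∈ box K s (D * m) H →
      σ₀ ≤ wsigN (dl ^ D) q (cred (Ideal.span {(WW m0 : 𝓞 K)}) g)
        (cmk (Ideal.span {(WW m0 : 𝓞 K)}) ρ₀) (cmk (Ideal.span {(WW m0 : 𝓞 K)}) ω₀)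
        (cred (Ideal.span {(WW m0 : 𝓞 K)}) f) →
      ∀ z₀ : (v : InfinitePlace K) → Fin r ⊕ Fin s → v.Completion,
      (∀ v, ‖xz (z₀ v)‖ = 3 / 4) → (∀ v j, ‖wz (z₀ v) j‖ ≤ B) →
      (∀ v : InfinitePlace K, NZN (cemb (uk v D V) f) (gL v.Completion g) (z₀ v) δ ε) →
      γ * EN (dg K) s D m r c t V H ≤
        NAL (BG g (dl ^ D) (A * QN s m c t V)) (aG g (dl ^ D))
          (CellN q ρ₀ ω₀ z₀ (2 * ε) (XC s c t) (dl * QN s m c t V)) c t H κ (WW m0 / dl ^ D) f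

/-- [LLSN], from SIGLOWN, `RHCB.St_BADC`, UIFTN, `RHKB.St_PLW`, DETN.  Port of RHCW/LLSCW.lean; the exceptional sets
(SIGLOWN and `BadC τ_v (cemb (uu v H) f)` at the infinite places) do not depend on the cell, therefore the
quantifiers over the cell are inside.  UIFTN for `cemb (uk v D V) f` (`B0 = MK K * 2 ^ D`, `B1 = B`, `‖c‖ = 3/4`)
at the point of InfZN. -/
def St_LLSN : Prop :=
  ∀ (K : Type) [Field K] [NumberField K] (s r D m : ℕ), NHyp s D m → ∀ g : Mon r D → 𝓞 K, g ≠ 0 →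
    ∀ ε : ℝ, 0 < ε → ∃ p00 : ℕ, ∀ p0 ≥ p00, ∀ A B dl c v q : ℕ, 1 ≤ dl → dl * (B + 1) ≤ A →
    1 ≤ c → 1 ≤ v → 0 < q → (∀ p : ℕ, p.Prime → p ∣ dl → p ≤ p0) →
    (∀ p : ℕ, p.Prime → p ∣ q → p ≤ p0) → ∀ η : ℝ, 0 < η → η ≤ 1 / 16 →
    ∃ γ : ℝ, 0 < γ ∧ ∃ m2 : ℕ, ∀ m0 ≥ m2, ∀ κ : ℕ,
      0 < κ → ∃ t0 : ℕ, ∀ t ≥ t0, ∀ V H : ℕ, CR D v t V H →
      (((box K s (D * m) H).filter fun f => ∃ (ρ₀ : Fin s → 𝓞 K) (ω₀ : Fin r → 𝓞 K)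
        (y₀ : (v : InfinitePlace K) → Fin r ⊕ Fin s → v.Completion),
        (∀ v : InfinitePlace K, InfZN v V B g (y₀ v) η f) ∧
        (∀ v, LowP p0 v → LocZN v (dl ^ D) q g ρ₀ ω₀ f) ∧
        NAL (BG g (dl ^ D) (A * QN s m c t V)) (aG g (dl ^ D))
          (CellN q ρ₀ ω₀ y₀ (3 * η) (XC s c t) (dl * QN s m c t V)) c t H κ (WW m0 / dl ^ D) f <
          γ * EN (dg K) s D m r c t V H).card : ℝ) ≤ ε * ((box K s (D * m) H).card : ℝ)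

/-- the conclusion for finitely many cells -/
def FinN {K : Type} [Field K] [NumberField K] (s : ℕ) {r D : ℕ} (m : ℕ) (g : Mon r D → 𝓞 K) : Prop :=
  ∀ ε : ℝ, 0 < ε → ∃ p00 : ℕ, ∀ p0 ≥ p00, ∀ B dl q : ℕ, 1 ≤ dl → 0 < q →
    (∀ p : ℕ, p.Prime → p ∣ dl → p ≤ p0) → (∀ p : ℕ, p.Prime → p ∣ q → p ≤ p0) →
    ∀ η : ℝ, 0 < η → η ≤ 1 / 16 → ∀ T : Finset ((Fin s → 𝓞 K) × (Fin r → 𝓞 K) ×
      ((v : InfinitePlace K) → Fin r ⊕ Fin s → v.Completion)),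
    ∃ H0 : ℕ, ∀ H ≥ H0, ∀ V : ℕ, V ^ D ≤ H → H ≤ (V + 1) ^ D →
      (((box K s (D * m) H).filter fun f => ∃ τ ∈ T,
        (∀ v : InfinitePlace K, InfZN v V B g (τ.2.2 v) η f) ∧
        (∀ v, LowP p0 v → LocZN v (dl ^ D) q g τ.1 τ.2.1 f) ∧
        ¬ ∃ (X : ℕ) (p : (Fin s → 𝓞 K) × (Fin r → 𝓞 K)), 0 < X ∧ Prim p.1 ∧
          p ∈ CellN q τ.1 τ.2.1 τ.2.2 (3 * η) X (dl * (X ^ m * V)) ∧
          ((dl ^ D : ℕ) : 𝓞 K) * ev f p.1 = ev g p.2).card : ℝ) ≤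
          ε * ((box K s (D * m) H).card : ℝ)

/-- there are parameters for which the second moment is known and the values of `g` satisfy FAM -/
def ParN {K : Type} [Field K] [NumberField K] (s : ℕ) {r D : ℕ} (m : ℕ) (g : Mon r D → 𝓞 K) : Prop :=
  ∃ c v : ℕ, 1 ≤ c ∧ 1 ≤ v ∧ SMN K s D m r c v ∧ ∀ A b : ℕ, 1 ≤ A → 1 ≤ b → ∃ C0 : ℝ, 0 < C0 ∧
    ∀ t : ℕ, 1 ≤ t → ∀ V H : ℕ, CR D v t V H →
      FAM s D m r c t V H (BG g b (A * QN s m c t V)) (aG g b) C0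

/-- [FINN], from LLSN.  Port of RHCW/FINCW.lean.  Given `ε`: `p00` of LLSN for `ε/2`.  Given `p0, B, dl, q, η, T`:
`A = dl (B + 1)`, `b = dl^D`, `c, v` of ParN, `γ, m2` of LLSN, `C0` of ParN, `κ, m1` of SMN for `C0` and
`ε' = ε γ^2/(2 (#T + 1))`, `m0 = max m2 (m1 b)`, `W = WW m0 / b`: every `g' ≤ m1` divides `W` because `g' b ≤ m0` divides
`WW m0`.  For `f` outside of the exceptional set of LLSN and `τ ∈ T` with InfZN, LocZN: `NAL (cell) ≥ γ EN`; if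
`NA (cell) = 0` then `(NA - NAL)^2 ≥ γ^2 EN^2` (`EN > 0`): at most `ε'/γ^2 #box` such `f` for every `τ`.  If `NA (cell) > 0`
there are `x ∈ CG`, `w ∈ BG` with `f(x) = a_w`: `aG_mul`. -/
def St_FINN : Prop :=
  ∀ (K : Type) [Field K] [NumberField K] (s r D m : ℕ), NHyp s D m → ∀ g : Mon r D → 𝓞 K, g ≠ 0 →
    ParN s m g → FinN s m g

/-! ### Local points and cells -/

/-- [FPL] the finite places; from CONE, `RHKB.St_PLV` (compare RHCW/TOPCW.lean).  PROOF.  There are finitely many `v`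
with `LowP p0 v`.  Let `F = ∏_(p ≤ p0) p`.  For `v` with `LowP p0 v` let `(z, a)` be the given point (`v ∈ S`) or any
local point (`v ∉ S`); scale it by `lam`, `(x', w') = (lam z, lam^m a)` with `‖x'‖ = 1`, so `‖f(x')‖ ≤ 1`.  `v ∈ S`: by
SizN `‖w'_j‖^D ≤ η⁻¹ ‖f μ‖ ≤ η⁻¹`.  `v ∉ S`: by CONE we may assume `‖w'_j‖^D ≤ C_v`.  So with `dl = F^N`, `N` large, all
`dl w'_j` are integral, and `dl^D f(x') = g(dl w')`.  `q = F^N'` with `‖q‖_v ≤ η` and `‖q‖_v^D ≤ η δ ‖dl‖_v^D` for all `v` with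
LowP.  By the Chinese remainder theorem there are `ρ₀, ω₀` over `𝓞 K` congruent to `x'`, `dl w'` modulo `q` at all these
`v` (at the other `v` `q` is a unit; compare TOPCW.lean); `T` = a finite set of representatives of the classes
modulo `q`.  CloN at `v ∈ S` with `lam⁻¹`: `‖p.1 - x'‖ ≤ ‖q‖ ≤ η`, `‖p.2/dl - w'‖^D ≤ (‖q‖/‖dl‖)^D ≤ η δ ≤ η ‖f μ‖`,
`‖lam‖⁻¹ = ‖z‖`. -/
def St_FPL : Prop :=
  ∀ (K : Type) [Field K] [NumberField K] (s r D m : ℕ), NHyp s D m → ∀ g : Mon r D → 𝓞 K,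
    ∀ (p0 : ℕ) (S : Finset (HeightOneSpectrum (𝓞 K))), (∀ v ∈ S, LowP p0 v) →
    ∀ η δ : ℝ, 0 < η → 0 < δ → ∃ dl q : ℕ, 1 ≤ dl ∧ 0 < q ∧
      (∀ p : ℕ, p.Prime → p ∣ dl → p ≤ p0) ∧ (∀ p : ℕ, p.Prime → p ∣ q → p ≤ p0) ∧
    ∃ T : Finset ((Fin s → 𝓞 K) × (Fin r → 𝓞 K)), ∀ f : Mon s (D * m) → 𝓞 K,
      (∀ v ∈ S, ∃ μ, δ ≤ ‖jj (v.adicCompletion K) (f μ)‖) →
      (∀ v : HeightOneSpectrum (𝓞 K), ∃ (x : Fin s → v.adicCompletion K)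
        (w : Fin r → v.adicCompletion K), IsPtN g f x w) →
      ∀ (z : (v : HeightOneSpectrum (𝓞 K)) → Fin s → v.adicCompletion K)
        (a : (v : HeightOneSpectrum (𝓞 K)) → Fin r → v.adicCompletion K),
        (∀ v ∈ S, IsPtN g f (z v) (a v) ∧ SizN D m f η (z v) (a v)) →
      ∃ τ ∈ T, (∀ v, LowP p0 v → LocZN v (dl ^ D) q g τ.1 τ.2 f) ∧
        ∀ p : (Fin s → 𝓞 K) × (Fin r → 𝓞 K), (∀ l, (q : 𝓞 K) ∣ p.1 l - τ.1 l) →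
          (∀ j, (q : 𝓞 K) ∣ p.2 j - τ.2 j) → ∀ v ∈ S,
          CloN D m f η (fun l => algebraMap K (v.adicCompletion K) (p.1 l : K))
            (fun j => algebraMap K (v.adicCompletion K) ((p.2 j : K) / (dl : K))) (z v) (a v)

/-- [IPL] the infinite places; from `RHKB.St_PLW` (compare RHCW/TOPCW.lean).  PROOF.  Scale `(y, b)` by a real `lam > 0`
(in `v.Completion`) to `ξ = lam y`, `‖ξ‖ = 3/4`, `ζ = lam^m b / V`: `φ(ξ) = g(ζ)`, `φ = cemb (uk v D V) f`, and by SizN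
`‖ζ_j‖^D ≤ η⁻¹ ‖f μ‖ (3/4)^(Dm) / V^D ≤ η⁻¹ MK 2^D` (`‖f μ‖ ≤ MK H` by PLW, `H ≤ (2V)^D`): `B` an integer with
`η⁻¹ MK 2^D ≤ B^D`.  `η' ≤ 1/16` with `16 η' ≤ 3 η` and `(4/3)^(Dm) (4 η')^D ≤ η δ`; `T` = a finite `η'`-net of the set of
the families with `‖ξ‖ = 3/4`, `‖ζ_j‖ ≤ B` (compact).  For a point `p` near `τ`: `‖p.1/X - ξ‖ ≤ 4 η'`,
`‖p.2/(dl X^m V) - ζ‖ ≤ 4 η'`; CloN with `(lam X)⁻¹`: `‖p.1/(lam X) - y‖ ≤ 4 η'/‖lam‖ = (16/3) η' ‖y‖`,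
`‖(lam X)^(-m) p.2/dl - b‖^D ≤ (‖lam‖^(-m) V 4 η')^D ≤ η δ H ‖y‖^(Dm)` (`V^D ≤ H`, `‖lam‖⁻¹ = (4/3) ‖y‖`). -/
def St_IPL : Prop :=
  ∀ (K : Type) [Field K] [NumberField K] (s r D m : ℕ), NHyp s D m → ∀ g : Mon r D → 𝓞 K,
    ∀ η δ : ℝ, 0 < η → 0 < δ → ∃ (B : ℕ) (η' : ℝ), 0 < η' ∧ η' ≤ 1 / 16 ∧
    ∃ T : Finset ((v : InfinitePlace K) → Fin r ⊕ Fin s → v.Completion),
      ∀ dl V H : ℕ, 1 ≤ dl → 0 < V → V ^ D ≤ H → H ≤ (V + 1) ^ D → ∀ f ∈ box K s (D * m) H,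
      (∀ v : InfinitePlace K, ∃ μ, δ * H ≤ ‖jj v.Completion (f μ)‖) →
      ∀ (y : (v : InfinitePlace K) → Fin s → v.Completion)
        (b : (v : InfinitePlace K) → Fin r → v.Completion),
        (∀ v, IsPtN g f (y v) (b v) ∧ SizN D m f η (y v) (b v)) →
      ∃ τ ∈ T, (∀ v, InfZN v V B g (τ v) η' f) ∧
        ∀ (X : ℕ) (p : (Fin s → 𝓞 K) × (Fin r → 𝓞 K)), 0 < X →
          NearN τ (3 * η') X (dl * (X ^ m * V)) p → ∀ v : InfinitePlace K,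
          CloN D m f η (fun l => algebraMap K v.Completion (p.1 l : K))
            (fun j => algebraMap K v.Completion ((p.2 j : K) / (dl : K))) (y v) (b v)

/-- [TOPN], from FPL, IPL, CONE, `RHCW.St_SZC`.  PROOF.  `FinN` with `ε/2`: `p00`; `p0 ≥ p00` with `LowP p0 v` for all
`v ∈ S`.  SZC with `ε/(2 (#S + number of the infinite places))`: `δ` for all `v ∈ S` and all infinite `v`.  FPL (`η, δ`):
`dl, q, T1`; IPL (`η, δ`): `B, η', T2`; `T = T1 × T2`; `V` with `V^D ≤ H < (V+1)^D`.  If `f` is everywhere locally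
soluble, in none of the exceptional sets, and `(z, a)`, `(y, b)` are given: the cell `τ` and the point `p` of the cell;
`(p.1, p.2/dl)` is the point over `K` (`Prim p.1` gives `p.1 ≠ 0`). -/
def St_TOPN : Prop :=
  ∀ (K : Type) [Field K] [NumberField K] (s r D m : ℕ), NHyp s D m → ∀ g : Mon r D → 𝓞 K,
    FinN s m g → ∀ (S : Finset (HeightOneSpectrum (𝓞 K))) (η : ℝ), 0 < η → ∀ ε : ℝ, 0 < ε →
      ∃ H0 : ℕ, ∀ H ≥ H0, (((box K s (D * m) H).filter fun f =>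
        ELSN g f ∧ ¬ DenseN m S η g f).card : ℝ) ≤ ε * ((box K s (D * m) H).card : ℝ)

/-- [HPN] the Hasse principle from approximation; from CONE.  PROOF.  `DenseN` with `S = ∅`, `η` small: if `f ≠ 0` is
everywhere locally soluble there are local points at the infinite places (CONE) with
`‖w_j‖^D ≤ C ‖f(x)‖ ≤ C N max ‖f μ‖ ‖x‖^(Dm)`, so SizN holds for `η = 1/(C N)` (`C` the maximum over the infinite
places, `N` = number of the monomials); so there is a point over `K`.  For `f = 0` the point `(e_last, 0)`. -/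
def St_HPN : Prop :=
  ∀ (K : Type) [Field K] [NumberField K] (s r D m : ℕ), NHyp s D m → ∀ g : Mon r D → 𝓞 K,
    ∃ η : ℝ, 0 < η ∧ ∀ f : Mon s (D * m) → 𝓞 K, ELSN g f → DenseN m ∅ η g f →
      ∃ (x : Fin s → K) (w : Fin r → K), IsPtN g f x w

/-! ### Positivity -/

/-- the coordinates of the explicit form `g(e) x_last^d`, divided by the size of `g(e)` -/
noncomputable def w00N {K : Type} [Field K] [NumberField K] {r D : ℕ} (g : Mon r D → 𝓞 K)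
    (e : Fin r → 𝓞 K) (s d : ℕ) (μ : Mon s d) (j : IX K) : ℝ :=
  (co (ev g e * f00 (𝓞 K) s d μ) j : ℝ) / (cz (ev g e) : ℝ)

/-- [SIGPOSN].  Port of RHCB/SIGPOSC.lean with the explicit form `g(e) f00`; from SIGN, WABN, NZ0N (`a = c = 1`),
PCNN (with `q = 1`: the congruences are trivial, `wsigN b 1 = sigN b`), EQLC, ... -/
def St_SIGPOSN : Prop :=
  ∀ (K : Type) [Field K] [NumberField K] (s r D m : ℕ), NHyp s D m → ∀ (g : Mon r D → 𝓞 K)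
    (e : Fin r → 𝓞 K), ev g e ≠ 0 →
    ∃ σ₀ : ℝ, 0 < σ₀ ∧ ∃ m2 : ℕ, ∀ δ : ℝ, 0 < δ → ∃ c' : ℝ, 0 < c' ∧ ∀ m0 ≥ m2, ∃ H0 : ℕ,
      ∀ H ≥ H0, c' * ((box K s (D * m) H).card : ℝ) ≤ (((box K s (D * m) H).filter fun f =>
        (∀ μ j, |(co (f μ) j : ℝ) / H - w00N g e s (D * m) μ j| ≤ δ) ∧
          σ₀ ≤ sigN 1 (cred (Ideal.span {(WW m0 : 𝓞 K)}) g)
            (cred (Ideal.span {(WW m0 : 𝓞 K)}) f)).card : ℝ)

/-- [LPN].  Port of RHCB/LPCB.lean; from SIGPOSN, DETN (`dl = 1`, `q = 1`), NZ0N.  `a` in `v.Completion` with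
`a^D = 1/cz (g(e))`, `c = 3/4`; `B ≥ ‖a c^m e_j‖` for all `v, j`; `A = B + 1`. -/
def St_LPN : Prop :=
  ∀ (K : Type) [Field K] [NumberField K] (s r D m : ℕ), NHyp s D m → ∀ g : Mon r D → 𝓞 K, g ≠ 0 →
    ∀ c v : ℕ, 1 ≤ c → 1 ≤ v → ∃ A : ℕ, 1 ≤ A ∧ ∃ γ : ℝ, 0 < γ ∧ ∃ γ' : ℝ, 0 < γ' ∧ ∃ m2 : ℕ,
    ∀ m0 ≥ m2, ∀ κ : ℕ, 0 < κ → ∃ t0 : ℕ, ∀ t ≥ t0, ∀ V H : ℕ, CR D v t V H →
      γ' * ((box K s (D * m) H).card : ℝ) ≤ (((box K s (D * m) H).filter fun f =>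
          γ * EN (dg K) s D m r c t V H ≤
            NAL (BG g 1 (A * QN s m c t V)) (aG g 1) Set.univ c t H κ (WW m0) f).card : ℝ)

/-- [POSN], from LPN.  PROOF.  Chebyshev as in `cmain_of` (RHC/Final.lean, first part): `SMN` with
`ε = γ^2 γ'/2`, `m0 ≥ m2, m1`. -/
def St_POSN : Prop :=
  ∀ (K : Type) [Field K] [NumberField K] (s r D m : ℕ), NHyp s D m → ∀ g : Mon r D → 𝓞 K, g ≠ 0 →
    ParN s m g → ∃ γ : ℝ, 0 < γ ∧ ∃ H0 : ℕ, ∀ H ≥ H0, γ * ((box K s (D * m) H).card : ℝ) ≤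
      (((box K s (D * m) H).filter fun f =>
        ∃ (x : Fin s → K) (w : Fin r → K), IsPtN g f x w).card : ℝ)

end Pool.Agent.NRM
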