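import Pool.Agent.NRM.StA
import Pool.Agent.NRM.StB

/-!
NRM, module NLOWN: the local model in a residue class is large if the local densities are (helper66; port
of `RHCW/NLOWCW.lean`).
-/

set_option autoImplicit false

namespace Pool.Agent.NRM

open scoped BigOperators
open Classical NumberField IsDedekindDomain
open Pool.Agent.RHP (Mon mono ev Sys Prim pd WB WW ev_map Prim.map)
open Pool.Agent.RHK Pool.Agent.RHC
open Pool.Agent.RHKB (mI hh jj qv MK uu BadK)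
open Pool.Agent.RHCB (BadC cred cemb uk PrC hM)
open Pool.Agent.RHCW (cmk)

section

variable {K : Type} [Field K] [NumberField K] {s r D m : ℕ}

/-- the points in `P`, congruent to `(ρ₀, ω₀)` modulo `q`, with primitive `x`, where `b f - g` is small and
divisible by `N` -/
private noncomputable def NLOWN_S (P : Set ((Fin s → 𝓞 K) × (Fin r → 𝓞 K))) (q : ℕ)
    (ρ₀ : Fin s → 𝓞 K) (ω₀ : Fin r → 𝓞 K) (b : ℕ) (g : Mon r D → 𝓞 K) (U X H κ N : ℕ)
    (f : Mon s (D * m) → 𝓞 K) : Finset ((Fin s → 𝓞 K) × (Fin r → 𝓞 K)) :=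
  (bx K s (X : ℝ) ×ˢ bx K r (U : ℝ)).filter fun p =>
    Prim p.1 ∧ (∀ v : InfinitePlace K, (X : ℝ) < 2 * vs v p.1) ∧
      (N : 𝓞 K) ∣ (b : 𝓞 K) * ev f p.1 - ev g p.2 ∧
      cz ((b : 𝓞 K) * ev f p.1 - ev g p.2) * κ ≤ b * (H * X ^ (D * m)) ∧
      (p ∈ P ∧ (∀ l, (q : 𝓞 K) ∣ p.1 l - ρ₀ l) ∧ ∀ j, (q : 𝓞 K) ∣ p.2 j - ω₀ j)

omit [NumberField K] in
private theorem NLOWN_red {n d : ℕ} (I : Ideal (𝓞 K)) (f : Mon n d → 𝓞 K) (x : Fin n → 𝓞 K) :
    ev (cred I f) (fun l => Ideal.Quotient.mk I (x l)) = Ideal.Quotient.mk I (ev f x) :=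
  ev_map (Ideal.Quotient.mk I) f x

private theorem NLOWN_card (W : ℕ) :
    Nat.card (𝓞 K ⧸ Ideal.span {(W : 𝓞 K)}) = W ^ dg K := by
  have h1 : Nat.card (𝓞 K ⧸ Ideal.span {(W : 𝓞 K)}) = Ideal.absNorm (Ideal.span {(W : 𝓞 K)}) := by
    rw [Ideal.absNorm_apply]
    rfl
  rw [h1, Ideal.absNorm_span_singleton]
  have h2 : Algebra.norm ℤ (W : 𝓞 K) = (W : ℤ) ^ dg K := by
    have h3 := Algebra.norm_algebraMap (R := ℤ) (S := 𝓞 K) (W : ℤ)
    rw [RingOfIntegers.rank] at h3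
    rw [← h3]
    congr 1
    exact (map_natCast (algebraMap ℤ (𝓞 K)) W).symm
  rw [h2, Int.natAbs_pow, Int.natAbs_natCast]

private theorem NLOWN_sum (P0 : Set ((Fin s → 𝓞 K) × (Fin r → 𝓞 K))) (q : ℕ) (ρ₀ : Fin s → 𝓞 K)
    (ω₀ : Fin r → 𝓞 K) (b : ℕ) (g : Mon r D → 𝓞 K) (U X H κ N : ℕ) (hN : 0 < N) (hq : q ∣ N)
    (f : Mon s (D * m) → 𝓞 K) (β : ℝ)
    (h : ∀ (ρ : Fin s → 𝓞 K) (ω : Fin r → 𝓞 K), PrC N ρ →
      β ≤ (RCnN P0 b g U X H κ N f ρ ω : ℝ)) :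
    (wcntN b q (cred (Ideal.span {(N : 𝓞 K)}) g) (cmk (Ideal.span {(N : 𝓞 K)}) ρ₀)
      (cmk (Ideal.span {(N : 𝓞 K)}) ω₀) (cred (Ideal.span {(N : 𝓞 K)}) f) : ℝ) * β ≤
      ((NLOWN_S P0 q ρ₀ ω₀ b g U X H κ N f).card : ℝ) := by
  unfold PrC at h
  set I : Ideal (𝓞 K) := Ideal.span {(N : 𝓞 K)} with hI
  have hfin : Finite (𝓞 K ⧸ I) := by
    refine Nat.finite_of_card_ne_zero ?_
    rw [hI, NLOWN_card]
    exact (pow_pos hN _).ne'
  have : Fintype (𝓞 K ⧸ I) := Fintype.ofFinite _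
  set P : Finset ((Fin s → 𝓞 K ⧸ I) × (Fin r → 𝓞 K ⧸ I)) :=
    Finset.univ.filter fun ρ => Prim ρ.1 ∧ ((∀ l, (q : 𝓞 K ⧸ I) ∣ ρ.1 l - cmk I ρ₀ l) ∧
      ∀ j, (q : 𝓞 K ⧸ I) ∣ ρ.2 j - cmk I ω₀ j) ∧
      (b : 𝓞 K ⧸ I) * ev (cred I f) ρ.1 = ev (cred I g) ρ.2 with hP
  have hcnt : wcntN b q (cred I g) (cmk I ρ₀) (cmk I ω₀) (cred I f) = P.card := by
    unfold wcntN
    rw [Nat.card_eq_fintype_card, Fintype.card_subtype]
  rw [hcnt]
  have hdvd : ∀ a : 𝓞 K, Ideal.Quotient.mk I a = 0 ↔ (N : 𝓞 K) ∣ a := by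
    intro a
    rw [Ideal.Quotient.eq_zero_iff_mem, hI, Ideal.mem_span_singleton]
  have hqW : (q : 𝓞 K) ∣ (N : 𝓞 K) := by
    obtain ⟨c, hc⟩ := hq
    exact ⟨(c : 𝓞 K), by rw [hc]; push_cast; rfl⟩
  -- divisibility by `q` of an integer and of its class
  have hqd : ∀ a b : 𝓞 K, (q : 𝓞 K ⧸ I) ∣ Ideal.Quotient.mk I a - Ideal.Quotient.mk I b ↔
      (q : 𝓞 K) ∣ a - b := by
    intro a b
    constructor
    · rintro ⟨c, hc⟩
      obtain ⟨c', rfl⟩ := Ideal.Quotient.mk_surjective (I := I) c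
      have h5 : Ideal.Quotient.mk I (a - b - q * c') = 0 := by
        rw [map_sub, map_sub, map_mul, map_natCast, hc, sub_self]
      have h6 := hqW.trans ((hdvd _).1 h5)
      have h7 : a - b = (a - b - q * c') + q * c' := by ring
      rw [h7]
      exact dvd_add h6 (dvd_mul_right _ _)
    · rintro ⟨c, hc⟩
      refine ⟨Ideal.Quotient.mk I c, ?_⟩
      rw [← map_sub, hc, map_mul, map_natCast]
  set π : ((Fin s → 𝓞 K) × (Fin r → 𝓞 K)) → ((Fin s → 𝓞 K ⧸ I) × (Fin r → 𝓞 K ⧸ I)) := fun p =>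
    (fun l => Ideal.Quotient.mk I (p.1 l), fun j => Ideal.Quotient.mk I (p.2 j)) with hπ
  have hev : ∀ p : (Fin s → 𝓞 K) × (Fin r → 𝓞 K), (N : 𝓞 K) ∣ (b : 𝓞 K) * ev f p.1 - ev g p.2 ↔
      (b : 𝓞 K ⧸ I) * ev (cred I f) (π p).1 = ev (cred I g) (π p).2 := by
    intro p
    rw [← hdvd, map_sub, map_mul, map_natCast, sub_eq_zero, ← NLOWN_red, ← NLOWN_red]
  have hmap : ∀ p ∈ NLOWN_S P0 q ρ₀ ω₀ b g U X H κ N f, π p ∈ P := by
    intro p hp
    unfold NLOWN_S at hp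
    rw [Finset.mem_filter] at hp
    rw [hP, Finset.mem_filter]
    exact ⟨Finset.mem_univ _, hp.2.1.map (Ideal.Quotient.mk I),
      ⟨fun l => (hqd _ _).2 (hp.2.2.2.2.2.2.1 l), fun j => (hqd _ _).2 (hp.2.2.2.2.2.2.2 j)⟩,
      (hev p).1 hp.2.2.2.1⟩
  have h1 := Finset.card_eq_sum_card_fiberwise hmap
  have hlift : ∀ ρ : (Fin s → 𝓞 K ⧸ I) × (Fin r → 𝓞 K ⧸ I),
      ∃ p : (Fin s → 𝓞 K) × (Fin r → 𝓞 K), π p = ρ := by
    intro ρ
    choose a ha using fun l => Ideal.Quotient.mk_surjective (I := I) (ρ.1 l)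
    choose w hw using fun j => Ideal.Quotient.mk_surjective (I := I) (ρ.2 j)
    exact ⟨(a, w), Prod.ext (funext ha) (funext hw)⟩
  choose L hL using hlift
  have h2 : ∀ ρ ∈ P, RCnN P0 b g U X H κ N f (L ρ).1 (L ρ).2 ≤
      ((NLOWN_S P0 q ρ₀ ω₀ b g U X H κ N f).filter fun p => π p = ρ).card := by
    intro ρ hρ
    rw [hP, Finset.mem_filter] at hρ
    unfold RCnN
    refine Finset.card_le_card fun p hp => ?_
    rw [Finset.mem_filter] at hp
    obtain ⟨hx1, ⟨hx2, hx3, hx4, hx5, hx6⟩, hx7⟩ := hp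
    have h3 : π p = ρ := by
      rw [← hL ρ, hπ]
      refine Prod.ext (funext fun l => ?_) (funext fun j => ?_)
      · have h4 := (hdvd _).2 (hx4 l)
        rw [map_sub, sub_eq_zero] at h4
        exact h4
      · have h4 := (hdvd _).2 (hx5 j)
        rw [map_sub, sub_eq_zero] at h4
        exact h4
    rw [Finset.mem_filter]
    refine ⟨?_, h3⟩
    unfold NLOWN_S
    rw [Finset.mem_filter]
    refine ⟨hx1, hx2, hx3, ?_, hx6, hx7, fun l => ?_, fun j => ?_⟩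
    · rw [hev, h3]
      exact hρ.2.2.2
    · have h5 := hρ.2.2.1.1 l
      rw [← h3] at h5
      exact (hqd _ _).1 h5
    · have h5 := hρ.2.2.1.2 j
      rw [← h3] at h5
      exact (hqd _ _).1 h5
  have h3 : ∀ ρ ∈ P, β ≤ (((NLOWN_S P0 q ρ₀ ω₀ b g U X H κ N f).filter fun p => π p = ρ).card : ℝ) := by
    intro ρ hρ
    have h4 : β ≤ (RCnN P0 b g U X H κ N f (L ρ).1 (L ρ).2 : ℝ) := by
      apply h
      have h5 := congrArg Prod.fst (hL ρ)
      rw [hP, Finset.mem_filter] at hρ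
      have h6 := hρ.2.1
      rw [← h5] at h6
      exact h6
    refine h4.trans ?_
    exact_mod_cast h2 ρ hρ
  have h4 := Finset.sum_le_sum h3
  rw [Finset.sum_const, nsmul_eq_mul] at h4
  rw [h1]
  push_cast
  exact h4

/-- the coordinates of a multiple -/
private theorem NLOWN_cz (b : ℕ) (z : 𝓞 K) : b * cz z ≤ cz ((b : 𝓞 K) * z) := by
  have h1 : ∀ j, co ((b : 𝓞 K) * z) j = b * co z j := by
    intro j
    unfold co
    have h2 : (b : 𝓞 K) * z = (b : ℤ) • z := by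
      rw [zsmul_eq_mul]
      push_cast
      rfl
    rw [h2, map_zsmul]
    rfl
  unfold cz
  rcases Nat.eq_zero_or_pos b with rfl | hb
  · simp
  have h3 : ∀ j, (co z j).natAbs ≤ (Finset.univ.sup fun j => (co ((b : 𝓞 K) * z) j).natAbs) / b := by
    intro j
    rw [Nat.le_div_iff_mul_le hb]
    have h4 := Finset.le_sup (f := fun j => (co ((b : 𝓞 K) * z) j).natAbs) (Finset.mem_univ j)
    refine le_trans (le_of_eq ?_) h4
    show (co z j).natAbs * b = (co ((b : 𝓞 K) * z) j).natAbs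
    rw [h1, Int.natAbs_mul, Int.natAbs_natCast, mul_comm]
  have h5 := Finset.sup_le (s := Finset.univ) (f := fun j => (co z j).natAbs) fun j _ => h3 j
  rw [Nat.le_div_iff_mul_le hb] at h5
  rw [mul_comm]
  exact h5

end

/-- the number of the integers of absolute value at most `T` -/
private theorem NLOWN_pb (hC : RHKB.St_CUP) (K : Type) [Field K] [NumberField K] :
    ∃ C : ℝ, 0 < C ∧ ∀ T : ℝ, 1 ≤ T → ((pb K T).card : ℝ) ≤ (C * T) ^ dg K := by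
  obtain ⟨C, hC0, hCU⟩ := hC K
  refine ⟨C + 1, by linarith, fun T hT => ?_⟩
  have h1 := (hCU ⊤ 1 one_pos (by simp) T (by linarith) (fun _ => 0) 0).2
  have h2 : {a : 𝓞 K | (∀ v : InfinitePlace K, ‖jj v.Completion a - 0‖ ≤ T) ∧
      a - 0 ∈ (⊤ : Ideal (𝓞 K))} = ((pb K T : Finset (𝓞 K)) : Set (𝓞 K)) := by
    ext a
    rw [Set.mem_ofPred_eq, Finset.mem_coe, mem_pb]
    have h3 : ∀ v : InfinitePlace K, ‖jj v.Completion a - 0‖ = av v a := by
      intro v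
      rw [sub_zero]
      unfold jj av
      exact InfinitePlace.Completion.norm_coe v _
    simp only [h3, Submodule.mem_top, and_true]
  rw [h2, Set.ncard_coe_finset] at h1
  refine h1.trans ?_
  refine pow_le_pow_left₀ (by positivity) ?_ _
  rw [div_one]
  nlinarith

/-- the number of the vectors of size at most `T` -/
private theorem NLOWN_bx {K : Type} [Field K] [NumberField K] {C : ℝ}
    (hpb : ∀ T : ℝ, 1 ≤ T → ((pb K T).card : ℝ) ≤ (C * T) ^ dg K) (n : ℕ) (T : ℝ) (hT : 1 ≤ T) :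
    ((bx K n T).card : ℝ) ≤ ((C * T) ^ n) ^ dg K := by
  rw [Fintype.card_piFinset, Finset.prod_const, Finset.card_univ, Fintype.card_fin]
  push_cast
  rw [← pow_mul, mul_comm n, pow_mul]
  exact pow_le_pow_left₀ (by positivity) (hpb T hT) _

/-- a good point contributes to the local model -/
private theorem NLOWN_pt {K : Type} [Field K] [NumberField K] {r D : ℕ} {g : Mon r D → 𝓞 K}
    {b W κ Z : ℕ} (hb : 0 < b) (hκ : 0 < κ) {y : 𝓞 K} {w : Fin r → 𝓞 K}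
    (h1 : ((b * W : ℕ) : 𝓞 K) ∣ (b : 𝓞 K) * y - ev g w)
    (h2 : cz ((b : 𝓞 K) * y - ev g w) * κ ≤ b * Z) :
    (b : 𝓞 K) ∣ ev g w ∧ (W : 𝓞 K) ∣ y - aG g b w ∧ cz (y - aG g b w) ≤ Z / κ := by
  have hb0 : (b : 𝓞 K) ≠ 0 := by exact_mod_cast hb.ne'
  have h3 : (b : 𝓞 K) ∣ ev g w := by
    have h4 : (b : 𝓞 K) ∣ (b : 𝓞 K) * y - ev g w := by
      refine dvd_trans ?_ h1
      push_cast
      exact dvd_mul_right _ _
    exact (dvd_sub_right (dvd_mul_right _ _)).1 h4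
  have h5 : (b : 𝓞 K) * y - ev g w = (b : 𝓞 K) * (y - aG g b w) := by
    rw [mul_sub, aG_mul h3]
  refine ⟨h3, ?_, ?_⟩
  · rw [h5] at h1
    push_cast at h1
    exact (mul_dvd_mul_iff_left hb0).1 h1
  · rw [h5] at h2
    rw [Nat.le_div_iff_mul_le hκ]
    have h6 := (Nat.mul_le_mul_right κ (NLOWN_cz b (y - aG g b w))).trans h2
    rw [mul_assoc] at h6
    exact Nat.le_of_mul_le_mul_left h6 hb

/-- the weight of a point -/
private theorem NLOWN_TC {e s c t H κ W d : ℕ} (hκ : 0 < κ) (hW : 0 < W) (hX : 1 ≤ XC s c t)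
    (hH : (κ : ℝ) * W ≤ H) :
    (((κ : ℝ) * W) / (3 * (H * (XC s c t : ℝ) ^ d))) ^ e ≤ 1 / (TC e s c t H κ W d : ℝ) := by
  have hκr : (0 : ℝ) < κ := by exact_mod_cast hκ
  have hWr : (0 : ℝ) < W := by exact_mod_cast hW
  have hH0 : (0 : ℝ) < H := lt_of_lt_of_le (by positivity) hH
  have hXr : (1 : ℝ) ≤ XC s c t := by exact_mod_cast hX
  have hX0 : (0 : ℝ) < XC s c t := by linarith
  obtain ⟨Z, hZ⟩ : ∃ Z : ℝ, Z = H * (XC s c t : ℝ) ^ d := ⟨_, rfl⟩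
  rw [← hZ]
  have hZ0 : 0 < Z := by rw [hZ]; positivity
  have h7 : (1 : ℝ) ≤ Z / (κ * W) := by
    rw [le_div_iff₀ (by positivity), one_mul, hZ]
    have h8 : (1 : ℝ) ≤ (XC s c t : ℝ) ^ d := one_le_pow₀ hXr
    have h9 : (H : ℝ) * 1 ≤ H * (XC s c t : ℝ) ^ d := mul_le_mul_of_nonneg_left h8 hH0.le
    linarith
  have h8 : ((ThC s c t H κ d / W : ℕ) : ℝ) ≤ Z / (κ * W) := by
    refine Nat.cast_div_le.trans ?_
    rw [div_le_div_iff₀ hWr (by positivity)]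
    have h9 : ((ThC s c t H κ d : ℕ) : ℝ) ≤ Z / κ := by
      unfold ThC
      refine Nat.cast_div_le.trans ?_
      rw [hZ]
      push_cast
      exact le_rfl
    rw [le_div_iff₀ hκr] at h9
    have h10 := mul_le_mul_of_nonneg_right h9 hWr.le
    linarith
  have h9 : (((κ : ℝ) * W) / (3 * Z)) ^ e = 1 / (3 * (Z / (κ * W))) ^ e := by
    rw [one_div, ← inv_pow]
    congr 1
    field_simp
  rw [h9]
  apply one_div_le_one_div_of_le
  · unfold TC
    positivity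
  · unfold TC
    push_cast
    refine pow_le_pow_left₀ (by positivity) ?_ e
    linarith

/-- NLOWN: the local model in a residue class is large if the local densities are. -/
theorem thm_NLOWN (hG : RHCB.St_NGCC) (hC : RHKB.St_CUP) (hGZ : St_GZ) : St_NLOWN := by
  intro K _ _ s r D m hyp g hg A c v b hA hc hv hb c₁ σ₀ hc₁ hσ κ W q hκ hW hqW
  obtain ⟨C, hC0, tN, hN⟩ := hG K s (by have := hyp.hs; omega) c hc
  obtain ⟨C', hC'0, hpb⟩ := NLOWN_pb hC K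
  obtain ⟨C2, hC20, hgz⟩ := hGZ K r D hyp.hD g hg
  have hκr : (0 : ℝ) < κ := by exact_mod_cast hκ
  have hWr : (0 : ℝ) < W := by exact_mod_cast hW
  have hAr : (0 : ℝ) < A := by exact_mod_cast hA
  have hbr : (0 : ℝ) < b := by exact_mod_cast hb
  have hbW : 0 < b * W := Nat.mul_pos hb hW
  have he1 : 1 ≤ dg K := Module.finrank_pos
  set e := dg K with he
  obtain ⟨K0, hK0⟩ : ∃ K0 : ℝ, K0 = C * ((C' * A) ^ r) ^ e + (C' ^ s) ^ e * C2 * ((A : ℝ) ^ r) ^ e :=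
    ⟨_, rfl⟩
  have hK00 : 0 ≤ K0 := by rw [hK0]; positivity
  obtain ⟨t0, ht0⟩ := exists_nat_ge (max ((κ : ℝ) * W)
    (2 * K0 * (κ * (b * W)) ^ e / (σ₀ * c₁)))
  refine ⟨max (t0 + 1) tN, fun t ht V H hH ρ₀ ω₀ f hsig P0 hRC => ?_⟩
  have ht1 : 1 ≤ t := by have := le_max_left (t0 + 1) tN; omega
  have htN : tN ≤ t := (le_max_right _ _).trans ht
  have htr : (t0 : ℝ) ≤ t := by
    have := le_max_left (t0 + 1) tN
    exact_mod_cast (by omega : t0 ≤ t)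
  have hta : (κ : ℝ) * W ≤ t := (le_max_left _ _).trans (ht0.trans htr)
  have htb : 2 * K0 * (κ * (b * W)) ^ e / (σ₀ * c₁) ≤ t :=
    (le_max_right _ _).trans (ht0.trans htr)
  have htp : (0 : ℝ) < t := by exact_mod_cast ht1
  have hX1 : 1 ≤ XC s c t := by
    unfold XC
    exact Nat.one_le_pow _ _ ht1
  obtain ⟨X, hX⟩ : ∃ X : ℕ, X = XC s c t := ⟨_, rfl⟩
  obtain ⟨Q, hQ⟩ : ∃ Q : ℕ, Q = QN s m c t V := ⟨_, rfl⟩
  have hXr : (1 : ℝ) ≤ X := by rw [hX]; exact_mod_cast hX1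
  have hX0 : (0 : ℝ) < X := by linarith
  obtain ⟨hV1, -, hH1, -⟩ := hH
  have hVt : t ≤ V := (Nat.le_self_pow (by omega) t).trans hV1
  have hV0 : 1 ≤ V := ht1.trans hVt
  have hHt : t ≤ H := (hVt.trans (Nat.le_self_pow (by have := hyp.hD; omega) V)).trans hH1
  have hHr : (t : ℝ) ≤ H := by exact_mod_cast hHt
  have hH0 : (0 : ℝ) < H := by linarith
  have hQV : V ≤ Q := by
    rw [hQ]
    unfold QN
    exact Nat.le_mul_of_pos_left V (pow_pos (by omega) m)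
  have hQ1 : 1 ≤ Q := hV0.trans hQV
  have hQr : (1 : ℝ) ≤ Q := by exact_mod_cast hQ1
  have hQ0 : (0 : ℝ) < Q := by linarith
  have hU1 : 1 ≤ A * Q := Nat.mul_pos hA hQ1
  have hUr : (1 : ℝ) ≤ ((A * Q : ℕ) : ℝ) := by exact_mod_cast hU1
  have hUt : (t : ℝ) ≤ ((A * Q : ℕ) : ℝ) ^ e := by
    have h1 : t ≤ (A * Q) ^ e := by
      refine le_trans ?_ (Nat.le_self_pow (by omega) (A * Q))
      exact (hVt.trans hQV).trans (Nat.le_mul_of_pos_left Q hA)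
    exact_mod_cast h1
  -- the set of all points
  obtain ⟨S, hS⟩ : ∃ S : Finset ((Fin s → 𝓞 K) × (Fin r → 𝓞 K)),
    S = NLOWN_S P0 q ρ₀ ω₀ b g (A * Q) X H κ (b * W) f := ⟨_, rfl⟩
  obtain ⟨Y, hY⟩ : ∃ Y : ℝ, Y = (X : ℝ) ^ s * (Q : ℝ) ^ r := ⟨_, rfl⟩
  have hY0 : 0 < Y := by rw [hY]; positivity
  rw [← hX, ← hQ, ← hY] at hRC
  have h1 := NLOWN_sum P0 q ρ₀ ω₀ b g (A * Q) X H κ (b * W) hbW hqW f
    (c₁ * Y ^ e / ((κ : ℝ) ^ e * ((b * W : ℕ) : ℝ) ^ (e * (s + r)))) hRC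
  rw [← hS] at h1
  have h2 : σ₀ * c₁ * Y ^ e / ((κ : ℝ) * (b * W)) ^ e ≤ (S.card : ℝ) := by
    refine le_trans ?_ h1
    unfold wsigN at hsig
    rw [NLOWN_card] at hsig
    obtain ⟨n, hn⟩ : ∃ n : ℝ, n = ((b * W : ℕ) : ℝ) ^ e := ⟨_, rfl⟩
    have hn0 : 0 < n := by
      rw [hn]
      have : (0 : ℝ) < ((b * W : ℕ) : ℝ) := by exact_mod_cast hbW
      positivity
    have hn1 : (((b * W) ^ e : ℕ) : ℝ) = n := by
      rw [hn]
      push_cast
      rfl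
    have hn2 : ((b * W : ℕ) : ℝ) ^ (e * (s + r)) = n ^ (s + r) := by rw [hn, ← pow_mul]
    rw [← he, hn1] at hsig
    have h3 : σ₀ * n ^ (s + r) / n ≤ (wcntN b q (cred (Ideal.span {((b * W : ℕ) : 𝓞 K)}) g)
        (cmk (Ideal.span {((b * W : ℕ) : 𝓞 K)}) ρ₀) (cmk (Ideal.span {((b * W : ℕ) : 𝓞 K)}) ω₀)
        (cred (Ideal.span {((b * W : ℕ) : 𝓞 K)}) f) : ℝ) := by
      rw [div_le_iff₀ hn0]
      rwa [le_div_iff₀ (by positivity)] at hsig
    have h4 : σ₀ * c₁ * Y ^ e / ((κ : ℝ) * (b * W)) ^ e =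
        σ₀ * n ^ (s + r) / n * (c₁ * Y ^ e / ((κ : ℝ) ^ e * ((b * W : ℕ) : ℝ) ^ (e * (s + r)))) := by
      rw [hn2, mul_pow]
      have h5 : ((b : ℝ) * W) ^ e = n := by
        rw [hn]
        push_cast
        rfl
      rw [h5]
      field_simp
    rw [h4]
    exact mul_le_mul_of_nonneg_right h3 (by positivity)
  -- the points on hyperplanes
  have h3 : ((S.filter fun p => p.1 ∉ CG K s c t).card : ℝ) * t ≤
      C * ((C' * A) ^ r) ^ e * Y ^ e := by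
    have h4 : (S.filter fun p => p.1 ∉ CG K s c t) ⊆
        ((bx K s ((XC s c t : ℕ) : ℝ)).filter fun x => ∃ l : Fin s → 𝓞 K, l ≠ 0 ∧
          (∀ v : InfinitePlace K, vs v l ≤ (t : ℝ) ^ c) ∧ dp l x = 0) ×ˢ
          bx K r ((A * Q : ℕ) : ℝ) := by
      intro p hp
      rw [Finset.mem_filter] at hp
      obtain ⟨hx1, hx2⟩ := hp
      rw [hS] at hx1
      unfold NLOWN_S at hx1
      rw [hX, Finset.mem_filter, Finset.mem_product] at hx1
      rw [Finset.mem_product, Finset.mem_filter]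
      refine ⟨⟨hx1.1.1, ?_⟩, hx1.1.2⟩
      by_contra hcon
      push Not at hcon
      apply hx2
      unfold CG
      rw [Finset.mem_filter]
      exact ⟨hx1.1.1, hx1.2.1, hx1.2.2.1, hcon⟩
    have h5 := Finset.card_le_card h4
    rw [Finset.card_product] at h5
    have h6 : ((S.filter fun p => p.1 ∉ CG K s c t).card : ℝ) ≤
        (((bx K s ((XC s c t : ℕ) : ℝ)).filter fun x => ∃ l : Fin s → 𝓞 K, l ≠ 0 ∧
          (∀ v : InfinitePlace K, vs v l ≤ (t : ℝ) ^ c) ∧ dp l x = 0).card : ℝ) *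
          ((bx K r ((A * Q : ℕ) : ℝ)).card : ℝ) := by exact_mod_cast h5
    have h7 := hN t htN
    have h8 := NLOWN_bx hpb r _ hUr
    rw [← he] at h8
    calc ((S.filter fun p => p.1 ∉ CG K s c t).card : ℝ) * t ≤
        (((bx K s ((XC s c t : ℕ) : ℝ)).filter fun x => ∃ l : Fin s → 𝓞 K, l ≠ 0 ∧
          (∀ v : InfinitePlace K, vs v l ≤ (t : ℝ) ^ c) ∧ dp l x = 0).card : ℝ) *
          ((bx K r ((A * Q : ℕ) : ℝ)).card : ℝ) * t := mul_le_mul_of_nonneg_right h6 htp.le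
      _ = (((bx K s ((XC s c t : ℕ) : ℝ)).filter fun x => ∃ l : Fin s → 𝓞 K, l ≠ 0 ∧
          (∀ v : InfinitePlace K, vs v l ≤ (t : ℝ) ^ c) ∧ dp l x = 0).card : ℝ) * t *
          ((bx K r ((A * Q : ℕ) : ℝ)).card : ℝ) := by ring
      _ ≤ C * ((X : ℝ) ^ s) ^ e * ((C' * (A * Q)) ^ r) ^ e := by
          refine mul_le_mul ?_ ?_ (Nat.cast_nonneg _) (by positivity)
          · rw [hX]
            exact h7
          · refine h8.trans (le_of_eq ?_)
            push_cast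
            rfl
      _ = C * ((C' * A) ^ r) ^ e * Y ^ e := by
          rw [hY]
          simp only [mul_pow]
          ring
  -- the points with `g = 0`
  have h3' : ((S.filter fun p => ev g p.2 = 0).card : ℝ) * t ≤
      (C' ^ s) ^ e * C2 * ((A : ℝ) ^ r) ^ e * Y ^ e := by
    have h4 : (S.filter fun p => ev g p.2 = 0) ⊆
        bx K s (X : ℝ) ×ˢ ((bx K r ((A * Q : ℕ) : ℝ)).filter fun w => ev g w = 0) := by
      intro p hp
      rw [Finset.mem_filter] at hp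
      obtain ⟨hx1, hx2⟩ := hp
      rw [hS] at hx1
      unfold NLOWN_S at hx1
      rw [Finset.mem_filter, Finset.mem_product] at hx1
      rw [Finset.mem_product, Finset.mem_filter]
      exact ⟨hx1.1.1, hx1.1.2, hx2⟩
    have h5 := Finset.card_le_card h4
    rw [Finset.card_product] at h5
    have h6 : ((S.filter fun p => ev g p.2 = 0).card : ℝ) ≤ ((bx K s (X : ℝ)).card : ℝ) *
        (((bx K r ((A * Q : ℕ) : ℝ)).filter fun w => ev g w = 0).card : ℝ) := by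
      exact_mod_cast h5
    have h7 := NLOWN_bx hpb s _ hXr
    have h8 := hgz (A * Q) 0 hU1
    rw [← he] at h7
    have h9 : (((bx K r ((A * Q : ℕ) : ℝ)).filter fun w => ev g w = 0).card : ℝ) * t ≤
        C2 * (((A * Q : ℕ) : ℝ) ^ r) ^ e :=
      (mul_le_mul_of_nonneg_left hUt (Nat.cast_nonneg _)).trans h8
    calc ((S.filter fun p => ev g p.2 = 0).card : ℝ) * t ≤ ((bx K s (X : ℝ)).card : ℝ) *
        (((bx K r ((A * Q : ℕ) : ℝ)).filter fun w => ev g w = 0).card : ℝ) * t :=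
          mul_le_mul_of_nonneg_right h6 htp.le
      _ = ((bx K s (X : ℝ)).card : ℝ) *
        ((((bx K r ((A * Q : ℕ) : ℝ)).filter fun w => ev g w = 0).card : ℝ) * t) := by ring
      _ ≤ ((C' * X) ^ s) ^ e * (C2 * (((A * Q : ℕ) : ℝ) ^ r) ^ e) := by
          refine mul_le_mul h7 h9 (by positivity) (by positivity)
      _ = (C' ^ s) ^ e * C2 * ((A : ℝ) ^ r) ^ e * Y ^ e := by
          rw [hY]
          push_cast
          simp only [mul_pow]
          ring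
  obtain ⟨S', hS'⟩ : ∃ S' : Finset ((Fin s → 𝓞 K) × (Fin r → 𝓞 K)),
    S' = S.filter fun p => p.1 ∈ CG K s c t ∧ ev g p.2 ≠ 0 := ⟨_, rfl⟩
  have h4 : (S.card : ℝ) ≤ (S'.card : ℝ) + ((S.filter fun p => p.1 ∉ CG K s c t).card : ℝ) +
      ((S.filter fun p => ev g p.2 = 0).card : ℝ) := by
    have h5 : S ⊆ (S' ∪ S.filter fun p => p.1 ∉ CG K s c t) ∪ S.filter fun p => ev g p.2 = 0 := by
      intro p hp
      rw [Finset.mem_union, Finset.mem_union, hS', Finset.mem_filter, Finset.mem_filter,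
        Finset.mem_filter]
      by_cases h5 : p.1 ∈ CG K s c t
      · by_cases h6 : ev g p.2 = 0
        · exact Or.inr ⟨hp, h6⟩
        · exact Or.inl (Or.inl ⟨hp, h5, h6⟩)
      · exact Or.inl (Or.inr ⟨hp, h5⟩)
    have h6 := (Finset.card_le_card h5).trans (Finset.card_union_le _ _)
    have h7 := Finset.card_union_le S' (S.filter fun p => p.1 ∉ CG K s c t)
    have h8 : S.card ≤ S'.card + (S.filter fun p => p.1 ∉ CG K s c t).card +
      (S.filter fun p => ev g p.2 = 0).card := by omega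
    exact_mod_cast h8
  have h5 : σ₀ * c₁ * Y ^ e / (2 * ((κ : ℝ) * (b * W)) ^ e) ≤ (S'.card : ℝ) := by
    have h6 : ((S.filter fun p => p.1 ∉ CG K s c t).card : ℝ) +
      ((S.filter fun p => ev g p.2 = 0).card : ℝ) ≤
        σ₀ * c₁ * Y ^ e / (2 * ((κ : ℝ) * (b * W)) ^ e) := by
      have h7 : ((S.filter fun p => p.1 ∉ CG K s c t).card : ℝ) +
          ((S.filter fun p => ev g p.2 = 0).card : ℝ) ≤ K0 * Y ^ e / t := by
        rw [le_div_iff₀ htp, hK0]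
        linarith
      refine h7.trans ?_
      rw [div_le_div_iff₀ htp (by positivity)]
      rw [div_le_iff₀ (by positivity)] at htb
      have h8 := mul_le_mul_of_nonneg_left htb (by positivity : (0 : ℝ) ≤ Y ^ e)
      linarith
    have h9 : σ₀ * c₁ * Y ^ e / ((κ : ℝ) * (b * W)) ^ e =
        2 * (σ₀ * c₁ * Y ^ e / (2 * ((κ : ℝ) * (b * W)) ^ e)) := by
      field_simp
    linarith
  -- the contribution of a point
  have h6 := NLOWN_TC (e := e) (d := D * m) hκ hW hX1 (hta.trans hHr)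
  rw [← hX] at h6
  obtain ⟨Z, hZ⟩ : ∃ Z : ℝ, Z = H * (X : ℝ) ^ (D * m) := ⟨_, rfl⟩
  have hZ0 : 0 < Z := by rw [hZ]; positivity
  rw [← hZ] at h6
  have h8 : (S'.card : ℝ) * (((κ : ℝ) * W) / (3 * Z)) ^ e ≤
      NAL (BG g b (A * Q)) (aG g b)
        {p | p ∈ P0 ∧ (∀ l, (q : 𝓞 K) ∣ p.1 l - ρ₀ l) ∧ ∀ j, (q : 𝓞 K) ∣ p.2 j - ω₀ j}
        c t H κ W f := by
    obtain ⟨P1, hP1⟩ : ∃ P1 : Set ((Fin s → 𝓞 K) × (Fin r → 𝓞 K)),
      P1 = {p | p ∈ P0 ∧ (∀ l, (q : 𝓞 K) ∣ p.1 l - ρ₀ l) ∧ ∀ j, (q : 𝓞 K) ∣ p.2 j - ω₀ j} :=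
        ⟨_, rfl⟩
    rw [← hP1]
    unfold NAL
    rw [← Finset.sum_product']
    have hpt : ∀ p ∈ S', p.1 ∈ CG K s c t ∧ p.2 ∈ bx K r ((A * Q : ℕ) : ℝ) ∧ ev g p.2 ≠ 0 ∧
        (b : 𝓞 K) ∣ ev g p.2 ∧ (W : 𝓞 K) ∣ ev f p.1 - aG g b p.2 ∧
        cz (ev f p.1 - aG g b p.2) ≤ H * X ^ (D * m) / κ ∧ p ∈ P1 := by
      intro p hp
      rw [hS', Finset.mem_filter] at hp
      obtain ⟨hp1, hp2, hp3⟩ := hp
      rw [hS] at hp1
      unfold NLOWN_S at hp1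
      rw [Finset.mem_filter, Finset.mem_product] at hp1
      obtain ⟨h9, h10, h11⟩ := NLOWN_pt hb hκ hp1.2.2.2.1 hp1.2.2.2.2.1
      refine ⟨hp2, hp1.1.2, hp3, h9, h10, h11, ?_⟩
      rw [hP1]
      exact hp1.2.2.2.2.2
    have hsub : S' ⊆ CG K s c t ×ˢ BG g b (A * Q) := by
      intro p hp
      obtain ⟨h9, h10, h11, h12, -⟩ := hpt p hp
      rw [Finset.mem_product]
      refine ⟨h9, ?_⟩
      unfold BG
      exact Finset.mem_filter.2 ⟨h10, h12, h11⟩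
    refine le_trans ?_ (Finset.sum_le_sum_of_subset_of_nonneg hsub ?_)
    · rw [← nsmul_eq_mul, ← Finset.sum_const]
      refine Finset.sum_le_sum fun p hp => ?_
      obtain ⟨-, -, -, -, h13, h14, h15⟩ := hpt p hp
      have hx3 : (p.1, p.2) ∈ P1 := h15
      rw [if_pos hx3, if_pos]
      · exact h6
      · refine ⟨h13, ?_⟩
        unfold ThC
        rw [← hX]
        exact h14
    · intro x _ _
      split_ifs
      · positivity
      · exact le_rfl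
      · exact le_rfl
  rw [← hQ]
  refine le_trans ?_ h8
  refine le_trans (le_of_eq ?_) (mul_le_mul_of_nonneg_right h5 (by positivity))
  unfold EN
  rw [← hX, ← hQ, ← hY, ← hZ, div_pow, div_pow, mul_pow 3 Z]
  field_simp
  rw [← mul_pow]
  congr 1
  ring

end Pool.Agent.NRM
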