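import Pool.Agent.NRM.StA
import Pool.Agent.RHM.PBC

/-!
NRM, NOKA: the diagonal bound for an arbitrary form `g ≠ 0` with `m (D - 1) < s`, `kap = D - 1` (helper18).
-/

set_option autoImplicit false

namespace Pool.Agent.NRM

open scoped BigOperators
open Classical NumberField IsDedekindDomain
open Pool.Agent.RHP (Mon mono ev Sys Prim pd WB WW)
open Pool.Agent.RHK Pool.Agent.RHC
open Pool.Agent.RHM

/-- the condition on the exponent `kap = D - 1` -/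
theorem NOKA_exp {s D m : ℕ} (h : NHyp s D m) (hm : m * (D - 1) < s) :
    (((D - 1 : ℕ) : ℝ)) * (m + 2 / (((s - 1 : ℕ) : ℝ) * D)) < s := by
  have h1 := h.hs
  have h2 := h.hD
  obtain ⟨n, hn⟩ : ∃ n, s = n + 1 := ⟨s - 1, by omega⟩
  obtain ⟨e, he⟩ : ∃ e, D = e + 1 := ⟨D - 1, by omega⟩
  subst hn he
  have hn2 : (2 : ℝ) ≤ n := by exact_mod_cast (by omega : 2 ≤ n)
  have he1 : (1 : ℝ) ≤ e := by exact_mod_cast (by omega : 1 ≤ e)
  simp only [Nat.add_sub_cancel] at hm ⊢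
  have hme : (m : ℝ) * e ≤ n := by exact_mod_cast (by omega : m * e ≤ n)
  have hD0 : (0 : ℝ) < (n : ℝ) * ((e + 1 : ℕ) : ℝ) := by
    push_cast
    positivity
  have h3 : (e : ℝ) * (2 / ((n : ℝ) * ((e + 1 : ℕ) : ℝ))) < 1 := by
    rw [← mul_div_assoc, div_lt_one hD0]
    push_cast
    nlinarith
  push_cast at h3 ⊢
  nlinarith

/-- a fibre count gives a pair count -/
theorem NOKA_pairs {K : Type} [Field K] [NumberField K] {r D : ℕ} (g : Mon r D → 𝓞 K)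
    (S : Finset (Fin r → 𝓞 K)) (B : ℝ)
    (hB : ∀ a : 𝓞 K, ((S.filter fun w => ev g w = a).card : ℝ) ≤ B) :
    (((S ×ˢ S).filter fun p => ev g p.1 = ev g p.2 ∧ ev g p.1 ≠ 0).card : ℝ) ≤ S.card * B := by
  have h1 : ((S ×ˢ S).filter fun p => ev g p.1 = ev g p.2 ∧ ev g p.1 ≠ 0).card ≤
      ∑ w ∈ S, (S.filter fun w' => ev g w' = ev g w).card := by
    rw [← Finset.card_sigma]
    refine Finset.card_le_card_of_injOn (fun p => ⟨p.1, p.2⟩) ?_ ?_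
    · intro p hp
      have hp' := Finset.mem_filter.1 (Finset.mem_coe.1 hp)
      rw [Finset.mem_product] at hp'
      refine Finset.mem_coe.2 (Finset.mem_sigma.2 ⟨hp'.1.1, ?_⟩)
      exact Finset.mem_filter.2 ⟨hp'.1.2, hp'.2.1.symm⟩
    · intro p _ q _ hpq
      have e1 := congrArg Sigma.fst hpq
      have e2 := congrArg (fun z : (_ : Fin r → 𝓞 K) × (Fin r → 𝓞 K) => z.2) hpq
      exact Prod.ext e1 e2
  calc (((S ×ˢ S).filter fun p => ev g p.1 = ev g p.2 ∧ ev g p.1 ≠ 0).card : ℝ)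
      ≤ ((∑ w ∈ S, (S.filter fun w' => ev g w' = ev g w).card : ℕ) : ℝ) := by exact_mod_cast h1
    _ = ∑ w ∈ S, ((S.filter fun w' => ev g w' = ev g w).card : ℝ) := by push_cast; rfl
    _ ≤ ∑ _w ∈ S, B := Finset.sum_le_sum fun w _ => hB _
    _ = S.card * B := by rw [Finset.sum_const, nsmul_eq_mul]

/-- [NOKA] every form `g ≠ 0`, `m (D - 1) < s` -/
theorem thm_NOKA (h1 : St_GZ) (h2 : RHM.St_PBC) : St_NOKA := by
  intro K _ _ s r D m hN hm g hg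
  obtain ⟨C1, hC1, H1⟩ := h1 K r D hN.hD g hg
  obtain ⟨C2, hC2, H2⟩ := h2 K r
  refine ⟨((D - 1 : ℕ) : ℝ), Nat.cast_nonneg _, ?_, NOKA_exp hN hm⟩
  refine ⟨C2 * C1, mul_pos hC2 hC1, ?_⟩
  intro U hU
  have hU0 : (0 : ℝ) < U := by exact_mod_cast hU
  have hUd : (0 : ℝ) < (U : ℝ) ^ dg K := pow_pos hU0 _
  have hB : ∀ a : 𝓞 K, (((bx K r (U : ℝ)).filter fun w => ev g w = a).card : ℝ) ≤
      C1 * ((U : ℝ) ^ r) ^ dg K / (U : ℝ) ^ dg K := by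
    intro a
    rw [le_div_iff₀ hUd]
    exact H1 U a hU
  have h3 := NOKA_pairs g (bx K r (U : ℝ)) _ hB
  have h4 := H2 U hU
  have hD : D = (D - 1) + 1 := by have := hN.hD; omega
  have h5 : ((U : ℝ) ^ D) ^ dg K = (U : ℝ) ^ dg K * ((U : ℝ) ^ (D - 1)) ^ dg K := by
    rw [← mul_pow]
    congr 1
    conv_lhs => rw [hD]
    rw [pow_succ, mul_comm]
  have h6 : (U : ℝ) ^ (((D - 1 : ℕ) : ℝ)) = (U : ℝ) ^ (D - 1) := Real.rpow_natCast _ _
  have h7 : ((U : ℝ) ^ (2 * r)) ^ dg K = ((U : ℝ) ^ r) ^ dg K * ((U : ℝ) ^ r) ^ dg K := by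
    rw [← mul_pow, ← pow_add, two_mul]
  rw [h5, h6, h7]
  have hY : (0 : ℝ) ≤ ((U : ℝ) ^ (D - 1)) ^ dg K := by positivity
  have hZ : (0 : ℝ) ≤ C1 * ((U : ℝ) ^ r) ^ dg K / (U : ℝ) ^ dg K := by positivity
  calc _ ≤ (((bx K r (U : ℝ)).card : ℝ) * (C1 * ((U : ℝ) ^ r) ^ dg K / (U : ℝ) ^ dg K)) *
        ((U : ℝ) ^ dg K * ((U : ℝ) ^ (D - 1)) ^ dg K) :=
        mul_le_mul_of_nonneg_right h3 (by positivity)
    _ ≤ ((C2 * ((U : ℝ) ^ r) ^ dg K) * (C1 * ((U : ℝ) ^ r) ^ dg K / (U : ℝ) ^ dg K)) *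
        ((U : ℝ) ^ dg K * ((U : ℝ) ^ (D - 1)) ^ dg K) :=
        mul_le_mul_of_nonneg_right (mul_le_mul_of_nonneg_right h4 hZ) (by positivity)
    _ = C2 * C1 * (((U : ℝ) ^ r) ^ dg K * ((U : ℝ) ^ r) ^ dg K) *
        ((U : ℝ) ^ (D - 1)) ^ dg K := by
        field_simp

end Pool.Agent.NRM
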