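import Pool.Agent.NRM.StA

/-!
NRM, module NOKB: the diagonal bound for decomposable forms (helper5).
-/

set_option autoImplicit false

namespace Pool.Agent.NRM

open scoped BigOperators
open Classical NumberField IsDedekindDomain
open Pool.Agent.RHP (Mon mono ev Sys Prim pd WB WW)
open Pool.Agent.RHK Pool.Agent.RHC

private theorem NOKB_r {K : Type} [Field K] [NumberField K] (r D : ℕ) (hD : 2 ≤ D)
    (g : Mon r D → 𝓞 K) (hg : g ≠ 0) : 1 ≤ r := by
  by_contra hr
  have hr0 : r = 0 := by omega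
  subst hr0
  apply hg
  funext μ
  exfalso
  have h1 := μ.sum_eq
  simp at h1
  omega

private theorem NOKB_card {α : Type} (A : Finset α) (G : α → α → Prop) (P : α → Prop) (C : ℝ)
    (hC : 0 ≤ C) (h : ∀ a ∈ A, P a → ((A.filter fun b => G a b).card : ℝ) ≤ C) :
    (((A ×ˢ A).filter fun p => G p.1 p.2 ∧ P p.1).card : ℝ) ≤ A.card * C := by
  rw [Finset.card_filter, Finset.sum_product]
  push_cast
  calc ∑ a ∈ A, ∑ b ∈ A, (if G a b ∧ P a then (1 : ℝ) else 0) ≤ ∑ _a ∈ A, C := by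
        refine Finset.sum_le_sum fun a ha => ?_
        by_cases hP : P a
        · have h1 := h a ha hP
          rw [Finset.card_filter] at h1
          push_cast at h1
          refine le_trans (le_of_eq ?_) h1
          refine Finset.sum_congr rfl fun b _ => ?_
          simp [hP]
        · refine le_trans (le_of_eq (Finset.sum_eq_zero fun b _ => ?_)) hC
          simp [hP]
    _ = A.card * C := by rw [Finset.sum_const, nsmul_eq_mul]

theorem thm_NOKB (h1 : St_RPB) (h2 : Pool.Agent.RHM.St_PBC) : St_NOKB := by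
  intro K _ _ s r D m hN hmD g hg hdec
  have hr := NOKB_r r D hN.hD g hg
  have hs := hN.hs
  have hD := hN.hD
  have hm := hN.hm
  set n : ℝ := ((s - 1 : ℕ) : ℝ) with hn
  have hn1 : n = (s : ℝ) - 1 := by
    rw [hn, Nat.cast_sub (by omega)]
    simp
  have hsr : (3 : ℝ) ≤ s := by exact_mod_cast hs
  have hn2 : 2 ≤ n := by rw [hn1]; linarith
  have hDr : (2 : ℝ) ≤ D := by exact_mod_cast hD
  have hmr : (1 : ℝ) ≤ m := by exact_mod_cast hm
  have hrr : (1 : ℝ) ≤ r := by exact_mod_cast hr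
  set c0 : ℝ := m + 2 / (n * D) with hc0
  have hc0p : 0 < c0 := by positivity
  set κ0 : ℝ := max ((D : ℝ) - r) 0 with hκ0
  have hκ0p : 0 ≤ κ0 := le_max_right _ _
  have hlt : κ0 * c0 < s := by
    rcases le_total ((D : ℝ) - r) 0 with hle | hle
    · rw [hκ0, max_eq_right hle, zero_mul]
      linarith
    · rw [hκ0, max_eq_left hle]
      have h3 : r ≤ D := by
        have : (r : ℝ) ≤ D := by linarith
        exact_mod_cast this
      have h4 : m * (D - r) + 1 ≤ s := by
        have h5 : m * (D - r) + m * r = m * D := by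
          rw [← Nat.mul_add, Nat.sub_add_cancel h3]
        omega
      have h6 : (m : ℝ) * ((D : ℝ) - r) + 1 ≤ s := by
        have h7 : ((m * (D - r) + 1 : ℕ) : ℝ) ≤ s := by exact_mod_cast h4
        push_cast [Nat.cast_sub h3] at h7
        exact h7
      have h8 : ((D : ℝ) - r) * (2 / (n * D)) < 1 := by
        rw [← mul_div_assoc, div_lt_one (by positivity)]
        nlinarith
      rw [hc0, mul_add]
      nlinarith
  set ε : ℝ := (s - κ0 * c0) / (2 * c0) with hε
  have hεp : 0 < ε := div_pos (by linarith) (by linarith)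
  refine ⟨κ0 + ε, by linarith, ?_, ?_⟩
  · have hdg : 1 ≤ dg K := dg_pos
    have hdgr : (0 : ℝ) < dg K := by exact_mod_cast hdg
    obtain ⟨C₁, hC₁, H₁⟩ := h1 K r D g (by omega) hdec (ε * dg K) (mul_pos hεp hdgr)
    obtain ⟨C₂, hC₂, H₂⟩ := h2 K r
    refine ⟨C₂ * C₁, mul_pos hC₂ hC₁, fun U hU => ?_⟩
    have hUr : (1 : ℝ) ≤ U := by exact_mod_cast hU
    have hU0 : (0 : ℝ) ≤ U := by linarith
    have hcard := NOKB_card (bx K r (U : ℝ)) (fun a b => ev g a = ev g b) (fun a => ev g a ≠ 0)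
      (C₁ * (U : ℝ) ^ (ε * dg K)) (by positivity) (fun a _ ha => by
        have h3 := H₁ U (ev g a) hU ha
        refine le_trans (le_of_eq ?_) h3
        congr 2
        refine Finset.filter_congr fun b _ => ?_
        exact eq_comm)
    have h3 : (((bx K r (U : ℝ) ×ˢ bx K r (U : ℝ)).filter fun p =>
        ev g p.1 = ev g p.2 ∧ ev g p.1 ≠ 0).card : ℝ) ≤
        C₂ * ((U : ℝ) ^ r) ^ dg K * (C₁ * ((U : ℝ) ^ ε) ^ dg K) := by
      rw [Real.rpow_mul_natCast hU0] at hcard
      refine le_trans (le_of_eq ?_)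
        (hcard.trans (mul_le_mul_of_nonneg_right (H₂ U hU) (by positivity)))
      congr!
    have h4 : (U : ℝ) ^ r * (U : ℝ) ^ D ≤ (U : ℝ) ^ (2 * r) * (U : ℝ) ^ κ0 := by
      rw [← pow_add, ← Real.rpow_natCast, ← Real.rpow_natCast, ← Real.rpow_add (by linarith)]
      refine Real.rpow_le_rpow_of_exponent_le hUr ?_
      have h5 : (D : ℝ) - r ≤ κ0 := le_max_left _ _
      push_cast
      linarith
    have h6 : (U : ℝ) ^ (κ0 + ε) = (U : ℝ) ^ κ0 * (U : ℝ) ^ ε := Real.rpow_add (by linarith) _ _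
    calc (((bx K r (U : ℝ) ×ˢ bx K r (U : ℝ)).filter fun p =>
          ev g p.1 = ev g p.2 ∧ ev g p.1 ≠ 0).card : ℝ) * ((U : ℝ) ^ D) ^ dg K
        ≤ C₂ * ((U : ℝ) ^ r) ^ dg K * (C₁ * ((U : ℝ) ^ ε) ^ dg K) * ((U : ℝ) ^ D) ^ dg K :=
          mul_le_mul_of_nonneg_right h3 (by positivity)
      _ = C₂ * C₁ * (((U : ℝ) ^ r * (U : ℝ) ^ D) ^ dg K * ((U : ℝ) ^ ε) ^ dg K) := by
          rw [mul_pow]
          ring
      _ ≤ C₂ * C₁ * (((U : ℝ) ^ (2 * r) * (U : ℝ) ^ κ0) ^ dg K * ((U : ℝ) ^ ε) ^ dg K) := by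
          refine mul_le_mul_of_nonneg_left ?_ (by positivity)
          refine mul_le_mul_of_nonneg_right ?_ (by positivity)
          exact pow_le_pow_left₀ (by positivity) h4 _
      _ = C₂ * C₁ * ((U : ℝ) ^ (2 * r)) ^ dg K * ((U : ℝ) ^ (κ0 + ε)) ^ dg K := by
          rw [h6, mul_pow, mul_pow]
          ring
  · show (κ0 + ε) * c0 < s
    have h3 : ε * c0 = (s - κ0 * c0) / 2 := by
      rw [hε]
      field_simp
    rw [add_mul, h3]
    linarith

end Pool.Agent.NRM
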