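import Pool.Agent.NRM.StB
import Pool.Agent.RHCB.NZ0C

/-!
NRM, module NZ0N: points of `f(x) = G(w)` near the explicit one.
Statement and proof: see `St_NZ0N` in `Pool/Agent/NRM/StB.lean`.
-/

set_option autoImplicit false

namespace Pool.Agent.NRM

open scoped BigOperators
open Classical NumberField IsDedekindDomain
open Pool.Agent.RHP (Mon mono ev Sys Prim pd WB WW)
open Pool.Agent.RHK Pool.Agent.RHC
open Pool.Agent.RHKB (mI hh jj qv MK uu BadK)
open Pool.Agent.RHCB (BadC cred cemb uk PrC hM f00 NZ0C_ev NZ0C_norm)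

/-- Euler: `∑ x_t ∂_t f(x) = d f(x)` -/
theorem NZ0N_euler {A : Type} [CommRing A] {s d : ℕ} (f : Mon s d → A) (x : Fin s → A) :
    ∑ t, x t * pd t f x = (d : A) * ev f x := by
  unfold pd ev
  have h1 : ∀ t : Fin s, x t * ∑ m : Mon s d, f m * ((m.1 t : A) * (x t ^ (m.1 t - 1) *
      ∏ i ∈ Finset.univ.erase t, x i ^ m.1 i)) =
      ∑ m : Mon s d, (m.1 t : A) * (f m * mono x m.1) := by
    intro t
    rw [Finset.mul_sum]
    refine Finset.sum_congr rfl fun m _ => ?_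
    have h2 : mono x m.1 = x t ^ m.1 t * ∏ i ∈ Finset.univ.erase t, x i ^ m.1 i := by
      unfold mono
      exact (Finset.mul_prod_erase _ _ (Finset.mem_univ t)).symm
    rw [h2]
    rcases Nat.eq_zero_or_pos (m.1 t) with h3 | h3
    · rw [h3, Nat.cast_zero]
      ring
    · obtain ⟨n, hn⟩ : ∃ n, m.1 t = n + 1 := ⟨m.1 t - 1, by omega⟩
      rw [hn, Nat.add_sub_cancel, pow_succ]
      ring
  rw [Finset.sum_congr rfl fun t _ => h1 t, Finset.sum_comm, Finset.mul_sum]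
  refine Finset.sum_congr rfl fun m _ => ?_
  rw [← Finset.sum_mul]
  congr 1
  have h4 : ∑ t, m.1 t = d := Finset.Nat.mem_antidiagonalTuple.1 m.2
  rw [← Nat.cast_sum, h4]

theorem thm_NZ0N (h : St_IFTN) : St_NZ0N := by
  intro L _ _ hL s r D m hs hD hm hD0 G e he a c ha hc ε hε
  let _ : NontriviallyNormedField L := { (inferInstance : NormedField L) with non_trivial := hL }
  have hs0 : 0 < s := hs
  obtain ⟨z₀, hz⟩ : ∃ z₀ : Fin r ⊕ Fin s → L,
      z₀ = Sum.elim (fun j => a * c ^ m * e j) (RHP.eL L hs0 c) := ⟨_, rfl⟩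
  have h0 : wz z₀ = fun j => a * c ^ m * e j := by
    rw [hz]
    rfl
  have h1 : xz z₀ = RHP.eL L hs0 c := by
    rw [hz]
    rfl
  have hG : ev G (wz z₀) = (a * c ^ m) ^ D * ev G e := by
    rw [h0]
    exact RHP.ev_smul_pt (a * c ^ m) G e
  have hev : ev (fun μ : Mon s (D * m) => a ^ D * ev G e * f00 L s (D * m) μ) (xz z₀) =
      ev G (wz z₀) := by
    rw [h1, hG, NZ0C_ev, mul_pow, ← pow_mul, Nat.mul_comm D m]
    ring
  have hne : ev G (wz z₀) ≠ 0 := by
    rw [hG]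
    exact mul_ne_zero (pow_ne_zero _ (mul_ne_zero ha (pow_ne_zero _ hc))) he
  have hex : ∃ j, pd j G (wz z₀) ≠ 0 := by
    by_contra hcon
    push Not at hcon
    have h2 := NZ0N_euler G (wz z₀)
    rw [Finset.sum_eq_zero fun t _ => by rw [hcon t, mul_zero]] at h2
    exact mul_ne_zero hD0 hne h2.symm
  obtain ⟨j, hj⟩ := hex
  obtain ⟨δ, hδ, h3⟩ := h L s r D m hD hm (fun μ => a ^ D * ev G e * f00 L s (D * m) μ) G z₀
    (Sum.inl j) hev (Or.inl ⟨j, rfl, hj⟩) ε hε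
  refine ⟨z₀, ?_, fun j => by rw [h0], δ, hδ, fun f hf => ⟨Sum.inl j, fun κ hκ => h3 f hf κ hκ⟩⟩
  rw [h1, NZ0C_norm]

end Pool.Agent.NRM
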