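import Pool.Agent.NRM.StA

/-!
NRM, module PAREX (helper42): the existence of parameters.
-/

set_option autoImplicit false

namespace Pool.Agent.NRM

theorem PAREX_real {s m n D kap del c v : ℝ} (hs : 0 ≤ s) (hn : 2 ≤ n) (hD : 0 < D)
    (hk : 0 ≤ kap) (hdel : del = s - kap * (m + 2 / (n * D))) (hdel0 : 0 < del) (hc0 : 0 ≤ c)
    (hv : v ≤ (2 * c + 4) / D + 1) (hc : kap * (m + 4 / D + 1) + 2 ≤ c * del) :
    kap * (m * (c * n + 1) + v) + 2 ≤ s * (c * n + 1) := by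
  have hn0 : 0 < n := by linarith
  have h2 : c * del ≤ del * (n * c) := by
    have h : 0 ≤ c * del * (n - 1) := mul_nonneg (mul_nonneg hc0 hdel0.le) (by linarith)
    linarith
  have h3 : kap * (m * (c * n + 1) + v) ≤ kap * (m * (c * n + 1) + ((2 * c + 4) / D + 1)) :=
    mul_le_mul_of_nonneg_left (by linarith) hk
  have h4 : kap * (m * (c * n + 1) + ((2 * c + 4) / D + 1)) =
      kap * (m + 2 / (n * D)) * (n * c) + kap * (m + 4 / D + 1) := by
    field_simp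
    ring
  have h5 : kap * (m + 2 / (n * D)) = s - del := by rw [hdel]; ring
  rw [h4, h5] at h3
  linarith

theorem thm_PAREX : St_PAREX := by
  intro s D m kap hN hk hlt
  obtain ⟨hs, hD, hm⟩ := hN
  have hn2 : (2 : ℝ) ≤ ((s - 1 : ℕ) : ℝ) := by
    have h : 2 ≤ s - 1 := by omega
    exact_mod_cast h
  have hD0 : (0 : ℝ) < D := by
    have h : 0 < D := by omega
    exact_mod_cast h
  have hdel0 : 0 < (s : ℝ) - kap * (m + 2 / (((s - 1 : ℕ) : ℝ) * D)) := by linarith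
  obtain ⟨c1, hc1⟩ := exists_nat_ge
    ((kap * (m + 4 / D + 1) + 2) / ((s : ℝ) - kap * (m + 2 / (((s - 1 : ℕ) : ℝ) * D))))
  refine ⟨c1, fun c hc => ⟨(2 * c + 4) / D + 1, Nat.succ_pos _, ?_, ?_⟩⟩
  · exact (Nat.lt_mul_div_succ (2 * c + 4) (by omega : 0 < D)).le
  · have hv : (((2 * c + 4) / D + 1 : ℕ) : ℝ) ≤ (2 * c + 4) / D + 1 := by
      have h : (((2 * c + 4) / D : ℕ) : ℝ) ≤ ((2 * c + 4 : ℕ) : ℝ) / (D : ℝ) := Nat.cast_div_le
      push_cast at h
      push_cast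
      linarith
    have h1 : (kap * (m + 4 / D + 1) + 2) /
        ((s : ℝ) - kap * (m + 2 / (((s - 1 : ℕ) : ℝ) * D))) ≤ c :=
      hc1.trans (by exact_mod_cast hc)
    rw [div_le_iff₀ hdel0] at h1
    exact PAREX_real (Nat.cast_nonneg s) hn2 hD0 hk rfl hdel0 (Nat.cast_nonneg c) hv h1

end Pool.Agent.NRM
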