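import Pool.Agent.NRM.StB
import Pool.Agent.RHCW.PCNCW

/-!
NRM, module PCNN: the densities near a pair of forms with a nonsingular point at a finite place, in a residue
class (helper1; port of RHCW/PCNCW.lean).
-/

set_option autoImplicit false

namespace Pool.Agent.NRM

open scoped BigOperators
open Classical NumberField IsDedekindDomain
open Pool.Agent.RHP (Mon mono ev Sys Prim pd WB WW)
open Pool.Agent.RHK Pool.Agent.RHC
open Pool.Agent.RHKB (mI hh jj qv MK uu BadK PCN_ev PCN_unit PCN_card PCN_low)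
open Pool.Agent.RHCB (BadC cred cemb uk PrC hM)
open Pool.Agent.RHCW (cmk)

theorem PCNN_cemb {K : Type} [Field K] [NumberField K] {L : Type} [Field L] [Algebra K L] {s d : ℕ}
    (u : L) (f : Mon s d → 𝓞 K) (x : Fin s → 𝓞 K) :
    ev (cemb u f) (fun l => jj L (x l)) = u * jj L (ev f x) := by
  have h := Pool.Agent.RHP.ev_map (jj L) f x
  rw [← h]
  unfold ev cemb
  rw [Finset.mul_sum]
  exact Finset.sum_congr rfl fun m _ => mul_assoc _ _ _

theorem thm_PCNN (hV : RHKB.St_PLV) : St_PCNN := by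
  intro K _ _ v q _ s r D d δ hδ
  obtain ⟨-, hq, -, hu, hjj, happ, -⟩ := hV K v
  have hq1 : 1 < (qv v : ℝ) := by exact_mod_cast hq
  have hq0 : 0 < (qv v : ℝ) := by linarith
  obtain ⟨e, he⟩ : ∃ e : ℕ, ((qv v : ℝ)⁻¹) ^ e < δ :=
    exists_pow_lt_of_lt_one hδ (inv_lt_one_of_one_lt₀ hq1)
  rw [inv_pow] at he
  refine ⟨((qv v : ℝ) ^ (e * (s + r)))⁻¹, by positivity,
    fun b g₁ ρ₀ ω₀ f z₀ hz0 hw0 hρ₀ hω₀ hF n => ?_⟩
  obtain ⟨j, hNZ⟩ := hF
  have hnat : ∀ c : ℕ, ‖(c : v.adicCompletion K)‖ ≤ 1 := by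
    intro c
    have h5 := (hjj (c : 𝓞 K) 0).2 (by rw [pow_zero, Ideal.one_eq_top]; exact Submodule.mem_top)
    rwa [pow_zero, inv_one, map_natCast] at h5
  have hqn := hnat q
  have hq00 : 0 ≤ ‖(q : v.adicCompletion K)‖ := norm_nonneg _
  -- ultrametric inequality for differences
  have hus : ∀ x y : v.adicCompletion K, ‖x - y‖ ≤ max ‖x‖ ‖y‖ := by
    intro x y
    rw [sub_eq_add_neg]
    refine (hu x (-y)).trans ?_
    rw [norm_neg]
  have hjn : ∀ a : 𝓞 K, ‖jj (v.adicCompletion K) a‖ ≤ 1 := by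
    intro a
    have h1 := (hjj a 0).2 (by rw [pow_zero, Ideal.one_eq_top]; exact Submodule.mem_top)
    rwa [pow_zero, inv_one] at h1
  have hfn : ∀ m, ‖cemb (b : v.adicCompletion K) f m‖ ≤ 1 := fun m => by
    show ‖(b : v.adicCompletion K) * jj (v.adicCompletion K) (f m)‖ ≤ 1
    rw [norm_mul]
    exact mul_le_one₀ (hnat b) (norm_nonneg _) (hjn _)
  have hgn' : ∀ m, ‖gL (v.adicCompletion K) g₁ m‖ ≤ 1 := fun m => by
    show ‖(1 : v.adicCompletion K) * jj (v.adicCompletion K) (g₁ m)‖ ≤ 1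
    rw [one_mul]
    exact hjn _
  have hz0l : ∀ l, ‖z₀ l‖ ≤ 1 := by
    rintro (l | l)
    · exact hw0 l
    · rw [← hz0]
      exact norm_le_pi_norm (xz z₀) l
  obtain ⟨l₀, hl₀⟩ : ∃ l : Fin s, 1 ≤ ‖z₀ (Sum.inr l)‖ := by
    by_contra hcon
    push Not at hcon
    have h1 := (pi_norm_lt_iff (x := xz z₀) one_pos).2 hcon
    rw [hz0] at h1
    exact lt_irrefl _ h1
  -- the points of the equation near `z₀` are integral
  have hint : ∀ z : Fin r ⊕ Fin s → v.adicCompletion K,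
      (∀ l, ‖z l - z₀ l‖ ≤ ‖(q : v.adicCompletion K)‖ / 2) → ∀ l, ‖z l‖ ≤ 1 := by
    intro z hz2 l
    have h2 : z l = (z l - z₀ l) + z₀ l := by ring
    rw [h2]
    exact (hu _ _).trans (max_le ((hz2 _).trans (by linarith)) (hz0l l))
  -- approximation of the point
  choose a ha using fun l => happ (z₀ l) (hz0l l) e
  set A := 𝓞 K ⧸ v.asIdeal ^ n with hA
  have hAfin : Finite A := by
    refine Nat.finite_of_card_ne_zero ?_
    rw [hA, PCN_card]
    exact (pow_pos (by omega) n).ne'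
  set T : Ideal A := Ideal.map (Ideal.Quotient.mk (v.asIdeal ^ n)) (v.asIdeal ^ e) with hT
  have hlift : ∀ w : T, ∃ y ∈ v.asIdeal ^ e, Ideal.Quotient.mk (v.asIdeal ^ n) y = w := by
    intro w
    exact (Ideal.mem_map_iff_of_surjective _ Ideal.Quotient.mk_surjective).1 w.2
  choose g hg1 hg2 using hlift
  have hgn : ∀ w, ‖jj (v.adicCompletion K) (g w)‖ ≤ ((qv v : ℝ) ^ e)⁻¹ := fun w =>
    (hjj (g w) e).2 (hg1 w)
  -- the points over the completion and near integral points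
  have key : ∀ u : {l // l ≠ j} → T, ∃ (z : Fin r ⊕ Fin s → v.adicCompletion K)
      (x : Fin r ⊕ Fin s → 𝓞 K),
      (∀ l (hl : l ≠ j), z l = jj (v.adicCompletion K) (a l + g (u ⟨l, hl⟩))) ∧
      (∀ l, ‖z l - z₀ l‖ ≤ ‖(q : v.adicCompletion K)‖ / 2) ∧
      (ev (cemb (b : v.adicCompletion K) f) (xz z) = ev (gL (v.adicCompletion K) g₁) (wz z)) ∧
      (∀ l, ‖z l‖ ≤ 1) ∧ ∀ l, ‖z l - jj (v.adicCompletion K) (x l)‖ ≤ ((qv v : ℝ) ^ n)⁻¹ := by
    intro u
    obtain ⟨z, hz1, hz2, hz3⟩ := hNZ (fun l => if hl : l ≠ j then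
      jj (v.adicCompletion K) (a l + g (u ⟨l, hl⟩)) else z₀ l) (by
        intro l
        by_cases hl : l ≠ j
        · rw [dif_pos hl, map_add]
          have h1 : jj (v.adicCompletion K) (a l) + jj (v.adicCompletion K) (g (u ⟨l, hl⟩)) -
              z₀ l = jj (v.adicCompletion K) (g (u ⟨l, hl⟩)) -
              (z₀ l - jj (v.adicCompletion K) (a l)) := by ring
          rw [h1]
          exact ((hus _ _).trans (max_le (hgn _) (ha l))).trans he.le
        · rw [dif_neg hl, sub_self, norm_zero]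
          exact hδ.le)
    have hzn := hint z hz2
    choose x hx using fun l => happ (z l) (hzn l) n
    exact ⟨z, x, fun l hl => by rw [hz1 l hl, dif_pos hl], hz2, hz3, hzn, hx⟩
  choose z x hz1 hz2 hz3 hzn hx using key
  -- the reductions are points
  have hzero : ∀ u, (b : 𝓞 K ⧸ v.asIdeal ^ n) * ev (cred (v.asIdeal ^ n) f)
      (fun l => Ideal.Quotient.mk (v.asIdeal ^ n) (x u (Sum.inr l))) =
        ev (cred (v.asIdeal ^ n) g₁) fun l => Ideal.Quotient.mk (v.asIdeal ^ n) (x u (Sum.inl l)) := by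
    intro u
    have h1 := Pool.Agent.RHP.ev_map (Ideal.Quotient.mk (v.asIdeal ^ n)) f
      (fun l : Fin s => x u (Sum.inr l))
    have h1' := Pool.Agent.RHP.ev_map (Ideal.Quotient.mk (v.asIdeal ^ n)) g₁
      (fun l : Fin r => x u (Sum.inl l))
    refine (congrArg (fun t => (b : 𝓞 K ⧸ v.asIdeal ^ n) * t) h1).trans (Eq.trans ?_ h1'.symm)
    have h0 : (b : 𝓞 K ⧸ v.asIdeal ^ n) = Ideal.Quotient.mk (v.asIdeal ^ n) (b : 𝓞 K) :=
      (map_natCast _ b).symm
    show (b : 𝓞 K ⧸ v.asIdeal ^ n) * _ = _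
    rw [h0, ← map_mul]
    refine Ideal.Quotient.eq.2 ?_
    rw [← hjj, map_sub, map_mul, map_natCast, ← PCNN_cemb]
    have h2 := PCNN_cemb (L := v.adicCompletion K) 1 g₁ (fun l : Fin r => x u (Sum.inl l))
    rw [one_mul] at h2
    rw [← h2]
    have h4 := PCN_ev hu (cemb (b : v.adicCompletion K) f) hfn
      (fun l : Fin s => jj (v.adicCompletion K) (x u (Sum.inr l))) (xz (z u))
      (fun l => hjn _) (fun l => hzn u _) ((qv v : ℝ) ^ n)⁻¹ (by positivity)
      (fun l => by rw [norm_sub_rev]; exact hx u _)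
    have h5 := PCN_ev hu (gL (v.adicCompletion K) g₁) hgn'
      (wz (z u)) (fun l : Fin r => jj (v.adicCompletion K) (x u (Sum.inl l)))
      (fun l => hzn u _) (fun l => hjn _) ((qv v : ℝ) ^ n)⁻¹ (by positivity)
      (fun l => hx u _)
    rw [hz3 u] at h4
    have h6 : ev (cemb (b : v.adicCompletion K) f)
        (fun l : Fin s => jj (v.adicCompletion K) (x u (Sum.inr l))) -
        ev (cemb (1 : v.adicCompletion K) g₁)
          (fun l : Fin r => jj (v.adicCompletion K) (x u (Sum.inl l))) =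
        (ev (cemb (b : v.adicCompletion K) f)
          (fun l : Fin s => jj (v.adicCompletion K) (x u (Sum.inr l))) -
          ev (gL (v.adicCompletion K) g₁) (wz (z u))) +
        (ev (gL (v.adicCompletion K) g₁) (wz (z u)) - ev (gL (v.adicCompletion K) g₁)
          (fun l : Fin r => jj (v.adicCompletion K) (x u (Sum.inl l)))) := by
      rw [sub_add_sub_cancel]
    rw [h6]
    exact (hu _ _).trans (max_le h4 h5)
  -- they are primitive
  have hprim : ∀ u, Prim (fun l : Fin s =>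
      Ideal.Quotient.mk (v.asIdeal ^ n) (x u (Sum.inr l))) := by
    intro u
    rcases Nat.eq_zero_or_pos n with hk | hk
    · refine ⟨fun _ => 0, ?_⟩
      have h1 : (v.asIdeal ^ n) = ⊤ := by rw [hk, pow_zero, Ideal.one_eq_top]
      have h2 : Subsingleton (𝓞 K ⧸ v.asIdeal ^ n) := Ideal.Quotient.subsingleton_iff.2 h1
      exact Subsingleton.elim _ _
    · have h1 : x u (Sum.inr l₀) ∉ v.asIdeal := by
        intro h2
        have h3 : ‖jj (v.adicCompletion K) (x u (Sum.inr l₀))‖ ≤ ((qv v : ℝ) ^ 1)⁻¹ :=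
          (hjj _ 1).2 (by rw [pow_one]; exact h2)
        have h4 : ((qv v : ℝ) ^ n)⁻¹ ≤ ((qv v : ℝ) ^ 1)⁻¹ :=
          inv_anti₀ (by positivity) (pow_le_pow_right₀ hq1.le hk)
        have h5 : ((qv v : ℝ) ^ 1)⁻¹ < 1 := by
          rw [pow_one]
          exact inv_lt_one_of_one_lt₀ hq1
        have h6 : ‖z u (Sum.inr l₀)‖ < 1 := by
          have h7 : z u (Sum.inr l₀) = (z u (Sum.inr l₀) -
              jj (v.adicCompletion K) (x u (Sum.inr l₀))) +
              jj (v.adicCompletion K) (x u (Sum.inr l₀)) := by ring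
          rw [h7]
          exact ((hu _ _).trans (max_le ((hx u (Sum.inr l₀)).trans h4) h3)).trans_lt h5
        have h7 : ‖z₀ (Sum.inr l₀)‖ < 1 := by
          have h8 : z₀ (Sum.inr l₀) = z u (Sum.inr l₀) - (z u (Sum.inr l₀) - z₀ (Sum.inr l₀)) := by
            ring
          rw [h8]
          exact (hus _ _).trans_lt (max_lt h6 ((hz2 u (Sum.inr l₀)).trans_lt (by linarith)))
        exact absurd hl₀ (not_le.2 h7)
      obtain ⟨c, hc⟩ := PCN_unit v h1 n
      refine ⟨fun l => if l = l₀ then Ideal.Quotient.mk (v.asIdeal ^ n) c else 0, ?_⟩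
      simp only [ite_mul, zero_mul, Finset.sum_ite_eq', Finset.mem_univ, if_true]
      rw [← map_mul, ← map_one (Ideal.Quotient.mk (v.asIdeal ^ n))]
      exact Ideal.Quotient.eq.2 hc
  -- they are in the residue class
  have hresl : ∀ u l (c : 𝓞 K), ‖z₀ l - jj (v.adicCompletion K) c‖ ≤
      ‖(q : v.adicCompletion K)‖ → (q : 𝓞 K ⧸ v.asIdeal ^ n) ∣
      Ideal.Quotient.mk (v.asIdeal ^ n) (x u l) - Ideal.Quotient.mk (v.asIdeal ^ n) c := by
    intro u l c hc
    rw [← map_sub]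
    apply RHCW.PCNCW_dvd hV v n
    have h2 : jj (v.adicCompletion K) (x u l - c) =
        ((z u l - z₀ l) + (z₀ l - jj (v.adicCompletion K) c)) -
        (z u l - jj (v.adicCompletion K) (x u l)) := by
      rw [map_sub]
      ring
    rw [h2]
    refine (hus _ _).trans (max_le_max ((hu _ _).trans (max_le ((hz2 u l).trans ?_) hc)) (hx u l))
    linarith
  have hres : ∀ u, (∀ l : Fin s, (q : 𝓞 K ⧸ v.asIdeal ^ n) ∣
      Ideal.Quotient.mk (v.asIdeal ^ n) (x u (Sum.inr l)) - cmk (v.asIdeal ^ n) ρ₀ l) ∧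
      ∀ l : Fin r, (q : 𝓞 K ⧸ v.asIdeal ^ n) ∣
        Ideal.Quotient.mk (v.asIdeal ^ n) (x u (Sum.inl l)) - cmk (v.asIdeal ^ n) ω₀ l := fun u =>
    ⟨fun l => hresl u (Sum.inr l) (ρ₀ l) (hρ₀ l), fun l => hresl u (Sum.inl l) (ω₀ l) (hω₀ l)⟩
  -- they are different
  have hinj : ∀ u u', (∀ l, Ideal.Quotient.mk (v.asIdeal ^ n) (x u l) =
      Ideal.Quotient.mk (v.asIdeal ^ n) (x u' l)) → u = u' := by
    intro u u' h
    funext ⟨l, hl⟩
    have h1 : x u l - x u' l ∈ v.asIdeal ^ n := Ideal.Quotient.eq.1 (h l)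
    have h2 : g (u ⟨l, hl⟩) - g (u' ⟨l, hl⟩) ∈ v.asIdeal ^ n := by
      rw [← hjj]
      have h3 : jj (v.adicCompletion K) (g (u ⟨l, hl⟩) - g (u' ⟨l, hl⟩)) =
          (z u l - jj (v.adicCompletion K) (x u l)) -
          (z u' l - jj (v.adicCompletion K) (x u' l)) +
          jj (v.adicCompletion K) (x u l - x u' l) := by
        rw [hz1 u l hl, hz1 u' l hl, map_add, map_add, map_sub, map_sub]
        ring
      rw [h3]
      refine (hu _ _).trans (max_le ((hus _ _).trans (max_le (hx u l) (hx u' l))) ?_)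
      exact (hjj _ n).2 h1
    have h3 := Ideal.Quotient.eq.2 h2
    rw [hg2, hg2] at h3
    exact Subtype.ext h3
  -- the count
  have hcard : Fintype.card {l : Fin r ⊕ Fin s // l ≠ j} = r + s - 1 := by
    rw [Fintype.card_subtype_compl, Fintype.card_sum, Fintype.card_fin, Fintype.card_fin,
      Fintype.card_subtype_eq]
  have hpos : 1 ≤ r + s := by
    have h1 : 0 < Fintype.card (Fin r ⊕ Fin s) := Fintype.card_pos_iff.2 ⟨j⟩
    rw [Fintype.card_sum, Fintype.card_fin, Fintype.card_fin] at h1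
    exact h1
  have hcnt : (qv v ^ (n - e)) ^ (r + s - 1) ≤ wcntN b q (cred (v.asIdeal ^ n) g₁)
      (cmk (v.asIdeal ^ n) ρ₀) (cmk (v.asIdeal ^ n) ω₀) (cred (v.asIdeal ^ n) f) := by
    have h1 : Nat.card ({l // l ≠ j} → T) = Nat.card T ^ (r + s - 1) := by
      rw [Nat.card_fun, Nat.card_eq_fintype_card (α := {l // l ≠ j}), hcard]
    have h2 : (qv v ^ (n - e)) ^ (r + s - 1) ≤ Nat.card ({l // l ≠ j} → T) := by
      rw [h1]
      exact Nat.pow_le_pow_left (PCN_low v hq e n) _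
    refine h2.trans ?_
    unfold wcntN
    refine Nat.card_le_card_of_injective (fun u => (⟨(fun l =>
      Ideal.Quotient.mk (v.asIdeal ^ n) (x u (Sum.inr l)),
      fun l => Ideal.Quotient.mk (v.asIdeal ^ n) (x u (Sum.inl l))),
      hprim u, hres u, hzero u⟩ :
      {p : (Fin s → 𝓞 K ⧸ v.asIdeal ^ n) × (Fin r → 𝓞 K ⧸ v.asIdeal ^ n) //
        Prim p.1 ∧ ((∀ l, (q : 𝓞 K ⧸ v.asIdeal ^ n) ∣ p.1 l - cmk (v.asIdeal ^ n) ρ₀ l) ∧
        ∀ j, (q : 𝓞 K ⧸ v.asIdeal ^ n) ∣ p.2 j - cmk (v.asIdeal ^ n) ω₀ j) ∧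
        (b : 𝓞 K ⧸ v.asIdeal ^ n) * ev (cred (v.asIdeal ^ n) f) p.1 =
          ev (cred (v.asIdeal ^ n) g₁) p.2}))
      (fun u u' h => hinj u u' ?_)
    have h3 := congrArg Subtype.val h
    rintro (l | l)
    · exact congrFun (congrArg Prod.snd h3) l
    · exact congrFun (congrArg Prod.fst h3) l
  -- the estimate
  unfold wsigN
  rw [PCN_card]
  have h2 : (((qv v ^ (n - e)) ^ (r + s - 1) : ℕ) : ℝ) ≤ (wcntN b q (cred (v.asIdeal ^ n) g₁)
      (cmk (v.asIdeal ^ n) ρ₀) (cmk (v.asIdeal ^ n) ω₀) (cred (v.asIdeal ^ n) f) : ℝ) := by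
    exact_mod_cast hcnt
  obtain ⟨t, ht⟩ : ∃ t, s + r = t + 1 := ⟨s + r - 1, by omega⟩
  have ht' : r + s - 1 = t := by omega
  rw [ht'] at h2
  rw [ht]
  push_cast at h2 ⊢
  rw [le_div_iff₀ (by positivity), inv_mul_le_iff₀ (by positivity)]
  calc ((qv v : ℝ) ^ n) ^ (t + 1) = ((qv v : ℝ) ^ n) ^ t * (qv v : ℝ) ^ n := pow_succ _ _
    _ ≤ ((qv v : ℝ) ^ e * (qv v : ℝ) ^ (n - e)) ^ t * (qv v : ℝ) ^ n := by
        refine mul_le_mul_of_nonneg_right (pow_le_pow_left₀ (by positivity) ?_ _) (by positivity)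
        rw [← pow_add]
        exact pow_le_pow_right₀ hq1.le (by omega)
    _ = (qv v : ℝ) ^ (e * t) * (((qv v : ℝ) ^ (n - e)) ^ t * (qv v : ℝ) ^ n) := by
        rw [mul_pow, ← pow_mul]
        ring
    _ ≤ (qv v : ℝ) ^ (e * (t + 1)) * (((wcntN b q (cred (v.asIdeal ^ n) g₁)
      (cmk (v.asIdeal ^ n) ρ₀) (cmk (v.asIdeal ^ n) ω₀) (cred (v.asIdeal ^ n) f) : ℕ) : ℝ) *
        (qv v : ℝ) ^ n) := by
        refine mul_le_mul (pow_le_pow_right₀ hq1.le (by nlinarith)) ?_ (by positivity)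
          (by positivity)
        exact mul_le_mul_of_nonneg_right h2 (by positivity)

end Pool.Agent.NRM
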