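import Pool.Agent.NRM.StB
import Pool.Agent.RHC.Final

/-!
NRM (NORM), [POSN]: a positive proportion has a point (Chebyshev, compare `cmain_of` in RHC/Final.lean).
-/

set_option autoImplicit false

namespace Pool.Agent.NRM

open scoped BigOperators
open Classical NumberField IsDedekindDomain
open Pool.Agent.RHP (Mon mono ev Sys Prim pd WB WW ev_map card_le_add WW_pos dvd_WW)
open Pool.Agent.RHK Pool.Agent.RHC
open Pool.Agent.RHKB (mI hh jj qv MK uu BadK)
open Pool.Agent.RHCB (BadC cred cemb uk PrC hM f00)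

variable {K : Type} [Field K] [NumberField K]

/-- the expected number is positive -/
private theorem POSN_EN (n s D m r c v t V H : ℕ) (ht : 1 ≤ t) (hH : CR D v t V H) :
    0 < EN n s D m r c t V H := by
  unfold EN QN
  have hV : 0 < V := lt_of_lt_of_le (pow_pos ht _) hH.1
  have hH' : 0 < H := lt_of_lt_of_le (pow_pos hV _) hH.2.2.1
  have hX : 0 < XC s c t := XC_pos s c t ht
  have hV' : (0 : ℝ) < V := by exact_mod_cast hV
  have hH'' : (0 : ℝ) < H := by exact_mod_cast hH'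
  have hX' : (0 : ℝ) < XC s c t := by exact_mod_cast hX
  push_cast
  positivity

/-- a point counted by `NA` gives a point over `K` -/
private theorem POSN_pt {s r D m : ℕ} (g : Mon r D → 𝓞 K) (c t U : ℕ) (f : Mon s (D * m) → 𝓞 K)
    (h : NA (BG g 1 U) (aG g 1) Set.univ c t f ≠ 0) :
    ∃ (x : Fin s → K) (w : Fin r → K), IsPtN g f x w := by
  unfold NA at h
  obtain ⟨x, hx, h1⟩ := Finset.exists_ne_zero_of_sum_ne_zero h
  obtain ⟨w, hw, h2⟩ := Finset.exists_ne_zero_of_sum_ne_zero h1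
  rw [if_pos (Set.mem_univ _)] at h2
  have h3 : ev f x = aG g 1 w := by
    by_contra h3
    exact h2 (if_neg h3)
  have h4 : ((1 : ℕ) : 𝓞 K) * aG g 1 w = ev g w := by
    refine aG_mul ?_
    rw [Nat.cast_one]
    exact one_dvd _
  rw [Nat.cast_one, one_mul] at h4
  rw [h4] at h3
  unfold CG at hx
  rw [Finset.mem_filter] at hx
  refine ⟨fun i => (x i : K), fun j => (w j : K), ?_, ?_⟩
  · intro h0
    obtain ⟨c, hc⟩ := hx.2.1
    have : ∀ i, x i = 0 := fun i => by
      have h2 : (x i : K) = 0 := congrFun h0 i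
      exact RingOfIntegers.coe_eq_zero_iff.1 h2
    simp [this] at hc
  · have h5 : ∀ (q d : ℕ) (f : Mon q d → 𝓞 K) (x : Fin q → 𝓞 K),
        ev (cemb (1 : K) f) (fun i => (x i : K)) = algebraMap (𝓞 K) K (ev f x) := by
      intro q d f x
      have h6 : cemb (1 : K) f = fun μ => algebraMap (𝓞 K) K (f μ) := by
        funext μ
        unfold cemb jj
        rw [one_mul]
        rfl
      rw [h6]
      exact ev_map (algebraMap (𝓞 K) K) f x
    change ev (cemb (1 : K) f) (fun i => (x i : K)) = ev (cemb (1 : K) g) (fun j => (w j : K))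
    rw [h5, h5, h3]

/-- Chebyshev -/
private theorem POSN_cheb {s r D m : ℕ} {Q : Type} (B : Finset Q) (a : Q → 𝓞 K)
    (P : Set ((Fin s → 𝓞 K) × Q)) (c v t V H κ W : ℕ) (γ : ℝ) (hγ : 0 < γ) (ht : 1 ≤ t)
    (hH : CR D v t V H)
    (ε : ℝ) (hs : ∑ F ∈ box K s (D * m) H, (NA B a P c t F - NAL B a P c t H κ W F) ^ 2
      ≤ ε * EN (dg K) s D m r c t V H ^ 2 * ((box K s (D * m) H).card : ℝ)) :
    (((box K s (D * m) H).filter fun F => NA B a P c t F = 0 ∧
      γ * EN (dg K) s D m r c t V H ≤ NAL B a P c t H κ W F).card : ℝ)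
      ≤ ε / γ ^ 2 * ((box K s (D * m) H).card : ℝ) := by
  have hE := POSN_EN (dg K) s D m r c v t V H ht hH
  obtain ⟨E, hEd⟩ : ∃ E : ℝ, E = EN (dg K) s D m r c t V H := ⟨_, rfl⟩
  rw [← hEd] at hE hs ⊢
  have hcE : 0 < γ * E := mul_pos hγ hE
  obtain ⟨S, hS⟩ : ∃ S : Finset (Mon s (D * m) → 𝓞 K), S = (box K s (D * m) H).filter fun F =>
    NA B a P c t F = 0 ∧ γ * E ≤ NAL B a P c t H κ W F := ⟨_, rfl⟩
  rw [← hS]
  have h1 : (S.card : ℝ) * (γ * E) ^ 2 ≤
      ∑ F ∈ box K s (D * m) H, (NA B a P c t F - NAL B a P c t H κ W F) ^ 2 := by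
    calc (S.card : ℝ) * (γ * E) ^ 2
        = ∑ F ∈ S, (γ * E) ^ 2 := by
          rw [Finset.sum_const, nsmul_eq_mul]
      _ ≤ ∑ F ∈ S, (NA B a P c t F - NAL B a P c t H κ W F) ^ 2 := by
          apply Finset.sum_le_sum
          intro F hF
          rw [hS] at hF
          obtain ⟨_, hF1, hF2⟩ := Finset.mem_filter.1 hF
          rw [hF1, zero_sub, neg_sq]
          exact pow_le_pow_left₀ hcE.le hF2 2
      _ ≤ ∑ F ∈ box K s (D * m) H, (NA B a P c t F - NAL B a P c t H κ W F) ^ 2 := by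
          apply Finset.sum_le_sum_of_subset_of_nonneg
          · rw [hS]
            exact Finset.filter_subset _ _
          intros
          positivity
  have h2 := h1.trans hs
  have h3 : (γ * E) ^ 2 = γ ^ 2 * E ^ 2 := by ring
  rw [h3] at h2
  have h4 : 0 < E ^ 2 := by positivity
  have h5 : 0 < γ ^ 2 := by positivity
  have h6 : (S.card : ℝ) * γ ^ 2 ≤ ε * ((box K s (D * m) H).card : ℝ) := by
    have : ((S.card : ℝ) * γ ^ 2) * E ^ 2 ≤
        (ε * ((box K s (D * m) H).card : ℝ)) * E ^ 2 := by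
      nlinarith [h2]
    exact le_of_mul_le_mul_right this h4
  rw [div_mul_eq_mul_div, le_div_iff₀ h5]
  exact h6

theorem thm_POSN (h : St_LPN) : St_POSN := by
  intro K _ _ s r D m hyp g hg hpar
  obtain ⟨c, v, hc, hv, sm, hfam⟩ := hpar
  obtain ⟨A, hA, γ, hγ, γ', hγ', m2, h2⟩ := h K s r D m hyp g hg c v hc hv
  obtain ⟨C0, hC0, hfam⟩ := hfam A 1 hA le_rfl
  obtain ⟨κ, m1, hκ, h3⟩ := sm C0 (γ ^ 2 * γ' / 2) hC0 (by positivity)
  obtain ⟨M, hM⟩ : ∃ M, M = max m1 m2 := ⟨_, rfl⟩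
  obtain ⟨t1, h4⟩ := h3 (WW M) (WW_pos M)
    (fun g _ hg' => dvd_WW M g ‹_› (hg'.trans (hM ▸ le_max_left _ _)))
  obtain ⟨t2, h5⟩ := h2 M (hM ▸ le_max_right _ _) κ hκ
  obtain ⟨H0, hH0⟩ := exists_CR D v (max t1 t2) (by have := hyp.hD; omega) hv
  refine ⟨γ' / 2, by positivity, H0, fun H hH => ?_⟩
  obtain ⟨t, ht, ht1, V, hR⟩ := hH0 H hH
  have h6 := h4 t ((le_max_left _ _).trans ht) V H hR _ (BG g 1 (A * QN s m c t V)) (aG g 1)
    (hfam t ht1 V H hR) Set.univ
  have h7 := h5 t ((le_max_right _ _).trans ht) V H hR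
  have h8 := POSN_cheb _ _ _ c v t V H κ (WW M) γ hγ ht1 hR _ h6
  have h9 : (((box K s (D * m) H).filter fun F =>
        γ * EN (dg K) s D m r c t V H ≤
          NAL (BG g 1 (A * QN s m c t V)) (aG g 1) Set.univ c t H κ (WW M) F).card : ℝ)
      ≤ (((box K s (D * m) H).filter fun F =>
            ∃ (x : Fin s → K) (w : Fin r → K), IsPtN g F x w).card : ℝ)
        + (((box K s (D * m) H).filter fun F =>
            NA (BG g 1 (A * QN s m c t V)) (aG g 1) Set.univ c t F = 0 ∧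
            γ * EN (dg K) s D m r c t V H ≤
              NAL (BG g 1 (A * QN s m c t V)) (aG g 1) Set.univ c t H κ (WW M) F).card : ℝ) := by
    apply card_le_add
    intro F _ hF
    by_cases hN : NA (BG g 1 (A * QN s m c t V)) (aG g 1) Set.univ c t F = 0
    · exact Or.inr ⟨hN, hF⟩
    · exact Or.inl (POSN_pt g c t _ F hN)
  have h10 : γ ^ 2 * γ' / 2 / γ ^ 2 = γ' / 2 := by field_simp
  rw [h10] at h8
  linarith

end Pool.Agent.NRM
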