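import Pool.Agent.NRM.StB
import Pool.Agent.RHCB.FinC

/-!
NRM: the final theorem for polynomials, from the statements for coefficient vectors (helper95).
-/

set_option autoImplicit false

namespace Pool.Agent.NRM

open scoped BigOperators
open Classical NumberField IsDedekindDomain
open Pool.Agent.RHP (Mon mono ev Sys Prim pd TR_poly TR_coeff ev_map TR_e TR_surj TR_hom)
open Pool.Agent.RHK Pool.Agent.RHC
open Pool.Agent.RHCB (InC FinC_ncard EQUC_box EQUC_card FinC_eval0 cemb)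
open Pool.Agent.RHKB (jj SingL HBox TRK_pos TRK_zero TRK_boxpos TRK_ncard TRK_eval TRK_pderiv
  SK_count TR2_iff TR2_all)

section

variable {K : Type} [Field K] {n r : ℕ}

/-- the value -/
noncomputable def valN {s : ℕ} {L : Type} [Field L] [Algebra K L] (x : Fin s → L)
    (f : MvPolynomial (Fin s) (𝓞 K)) : L :=
  MvPolynomial.eval₂ ((algebraMap K L).comp (algebraMap (𝓞 K) K)) x f

/-- `P = (x, w)` is a point of `g(w) = f(x)`, `x ≠ 0`, over `L` -/
def PtP (g : MvPolynomial (Fin r) (𝓞 K)) (f : MvPolynomial (Fin (n + 1)) (𝓞 K)) {L : Type}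
    [Field L] [Algebra K L] (P : (Fin (n + 1) → L) × (Fin r → L)) : Prop :=
  P.1 ≠ 0 ∧ valN P.2 g = valN P.1 f

/-- a point over `L` -/
def HasPtP (g : MvPolynomial (Fin r) (𝓞 K)) (f : MvPolynomial (Fin (n + 1)) (𝓞 K)) (L : Type)
    [Field L] [Algebra K L] : Prop :=
  ∃ P : (Fin (n + 1) → L) × (Fin r → L), PtP g f P

/-- smooth -/
def SmoP (g : MvPolynomial (Fin r) (𝓞 K)) (f : MvPolynomial (Fin (n + 1)) (𝓞 K)) : Prop :=
  ∀ P : (Fin (n + 1) → AlgebraicClosure K) × (Fin r → AlgebraicClosure K), PtP g f P →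
    (∃ j, valN P.2 (MvPolynomial.pderiv j g) ≠ 0) ∨ ∃ t, valN P.1 (MvPolynomial.pderiv t f) ≠ 0

/-- the points `P` and `Q` are `η`-close -/
def CloP {L : Type} [NormedField L] [Algebra K L] (D m : ℕ)
    (f : MvPolynomial (Fin (n + 1)) (𝓞 K)) (η : ℝ) (P Q : (Fin (n + 1) → L) × (Fin r → L)) : Prop :=
  ∃ t : L, (∀ i, ‖t * P.1 i - Q.1 i‖ ≤ η * ‖Q.1‖) ∧ ∃ e, ∀ j,
    ‖t ^ m * P.2 j - Q.2 j‖ ^ D ≤ η * ‖algebraMap K L (f.coeff e : 𝓞 K)‖ * ‖Q.1‖ ^ (D * m)

/-- the size condition -/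
def SizP {L : Type} [NormedField L] [Algebra K L] (D m : ℕ)
    (f : MvPolynomial (Fin (n + 1)) (𝓞 K)) (η : ℝ) (Q : (Fin (n + 1) → L) × (Fin r → L)) : Prop :=
  ∃ e, ∀ j, η * ‖Q.2 j‖ ^ D ≤ ‖algebraMap K L (f.coeff e : 𝓞 K)‖ * ‖Q.1‖ ^ (D * m)

/-- the form is a product of linear forms without a common zero over the algebraic closure -/
def DecP (D : ℕ) (g : MvPolynomial (Fin r) (𝓞 K)) : Prop :=
  ∃ l : Fin D → Fin r → AlgebraicClosure K,
    (∀ w : Fin r → AlgebraicClosure K, valN w g = ∏ i, ∑ j, l i j * w j) ∧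
    ∀ w : Fin r → AlgebraicClosure K, (∀ i, ∑ j, l i j * w j = 0) → w = 0

end

/-- points over all completions -/
def LocP {K : Type} [Field K] [NumberField K] {n r : ℕ} (g : MvPolynomial (Fin r) (𝓞 K))
    (f : MvPolynomial (Fin (n + 1)) (𝓞 K)) : Prop :=
  (∀ v : InfinitePlace K, HasPtP g f v.Completion) ∧
    ∀ v : HeightOneSpectrum (𝓞 K), HasPtP g f (v.adicCompletion K)

/-- the points over `K` are `η`-dense in the product of the sets of the points satisfying the size condition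
over the completions at the finite places in `S` and at the infinite places -/
def AppP {K : Type} [Field K] [NumberField K] {n r : ℕ} (D m : ℕ)
    (S : Finset (HeightOneSpectrum (𝓞 K))) (η : ℝ) (g : MvPolynomial (Fin r) (𝓞 K))
    (f : MvPolynomial (Fin (n + 1)) (𝓞 K)) : Prop :=
  ∀ (z : (v : HeightOneSpectrum (𝓞 K)) →
      (Fin (n + 1) → v.adicCompletion K) × (Fin r → v.adicCompletion K))
    (y : (v : InfinitePlace K) → (Fin (n + 1) → v.Completion) × (Fin r → v.Completion)),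
    (∀ v ∈ S, PtP g f (z v) ∧ SizP D m f η (z v)) → (∀ v, PtP g f (y v) ∧ SizP D m f η (y v)) →
    ∃ P : (Fin (n + 1) → K) × (Fin r → K), PtP g f P ∧
      (∀ v ∈ S, CloP D m f η (fun i => algebraMap K (v.adicCompletion K) (P.1 i),
        fun j => algebraMap K (v.adicCompletion K) (P.2 j)) (z v)) ∧
      ∀ v, CloP D m f η (fun i => algebraMap K v.Completion (P.1 i),
        fun j => algebraMap K v.Completion (P.2 j)) (y v)

/-- the coefficient vector -/
noncomputable def gcv {K : Type} [Field K] {r : ℕ} (D : ℕ) (g : MvPolynomial (Fin r) (𝓞 K)) :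
    Mon r D → 𝓞 K := fun μ => g.coeff (TR_e μ)

section

variable {K : Type} [Field K] {n r D m : ℕ}

theorem Poly_val {s d : ℕ} {L : Type} [Field L] [Algebra K L] (f : Mon s d → 𝓞 K)
    (x : Fin s → L) : valN x (TR_poly f) = ev (cemb (1 : L) f) x := by
  have h1 : valN x (TR_poly f) = ev (fun μ => jj L (f μ)) x := TRK_eval L f x
  have h2 : cemb (1 : L) f = fun μ => jj L (f μ) := by
    funext μ
    unfold cemb
    rw [one_mul]
  rw [h1, h2]

theorem Poly_valg {L : Type} [Field L] [Algebra K L] (g : MvPolynomial (Fin r) (𝓞 K))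
    (hg : g.IsHomogeneous D) (w : Fin r → L) : valN w g = ev (gL L (gcv D g)) w := by
  have h1 : TR_poly (gcv D g) = g := TR_surj g hg
  have h2 := Poly_val (L := L) (gcv D g) w
  rw [h1] at h2
  exact h2

theorem Poly_pt (g : MvPolynomial (Fin r) (𝓞 K)) (hg : g.IsHomogeneous D) {d : ℕ}
    (f : Mon (n + 1) d → 𝓞 K) {L : Type} [Field L] [Algebra K L]
    (P : (Fin (n + 1) → L) × (Fin r → L)) :
    PtP g (TR_poly f) P ↔ IsPtN (gcv D g) f P.1 P.2 := by
  unfold PtP IsPtN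
  rw [Poly_val, Poly_valg g hg]
  exact and_congr Iff.rfl ⟨fun h => h.symm, fun h => h.symm⟩

theorem Poly_haspt (g : MvPolynomial (Fin r) (𝓞 K)) (hg : g.IsHomogeneous D) {d : ℕ}
    (f : Mon (n + 1) d → 𝓞 K) (L : Type) [Field L] [Algebra K L] :
    HasPtP g (TR_poly f) L ↔ ∃ (x : Fin (n + 1) → L) (w : Fin r → L), IsPtN (gcv D g) f x w := by
  constructor
  · rintro ⟨P, hP⟩
    exact ⟨P.1, P.2, (Poly_pt g hg f P).1 hP⟩
  · rintro ⟨x, w, h⟩
    exact ⟨(x, w), (Poly_pt g hg f (x, w)).2 h⟩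

theorem Poly_clo {d : ℕ} (f : Mon (n + 1) d → 𝓞 K) {L : Type} [NormedField L] [Algebra K L]
    (η : ℝ) (x : Fin (n + 1) → L) (w : Fin r → L) (Q : (Fin (n + 1) → L) × (Fin r → L))
    (h : CloN D m f η x w Q.1 Q.2) : CloP D m (TR_poly f) η (x, w) Q := by
  obtain ⟨t, h1, μ, h2⟩ := h
  refine ⟨t, h1, TR_e μ, fun j => ?_⟩
  rw [TR_coeff]
  exact h2 j

theorem Poly_siz {d : ℕ} (f : Mon (n + 1) d → 𝓞 K) {L : Type} [NormedField L] [Algebra K L]
    (η : ℝ) (Q : (Fin (n + 1) → L) × (Fin r → L))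
    (h : SizP D m (TR_poly f) η Q) : SizN D m f η Q.1 Q.2 := by
  obtain ⟨e, h1⟩ := h
  by_cases he : e.degree = d
  · have hm : (fun i => e i) ∈ Finset.Nat.antidiagonalTuple (n + 1) d := by
      rw [Finset.Nat.mem_antidiagonalTuple]
      rw [Finsupp.degree_eq_sum] at he
      exact he
    have h2 : e = TR_e (⟨fun i => e i, hm⟩ : Mon (n + 1) d) := by
      ext i
      rfl
    refine ⟨⟨fun i => e i, hm⟩, fun j => ?_⟩
    have h3 := h1 j
    rw [h2, TR_coeff] at h3
    exact h3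
  · have h0 : (TR_poly f).coeff e = 0 := (TR_hom f).coeff_eq_zero he
    have hmon : Nonempty (Mon (n + 1) d) := by
      refine ⟨⟨fun i => if i = 0 then d else 0, ?_⟩⟩
      rw [Finset.Nat.mem_antidiagonalTuple]
      rw [Finset.sum_ite_eq' Finset.univ (0 : Fin (n + 1)) fun _ => d, if_pos (Finset.mem_univ _)]
    obtain ⟨μ⟩ := hmon
    refine ⟨μ, fun j => (h1 j).trans ?_⟩
    have h5 : algebraMap K L (((TR_poly f).coeff e : 𝓞 K) : K) = 0 := by
      rw [h0]
      exact map_zero ((algebraMap K L).comp (algebraMap (𝓞 K) K))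
    rw [h5, norm_zero, zero_mul]
    positivity

theorem Poly_app [NumberField K] (g : MvPolynomial (Fin r) (𝓞 K)) (hg : g.IsHomogeneous D)
    (S : Finset (HeightOneSpectrum (𝓞 K))) (η : ℝ) {d : ℕ} (f : Mon (n + 1) d → 𝓞 K)
    (h : DenseN m S η (gcv D g) f) : AppP D m S η g (TR_poly f) := by
  intro z y hz hy
  obtain ⟨x, w, hxw, h1, h2⟩ := h (fun v => (z v).1) (fun v => (z v).2) (fun v => (y v).1)
    (fun v => (y v).2) (fun v hv => ⟨(Poly_pt g hg f (z v)).1 (hz v hv).1,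
      Poly_siz f η (z v) (hz v hv).2⟩)
    (fun v => ⟨(Poly_pt g hg f (y v)).1 (hy v).1, Poly_siz f η (y v) (hy v).2⟩)
  refine ⟨(x, w), (Poly_pt g hg f (x, w)).2 hxw, fun v hv => ?_, fun v => ?_⟩
  · exact Poly_clo f η _ _ (z v) (h1 v hv)
  · exact Poly_clo f η _ _ (y v) (h2 v)

/-- the value at zero of a form of positive degree -/
theorem Poly_zero {s d : ℕ} (hd : 1 ≤ d) {L : Type} [Field L] [Algebra K L]
    (g : MvPolynomial (Fin s) (𝓞 K)) (hg : g.IsHomogeneous d) : valN (0 : Fin s → L) g = 0 := by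
  rw [Poly_valg g hg]
  exact FinC_eval0 hd _

theorem Poly_sing [NumberField K] (hD : 2 ≤ D) {d : ℕ}
    (g : MvPolynomial (Fin r) (𝓞 K)) (hg : g.IsHomogeneous D)
    (G : Sys 1 (n + 1) (fun _ : Fin 1 => d) (𝓞 K)) :
    SmoP g (TR_poly (G 0)) ↔ ¬ SingL (AlgebraicClosure K) G := by
  have e1 : ∀ x : Fin (n + 1) → AlgebraicClosure K, valN x (TR_poly (G 0)) =
      ev (fun m => jj (AlgebraicClosure K) (G 0 m)) x :=
    fun x => TRK_eval (AlgebraicClosure K) (G 0) x
  have e2 : ∀ (x : Fin (n + 1) → AlgebraicClosure K) (t : Fin (n + 1)),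
      valN x (MvPolynomial.pderiv t (TR_poly (G 0))) =
      pd t (fun m => jj (AlgebraicClosure K) (G 0 m)) x :=
    fun x t => TRK_pderiv (AlgebraicClosure K) (G 0) x t
  constructor
  · rintro h ⟨x, lam, hx, hlam, h1, h2⟩
    have hlam0 : lam 0 ≠ 0 := by
      intro h0
      apply hlam
      funext i
      rw [Subsingleton.elim i 0]
      exact h0
    have h3 := h (x, 0) ⟨hx, by
      rw [e1, h1 0]
      exact Poly_zero (by omega) g hg⟩
    rcases h3 with ⟨j, hj⟩ | ⟨t, ht⟩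
    · exact hj (Poly_zero (d := D - 1) (by omega) _ (hg.pderiv (i := j)))
    · have h4 := h2 t
      rw [Fin.sum_univ_one] at h4
      rcases mul_eq_zero.1 h4 with h5 | h5
      · exact hlam0 h5
      · exact ht ((e2 x t).trans h5)
  · intro h P hP
    by_contra hcon
    push Not at hcon
    obtain ⟨h2, h3⟩ := hcon
    obtain ⟨hx, hv⟩ := hP
    have hk0 : (D : AlgebraicClosure K) ≠ 0 := by
      have h4 : CharZero (AlgebraicClosure K) :=
        charZero_of_injective_algebraMap (algebraMap K (AlgebraicClosure K)).injective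
      exact Nat.cast_ne_zero.2 (by omega)
    have hE : valN P.2 (D • g) = 0 := by
      rw [← hg.sum_X_mul_pderiv]
      unfold valN
      rw [MvPolynomial.eval₂_sum]
      refine Finset.sum_eq_zero fun j _ => ?_
      rw [MvPolynomial.eval₂_mul]
      have h5 := h2 j
      unfold valN at h5
      rw [h5, mul_zero]
    have hg0 : valN P.2 g = 0 := by
      unfold valN at hE ⊢
      rw [nsmul_eq_mul, MvPolynomial.eval₂_mul] at hE
      have h6 : MvPolynomial.eval₂ ((algebraMap K (AlgebraicClosure K)).comp (algebraMap (𝓞 K) K))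
          P.2 ((D : ℕ) : MvPolynomial (Fin r) (𝓞 K)) = (D : AlgebraicClosure K) := by
        rw [← MvPolynomial.coe_eval₂Hom, map_natCast]
      rw [h6] at hE
      exact (mul_eq_zero.1 hE).resolve_left hk0
    rw [hg0] at hv
    apply h
    refine ⟨P.1, fun _ => 1, hx, ?_, ?_, ?_⟩
    · intro h0
      exact one_ne_zero (congrFun h0 0)
    · intro i
      rw [Subsingleton.elim i 0, ← e1]
      exact hv.symm
    · intro t
      rw [Fin.sum_univ_one, one_mul, ← e2]
      exact h3 t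

theorem Poly_loc [NumberField K] (g : MvPolynomial (Fin r) (𝓞 K)) (hg : g.IsHomogeneous D) {d : ℕ}
    (f : Mon (n + 1) d → 𝓞 K) : LocP g (TR_poly f) ↔ ELSN (gcv D g) f :=
  and_congr (forall_congr' fun v => Poly_haspt g hg f v.Completion)
    (forall_congr' fun v => Poly_haspt g hg f (v.adicCompletion K))

theorem Poly_els [NumberField K] (g : Mon r D → 𝓞 K) {d : ℕ} (f : Mon (n + 1) d → 𝓞 K)
    (h : ∃ (x : Fin (n + 1) → K) (w : Fin r → K), IsPtN g f x w) : ELSN g f := by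
  have key : ∀ (L : Type) [Field L] [Algebra K L], ∃ (x : Fin (n + 1) → L) (w : Fin r → L),
      IsPtN g f x w := by
    intro L _ _
    obtain ⟨x, w, hx, h1⟩ := h
    refine ⟨fun l => algebraMap K L (x l), fun j => algebraMap K L (w j), ?_, ?_⟩
    · obtain ⟨l, hl⟩ := Function.ne_iff.1 hx
      refine Function.ne_iff.2 ⟨l, ?_⟩
      change algebraMap K L (x l) ≠ 0
      rw [Ne, map_eq_zero]
      exact hl
    · have h2 := congrArg (algebraMap K L) h1
      rw [← ev_map, ← ev_map] at h2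
      have e1 : ∀ {s' d' : ℕ} (F : Mon s' d' → 𝓞 K),
          (fun μ => algebraMap K L (cemb (1 : K) F μ)) = cemb (1 : L) F := by
        intro s' d' F
        funext μ
        unfold cemb jj
        rw [one_mul, one_mul]
        rfl
      unfold gL
      rw [← e1 f, ← e1 g]
      exact h2
  exact ⟨fun v => key v.Completion, fun v => key (v.adicCompletion K)⟩

end

/-- two sets of forms, of asymptotically the same size -/
private theorem Poly_ratio {K : Type} [Field K] [NumberField K] {s d : ℕ}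
    (hd : 1 ≤ d) (A E B : (Mon s d → 𝓞 K) → Prop) (hAE : ∀ f, A f → E f)
    (hpos : ∃ γ : ℝ, 0 < γ ∧ ∃ H0 : ℕ, ∀ H ≥ H0, γ * ((box K s d H).card : ℝ) ≤
      (((box K s d H).filter A).card : ℝ))
    (hzero : ∀ ε : ℝ, 0 < ε → ∃ H0 : ℕ, ∀ H ≥ H0,
      (((box K s d H).filter fun f => E f ∧ ¬ B f).card : ℝ) ≤ ε * ((box K s d H).card : ℝ)) :
    (∃ c : ℝ, 0 < c ∧ ∃ H0 : ℕ, ∀ H ≥ H0, c * ((HBox K s (fun _ : Fin 1 => d) H).card : ℝ) ≤
      (((HBox K s (fun _ : Fin 1 => d) H).filter fun F =>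
        ¬ SingL (AlgebraicClosure K) F ∧ E (F 0)).card : ℝ)) ∧
    Filter.Tendsto (fun H : ℕ =>
      (((HBox K s (fun _ : Fin 1 => d) H).filter fun F =>
        ¬ SingL (AlgebraicClosure K) F ∧ E (F 0) ∧ B (F 0)).card : ℝ) /
      (((HBox K s (fun _ : Fin 1 => d) H).filter fun F =>
        ¬ SingL (AlgebraicClosure K) F ∧ E (F 0)).card : ℝ)) Filter.atTop (nhds 1) := by
  have h1' := TRK_pos (K := K) (s := s) (d := fun _ : Fin 1 => d)
    (fun F => A (F 0)) (by
      obtain ⟨γ, hγ, H0, hA⟩ := hpos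
      refine ⟨γ, hγ, H0, fun H hH => ?_⟩
      rw [EQUC_box, EQUC_card (fun F => A (F 0)) A (fun f => Iff.rfl)]
      exact hA H hH)
  have h2 := TRK_zero (K := K) (s := s) (d := fun _ : Fin 1 => d)
    (fun F => E (F 0) ∧ ¬ B (F 0)) (by
      intro ε hε
      obtain ⟨H0, hB⟩ := hzero ε hε
      refine ⟨H0, fun H hH => ?_⟩
      rw [EQUC_box, EQUC_card (fun F => E (F 0) ∧ ¬ B (F 0)) (fun f => E f ∧ ¬ B f)
        (fun f => Iff.rfl)]
      exact hB H hH)
  obtain ⟨c, hc, H1, h1⟩ := h1'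
  obtain ⟨H2, h3⟩ := TRK_zero _ (SK_count (K := K) (s := s) (d := fun _ : Fin 1 => d)
    (AlgebraicClosure K) (fun _ => hd)) (c / 2) (by positivity)
  have hlow : ∀ H ≥ max H1 H2, c / 2 * ((HBox K s (fun _ : Fin 1 => d) H).card : ℝ) ≤
      (((HBox K s (fun _ : Fin 1 => d) H).filter fun F =>
        ¬ SingL (AlgebraicClosure K) F ∧ E (F 0)).card : ℝ) := by
    intro H hH
    have h4 := h1 H ((le_max_left _ _).trans hH)
    have h5 := h3 H ((le_max_right _ _).trans hH)
    have h6 : ((HBox K s (fun _ : Fin 1 => d) H).filter fun F => A (F 0)) ⊆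
        ((HBox K s (fun _ : Fin 1 => d) H).filter fun F =>
          ¬ SingL (AlgebraicClosure K) F ∧ E (F 0)) ∪
          ((HBox K s (fun _ : Fin 1 => d) H).filter fun F =>
            SingL (AlgebraicClosure K) F) := by
      intro F hF
      rw [Finset.mem_filter] at hF
      rw [Finset.mem_union, Finset.mem_filter, Finset.mem_filter]
      by_cases h7 : SingL (AlgebraicClosure K) F
      · exact Or.inr ⟨hF.1, h7⟩
      · exact Or.inl ⟨hF.1, h7, hAE _ hF.2⟩
    have h7 : (((HBox K s (fun _ : Fin 1 => d) H).filter fun F => A (F 0)).card : ℝ) ≤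
        (((HBox K s (fun _ : Fin 1 => d) H).filter fun F =>
          ¬ SingL (AlgebraicClosure K) F ∧ E (F 0)).card : ℝ) +
          (((HBox K s (fun _ : Fin 1 => d) H).filter fun F =>
            SingL (AlgebraicClosure K) F).card : ℝ) := by
      have h8 := (Finset.card_le_card h6).trans (Finset.card_union_le _ _)
      exact_mod_cast h8
    linarith
  refine ⟨⟨c / 2, by positivity, max H1 H2, hlow⟩, ?_⟩
  rw [Metric.tendsto_atTop]
  intro ε hε
  obtain ⟨H3, h4⟩ := h2 (c / 4 * ε) (by positivity)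
  refine ⟨max (max H1 H2) H3, fun H hH => ?_⟩
  have hk' := hlow H ((le_max_left _ _).trans hH)
  have h5 := h4 H ((le_max_right _ _).trans hH)
  have hb : (0 : ℝ) < ((HBox K s (fun _ : Fin 1 => d) H).card : ℝ) := by
    exact_mod_cast TRK_boxpos H
  set b : ℝ := ((HBox K s (fun _ : Fin 1 => d) H).card : ℝ) with hbdef
  set u : ℝ := (((HBox K s (fun _ : Fin 1 => d) H).filter fun F =>
    ¬ SingL (AlgebraicClosure K) F ∧ E (F 0) ∧ B (F 0)).card : ℝ) with hu
  set w : ℝ := (((HBox K s (fun _ : Fin 1 => d) H).filter fun F =>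
    ¬ SingL (AlgebraicClosure K) F ∧ E (F 0)).card : ℝ) with hw
  have huv : u ≤ w := by
    have h6 : ((HBox K s (fun _ : Fin 1 => d) H).filter fun F =>
        ¬ SingL (AlgebraicClosure K) F ∧ E (F 0) ∧ B (F 0)) ⊆
        ((HBox K s (fun _ : Fin 1 => d) H).filter fun F =>
          ¬ SingL (AlgebraicClosure K) F ∧ E (F 0)) := by
      intro F hF
      rw [Finset.mem_filter] at hF ⊢
      exact ⟨hF.1, hF.2.1, hF.2.2.1⟩
    rw [hu, hw]
    exact_mod_cast Finset.card_le_card h6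
  have hvu : w ≤ u + c / 4 * ε * b := by
    have h6 : ((HBox K s (fun _ : Fin 1 => d) H).filter fun F =>
        ¬ SingL (AlgebraicClosure K) F ∧ E (F 0)) ⊆
        ((HBox K s (fun _ : Fin 1 => d) H).filter fun F =>
          ¬ SingL (AlgebraicClosure K) F ∧ E (F 0) ∧ B (F 0)) ∪
          ((HBox K s (fun _ : Fin 1 => d) H).filter fun F => E (F 0) ∧ ¬ B (F 0)) := by
      intro F hF
      rw [Finset.mem_filter] at hF
      rw [Finset.mem_union, Finset.mem_filter, Finset.mem_filter]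
      by_cases h7 : B (F 0)
      · exact Or.inl ⟨hF.1, hF.2.1, hF.2.2, h7⟩
      · exact Or.inr ⟨hF.1, hF.2.2, h7⟩
    have h7 : w ≤ u + (((HBox K s (fun _ : Fin 1 => d) H).filter fun F =>
        E (F 0) ∧ ¬ B (F 0)).card : ℝ) := by
      have h8 := (Finset.card_le_card h6).trans (Finset.card_union_le _ _)
      rw [hu, hw]
      exact_mod_cast h8
    linarith
  have hv0 : 0 < w := lt_of_lt_of_le (by positivity) hk'
  rw [Real.dist_eq, abs_sub_comm, abs_of_nonneg]
  · have h6 : 1 - u / w = (w - u) / w := by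
      field_simp
    rw [h6, div_lt_iff₀ hv0]
    have h8 : ε * (c / 2 * b) ≤ ε * w := mul_le_mul_of_nonneg_left hk' hε.le
    have h9 : 0 < ε * (c / 4 * b) := by positivity
    linarith
  · rw [sub_nonneg, div_le_one hv0]
    exact huv

/-- the final theorem, from the statements for coefficient vectors -/
theorem finN_poly (K : Type) [Field K] [NumberField K] (n r D m : ℕ) (hD : 2 ≤ D) (hm : 1 ≤ m)
    (g : MvPolynomial (Fin r) (𝓞 K)) (hg : g.IsHomogeneous D)
    (hP : ∃ γ : ℝ, 0 < γ ∧ ∃ H0 : ℕ, ∀ H ≥ H0, γ * ((box K (n + 1) (D * m) H).card : ℝ) ≤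
      (((box K (n + 1) (D * m) H).filter fun f =>
        ∃ (x : Fin (n + 1) → K) (w : Fin r → K), IsPtN (gcv D g) f x w).card : ℝ))
    (hT : ∀ (S : Finset (HeightOneSpectrum (𝓞 K))) (η : ℝ), 0 < η → ∀ ε : ℝ, 0 < ε →
      ∃ H0 : ℕ, ∀ H ≥ H0, (((box K (n + 1) (D * m) H).filter fun f =>
        ELSN (gcv D g) f ∧ ¬ DenseN m S η (gcv D g) f).card : ℝ) ≤
          ε * ((box K (n + 1) (D * m) H).card : ℝ))
    (hH : ∃ η : ℝ, 0 < η ∧ ∀ f : Mon (n + 1) (D * m) → 𝓞 K, ELSN (gcv D g) f →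
      DenseN m ∅ η (gcv D g) f → ∃ (x : Fin (n + 1) → K) (w : Fin r → K), IsPtN (gcv D g) f x w) :
    (∃ c : ℝ, 0 < c ∧ ∀ᶠ H : ℕ in Filter.atTop,
      c * (({f | InC (D * m) H f} : Set (MvPolynomial (Fin (n + 1)) (𝓞 K))).ncard : ℝ) ≤
      (({f | InC (D * m) H f ∧ (SmoP g f ∧ LocP g f)} :
        Set (MvPolynomial (Fin (n + 1)) (𝓞 K))).ncard : ℝ)) ∧
    ∀ (S : Finset (HeightOneSpectrum (𝓞 K))) (η : ℝ), 0 < η → Filter.Tendsto (fun H : ℕ =>
      (({f | InC (D * m) H f ∧ (SmoP g f ∧ HasPtP g f K ∧ AppP D m S η g f)} :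
        Set (MvPolynomial (Fin (n + 1)) (𝓞 K))).ncard : ℝ) /
      (({f | InC (D * m) H f ∧ (SmoP g f ∧ LocP g f)} :
        Set (MvPolynomial (Fin (n + 1)) (𝓞 K))).ncard : ℝ)) Filter.atTop (nhds 1) := by
  have hkm : 1 ≤ D * m := Nat.one_le_iff_ne_zero.2 (Nat.mul_ne_zero (by omega) (by omega))
  have hels : ∀ H : ℕ, ({f | InC (D * m) H f ∧ (SmoP g f ∧ LocP g f)} :
      Set (MvPolynomial (Fin (n + 1)) (𝓞 K))).ncard =
      ((HBox K (n + 1) (fun _ : Fin 1 => D * m) H).filter fun F =>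
        ¬ SingL (AlgebraicClosure K) F ∧ ELSN (gcv D g) (F 0)).card := by
    intro H
    have h3 := FinC_ncard (K := K) (n := n) (D * m) H fun f => SmoP g f ∧ LocP g f
    exact h3.trans (TR2_iff _ _ _ fun G => and_congr (Poly_sing hD g hg G)
      (Poly_loc g hg (G 0)))
  have hden : ∀ (S : Finset (HeightOneSpectrum (𝓞 K))) (η : ℝ) (H : ℕ),
      ({f | InC (D * m) H f ∧ (SmoP g f ∧ HasPtP g f K ∧ AppP D m S η g f)} :
      Set (MvPolynomial (Fin (n + 1)) (𝓞 K))).ncard =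
      ((HBox K (n + 1) (fun _ : Fin 1 => D * m) H).filter fun F =>
        ¬ SingL (AlgebraicClosure K) F ∧ ELSN (gcv D g) (F 0) ∧
          (HasPtP g (TR_poly (F 0)) K ∧ AppP D m S η g (TR_poly (F 0)))).card := by
    intro S η H
    have h3 := FinC_ncard (K := K) (n := n) (D * m) H
      fun f => SmoP g f ∧ HasPtP g f K ∧ AppP D m S η g f
    refine h3.trans (TR2_iff _ _ _ fun G => and_congr (Poly_sing hD g hg G)
      ⟨fun h => ⟨Poly_els _ _ ((Poly_haspt g hg (G 0) K).1 h.1), h⟩, fun h => h.2⟩)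
  have hall : ∀ H : ℕ, ({f | InC (D * m) H f} :
      Set (MvPolynomial (Fin (n + 1)) (𝓞 K))).ncard =
      (HBox K (n + 1) (fun _ : Fin 1 => D * m) H).card := by
    intro H
    have h3 := FinC_ncard (K := K) (n := n) (D * m) H fun _ => True
    have h5 : ({f | InC (D * m) H f ∧ True} :
        Set (MvPolynomial (Fin (n + 1)) (𝓞 K))).ncard =
        (HBox K (n + 1) (fun _ : Fin 1 => D * m) H).card :=
      h3.trans (TR2_all _ _ fun _ => trivial)
    rw [← h5]
    congr 1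
    ext F
    exact ⟨fun h => ⟨h, trivial⟩, fun h => h.1⟩
  obtain ⟨η0, hη0, hH0⟩ := hH
  have key : ∀ (S : Finset (HeightOneSpectrum (𝓞 K))) (η : ℝ), 0 < η → ∀ ε : ℝ, 0 < ε →
      ∃ H0 : ℕ, ∀ H ≥ H0, (((box K (n + 1) (D * m) H).filter fun f =>
        ELSN (gcv D g) f ∧ ¬ (HasPtP g (TR_poly f) K ∧ AppP D m S η g (TR_poly f))).card : ℝ) ≤
          ε * ((box K (n + 1) (D * m) H).card : ℝ) := by
    intro S η hη ε hε
    obtain ⟨H1, h1⟩ := hT S η hη (ε / 2) (by positivity)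
    obtain ⟨H2, h2⟩ := hT ∅ η0 hη0 (ε / 2) (by positivity)
    refine ⟨max H1 H2, fun H hH => ?_⟩
    have h3 := h1 H ((le_max_left _ _).trans hH)
    have h4 := h2 H ((le_max_right _ _).trans hH)
    have h5 : ((box K (n + 1) (D * m) H).filter fun f =>
        ELSN (gcv D g) f ∧ ¬ (HasPtP g (TR_poly f) K ∧ AppP D m S η g (TR_poly f))) ⊆
        ((box K (n + 1) (D * m) H).filter fun f =>
          ELSN (gcv D g) f ∧ ¬ DenseN m S η (gcv D g) f) ∪
        ((box K (n + 1) (D * m) H).filter fun f =>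
          ELSN (gcv D g) f ∧ ¬ DenseN m ∅ η0 (gcv D g) f) := by
      intro f hf
      rw [Finset.mem_filter] at hf
      rw [Finset.mem_union, Finset.mem_filter, Finset.mem_filter]
      by_contra hcon
      push Not at hcon
      obtain ⟨ha, hb⟩ := hcon
      exact hf.2.2 ⟨(Poly_haspt g hg f K).2 (hH0 f hf.2.1 (hb hf.1 hf.2.1)),
        Poly_app g hg S η f (ha hf.1 hf.2.1)⟩
    have h6 := (Finset.card_le_card h5).trans (Finset.card_union_le _ _)
    have h7 : (((box K (n + 1) (D * m) H).filter fun f =>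
        ELSN (gcv D g) f ∧ ¬ (HasPtP g (TR_poly f) K ∧ AppP D m S η g (TR_poly f))).card : ℝ) ≤
        (((box K (n + 1) (D * m) H).filter fun f =>
          ELSN (gcv D g) f ∧ ¬ DenseN m S η (gcv D g) f).card : ℝ) +
        (((box K (n + 1) (D * m) H).filter fun f =>
          ELSN (gcv D g) f ∧ ¬ DenseN m ∅ η0 (gcv D g) f).card : ℝ) := by
      exact_mod_cast h6
    linarith
  simp only [hall, hels, hden]
  refine ⟨?_, fun S η hη => ?_⟩
  · obtain ⟨⟨c, hc, H0, h⟩, -⟩ := Poly_ratio (K := K) (s := n + 1) hkm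
      (fun f => ∃ (x : Fin (n + 1) → K) (w : Fin r → K), IsPtN (gcv D g) f x w)
      (fun f => ELSN (gcv D g) f)
      (fun f => HasPtP g (TR_poly f) K ∧ AppP D m ∅ 1 g (TR_poly f))
      (fun f hf => Poly_els _ _ hf) hP (by
        intro ε hε
        obtain ⟨H0, h⟩ := key ∅ 1 one_pos ε hε
        refine ⟨H0, fun H hH => ?_⟩
        convert h H hH)
    refine ⟨c, hc, ?_⟩
    rw [Filter.eventually_atTop]
    exact ⟨H0, h⟩
  · have hfin := (Poly_ratio (K := K) (s := n + 1) hkm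
      (fun f => ∃ (x : Fin (n + 1) → K) (w : Fin r → K), IsPtN (gcv D g) f x w)
      (fun f => ELSN (gcv D g) f)
      (fun f => HasPtP g (TR_poly f) K ∧ AppP D m S η g (TR_poly f))
      (fun f hf => Poly_els _ _ hf) hP (by
        intro ε hε
        obtain ⟨H0, h⟩ := key S η hη ε hε
        refine ⟨H0, fun H hH => ?_⟩
        convert h H hH)).2
    convert hfin

end Pool.Agent.NRM
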