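import Pool.Agent.NRM.StB

/-!
NRM [RCN] (helper70; port of RHCW/RCCW.lean): the count of the points near the given real points.
-/

set_option autoImplicit false

namespace Pool.Agent.NRM

open scoped BigOperators
open Classical NumberField IsDedekindDomain
open Pool.Agent.RHP (Mon mono ev Sys Prim pd WB WW)
open Pool.Agent.RHK Pool.Agent.RHC
open Pool.Agent.RHKB (mI hh jj qv MK uu BadK)
open Pool.Agent.RHCB (BadC cred cemb uk PrC hM f00)

section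

variable {K : Type} [Field K] [NumberField K] {s r : ℕ}

/-- the points in the class of `(ρ, ω)` near the centre `(X y, Q y)` -/
noncomputable def RCN_B (U X Q W : ℕ) (ρ : Fin s → 𝓞 K) (ω : Fin r → 𝓞 K) (θ : ℝ)
    (y : (v : InfinitePlace K) → Fin r ⊕ Fin s → v.Completion) :
    Finset ((Fin s → 𝓞 K) × (Fin r → 𝓞 K)) :=
  (bx K s (X : ℝ) ×ˢ bx K r (U : ℝ)).filter fun p =>
    ((∀ l, (W : 𝓞 K) ∣ p.1 l - ρ l) ∧ ∀ j, (W : 𝓞 K) ∣ p.2 j - ω j) ∧ NearN y θ X Q p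

theorem RCN_card_B (U X Q W : ℕ) (ρ : Fin s → 𝓞 K) (ω : Fin r → 𝓞 K) (θ : ℝ)
    (y : (v : InfinitePlace K) → Fin r ⊕ Fin s → v.Completion) (b1 b2 : ℝ) (hb1 : 0 < b1)
    (hb2 : 0 < b2)
    (hlow1 : ∀ l : Fin s, b1 ≤ ({a : 𝓞 K | (∀ v : InfinitePlace K,
      ‖jj v.Completion a - (X : v.Completion) * y v (Sum.inr l)‖ ≤ θ * X) ∧
        (W : 𝓞 K) ∣ a - ρ l}.ncard : ℝ))
    (hlow2 : ∀ j : Fin r, b2 ≤ ({a : 𝓞 K | (∀ v : InfinitePlace K,
      ‖jj v.Completion a - (Q : v.Completion) * y v (Sum.inl j)‖ ≤ θ * Q) ∧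
        (W : 𝓞 K) ∣ a - ω j}.ncard : ℝ))
    (hbx : ∀ (x : Fin s → 𝓞 K) (w : Fin r → 𝓞 K), NearN y θ X Q (x, w) →
        x ∈ bx K s (X : ℝ) ∧ w ∈ bx K r (U : ℝ)) :
    b1 ^ s * b2 ^ r ≤ ((RCN_B U X Q W ρ ω θ y).card : ℝ) := by
  set S : Fin s → Set (𝓞 K) := fun l => {a : 𝓞 K | (∀ v : InfinitePlace K,
      ‖jj v.Completion a - (X : v.Completion) * y v (Sum.inr l)‖ ≤ θ * X) ∧
        (W : 𝓞 K) ∣ a - ρ l} with hS
  set S' : Fin r → Set (𝓞 K) := fun j => {a : 𝓞 K | (∀ v : InfinitePlace K,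
      ‖jj v.Completion a - (Q : v.Completion) * y v (Sum.inl j)‖ ≤ θ * Q) ∧
        (W : 𝓞 K) ∣ a - ω j} with hS'
  have hfin : ∀ l, (S l).Finite := by
    intro l
    apply Set.finite_of_ncard_ne_zero
    intro h0
    have h1 := hlow1 l
    change b1 ≤ ((S l).ncard : ℝ) at h1
    rw [h0, Nat.cast_zero] at h1
    linarith
  have hfin' : ∀ j, (S' j).Finite := by
    intro j
    apply Set.finite_of_ncard_ne_zero
    intro h0
    have h1 := hlow2 j
    change b2 ≤ ((S' j).ncard : ℝ) at h1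
    rw [h0, Nat.cast_zero] at h1
    linarith
  have hsub : ((Fintype.piFinset fun l => (hfin l).toFinset) ×ˢ
      (Fintype.piFinset fun j => (hfin' j).toFinset)) ⊆ RCN_B U X Q W ρ ω θ y := by
    intro p hp
    rw [Finset.mem_product, Fintype.mem_piFinset, Fintype.mem_piFinset] at hp
    have hx' : ∀ l, p.1 l ∈ S l := fun l => (Set.Finite.mem_toFinset _).1 (hp.1 l)
    have hw' : ∀ j, p.2 j ∈ S' j := fun j => (Set.Finite.mem_toFinset _).1 (hp.2 j)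
    have hn : NearN y θ X Q (p.1, p.2) := fun v => ⟨fun l => (hx' l).1 v, fun j => (hw' j).1 v⟩
    unfold RCN_B
    rw [Finset.mem_filter, Finset.mem_product]
    exact ⟨hbx p.1 p.2 hn, ⟨fun l => (hx' l).2, fun j => (hw' j).2⟩, hn⟩
  have h1 := Finset.card_le_card hsub
  rw [Finset.card_product, Fintype.card_piFinset, Fintype.card_piFinset] at h1
  have h2 : b1 ^ s * b2 ^ r ≤
      (((∏ l, (hfin l).toFinset.card) * (∏ j, (hfin' j).toFinset.card) : ℕ) : ℝ) := by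
    rw [Nat.cast_mul, Nat.cast_prod, Nat.cast_prod]
    have h3 : b1 ^ s = ∏ _l : Fin s, b1 := by
      rw [Finset.prod_const, Finset.card_univ, Fintype.card_fin]
    have h3' : b2 ^ r = ∏ _l : Fin r, b2 := by
      rw [Finset.prod_const, Finset.card_univ, Fintype.card_fin]
    rw [h3, h3']
    refine mul_le_mul ?_ ?_ (Finset.prod_nonneg fun l _ => hb2.le)
      (Finset.prod_nonneg fun l _ => Nat.cast_nonneg _)
    · refine Finset.prod_le_prod (fun l _ => hb1.le) fun l _ => ?_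
      have h4 := hlow1 l
      change b1 ≤ ((S l).ncard : ℝ) at h4
      rwa [Set.ncard_eq_toFinset_card _ (hfin l)] at h4
    · refine Finset.prod_le_prod (fun l _ => hb2.le) fun j _ => ?_
      have h4 := hlow2 j
      change b2 ≤ ((S' j).ncard : ℝ) at h4
      rwa [Set.ncard_eq_toFinset_card _ (hfin' j)] at h4
  exact h2.trans (by exact_mod_cast h1)

end

theorem thm_RCN (hC : St_CENN) (hM : St_SMLN) (hL : RHKB.St_CLOW) (hP : St_NPRN)
    (hW : RHKB.St_PLW) : St_RCN := by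
  intro K _ _ s r D m hs hDD gg A B dl hdl hAB δ ε hδ hr hr16
  obtain ⟨θ₀, c1, hθ₀, hc1, hC⟩ := hC K s r D (D * m) δ ε hδ hr
  obtain ⟨Λ, hΛ, hM⟩ := hM K s r D m (by omega) hDD gg B dl hdl
  obtain ⟨C2, c2, hC2, hc2, hL⟩ := hL K
  obtain ⟨C3, hC3, hP⟩ := hP K s r hs
  obtain ⟨a, ha, haθ, har, haΛ⟩ : ∃ a : ℝ, 0 < a ∧ a ≤ θ₀ ∧ a ≤ ε ∧ Λ * a ≤ 1 := by
    refine ⟨min (min θ₀ ε) (1 / Λ), lt_min (lt_min hθ₀ hr) (by positivity),
      (min_le_left _ _).trans (min_le_left _ _), (min_le_left _ _).trans (min_le_right _ _), ?_⟩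
    have h1 : min (min θ₀ ε) (1 / Λ) ≤ 1 / Λ := min_le_right _ _
    calc Λ * min (min θ₀ ε) (1 / Λ) ≤ Λ * (1 / Λ) := mul_le_mul_of_nonneg_left h1 hΛ.le
      _ = 1 := by field_simp
  have ha16 : a ≤ 1 / 16 := har.trans hr16
  obtain ⟨e, he⟩ : ∃ e : ℕ, e = dg K := ⟨_, rfl⟩
  rw [← he]
  obtain ⟨g, hg⟩ : ∃ g : ℝ, g = c1 * a ^ e := ⟨_, rfl⟩
  have hg0 : 0 < g := by
    rw [hg]
    positivity
  have hA0 : 0 < A := by
    have : 0 < dl * (B + 1) := Nat.mul_pos hdl (Nat.succ_pos _)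
    omega
  have hAr : (0 : ℝ) < A := by exact_mod_cast hA0
  refine ⟨g * c2 ^ (s + r) / 2, g * C3, by positivity, by positivity, ?_⟩
  intro W κ m0 hW0 hκ hm0 hcop
  have hWr : (0 : ℝ) < W := by exact_mod_cast hW0
  have hκr : (0 : ℝ) < κ := by exact_mod_cast hκ
  have hκ1 : (1 : ℝ) ≤ κ := by exact_mod_cast hκ
  have hm0r : (0 : ℝ) < m0 := by exact_mod_cast hm0
  obtain ⟨M2, hM2⟩ : ∃ M2 : ℝ, M2 = (A : ℝ) ^ (e * r) * (W * κ / a) ^ (e * s) := ⟨_, rfl⟩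
  have hM20 : 0 < M2 := by
    rw [hM2]
    positivity
  obtain ⟨X0, hX0⟩ := exists_nat_ge (max (max (C2 * W * κ / a) (W * κ / a))
    (2 * C3 * M2 * κ ^ e * W ^ (e * (s + r)) / (g * c2 ^ (s + r))))
  refine ⟨X0 + 1, fun X V H hX hV hVH hHV f hf z₀ hz1 hz2 hNZ ρ ω hρ => ?_⟩
  have hXpos : 0 < X := by omega
  have hVpos : 0 < V := by omega
  have hXr : (0 : ℝ) < X := by exact_mod_cast hXpos
  obtain ⟨Q0, hQ0⟩ : ∃ Q0 : ℕ, Q0 = X ^ m * V := ⟨_, rfl⟩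
  have hQ0V : V ≤ Q0 := by
    rw [hQ0]
    exact Nat.le_mul_of_pos_left _ (pow_pos hXpos m)
  obtain ⟨Q, hQ⟩ : ∃ Q : ℕ, Q = dl * (X ^ m * V) := ⟨_, rfl⟩
  have hQQ : Q = dl * Q0 := by rw [hQ, hQ0]
  have hQ0Q : Q0 ≤ Q := by
    rw [hQQ]
    exact Nat.le_mul_of_pos_left _ hdl
  have hQV : V ≤ Q := hQ0V.trans hQ0Q
  have hQpos : 0 < Q := by omega
  have hQr : (0 : ℝ) < Q := by exact_mod_cast hQpos
  have hQ0pos : 0 < Q0 := by omega
  have hQ0r : (0 : ℝ) < Q0 := by exact_mod_cast hQ0pos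
  have hXX0 : (X0 : ℝ) ≤ X := by exact_mod_cast (by omega : X0 ≤ X)
  have hQX0 : (X0 : ℝ) ≤ Q := by exact_mod_cast (by omega : X0 ≤ Q)
  have hXa : C2 * W * κ / a ≤ (X0 : ℝ) :=
    ((le_max_left _ _).trans (le_max_left _ _)).trans hX0
  have hXc : W * κ / a ≤ (X0 : ℝ) :=
    ((le_max_right _ _).trans (le_max_left _ _)).trans hX0
  have hXb : 2 * C3 * M2 * κ ^ e * W ^ (e * (s + r)) / (g * c2 ^ (s + r)) ≤ (X : ℝ) :=
    ((le_max_right _ _).trans hX0).trans hXX0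
  obtain ⟨P00, hP00def⟩ : ∃ P : ℝ, P = ((X : ℝ) ^ s * (Q0 : ℝ) ^ r) ^ e := ⟨_, rfl⟩
  obtain ⟨P0, hP0def⟩ : ∃ P : ℝ, P = ((X : ℝ) ^ s * (Q : ℝ) ^ r) ^ e := ⟨_, rfl⟩
  have hP000 : 0 < P00 := by
    rw [hP00def]
    positivity
  have hP00 : 0 < P0 := by
    rw [hP0def]
    positivity
  have hP0le : P00 ≤ P0 := by
    rw [hP00def, hP0def]
    have : (Q0 : ℝ) ≤ Q := by exact_mod_cast hQ0Q
    gcongr
  have hP0eq : ((X : ℝ) ^ s * ((X : ℝ) ^ m * V) ^ r) ^ e = P00 := by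
    rw [hP00def, hQ0]
    push_cast
    rfl
  rw [hP0eq]
  -- trivial case
  by_cases hneg' : g * c2 ^ (s + r) / 2 - g * C3 / m0 ≤ 0
  · have h5 : (g * c2 ^ (s + r) / 2 - g * C3 / m0) * P00 /
        ((κ : ℝ) ^ e * (W : ℝ) ^ (e * (s + r))) ≤ 0 := by
      apply div_nonpos_of_nonpos_of_nonneg
      · exact mul_nonpos_of_nonpos_of_nonneg hneg' hP000.le
      · positivity
    exact h5.trans (Nat.cast_nonneg _)
  push Not at hneg'
  have hneg : 0 ≤ c2 ^ (s + r) - C3 / m0 := by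
    have h2 : g * c2 ^ (s + r) / 2 - g * C3 / m0 =
        g * (c2 ^ (s + r) - C3 / m0) - g * c2 ^ (s + r) / 2 := by
      ring
    rw [h2] at hneg'
    have h4 : 0 < g * c2 ^ (s + r) / 2 := by positivity
    by_contra hcon
    push Not at hcon
    have h3 : g * (c2 ^ (s + r) - C3 / m0) < 0 := mul_neg_of_pos_of_neg hg0 hcon
    linarith
  have hredu : (g * c2 ^ (s + r) / 2 - g * C3 / m0) * P00 /
      ((κ : ℝ) ^ e * (W : ℝ) ^ (e * (s + r))) ≤ (g * c2 ^ (s + r) / 2 - g * C3 / m0) * P0 /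
      ((κ : ℝ) ^ e * (W : ℝ) ^ (e * (s + r))) := by
    refine div_le_div_of_nonneg_right ?_ (by positivity)
    exact mul_le_mul_of_nonneg_left hP0le hneg'.le
  refine hredu.trans ?_
  obtain ⟨θ, hθ⟩ : ∃ θ : ℝ, θ = a / κ := ⟨_, rfl⟩
  have hθ0 : 0 < θ := by
    rw [hθ]
    positivity
  have hθa : θ ≤ a := by
    rw [hθ]
    exact div_le_self ha.le hκ1
  have hCT0 : C2 * W ≤ θ * X0 := by
    have h1 := hXa
    rw [div_le_iff₀ ha] at h1
    rw [hθ, div_mul_eq_mul_div, le_div_iff₀ hκr]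
    linarith
  have hWT0 : (W : ℝ) ≤ θ * X0 := by
    have h1 := hXc
    rw [div_le_iff₀ ha] at h1
    rw [hθ, div_mul_eq_mul_div, le_div_iff₀ hκr]
    linarith
  have hθX : θ * X0 ≤ θ * X := mul_le_mul_of_nonneg_left hXX0 hθ0.le
  have hθQ : θ * X0 ≤ θ * Q := mul_le_mul_of_nonneg_left hQX0 hθ0.le
  obtain ⟨ι, hι, y, hy0, hyr, hysep, hyc⟩ := hC (fun v => cemb (uk v D V) f)
    (fun v => gL v.Completion gg) z₀ hNZ θ hθ0 (hθa.trans haθ)
  have hyn : ∀ i (v : InfinitePlace K), 11 / 16 ≤ ‖xz (y i v)‖ ∧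
      ‖xz (y i v)‖ ≤ 13 / 16 ∧ ∀ j, ‖wz (y i v) j‖ ≤ (B : ℝ) + 1 / 16 := by
    intro i v
    have h1 : ‖xz (y i v) - xz (z₀ v)‖ ≤ 1 / 16 :=
      ((pi_norm_le_iff_of_nonneg hr.le).2 fun l : Fin s => hyr i v (Sum.inr l)).trans hr16
    have h2 := hz1 v
    have h3 := abs_norm_sub_norm_le (xz (y i v)) (xz (z₀ v))
    have h4 := abs_le.1 (h3.trans h1)
    refine ⟨?_, ?_, fun j => ?_⟩
    · linarith [h4.1, h4.2]
    · linarith [h4.1, h4.2]
    · have h5 : ‖wz (y i v) j‖ ≤ ‖wz (z₀ v) j‖ + ‖wz (y i v) j - wz (z₀ v) j‖ :=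
        norm_le_norm_add_norm_sub' _ _
      have h6 : ‖wz (y i v) j - wz (z₀ v) j‖ ≤ ε := hyr i v (Sum.inl j)
      have h7 := hz2 v j
      linarith
  obtain ⟨U, hU⟩ : ∃ U : ℕ, U = A * (X ^ m * V) := ⟨_, rfl⟩
  have hUAQ : (U : ℝ) ≤ ((A * Q : ℕ) : ℝ) := by
    rw [hU, ← hQ0]
    exact_mod_cast Nat.mul_le_mul_left A hQ0Q
  have hSM : ∀ (i : ι) (x : Fin s → 𝓞 K) (w : Fin r → 𝓞 K), NearN (y i) θ X Q (x, w) →
      (x ∈ bx K s (X : ℝ) ∧ w ∈ bx K r (U : ℝ)) ∧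
        (∀ v : InfinitePlace K, (X : ℝ) < 2 * vs v x) ∧
        (cz (((dl ^ D : ℕ) : 𝓞 K) * ev f x - ev gg w) : ℝ) ≤ Λ * θ * H * (X : ℝ) ^ (D * m) := by
    intro i x w hx
    rw [hQ] at hx
    have h1 := hM V H X hVpos hXpos hVH hHV f hf θ hθ0 (hθa.trans ha16) (y i) (hy0 i) (hyn i) x w hx
    refine ⟨⟨h1.1, ?_⟩, h1.2.1, h1.2.2.2⟩
    rw [mem_bx (Nat.cast_nonneg _)]
    intro v
    unfold vs
    refine (pi_norm_le_iff_of_nonneg (Nat.cast_nonneg _)).2 fun j => ?_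
    have h2 := h1.2.2.1 v j
    have h3 : (0 : ℝ) ≤ av v (w j) := by
      unfold av
      exact apply_nonneg _ _
    rw [Real.norm_of_nonneg h3]
    refine h2.trans ?_
    have h4 : (B + 1) * (dl * (X ^ m * V)) ≤ U := by
      rw [hU]
      calc (B + 1) * (dl * (X ^ m * V)) = dl * (B + 1) * (X ^ m * V) := by ring
        _ ≤ A * (X ^ m * V) := Nat.mul_le_mul_right _ hAB
    exact_mod_cast h4
  have hcard : ∀ i : ι, c2 ^ (s + r) * (θ / W) ^ (e * (s + r)) * P0 ≤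
      ((RCN_B U X Q W ρ ω θ (y i)).card : ℝ) := by
    intro i
    have h1 : c2 ^ (s + r) * (θ / W) ^ (e * (s + r)) * P0 =
        (c2 * (θ * X / W) ^ e) ^ s * (c2 * (θ * Q / W) ^ e) ^ r := by
      have h2 : θ * X / W = θ / W * X := by ring
      have h3 : θ * Q / W = θ / W * Q := by ring
      rw [h2, h3, hP0def]
      ring
    rw [h1]
    refine RCN_card_B U X Q W ρ ω θ (y i) _ _ (by positivity) (by positivity) (fun l => ?_)
      (fun j => ?_) fun x w hx => (hSM i x w hx).1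
    · rw [he]
      exact hL W hW0 (θ * X) (hCT0.trans hθX)
        (fun v => (X : v.Completion) * y i v (Sum.inr l)) (ρ l)
    · rw [he]
      exact hL W hW0 (θ * Q) (hCT0.trans hθQ)
        (fun v => (Q : v.Completion) * y i v (Sum.inl j)) (ω j)
  have hnat : ∀ (v : InfinitePlace K) (n : ℕ), ‖(n : v.Completion)‖ = n := by
    intro v n
    have h1 := (hW K v).2.2.2.1 (n : ℚ)
    rw [Rat.cast_natCast, Rat.cast_natCast, Nat.abs_cast] at h1
    exact h1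
  have hsepn : ∀ (v : InfinitePlace K) (n : ℕ) (u z z' : v.Completion), 0 < n →
      2 * θ < ‖z - z'‖ → ‖u - (n : v.Completion) * z‖ ≤ θ * n →
      ‖u - (n : v.Completion) * z'‖ ≤ θ * n → False := by
    intro v n u z z' hn h0 h1 h2
    have hnr : (0 : ℝ) < n := by exact_mod_cast hn
    have h3 : ‖(n : v.Completion) * z - (n : v.Completion) * z'‖ ≤ θ * n + θ * n := by
      have h4 : (n : v.Completion) * z - (n : v.Completion) * z' =
          (u - (n : v.Completion) * z') - (u - (n : v.Completion) * z) := by ring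
      rw [h4]
      exact (norm_sub_le _ _).trans (add_le_add h2 h1)
    rw [← mul_sub, norm_mul, hnat] at h3
    have h5 : (n : ℝ) * (2 * θ) < n * ‖z - z'‖ := mul_lt_mul_of_pos_left h0 hnr
    linarith
  have hdisj : ∀ i ∈ (Finset.univ : Finset ι), ∀ j ∈ (Finset.univ : Finset ι), i ≠ j →
      Disjoint (RCN_B U X Q W ρ ω θ (y i)) (RCN_B U X Q W ρ ω θ (y j)) := by
    intro i _ j _ hij
    rw [Finset.disjoint_left]
    intro p hp hp'
    unfold RCN_B at hp hp'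
    rw [Finset.mem_filter] at hp hp'
    obtain ⟨v, l, hvl⟩ := hysep i j hij
    have h1 := hp.2.2 v
    have h2 := hp'.2.2 v
    rcases l with l | l
    · exact hsepn v Q _ _ _ hQpos hvl (h1.2 l) (h2.2 l)
    · exact hsepn v X _ _ _ hXpos hvl (h1.1 l) (h2.1 l)
  -- the union
  have hU1 : (Fintype.card ι : ℝ) * (c2 ^ (s + r) * (θ / W) ^ (e * (s + r)) * P0) ≤
      ((Finset.univ.biUnion fun i => RCN_B U X Q W ρ ω θ (y i)).card : ℝ) := by
    rw [Finset.card_biUnion hdisj, Nat.cast_sum]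
    calc (Fintype.card ι : ℝ) * (c2 ^ (s + r) * (θ / W) ^ (e * (s + r)) * P0) =
          ∑ _i : ι, (c2 ^ (s + r) * (θ / W) ^ (e * (s + r)) * P0) := by
          rw [Finset.sum_const, Finset.card_univ, nsmul_eq_mul]
      _ ≤ ∑ i : ι, ((RCN_B U X Q W ρ ω θ (y i)).card : ℝ) :=
          Finset.sum_le_sum fun i _ => hcard i
  have hnp := hP W m0 hW0 hm0 hcop ρ ω hρ A X Q θ hA0 hXpos hQpos hθ0 (by linarith)
    (hWT0.trans hθX) (hWT0.trans hθQ) ι
    (fun i v => Sum.elim (fun j => (Q : v.Completion) * y i v (Sum.inl j))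
      (fun l => (X : v.Completion) * y i v (Sum.inr l)))
  simp only [Sum.elim_inl, Sum.elim_inr] at hnp
  set NP : Finset ((Fin s → 𝓞 K) × (Fin r → 𝓞 K)) :=
    (bx K s (X : ℝ) ×ˢ bx K r ((A * Q : ℕ) : ℝ)).filter fun p => p.1 ≠ 0 ∧ ¬ Prim p.1 ∧
      (∀ l, (W : 𝓞 K) ∣ p.1 l - ρ l) ∧ (∀ j, (W : 𝓞 K) ∣ p.2 j - ω j) ∧
      ∃ i, ∀ v : InfinitePlace K, (∀ l : Fin s,
        ‖jj v.Completion (p.1 l) - (X : v.Completion) * y i v (Sum.inr l)‖ ≤ θ * X) ∧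
        ∀ j, ‖jj v.Completion (p.2 j) - (Q : v.Completion) * y i v (Sum.inl j)‖ ≤ θ * Q with hNP
  set PP : Finset ((Fin s → 𝓞 K) × (Fin r → 𝓞 K)) :=
    (bx K s (X : ℝ) ×ˢ bx K r (U : ℝ)).filter fun p =>
      (Prim p.1 ∧ (∀ v : InfinitePlace K, (X : ℝ) < 2 * vs v p.1) ∧
      (∀ l, (W : 𝓞 K) ∣ p.1 l - ρ l) ∧ (∀ j, (W : 𝓞 K) ∣ p.2 j - ω j) ∧
      cz (((dl ^ D : ℕ) : 𝓞 K) * ev f p.1 - ev gg p.2) * κ ≤ dl ^ D * (H * X ^ (D * m))) ∧
      p ∈ {p : (Fin s → 𝓞 K) × (Fin r → 𝓞 K) | NearN z₀ (2 * ε) X Q p} with hPP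
  have hsub : (Finset.univ.biUnion fun i => RCN_B U X Q W ρ ω θ (y i)) ⊆ PP ∪ NP := by
    intro p hp
    rw [Finset.mem_biUnion] at hp
    obtain ⟨i, -, hp⟩ := hp
    unfold RCN_B at hp
    rw [Finset.mem_filter] at hp
    obtain ⟨hx1, ⟨hx2, hx2'⟩, hx3⟩ := hp
    obtain ⟨-, h2, h3⟩ := hSM i p.1 p.2 hx3
    rw [Finset.mem_union]
    by_cases hpr : Prim p.1
    · left
      rw [hPP, Finset.mem_filter]
      refine ⟨hx1, ⟨hpr, h2, hx2, hx2', ?_⟩, ?_⟩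
      swap
      · have hnear : ∀ (v : InfinitePlace K) (n : ℕ) (u z z' : v.Completion),
            ‖z - z'‖ ≤ ε → ‖u - (n : v.Completion) * z‖ ≤ θ * n →
            ‖u - (n : v.Completion) * z'‖ ≤ 2 * ε * n := by
          intro v n u z z' h6 h7
          have h8 : u - (n : v.Completion) * z' = (u - (n : v.Completion) * z) +
            (n : v.Completion) * (z - z') := by ring
          rw [h8]
          refine (norm_add_le _ _).trans ?_
          rw [norm_mul, hnat]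
          have h9 := mul_le_mul_of_nonneg_left h6 (Nat.cast_nonneg (α := ℝ) n)
          have h10 : θ * n ≤ ε * n :=
            mul_le_mul_of_nonneg_right (hθa.trans har) (Nat.cast_nonneg _)
          linarith
        intro v
        exact ⟨fun l => hnear v X _ _ _ (hyr i v (Sum.inr l)) ((hx3 v).1 l),
          fun j => hnear v Q _ _ _ (hyr i v (Sum.inl j)) ((hx3 v).2 j)⟩
      have h5 : (cz (((dl ^ D : ℕ) : 𝓞 K) * ev f p.1 - ev gg p.2) : ℝ) * κ ≤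
          (dl : ℝ) ^ D * (H * (X : ℝ) ^ (D * m)) := by
        have hdl1 : (1 : ℝ) ≤ (dl : ℝ) ^ D := one_le_pow₀ (by exact_mod_cast hdl)
        calc (cz (((dl ^ D : ℕ) : 𝓞 K) * ev f p.1 - ev gg p.2) : ℝ) * κ ≤
              Λ * θ * H * (X : ℝ) ^ (D * m) * κ :=
              mul_le_mul_of_nonneg_right h3 hκr.le
          _ = Λ * a * (H * (X : ℝ) ^ (D * m)) := by
              rw [hθ]
              field_simp
          _ ≤ 1 * (H * (X : ℝ) ^ (D * m)) := mul_le_mul_of_nonneg_right haΛ (by positivity)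
          _ ≤ (dl : ℝ) ^ D * (H * (X : ℝ) ^ (D * m)) :=
              mul_le_mul_of_nonneg_right hdl1 (by positivity)
      exact_mod_cast h5
    · right
      rw [hNP, Finset.mem_filter]
      rw [Finset.mem_product] at hx1
      refine ⟨Finset.mem_product.2 ⟨hx1.1, ?_⟩, ?_, hpr, hx2, hx2', i, hx3⟩
      · rw [mem_bx (Nat.cast_nonneg _)]
        intro v
        exact ((mem_bx (Nat.cast_nonneg _)).1 hx1.2 v).trans hUAQ
      intro hb
      obtain ⟨v⟩ : Nonempty (InfinitePlace K) := inferInstance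
      have h4 := h2 v
      have h5 : vs v (0 : Fin s → 𝓞 K) = 0 := by
        unfold vs av
        have h6 : (fun i : Fin s => v (((0 : Fin s → 𝓞 K) i : 𝓞 K) : K)) = 0 := by
          funext i
          simp
        rw [h6, norm_zero]
      rw [hb, h5] at h4
      linarith
  have hU2 : ((Finset.univ.biUnion fun i => RCN_B U X Q W ρ ω θ (y i)).card : ℝ) ≤
      (PP.card : ℝ) + (NP.card : ℝ) := by
    have h1 := (Finset.card_le_card hsub).trans (Finset.card_union_le _ _)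
    exact_mod_cast h1
  have hRCn : (RCnN {p | NearN z₀ (2 * ε) X (dl * (X ^ m * V)) p} (dl ^ D) gg
      (A * (X ^ m * V)) X H κ W f ρ ω : ℝ) = (PP.card : ℝ) := by
    unfold RCnN
    rw [hPP, hQ, hU]
  rw [hRCn]
  -- numbers
  obtain ⟨N, hN⟩ : ∃ N : ℝ, N = (Fintype.card ι : ℝ) := ⟨_, rfl⟩
  rw [← hN] at hyc hU1 hnp
  rw [← he] at hyc hnp
  have hN0 : 0 ≤ N := by
    rw [hN]
    exact Nat.cast_nonneg _
  obtain ⟨P, hPdef⟩ : ∃ P : ℝ, P = P0 / ((κ : ℝ) ^ e * (W : ℝ) ^ (e * (s + r))) := ⟨_, rfl⟩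
  have hPpos : 0 < P := by
    rw [hPdef]
    positivity
  obtain ⟨T, hT⟩ : ∃ T : ℝ, T = (θ / W) ^ (e * (s + r)) * P0 := ⟨_, rfl⟩
  have hT0 : 0 < T := by
    rw [hT]
    positivity
  have hNg : g * P ≤ N * T := by
    have h1 : c1 * (1 / θ) ^ (e * (s + r - 1)) * θ ^ (e * (s + r)) = c1 * θ ^ e := by
      have e1 : e * (s + r) = e * (s + r - 1) + e := by
        have : s + r = s + r - 1 + 1 := by omega
        calc e * (s + r) = e * (s + r - 1 + 1) := by rw [← this]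
          _ = e * (s + r - 1) + e := by ring
      rw [e1, pow_add, one_div, inv_pow]
      have h2 : θ ^ (e * (s + r - 1)) ≠ 0 := by positivity
      field_simp
    have h3 : g * P = c1 * θ ^ e * (P0 / (W : ℝ) ^ (e * (s + r))) := by
      rw [hg, hPdef, hθ, div_pow]
      field_simp
    have h4 : T = θ ^ (e * (s + r)) * (P0 / (W : ℝ) ^ (e * (s + r))) := by
      rw [hT, div_pow]
      ring
    rw [h3, ← h1, h4]
    have h5 : c1 * (1 / θ) ^ (e * (s + r - 1)) * θ ^ (e * (s + r)) *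
        (P0 / (W : ℝ) ^ (e * (s + r))) = c1 * (1 / θ) ^ (e * (s + r - 1)) *
        (θ ^ (e * (s + r)) * (P0 / (W : ℝ) ^ (e * (s + r)))) := by ring
    rw [h5]
    exact mul_le_mul_of_nonneg_right hyc (by positivity)
  have hlast : C3 * (A : ℝ) ^ (e * r) / X * (W / θ) ^ (e * s) * P0 ≤ g * c2 ^ (s + r) / 2 * P := by
    have h1 : (W : ℝ) / θ = W * κ / a := by
      rw [hθ]
      field_simp
    rw [h1]
    have h2 : C3 * (A : ℝ) ^ (e * r) / X * (W * κ / a) ^ (e * s) * P0 = C3 / X * M2 * P0 := by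
      rw [hM2]
      ring
    rw [h2]
    rw [div_le_iff₀ (by positivity)] at hXb
    rw [hPdef, mul_div_assoc', le_div_iff₀ (by positivity), div_mul_eq_mul_div,
      div_mul_eq_mul_div, div_mul_eq_mul_div, div_le_iff₀ hXr]
    have h3 := mul_le_mul_of_nonneg_right hXb hP00.le
    linarith
  have hgoal : (g * c2 ^ (s + r) / 2 - g * C3 / m0) * P0 /
      ((κ : ℝ) ^ e * (W : ℝ) ^ (e * (s + r))) = (c2 ^ (s + r) - C3 / m0) * (g * P) -
        g * c2 ^ (s + r) / 2 * P := by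
    rw [hPdef]
    ring
  rw [hgoal]
  have h6 : (c2 ^ (s + r) - C3 / m0) * (g * P) ≤ (c2 ^ (s + r) - C3 / m0) * (N * T) :=
    mul_le_mul_of_nonneg_left hNg hneg
  have h7 : (NP.card : ℝ) ≤ (C3 * (N / m0) * (θ / W) ^ (e * (s + r)) +
      C3 * (A : ℝ) ^ (e * r) / X * (W / θ) ^ (e * s)) * P0 := by
    rw [hP0def]
    exact hnp
  have h8 : N * (c2 ^ (s + r) * (θ / W) ^ (e * (s + r)) * P0) ≤ (PP.card : ℝ) + (NP.card : ℝ) :=
    hU1.trans hU2
  have h9 : (c2 ^ (s + r) - C3 / m0) * (N * T) =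
      N * (c2 ^ (s + r) * (θ / W) ^ (e * (s + r)) * P0) -
        C3 * (N / m0) * (θ / W) ^ (e * (s + r)) * P0 := by
    rw [hT]
    ring
  have h10 : (C3 * (N / m0) * (θ / W) ^ (e * (s + r)) +
      C3 * (A : ℝ) ^ (e * r) / X * (W / θ) ^ (e * s)) * P0 =
      C3 * (N / m0) * (θ / W) ^ (e * (s + r)) * P0 +
      C3 * (A : ℝ) ^ (e * r) / X * (W / θ) ^ (e * s) * P0 := by ring
  linarith

end Pool.Agent.NRM
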