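import Pool.Agent.NRM.StA

/-!
NRM (NORM), module RPB: the number of the representations of a nonzero integer by a decomposable form
(helper22).
-/

set_option autoImplicit false

namespace Pool.Agent.NRM

open scoped BigOperators
open Classical NumberField
open Pool.Agent.RHP (Mon mono ev ev_map)
open Pool.Agent.RHK
open Pool.Agent.RHKB (jj)

/-- units with a bounded action -/
private theorem RPB_unit {L : Type} [Field L] [NumberField L] {X : ℝ} (hX : 1 ≤ X) {x x0 : 𝓞 L}
    (h0 : x0 ≠ 0) (hx : ∀ v : InfinitePlace L, av v x ≤ X)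
    (hx0 : ∀ v : InfinitePlace L, av v x0 ≤ X) (u : 𝓞 L) (hu : x0 * u = x)
    (v : InfinitePlace L) : av v u ≤ X ^ dg L := by
  have h1 : av v u ^ v.mult ≤ X ^ dg L := by
    have h2 := one_le_prod_av h0
    calc av v u ^ v.mult ≤ av v u ^ v.mult * ∏ w : InfinitePlace L, av w x0 ^ w.mult :=
          le_mul_of_one_le_right (pow_nonneg (av_nonneg v u) _) h2
      _ = av v x ^ v.mult * ∏ w ∈ Finset.univ.erase v, av w x0 ^ w.mult := by
          rw [← Finset.mul_prod_erase Finset.univ (fun w : InfinitePlace L => av w x0 ^ w.mult)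
            (Finset.mem_univ v), ← mul_assoc, ← mul_pow, mul_comm (av v u), ← av_mul, hu]
      _ ≤ X ^ v.mult * ∏ w ∈ Finset.univ.erase v, X ^ w.mult := by
          refine mul_le_mul (pow_le_pow_left₀ (av_nonneg v x) (hx v) _)
            (Finset.prod_le_prod (fun w _ => pow_nonneg (av_nonneg w x0) _) fun w _ =>
              pow_le_pow_left₀ (av_nonneg w x0) (hx0 w) _)
            (Finset.prod_nonneg fun w _ => pow_nonneg (av_nonneg w x0) _)
            (pow_nonneg (zero_le_one.trans hX) _)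
      _ = ∏ w : InfinitePlace L, X ^ w.mult :=
          Finset.mul_prod_erase Finset.univ (fun w : InfinitePlace L => X ^ w.mult)
            (Finset.mem_univ v)
      _ = X ^ dg L := prod_pow_mult X
  rcases le_or_gt (av v u) 1 with h | h
  · exact h.trans (one_le_pow₀ hX)
  · exact (le_self_pow₀ h.le v.mult_ne_zero).trans h1

private theorem RPB_av_prod {L : Type} [Field L] [NumberField L] {D : ℕ} (v : InfinitePlace L)
    (f : Fin D → 𝓞 L) : av v (∏ i, f i) = ∏ i, av v (f i) := by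
  unfold av
  rw [← map_prod]
  congr 1
  exact map_prod (algebraMap (𝓞 L) L) f Finset.univ

private theorem RPB_pow {X : ℝ} (hX : 0 < X) (a D : ℕ) (e : ℝ) :
    ((X ^ a) ^ e) ^ D = X ^ ((a : ℝ) * e * D) := by
  rw [← Real.rpow_natCast X a, ← Real.rpow_mul hX.le, ← Real.rpow_natCast, ← Real.rpow_mul hX.le]

/-- the bound, over a number field which contains the coefficients of the linear forms -/
private theorem RPB_core (h1 : St_DIV) (h2 : St_UNB) (K L : Type) [Field K] [NumberField K]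
    [Field L] [NumberField L] [Algebra K L] (r D : ℕ) (g : Mon r D → 𝓞 K) (hD : 1 ≤ D)
    (l : Fin D → Fin r → L)
    (hg : ∀ w : Fin r → 𝓞 K, algebraMap K L ((ev g w : 𝓞 K) : K) =
      ∏ i, ∑ j, l i j * algebraMap K L ((w j : 𝓞 K) : K))
    (hl : ∀ w : Fin r → 𝓞 K, (∀ i, ∑ j, l i j * algebraMap K L ((w j : 𝓞 K) : K) = 0) → w = 0)
    (ε : ℝ) (hε : 0 < ε) : ∃ C : ℝ, 0 < C ∧ ∀ (U : ℕ) (a : 𝓞 K), 1 ≤ U → a ≠ 0 →
      (((bx K r (U : ℝ)).filter fun w => ev g w = a).card : ℝ) ≤ C * (U : ℝ) ^ ε := by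
  -- integral linear forms
  obtain ⟨y, hy0, hy⟩ := exists_integral_multiples ℤ ℚ (L := L)
    (Finset.univ.image fun p : Fin D × Fin r => l p.1 p.2)
  have hy' : ∀ i j, IsIntegral ℤ (y • l i j) := fun i j =>
    hy _ (Finset.mem_image_of_mem (fun p : Fin D × Fin r => l p.1 p.2) (Finset.mem_univ (i, j)))
  let m : Fin D → Fin r → 𝓞 L := fun i j => ⟨y • l i j, hy' i j⟩
  let Λ : Fin D → (Fin r → 𝓞 K) → 𝓞 L := fun i w => ∑ j, m i j * algebraMap (𝓞 K) (𝓞 L) (w j)
  have hΛ : ∀ i w, ((Λ i w : 𝓞 L) : L) = (y : L) * ∑ j, l i j * algebraMap K L ((w j : 𝓞 K) : K) := by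
    intro i w
    show algebraMap (𝓞 L) L (∑ j, m i j * algebraMap (𝓞 K) (𝓞 L) (w j)) = _
    rw [map_sum, Finset.mul_sum]
    refine Finset.sum_congr rfl fun j _ => ?_
    rw [map_mul]
    show (y • l i j) * algebraMap K L ((w j : 𝓞 K) : K) = _
    rw [zsmul_eq_mul, mul_assoc]
  have hyL : (y : L) ≠ 0 := by exact_mod_cast hy0
  have hprod : ∀ w, ∏ i, Λ i w = (y : 𝓞 L) ^ D * algebraMap (𝓞 K) (𝓞 L) (ev g w) := by
    intro w
    apply RingOfIntegers.coe_injective
    show algebraMap (𝓞 L) L (∏ i, Λ i w) =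
      algebraMap (𝓞 L) L ((y : 𝓞 L) ^ D * algebraMap (𝓞 K) (𝓞 L) (ev g w))
    rw [map_prod, map_mul, map_pow, map_intCast]
    show ∏ i, ((Λ i w : 𝓞 L) : L) = (y : L) ^ D * algebraMap K L ((ev g w : 𝓞 K) : K)
    rw [hg, Finset.prod_congr rfl fun i _ => hΛ i w, Finset.prod_mul_distrib, Finset.prod_const,
      Finset.card_univ, Fintype.card_fin]
  have hinj : ∀ w w' : Fin r → 𝓞 K, (∀ i, Λ i w = Λ i w') → w = w' := by
    intro w w' h
    have h3 : w - w' = 0 := by
      refine hl _ fun i => ?_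
      have h4 : ((Λ i w : 𝓞 L) : L) = ((Λ i w' : 𝓞 L) : L) := by rw [h i]
      rw [hΛ, hΛ] at h4
      have h5 := mul_left_cancel₀ hyL h4
      have h6 : ∀ j, l i j * algebraMap K L (((w - w') j : 𝓞 K) : K) =
          l i j * algebraMap K L ((w j : 𝓞 K) : K) - l i j * algebraMap K L ((w' j : 𝓞 K) : K) := by
        intro j
        rw [← mul_sub, ← map_sub]
        congr 2
      rw [Finset.sum_congr rfl fun j _ => h6 j, Finset.sum_sub_distrib, h5, sub_self]
    exact sub_eq_zero.1 h3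
  -- sizes
  let C1 : ℝ := 1 + ∑ i, ∑ j, ∑ v : InfinitePlace L, av v (m i j)
  have hnn : ∀ i j, 0 ≤ ∑ v : InfinitePlace L, av v (m i j) := fun i j =>
    Finset.sum_nonneg fun v _ => av_nonneg v _
  have hC1 : 1 ≤ C1 := by
    have : 0 ≤ ∑ i, ∑ j, ∑ v : InfinitePlace L, av v (m i j) :=
      Finset.sum_nonneg fun i _ => Finset.sum_nonneg fun j _ => hnn i j
    show 1 ≤ 1 + ∑ i, ∑ j, ∑ v : InfinitePlace L, av v (m i j)
    linarith
  have hsum : ∀ (v : InfinitePlace L) (i : Fin D), ∑ j, av v (m i j) ≤ C1 := by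
    intro v i
    have h3 : ∑ j, av v (m i j) ≤ ∑ j, ∑ v : InfinitePlace L, av v (m i j) :=
      Finset.sum_le_sum fun j _ => Finset.single_le_sum (f := fun v : InfinitePlace L =>
        av v (m i j)) (fun v _ => av_nonneg v _) (Finset.mem_univ v)
    have h4 : ∑ j, ∑ v : InfinitePlace L, av v (m i j) ≤
        ∑ i, ∑ j, ∑ v : InfinitePlace L, av v (m i j) :=
      Finset.single_le_sum (f := fun i => ∑ j, ∑ v : InfinitePlace L, av v (m i j))
        (fun i _ => Finset.sum_nonneg fun j _ => hnn i j) (Finset.mem_univ i)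
    show _ ≤ 1 + ∑ i, ∑ j, ∑ v : InfinitePlace L, av v (m i j)
    linarith
  have hsize : ∀ (U : ℕ) (w : Fin r → 𝓞 K), w ∈ bx K r (U : ℝ) → ∀ (v : InfinitePlace L) i,
      av v (Λ i w) ≤ C1 * U := by
    intro U w hw v i
    have h3 : ∀ j, av v (algebraMap (𝓞 K) (𝓞 L) (w j)) ≤ U := by
      intro j
      have h4 := mem_pb.1 (Fintype.mem_piFinset.1 hw j) (v.comap (algebraMap K L))
      unfold av at h4 ⊢
      rw [InfinitePlace.comap_apply] at h4
      exact h4
    calc av v (Λ i w) ≤ ∑ j, av v (m i j * algebraMap (𝓞 K) (𝓞 L) (w j)) := av_sum_le v _ _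
      _ ≤ ∑ j, av v (m i j) * U := by
          refine Finset.sum_le_sum fun j _ => ?_
          rw [av_mul]
          exact mul_le_mul_of_nonneg_left (h3 j) (av_nonneg v _)
      _ = (∑ j, av v (m i j)) * U := by rw [Finset.sum_mul]
      _ ≤ C1 * U := mul_le_mul_of_nonneg_right (hsum v i) (Nat.cast_nonneg _)
  -- exponents
  have hn : 0 < (dg L : ℝ) := by exact_mod_cast dg_pos (K := L)
  have hD' : 0 < (D : ℝ) := by exact_mod_cast hD
  obtain ⟨A1, hA1, hA1'⟩ := h1 L (ε / (2 * D * D * dg L)) (by positivity)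
  obtain ⟨A2, hA2, hA2'⟩ := h2 L (ε / (2 * D * dg L)) (by positivity)
  refine ⟨(A1 * A2) ^ D * C1 ^ ε, mul_pos (pow_pos (mul_pos hA1 hA2) D)
    (Real.rpow_pos_of_pos (zero_lt_one.trans_le hC1) ε), fun U a hU ha => ?_⟩
  have hU' : (1 : ℝ) ≤ U := by exact_mod_cast hU
  let X : ℝ := C1 * U
  have hX : 1 ≤ X := one_le_mul_of_one_le_of_one_le hC1 hU'
  have hX0 : 0 < X := zero_lt_one.trans_le hX
  set S : Finset (Fin r → 𝓞 K) := (bx K r (U : ℝ)).filter fun w => ev g w = a with hS
  have hSb : ∀ w ∈ S, w ∈ bx K r (U : ℝ) := fun w hw => (Finset.mem_filter.1 hw).1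
  have hSa : ∀ w ∈ S, ev g w = a := fun w hw => (Finset.mem_filter.1 hw).2
  let z : 𝓞 L := (y : 𝓞 L) ^ D * algebraMap (𝓞 K) (𝓞 L) a
  have hz : z ≠ 0 := by
    refine mul_ne_zero (pow_ne_zero D ?_) ?_
    · exact_mod_cast hy0
    · intro h3
      apply ha
      apply RingOfIntegers.coe_injective
      apply (algebraMap K L).injective
      have h4 : algebraMap (𝓞 L) L (algebraMap (𝓞 K) (𝓞 L) a) = 0 := by rw [h3, map_zero]
      show algebraMap K L ((a : 𝓞 K) : K) = algebraMap K L (((0 : 𝓞 K) : 𝓞 K) : K)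
      have h5 : algebraMap K L ((a : 𝓞 K) : K) = 0 := h4
      rw [h5]
      simp
  have hpz : ∀ w ∈ S, ∏ i, Λ i w = z := fun w hw => by rw [hprod, hSa w hw]
  have hne : ∀ w ∈ S, ∀ i, Λ i w ≠ 0 := fun w hw i h3 => hz (by
    rw [← hpz w hw]
    exact Finset.prod_eq_zero (Finset.mem_univ i) h3)
  let F : (Fin r → 𝓞 K) → Fin D → Ideal (𝓞 L) := fun w i => Ideal.span {Λ i w}
  -- the number of the values of `F`
  have hF : ((S.image F).card : ℝ) ≤ (A1 * ((X ^ (D * dg L)) ^ (ε / (2 * D * D * dg L)))) ^ D := by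
    rcases S.eq_empty_or_nonempty with h3 | ⟨w0, hw0⟩
    · rw [h3, Finset.image_empty, Finset.card_empty, Nat.cast_zero]
      positivity
    have hN : (Ideal.absNorm (Ideal.span {z}) : ℝ) ≤ X ^ (D * dg L) := by
      rw [← prod_av, pow_mul, ← prod_pow_mult (K := L)]
      refine Finset.prod_le_prod (fun v _ => pow_nonneg (av_nonneg v z) _) fun v _ => ?_
      refine pow_le_pow_left₀ (av_nonneg v z) ?_ _
      rw [← hpz w0 hw0, RPB_av_prod]
      calc ∏ i, av v (Λ i w0) ≤ ∏ _i : Fin D, X :=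
            Finset.prod_le_prod (fun i _ => av_nonneg v _) fun i _ => hsize U w0 (hSb w0 hw0) v i
        _ = X ^ D := by rw [Finset.prod_const, Finset.card_univ, Fintype.card_fin]
    have hT : ∀ i, ((S.image fun w => F w i).card : ℝ) ≤
        A1 * ((X ^ (D * dg L)) ^ (ε / (2 * D * D * dg L))) := by
      intro i
      refine (hA1' (Ideal.span {z}) (S.image fun w => F w i) ?_ ?_).trans ?_
      · rw [Ne, Ideal.span_singleton_eq_bot]
        exact hz
      · intro I hI
        obtain ⟨w, hw, rfl⟩ := Finset.mem_image.1 hI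
        show Ideal.span {z} ≤ Ideal.span {Λ i w}
        rw [Ideal.span_singleton_le_span_singleton, ← hpz w hw]
        exact Finset.dvd_prod_of_mem (fun i => Λ i w) (Finset.mem_univ i)
      · refine mul_le_mul_of_nonneg_left ?_ hA1.le
        exact Real.rpow_le_rpow (Nat.cast_nonneg _) hN (by positivity)
    have hsub : S.image F ⊆ Fintype.piFinset fun i => S.image fun w => F w i := by
      intro b hb
      obtain ⟨w, hw, rfl⟩ := Finset.mem_image.1 hb
      exact Fintype.mem_piFinset.2 fun i => Finset.mem_image_of_mem (fun w => F w i) hw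
    calc ((S.image F).card : ℝ) ≤ ((Fintype.piFinset fun i => S.image fun w => F w i).card : ℝ) := by
          exact_mod_cast Finset.card_le_card hsub
      _ = ∏ i : Fin D, ((S.image fun w => F w i).card : ℝ) := by
          rw [Fintype.card_piFinset]
          push_cast
          rfl
      _ ≤ ∏ _i : Fin D, A1 * ((X ^ (D * dg L)) ^ (ε / (2 * D * D * dg L))) :=
          Finset.prod_le_prod (fun i _ => Nat.cast_nonneg _) fun i _ => hT i
      _ = (A1 * ((X ^ (D * dg L)) ^ (ε / (2 * D * D * dg L)))) ^ D := by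
          rw [Finset.prod_const, Finset.card_univ, Fintype.card_fin]
  -- the fibres
  have hfib : ∀ b ∈ S.image F, (({w ∈ S | F w = b}).card : ℝ) ≤
      (A2 * ((X ^ dg L) ^ (ε / (2 * D * dg L)))) ^ D := by
    intro b hb
    obtain ⟨w0, hw0, rfl⟩ := Finset.mem_image.1 hb
    set Sb : Finset (Fin r → 𝓞 K) := {w ∈ S | F w = F w0} with hSbdef
    have hmem : ∀ w ∈ Sb, w ∈ S ∧ F w = F w0 := fun w hw => Finset.mem_filter.1 hw
    have hu : ∀ (i : Fin D) (w : Fin r → 𝓞 K), ∃ u : (𝓞 L)ˣ, w ∈ Sb → Λ i w0 * u = Λ i w := by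
      intro i w
      by_cases hw : w ∈ Sb
      · have h3 : Ideal.span {Λ i w0} = Ideal.span {Λ i w} := (congrFun (hmem w hw).2 i).symm
        obtain ⟨u, hu⟩ := Ideal.span_singleton_eq_span_singleton.1 h3
        exact ⟨u, fun _ => hu⟩
      · exact ⟨1, fun h => absurd h hw⟩
    choose u hu using hu
    have hE : ∀ i, ((Sb.image (u i)).card : ℝ) ≤ A2 * ((X ^ dg L) ^ (ε / (2 * D * dg L))) := by
      intro i
      refine hA2' (X ^ dg L) (Sb.image (u i)) (one_le_pow₀ hX) ?_
      intro u' hu' v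
      obtain ⟨w, hw, rfl⟩ := Finset.mem_image.1 hu'
      exact RPB_unit hX (hne w0 hw0 i) (fun v => hsize U w (hSb w (hmem w hw).1) v i)
        (fun v => hsize U w0 (hSb w0 hw0) v i) _ (hu i w hw) v
    have hcard : Sb.card ≤ (Fintype.piFinset fun i => Sb.image (u i)).card := by
      refine Finset.card_le_card_of_injOn (fun w i => u i w) ?_ ?_
      · intro w hw
        exact Finset.mem_coe.2 (Fintype.mem_piFinset.2 fun i =>
          Finset.mem_image_of_mem (u i) (Finset.mem_coe.1 hw))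
      · intro w hw w' hw' h
        refine hinj w w' fun i => ?_
        rw [← hu i w (Finset.mem_coe.1 hw), ← hu i w' (Finset.mem_coe.1 hw')]
        have h3 : u i w = u i w' := congrFun h i
        rw [h3]
    calc (Sb.card : ℝ) ≤ ((Fintype.piFinset fun i => Sb.image (u i)).card : ℝ) := by
          exact_mod_cast hcard
      _ = ∏ i : Fin D, ((Sb.image (u i)).card : ℝ) := by
          rw [Fintype.card_piFinset]
          push_cast
          rfl
      _ ≤ ∏ _i : Fin D, A2 * ((X ^ dg L) ^ (ε / (2 * D * dg L))) :=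
          Finset.prod_le_prod (fun i _ => Nat.cast_nonneg _) fun i _ => hE i
      _ = (A2 * ((X ^ dg L) ^ (ε / (2 * D * dg L)))) ^ D := by
          rw [Finset.prod_const, Finset.card_univ, Fintype.card_fin]
  -- the total
  have htot : S.card ≤ ⌊(A2 * ((X ^ dg L) ^ (ε / (2 * D * dg L)))) ^ D⌋₊ * (S.image F).card :=
    Finset.card_le_mul_card_image S _ fun b hb => Nat.le_floor (hfib b hb)
  have hpos2 : 0 ≤ (A2 * ((X ^ dg L) ^ (ε / (2 * D * dg L)))) ^ D := by positivity
  have hexp : X ^ (((D * dg L : ℕ) : ℝ) * (ε / (2 * D * D * dg L)) * D) *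
      X ^ (((dg L : ℕ) : ℝ) * (ε / (2 * D * dg L)) * D) = X ^ ε := by
    rw [← Real.rpow_add hX0]
    congr 1
    push_cast
    field_simp
    ring
  calc (S.card : ℝ) ≤ (⌊(A2 * ((X ^ dg L) ^ (ε / (2 * D * dg L)))) ^ D⌋₊ : ℝ) *
        ((S.image F).card : ℝ) := by exact_mod_cast htot
    _ ≤ (A2 * ((X ^ dg L) ^ (ε / (2 * D * dg L)))) ^ D *
        (A1 * ((X ^ (D * dg L)) ^ (ε / (2 * D * D * dg L)))) ^ D :=
        mul_le_mul (Nat.floor_le hpos2) hF (Nat.cast_nonneg _) hpos2
    _ = (A1 * A2) ^ D * (((X ^ (D * dg L)) ^ (ε / (2 * D * D * dg L))) ^ D *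
        ((X ^ dg L) ^ (ε / (2 * D * dg L))) ^ D) := by ring
    _ = (A1 * A2) ^ D * X ^ ε := by
        rw [RPB_pow hX0, RPB_pow hX0, hexp]
    _ = (A1 * A2) ^ D * C1 ^ ε * (U : ℝ) ^ ε := by
        rw [mul_assoc, ← Real.mul_rpow (zero_le_one.trans hC1) (Nat.cast_nonneg U)]

theorem thm_RPB (h1 : St_DIV) (h2 : St_UNB) : St_RPB := by
  intro K _ _ r D g hD hdec ε hε
  obtain ⟨l, hl1, hl2⟩ := hdec
  let Kb := AlgebraicClosure K
  let T : Set Kb := Set.range fun p : Fin D × Fin r => l p.1 p.2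
  let L : IntermediateField K Kb := IntermediateField.adjoin K T
  have hfin : FiniteDimensional K L := by
    have : Finite T := Set.finite_range _
    exact IntermediateField.finiteDimensional_adjoin fun x _ =>
      (Algebra.IsAlgebraic.isAlgebraic x).isIntegral
  have hNF : NumberField L := NumberField.of_module_finite K L
  let l' : Fin D → Fin r → L := fun i j =>
    ⟨l i j, IntermediateField.subset_adjoin K T ⟨(i, j), rfl⟩⟩
  have hmap : ∀ (i : Fin D) (w : Fin r → 𝓞 K),
      algebraMap L Kb (∑ j, l' i j * algebraMap K L ((w j : 𝓞 K) : K)) =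
        ∑ j, l i j * jj Kb (w j) := by
    intro i w
    rw [map_sum]
    refine Finset.sum_congr rfl fun j _ => ?_
    rw [map_mul]
    rfl
  refine RPB_core h1 h2 K L r D g hD l' ?_ ?_ ε hε
  · intro w
    apply (algebraMap L Kb).injective
    rw [map_prod, Finset.prod_congr rfl fun i _ => hmap i w, ← hl1 fun j => jj Kb (w j), ev_map]
    rfl
  · intro w hw
    have h3 := hl2 (fun j => jj Kb (w j)) fun i => by
      rw [← hmap, hw i, map_zero]
    funext j
    have h4 : jj Kb (w j) = 0 := congrFun h3 j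
    apply RingOfIntegers.coe_injective
    apply (algebraMap K Kb).injective
    have h5 : algebraMap K Kb ((w j : 𝓞 K) : K) = 0 := h4
    show algebraMap K Kb ((w j : 𝓞 K) : K) = algebraMap K Kb (((0 : 𝓞 K) : 𝓞 K) : K)
    rw [h5]
    simp

end Pool.Agent.NRM
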