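import Pool.Agent.NRM.StB

/-!
NRM, block B, [SIGPOSN]: a positive proportion of forms near the explicit one (helper88, port of
RHCB/SIGPOSC.lean).
-/

set_option autoImplicit false

namespace Pool.Agent.NRM

open scoped BigOperators
open Classical NumberField IsDedekindDomain
open Pool.Agent.RHP (Mon mono ev Sys Prim pd WB WW)
open Pool.Agent.RHK Pool.Agent.RHC
open Pool.Agent.RHKB (mI hh jj qv MK uu BadK)
open Pool.Agent.RHCB (BadC cred cemb uk PrC hM f00)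
open Pool.Agent.RHCW (cmk)

section

variable {s r D d : ℕ}

theorem SIGPOSN_map {A B : Type} [CommRing A] [CommRing B] (φ : A →+* B) (μ : Mon s d) :
    φ (f00 A s d μ) = f00 B s d μ := by
  unfold f00
  split_ifs
  · exact map_one φ
  · exact map_zero φ

/-- a ring isomorphism to a product, for forms -/
noncomputable def SIGPOSN_e {A B C : Type} [CommRing A] [CommRing B] [CommRing C]
    (φ : A ≃+* B × C) : (Mon s d → A) ≃ (Mon s d → B) × (Mon s d → C) where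
  toFun G := (fun m => (φ (G m)).1, fun m => (φ (G m)).2)
  invFun P := fun m => φ.symm (P.1 m, P.2 m)
  left_inv G := by
    funext m
    exact φ.symm_apply_apply (G m)
  right_inv P := by
    refine Prod.ext ?_ ?_
    · funext m
      show (φ (φ.symm (P.1 m, P.2 m))).1 = _
      rw [RingEquiv.apply_symm_apply]
    · funext m
      show (φ (φ.symm (P.1 m, P.2 m))).2 = _
      rw [RingEquiv.apply_symm_apply]

/-- modulo one there is no congruence condition -/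
theorem SIGPOSN_wsig {A : Type} [CommRing A] (b : ℕ) (g : Mon r D → A) (ρ₀ : Fin s → A)
    (ω₀ : Fin r → A) (f : Mon s d → A) : wsigN b 1 g ρ₀ ω₀ f = sigN b g f := by
  unfold wsigN sigN
  have h : wcntN b 1 g ρ₀ ω₀ f = cntN b g f := by
    unfold wcntN cntN
    refine Nat.card_congr (Equiv.subtypeEquivRight fun p => ?_)
    refine ⟨fun h => ⟨h.1, h.2.2⟩, fun h => ⟨h.1, ⟨fun l => ?_, fun j => ?_⟩, h.2⟩⟩
    · rw [Nat.cast_one]
      exact one_dvd _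
    · rw [Nat.cast_one]
      exact one_dvd _
  rw [h]

end

section

variable {K : Type} [Field K] [NumberField K]

theorem SIGPOSN_w00 {r D : ℕ} (g : Mon r D → 𝓞 K) (e : Fin r → 𝓞 K) (s d : ℕ) (m : Mon s d)
    (j : IX K) : |w00N g e s d m j| ≤ 1 := by
  unfold w00N
  have h1 : (0 : ℝ) ≤ (cz (ev g e) : ℝ) := Nat.cast_nonneg _
  rw [abs_div, abs_of_nonneg h1]
  refine div_le_one_of_le₀ ?_ h1
  have h2 : (f00 (𝓞 K) s d m = 1) ∨ (f00 (𝓞 K) s d m = 0) := by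
    unfold f00
    split_ifs
    · exact Or.inl rfl
    · exact Or.inr rfl
  rcases h2 with h2 | h2
  · rw [h2, mul_one]
    have h3 : (co (ev g e) j).natAbs ≤ cz (ev g e) := by
      unfold cz
      exact Finset.le_sup (f := fun j => (co (ev g e) j).natAbs) (Finset.mem_univ j)
    rw [← Int.cast_abs, Int.abs_eq_natAbs]
    exact_mod_cast h3
  · rw [h2, mul_zero]
    have h3 : co (0 : 𝓞 K) j = 0 := by
      unfold co
      rw [map_zero]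
      rfl
    rw [h3, Int.cast_zero, abs_zero]
    exact h1

theorem SIGPOSN_p0 (C C' C'' : ℝ) (M : ℕ) (hM : 1 ≤ M) :
    ∃ p0 : ℕ, 1 ≤ p0 ∧ C * (C' / p0 + C'' * (p0 : ℝ) ^ (-(1 : ℝ) / (M : ℝ))) ≤ 1 / 4 := by
  have h1 : Filter.Tendsto (fun p : ℕ => C' / (p : ℝ)) Filter.atTop (nhds 0) :=
    tendsto_const_div_atTop_nhds_zero_nat C'
  have h2 : Filter.Tendsto (fun p : ℕ => (p : ℝ) ^ (-(1 : ℝ) / (M : ℝ))) Filter.atTop
      (nhds 0) := by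
    have h3 : (0 : ℝ) < 1 / (M : ℝ) := by
      have : (0 : ℝ) < M := by exact_mod_cast hM
      positivity
    have h4 := (tendsto_rpow_neg_atTop h3).comp tendsto_natCast_atTop_atTop
    rw [neg_div]
    exact h4
  have h5 : Filter.Tendsto (fun p : ℕ => C * (C' / (p : ℝ) + C'' * (p : ℝ) ^ (-(1 : ℝ) / (M : ℝ))))
      Filter.atTop (nhds (C * (0 + C'' * 0))) := (h1.add (h2.const_mul C'')).const_mul C
  rw [mul_zero, add_zero, mul_zero] at h5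
  have h6 := h5.eventually (gt_mem_nhds (show (0 : ℝ) < 1 / 4 by norm_num))
  obtain ⟨p0, h7, h8⟩ := (h6.and (Filter.eventually_ge_atTop 1)).exists
  exact ⟨p0, h8, h7.le⟩

/-- The finite places: the forms near the explicit one have many points modulo the powers of `v`. -/
theorem SIGPOSN_place (h6 : St_NZ0N) (h7 : St_PCNN) (h9 : RHKB.St_PLV) {s r D m : ℕ}
    (hyp : NHyp s D m) (g : Mon r D → 𝓞 K) (e : Fin r → 𝓞 K) (hge : ev g e ≠ 0)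
    (v : HeightOneSpectrum (𝓞 K)) : ∃ (b : ℕ) (c : ℝ), 0 < c ∧
      ∀ f : Mon s (D * m) → 𝓞 K,
        (∀ μ, f μ - ev g e * f00 (𝓞 K) s (D * m) μ ∈ v.asIdeal ^ b) →
      ∀ j : ℕ, c ≤ sigN 1 (cred (v.asIdeal ^ j) g) (cred (v.asIdeal ^ j) f) := by
  have hs3 := hyp.hs
  have hk2 := hyp.hD
  have hm1 := hyp.hm
  obtain ⟨hps, hq, hx, hult, hint, -, -⟩ := h9 K v
  have hk0 : ((D : ℕ) : v.adicCompletion K) ≠ 0 := by
    rw [← map_natCast (algebraMap K (v.adicCompletion K)) D]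
    rw [Ne, map_eq_zero]
    exact_mod_cast (by omega : D ≠ 0)
  have hgL : gL (v.adicCompletion K) g = fun μ => jj (v.adicCompletion K) (g μ) := by
    funext μ
    show 1 * jj (v.adicCompletion K) (g μ) = _
    rw [one_mul]
  have hGe : ev (gL (v.adicCompletion K) g) (fun j => jj (v.adicCompletion K) (e j)) =
      jj (v.adicCompletion K) (ev g e) := by
    rw [hgL]
    exact RHP.ev_map _ _ _
  have hGe0 : ev (gL (v.adicCompletion K) g) (fun j => jj (v.adicCompletion K) (e j)) ≠ 0 := by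
    rw [hGe]
    show algebraMap K (v.adicCompletion K) (algebraMap (𝓞 K) K (ev g e)) ≠ 0
    rw [Ne, map_eq_zero]
    exact fun h => hge (RingOfIntegers.coe_injective (by rw [h, map_zero]))
  obtain ⟨z₀, hz1, hz2, δ, hδ, hδN⟩ := h6 (v.adicCompletion K) hx s r D m (by omega) (by omega)
    hm1 hk0 (gL (v.adicCompletion K) g) (fun j => jj (v.adicCompletion K) (e j)) hGe0 1 1
    one_ne_zero one_ne_zero (1 / 2) (by norm_num)
  obtain ⟨c, hc, hcF⟩ := h7 K v 1 Nat.one_pos s r D (D * m) δ hδ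
  have hn1 : ‖((1 : ℕ) : v.adicCompletion K)‖ = 1 := by
    rw [Nat.cast_one]
    exact norm_one
  rw [norm_one] at hz1
  have hwz : ∀ j, ‖wz z₀ j‖ ≤ 1 := by
    intro j
    rw [hz2 j, one_pow, one_mul, one_mul]
    have h2 := (hint (e j) 0).2 (by
      rw [pow_zero, Ideal.one_eq_top]
      exact Submodule.mem_top)
    rwa [pow_zero, inv_one] at h2
  have hq1 : (1 : ℝ) < (qv v : ℝ) := by exact_mod_cast hq
  obtain ⟨b, hb⟩ := exists_pow_lt_of_lt_one hδ (inv_lt_one_of_one_lt₀ hq1)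
  refine ⟨b, c, hc, fun f hf j => ?_⟩
  have key : NZN (cemb (1 : v.adicCompletion K) f) (gL (v.adicCompletion K) g) z₀ δ (1 / 2) := by
    refine hδN (cemb (1 : v.adicCompletion K) f) fun μ => ?_
    have h2 := (hint (f μ - ev g e * f00 (𝓞 K) s (D * m) μ) b).2 (hf μ)
    rw [map_sub, map_mul, SIGPOSN_map] at h2
    unfold cemb
    rw [one_mul, one_pow, one_mul, hGe]
    refine h2.trans ?_
    rw [← inv_pow]
    exact hb.le
  have h3 := hcF 1 g (fun _ => 0) (fun _ => 0) f z₀ hz1 hwz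
    (fun l => by
      rw [map_zero, sub_zero, hn1]
      exact (norm_le_pi_norm (xz z₀) l).trans hz1.le)
    (fun l => by
      rw [map_zero, sub_zero, hn1]
      exact hwz l)
    (by
      rw [hn1, Nat.cast_one]
      exact key) j
  rw [SIGPOSN_wsig] at h3
  exact h3

end

theorem thm_SIGPOSN (h1 : St_SIGN) (h2 : RHKB.St_HSUM) (h3 : RHCB.St_HMQ) (h4 : St_WABN)
    (_h5 : St_CRTN) (h6 : St_NZ0N) (h7 : St_PCNN) (h8 : RHCB.St_EQLC) (h9 : RHKB.St_PLV) :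
    St_SIGPOSN := by
  intro K _ _ s r D m hyp g e hge
  have hs3 := hyp.hs
  have hk2 := hyp.hD
  have hm1 := hyp.hm
  have hg0 : g ≠ 0 := by
    intro h
    apply hge
    rw [h]
    exact RHP.ev_zero e
  have hMM : 1 ≤ MM D := by
    unfold MM
    have h1 : 2 * 3 ≤ D * (D + 1) := Nat.mul_le_mul hk2 (by omega)
    omega
  have hkm : 1 ≤ D * m := Nat.mul_pos (by omega) (by omega)
  obtain ⟨C, hC0, hCh⟩ := h2 K
  obtain ⟨C', hC'0, hC'h⟩ := h3 K (MM D) hMM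
  obtain ⟨C'', hC''0, hS'⟩ := h1 K s r D (D * m) hs3 hk2 hkm g hg0
  obtain ⟨p0, hp0, hp1⟩ := SIGPOSN_p0 C'' C C' (MM D) hMM
  obtain ⟨S, hS1, hS2⟩ := h4 K p0
  -- the constants at the places in `S`
  have hcp := SIGPOSN_place h6 h7 h9 hyp g e hge
  choose b c hc hcF using hcp
  obtain ⟨bm, hbm⟩ : ∃ bm : ℕ, ∀ v ∈ S, b v ≤ bm := ⟨S.sup b, fun v hv => Finset.le_sup hv⟩
  obtain ⟨Q, hQ⟩ : ∃ Q : ℕ, Q = p0.factorial ^ bm := ⟨_, rfl⟩
  have hQ0 : 0 < Q := by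
    rw [hQ]
    exact pow_pos (Nat.factorial_pos p0) _
  have hQv : ∀ v ∈ S, Ideal.span {(Q : 𝓞 K)} ≤ v.asIdeal ^ b v := by
    intro v hv
    obtain ⟨p, hp, hpp, hpv⟩ := hS1 v hv
    rw [Ideal.span_singleton_le_iff_mem]
    obtain ⟨a, ha⟩ : p ∣ p0.factorial := (Nat.Prime.dvd_factorial hp).2 hpp
    have h1 : (Q : 𝓞 K) = (p : 𝓞 K) ^ b v * ((p : 𝓞 K) ^ (bm - b v) * (a : 𝓞 K) ^ bm) := by
      rw [hQ, ha, ← mul_assoc, ← pow_add, Nat.add_sub_cancel' (hbm v hv)]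
      push_cast
      ring
    rw [h1]
    exact Ideal.mul_mem_right _ _ (Ideal.pow_mem_pow hpv _)
  have hIQ : Ideal.span {(Q : 𝓞 K)} ≠ ⊥ := by
    rw [Ne, Ideal.span_singleton_eq_bot]
    exact_mod_cast hQ0.ne'
  have hfQ : Finite (𝓞 K ⧸ Ideal.span {(Q : 𝓞 K)}) := Ideal.finiteQuotientOfFreeOfNeBot _ hIQ
  refine ⟨(∏ v ∈ S, c v) * (1 / 2), by
    have : 0 < ∏ v ∈ S, c v := Finset.prod_pos fun v _ => hc v
    positivity, p0, fun δ hδ => ?_⟩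
  obtain ⟨η, hη, hE⟩ := h8 K s (D * m) δ hδ
  have hSQ : (0 : ℝ) < (Nat.card (Mon s (D * m) → 𝓞 K ⧸ Ideal.span {(Q : 𝓞 K)}) : ℝ) := by
    exact_mod_cast (Nat.card_pos : 0 < Nat.card ((Mon s (D * m) → 𝓞 K ⧸ Ideal.span {(Q : 𝓞 K)})))
  refine ⟨η * (3 / 4) / (Nat.card (Mon s (D * m) → 𝓞 K ⧸ Ideal.span {(Q : 𝓞 K)}) : ℝ),
    by positivity, fun m0 hm0 => ?_⟩
  obtain ⟨hWB0, hWBp, n, hWBs⟩ := hS2 m0 hm0
  obtain ⟨V, hV'⟩ : ∃ V : ℕ, V = WB p0 m0 := ⟨_, rfl⟩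
  rw [← hV'] at hWB0 hWBp hWBs
  have hIV : Ideal.span {(V : 𝓞 K)} ≠ ⊥ := by
    rw [Ne, Ideal.span_singleton_eq_bot]
    exact_mod_cast hWB0.ne'
  have hfV : Finite (𝓞 K ⧸ Ideal.span {(V : 𝓞 K)}) := Ideal.finiteQuotientOfFreeOfNeBot _ hIV
  have hcop : Q.Coprime V := by
    by_contra hcon
    obtain ⟨p, hp, hpQ, hpV⟩ := Nat.Prime.not_coprime_iff_dvd.1 hcon
    have h1 := hWBp p hp hpV
    rw [hQ] at hpQ
    have h2 := (Nat.Prime.dvd_factorial hp).1 (hp.dvd_of_dvd_pow hpQ)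
    omega
  have hcopI : IsCoprime (Ideal.span {(Q : 𝓞 K)}) (Ideal.span {(V : 𝓞 K)}) := by
    rw [Ideal.isCoprime_span_singleton_iff]
    have h1 := (Nat.isCoprime_iff_coprime.2 hcop).map (Int.castRingHom (𝓞 K))
    simpa using h1
  have hne : Ideal.span {(Q : 𝓞 K)} * Ideal.span {(V : 𝓞 K)} ≠ ⊥ := mul_ne_zero hIQ hIV
  obtain ⟨H0, hH0⟩ := hE (w00N g e s (D * m)) (SIGPOSN_w00 g e s (D * m))
    (Ideal.span {(Q : 𝓞 K)} * Ideal.span {(V : 𝓞 K)}) hne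
  refine ⟨H0, fun H hH => ?_⟩
  let φ := Ideal.quotientMulEquivQuotientProd (Ideal.span {(Q : 𝓞 K)}) (Ideal.span {(V : 𝓞 K)})
    hcopI
  obtain ⟨E, he1, he2⟩ : ∃ E : (Mon s (D * m) → 𝓞 K ⧸ Ideal.span {(Q : 𝓞 K)} * Ideal.span {(V : 𝓞 K)}) ≃
      (Mon s (D * m) → 𝓞 K ⧸ Ideal.span {(Q : 𝓞 K)}) × (Mon s (D * m) → 𝓞 K ⧸ Ideal.span {(V : 𝓞 K)}),
      (∀ F : (Mon s (D * m) → 𝓞 K), (E (cred (Ideal.span {(Q : 𝓞 K)} * Ideal.span {(V : 𝓞 K)}) F)).1 =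
        cred (Ideal.span {(Q : 𝓞 K)}) F) ∧
      (∀ F : (Mon s (D * m) → 𝓞 K), (E (cred (Ideal.span {(Q : 𝓞 K)} * Ideal.span {(V : 𝓞 K)}) F)).2 =
        cred (Ideal.span {(V : 𝓞 K)}) F) := by
    refine ⟨SIGPOSN_e φ, fun F => ?_, fun F => ?_⟩
    · rfl
    · rfl
  obtain ⟨T, hT⟩ : ∃ T : Set ((Mon s (D * m) → 𝓞 K ⧸ Ideal.span {(Q : 𝓞 K)} * Ideal.span {(V : 𝓞 K)})),
      T = {G | (E G).1 = cred (Ideal.span {(Q : 𝓞 K)}) (fun μ => ev g e * f00 (𝓞 K) s (D * m) μ) ∧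
        ¬ sigN 1 (cred (Ideal.span {(V : 𝓞 K)}) g) (E G).2 < 1 / 2} :=
    ⟨_, rfl⟩
  have h1 := hH0 H hH T
  have hfQV : Finite (𝓞 K ⧸ Ideal.span {(Q : 𝓞 K)} * Ideal.span {(V : 𝓞 K)}) :=
    Ideal.finiteQuotientOfFreeOfNeBot _ hne
  -- the cardinality of `T`
  have h2 : Nat.card {G : (Mon s (D * m) → 𝓞 K ⧸ Ideal.span {(V : 𝓞 K)}) // ¬ sigN 1 (cred (Ideal.span {(V : 𝓞 K)}) g) G < 1 / 2} ≤
      T.ncard := by
    rw [← Nat.card_coe_set_eq]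
    refine Nat.card_le_card_of_injective
      (fun G => ⟨E.symm (cred (Ideal.span {(Q : 𝓞 K)}) (fun μ => ev g e * f00 (𝓞 K) s (D * m) μ), G.1), ?_⟩) ?_
    · rw [hT, Set.mem_ofPred_eq, E.apply_symm_apply]
      exact ⟨rfl, G.2⟩
    · intro G G' hGG
      have h3 := congrArg Subtype.val hGG
      have h4 := E.symm.injective h3
      exact Subtype.ext (congrArg Prod.snd h4)
  have h3 : (Nat.card {G : (Mon s (D * m) → 𝓞 K ⧸ Ideal.span {(V : 𝓞 K)}) // sigN 1 (cred (Ideal.span {(V : 𝓞 K)}) g) G < 1 / 2} : ℝ) +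
      (Nat.card {G : (Mon s (D * m) → 𝓞 K ⧸ Ideal.span {(V : 𝓞 K)}) // ¬ sigN 1 (cred (Ideal.span {(V : 𝓞 K)}) g) G < 1 / 2} : ℝ) =
      (Nat.card (Mon s (D * m) → 𝓞 K ⧸ Ideal.span {(V : 𝓞 K)}) : ℝ) := by
    have h4 := Nat.card_congr (Equiv.sumCompl
      fun G : (Mon s (D * m) → 𝓞 K ⧸ Ideal.span {(V : 𝓞 K)}) => sigN 1 (cred (Ideal.span {(V : 𝓞 K)}) g) G < 1 / 2)
    rw [Nat.card_sum] at h4
    exact_mod_cast h4
  have hSV : (0 : ℝ) < (Nat.card (Mon s (D * m) → 𝓞 K ⧸ Ideal.span {(V : 𝓞 K)}) : ℝ) := by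
    exact_mod_cast (Nat.card_pos : 0 < Nat.card ((Mon s (D * m) → 𝓞 K ⧸ Ideal.span {(V : 𝓞 K)})))
  have h4 := hS' V 1 hWB0 (Nat.coprime_one_left V)
  have hhV : hh (𝓞 K ⧸ Ideal.span {(V : 𝓞 K)}) ≤ C / p0 := hCh p0 V hp0 hWB0 hWBp
  have hhM := hC'h p0 V hp0 hWB0 hWBp
  have h5 : (3 : ℝ) / 4 * (Nat.card (Mon s (D * m) → 𝓞 K ⧸ Ideal.span {(V : 𝓞 K)}) : ℝ) ≤
      (T.ncard : ℝ) := by
    have h6 : (Nat.card {G : (Mon s (D * m) → 𝓞 K ⧸ Ideal.span {(V : 𝓞 K)}) // ¬ sigN 1 (cred (Ideal.span {(V : 𝓞 K)}) g) G < 1 / 2} : ℝ) ≤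
        (T.ncard : ℝ) := by
      exact_mod_cast h2
    have h7 : C'' * (hh (𝓞 K ⧸ Ideal.span {(V : 𝓞 K)}) +
        hM (𝓞 K ⧸ Ideal.span {(V : 𝓞 K)}) (MM D)) *
        (Nat.card (Mon s (D * m) → 𝓞 K ⧸ Ideal.span {(V : 𝓞 K)}) : ℝ) ≤
        1 / 4 * (Nat.card (Mon s (D * m) → 𝓞 K ⧸ Ideal.span {(V : 𝓞 K)}) : ℝ) := by
      refine mul_le_mul_of_nonneg_right ?_ hSV.le
      exact le_trans (mul_le_mul_of_nonneg_left (add_le_add hhV hhM) hC''0.le) hp1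
    linarith
  have h6 : (Nat.card (Mon s (D * m) → 𝓞 K ⧸ Ideal.span {(Q : 𝓞 K)} * Ideal.span {(V : 𝓞 K)}) : ℝ) =
      (Nat.card (Mon s (D * m) → 𝓞 K ⧸ Ideal.span {(Q : 𝓞 K)}) : ℝ) *
        (Nat.card (Mon s (D * m) → 𝓞 K ⧸ Ideal.span {(V : 𝓞 K)}) : ℝ) := by
    have h7 := Nat.card_congr E
    rw [Nat.card_prod] at h7
    exact_mod_cast h7
  -- the systems
  have h7 : ((box K s (D * m) H).filter fun F =>
      (∀ μ j, |(co (F μ) j : ℝ) / H - w00N g e s (D * m) μ j| ≤ δ) ∧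
      cred (Ideal.span {(Q : 𝓞 K)} * Ideal.span {(V : 𝓞 K)}) F ∈ T) ⊆
      (box K s (D * m) H).filter fun F =>
        (∀ μ j, |(co (F μ) j : ℝ) / H - w00N g e s (D * m) μ j| ≤ δ) ∧
          (∏ v ∈ S, c v) * (1 / 2) ≤ sigN 1 (cred (Ideal.span {(WW m0 : 𝓞 K)}) g) (cred (Ideal.span {(WW m0 : 𝓞 K)}) F) := by
    intro F hF
    rw [Finset.mem_filter] at hF
    obtain ⟨hF1, hF2, hF3⟩ := hF
    rw [hT, Set.mem_ofPred_eq, he1, he2] at hF3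
    obtain ⟨hF3, hF4⟩ := hF3
    rw [Finset.mem_filter]
    refine ⟨hF1, hF2, ?_⟩
    have hQd : ∀ μ, F μ - ev g e * f00 (𝓞 K) s (D * m) μ ∈ Ideal.span {(Q : 𝓞 K)} := by
      intro μ
      rw [← Ideal.Quotient.eq_zero_iff_mem, map_sub, sub_eq_zero]
      exact congrFun hF3 μ
    have h8 : ∏ v ∈ S, c v ≤ ∏ v ∈ S, sigN 1 (cred (v.asIdeal ^ n v) g) (cred (v.asIdeal ^ n v) F) :=
      Finset.prod_le_prod (fun v _ => (hc v).le) fun v hv =>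
        hcF v F (fun μ => hQv v hv (hQd μ)) (n v)
    have h9 : 0 ≤ ∏ v ∈ S, c v := Finset.prod_nonneg fun v _ => (hc v).le
    have hWBs' := hWBs 1 Nat.one_pos (fun p hp h => absurd (Nat.dvd_one.1 h) hp.one_lt.ne') s r D
      (D * m) 1 g (fun _ => 0) (fun _ => 0) F
    simp only [SIGPOSN_wsig] at hWBs'
    rw [hWBs']
    exact mul_le_mul h8 (not_lt.1 hF4) (by norm_num) (h9.trans h8)
  have h8 : (((box K s (D * m) H).filter fun F =>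
      (∀ μ j, |(co (F μ) j : ℝ) / H - w00N g e s (D * m) μ j| ≤ δ) ∧
      cred (Ideal.span {(Q : 𝓞 K)} * Ideal.span {(V : 𝓞 K)}) F ∈ T).card : ℝ) ≤
      (((box K s (D * m) H).filter fun F =>
        (∀ μ j, |(co (F μ) j : ℝ) / H - w00N g e s (D * m) μ j| ≤ δ) ∧
          (∏ v ∈ S, c v) * (1 / 2) ≤ sigN 1 (cred (Ideal.span {(WW m0 : 𝓞 K)}) g) (cred (Ideal.span {(WW m0 : 𝓞 K)}) F)).card : ℝ) := by
    exact_mod_cast Finset.card_le_card h7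
  refine le_trans ?_ h8
  obtain ⟨a, ha⟩ : ∃ a : ℝ, a = (((box K s (D * m) H).filter fun F =>
      (∀ μ j, |(co (F μ) j : ℝ) / H - w00N g e s (D * m) μ j| ≤ δ) ∧
      cred (Ideal.span {(Q : 𝓞 K)} * Ideal.span {(V : 𝓞 K)}) F ∈ T).card : ℝ) := ⟨_, rfl⟩
  rw [← ha]
  rw [← ha, h6] at h1
  rw [div_mul_eq_mul_div, div_le_iff₀ hSQ]
  have hb0 : (0 : ℝ) ≤ ((box K s (D * m) H).card : ℝ) := by positivity
  have h9 : η * (3 / 4) * ((box K s (D * m) H).card : ℝ) *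
      (Nat.card (Mon s (D * m) → 𝓞 K ⧸ Ideal.span {(V : 𝓞 K)}) : ℝ) ≤
      a * (Nat.card (Mon s (D * m) → 𝓞 K ⧸ Ideal.span {(Q : 𝓞 K)}) : ℝ) *
        (Nat.card (Mon s (D * m) → 𝓞 K ⧸ Ideal.span {(V : 𝓞 K)}) : ℝ) := by
    have h10 := mul_le_mul_of_nonneg_left h5 (mul_nonneg hη.le hb0)
    linarith
  exact le_of_mul_le_mul_right h9 hSV

end Pool.Agent.NRM
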