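import Pool.Agent.NRM.StB
import Pool.Agent.RHCW.TOPCW

/-!
NRM (NORM), [TOPN]: from finitely many cells to the points over the number field.
-/

set_option autoImplicit false

namespace Pool.Agent.NRM

open scoped BigOperators
open Classical NumberField IsDedekindDomain
open Pool.Agent.RHP (Mon mono ev Sys Prim pd WB WW)
open Pool.Agent.RHK Pool.Agent.RHC
open Pool.Agent.RHKB (mI hh jj qv MK uu BadK)
open Pool.Agent.RHCB (BadC cred cemb uk PrC hM f00)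
open Pool.Agent.RHCW (cmk TOPCW_min TOPCW_root)

/-- a prime ideal which contains a positive integer `n` contains a prime number dividing `n` -/
theorem TOPN_prime {A : Type} [CommRing A] (P : Ideal A) (hP : P.IsPrime) :
    ∀ n : ℕ, 0 < n → (n : A) ∈ P → ∃ p : ℕ, p.Prime ∧ p ∣ n ∧ (p : A) ∈ P := by
  intro n
  induction n using induction_on_primes with
  | zero => exact fun h => absurd h (lt_irrefl 0)
  | one =>
    intro _ h
    rw [Nat.cast_one] at h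
    exact absurd ((Ideal.eq_top_iff_one P).2 h) hP.ne_top
  | prime_mul p a hp ih =>
    intro hpos hmem
    rw [Nat.cast_mul] at hmem
    rcases hP.mem_or_mem hmem with h | h
    · exact ⟨p, hp, dvd_mul_right p a, h⟩
    · obtain ⟨q, hq, hqa, hqP⟩ := ih (Nat.pos_of_ne_zero fun h0 => by
        rw [h0, mul_zero] at hpos
        exact lt_irrefl 0 hpos) h
      exact ⟨q, hq, Dvd.dvd.mul_left hqa p, hqP⟩

theorem TOPN_low {K : Type} [Field K] [NumberField K] (v : HeightOneSpectrum (𝓞 K)) (p0 : ℕ)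
    (h : Ideal.absNorm v.asIdeal ≤ p0) : LowP p0 v := by
  have h0 : 0 < Ideal.absNorm v.asIdeal := by
    refine Nat.pos_of_ne_zero fun h1 => ?_
    rw [Ideal.absNorm_eq_zero_iff] at h1
    exact v.ne_bot h1
  obtain ⟨p, hp, hpd, hpv⟩ := TOPN_prime v.asIdeal v.isPrime _ h0 (Ideal.absNorm_mem _)
  exact ⟨p, hp, (Nat.le_of_dvd h0 hpd).trans h, hpv⟩

/-- the point over the number field -/
theorem TOPN_pt {K : Type} [Field K] [NumberField K] {s r D d : ℕ} (g : Mon r D → 𝓞 K)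
    (f : Mon s d → 𝓞 K) (dl : ℕ) (hdl : 1 ≤ dl) (p : (Fin s → 𝓞 K) × (Fin r → 𝓞 K))
    (hp : Prim p.1) (h : ((dl ^ D : ℕ) : 𝓞 K) * ev f p.1 = ev g p.2) :
    IsPtN g f (fun l => (p.1 l : K)) (fun j => (p.2 j : K) / (dl : K)) := by
  have hdl0 : (dl : K) ≠ 0 := by
    have : (dl : ℕ) ≠ 0 := by omega
    exact_mod_cast this
  refine ⟨?_, ?_⟩
  · intro h0
    obtain ⟨c, hc⟩ := hp
    have h1 : ∀ i, p.1 i = 0 := fun i => by
      have h2 : (p.1 i : K) = 0 := congrFun h0 i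
      exact RingOfIntegers.coe_eq_zero_iff.1 h2
    simp [h1] at hc
  · have e1 : ev (cemb (1 : K) f) (fun l => (p.1 l : K)) = algebraMap (𝓞 K) K (ev f p.1) := by
      rw [← Pool.Agent.RHP.ev_map (algebraMap (𝓞 K) K) f p.1]
      congr 1
      funext μ
      change (1 : K) * _ = _
      rw [one_mul]
      rfl
    have e2 : ev (gL K g) (fun j => (p.2 j : K)) = algebraMap (𝓞 K) K (ev g p.2) := by
      rw [← Pool.Agent.RHP.ev_map (algebraMap (𝓞 K) K) g p.2]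
      congr 1
      funext μ
      change (1 : K) * _ = _
      rw [one_mul]
      rfl
    have e3 : (fun j => (p.2 j : K) / (dl : K)) = fun j => (dl : K)⁻¹ * (p.2 j : K) := by
      funext j
      rw [div_eq_mul_inv, mul_comm]
    rw [e1, e3, Pool.Agent.RHP.ev_smul_pt, e2, ← h, map_mul, map_natCast, inv_pow]
    push_cast
    rw [inv_mul_cancel_left₀ (pow_ne_zero _ hdl0)]

theorem thm_TOPN (h1 : St_FPL) (h2 : St_IPL) (h3 : RHCW.St_SZC) : St_TOPN := by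
  intro K _ _ s r D m hyp g hF S η hη ε hε
  have hD : 1 ≤ D := by
    have := hyp.hD
    omega
  have hs1 : 1 ≤ s := by
    have := hyp.hs
    omega
  have hDm : 1 ≤ D * m := Nat.mul_pos hD hyp.hm
  obtain ⟨p00, hF⟩ := hF (ε / 2) (by positivity)
  obtain ⟨p0, hp0d⟩ : ∃ p0 : ℕ, p0 = max p00 (S.sup fun v => Ideal.absNorm v.asIdeal) := ⟨_, rfl⟩
  have hp0 : p00 ≤ p0 := by
    rw [hp0d]
    exact le_max_left _ _
  have hSl : ∀ v ∈ S, LowP p0 v := fun v hv => TOPN_low v p0 (by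
    rw [hp0d]
    exact (Finset.le_sup (f := fun v : HeightOneSpectrum (𝓞 K) => Ideal.absNorm v.asIdeal) hv).trans
      (le_max_right _ _))
  obtain ⟨n1, hn1⟩ : ∃ n1 : ℝ, n1 = (S.card : ℝ) + (Fintype.card (InfinitePlace K) : ℝ) + 1 :=
    ⟨_, rfl⟩
  have hn1p : 0 < n1 := by
    rw [hn1]
    positivity
  obtain ⟨ε₁, hε₁d⟩ : ∃ ε₁ : ℝ, ε₁ = ε / (2 * n1) := ⟨_, rfl⟩
  have hε₁ : 0 < ε₁ := by
    rw [hε₁d]
    positivity
  obtain ⟨SZ1, SZ2⟩ := h3 K s (D * m) hs1 hDm ε₁ hε₁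
  choose δf hδf Hf hHf using SZ1
  choose δi hδi Hi hHi using SZ2
  obtain ⟨δ1, hδ10, hδ11, hδ1S⟩ := TOPCW_min S δf fun v _ => hδf v
  obtain ⟨δ2, hδ20, hδ21, hδ2S⟩ := TOPCW_min Finset.univ δi fun v _ => hδi v
  obtain ⟨δ, hδd⟩ : ∃ δ, δ = min δ1 δ2 := ⟨_, rfl⟩
  have hδ0 : 0 < δ := by
    rw [hδd]
    exact lt_min hδ10 hδ20
  have hδS : ∀ v ∈ S, δ ≤ δf v := fun v h => by
    rw [hδd]
    exact (min_le_left _ _).trans (hδ1S v h)
  have hδI : ∀ v, δ ≤ δi v := fun v => by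
    rw [hδd]
    exact (min_le_right _ _).trans (hδ2S v (Finset.mem_univ v))
  obtain ⟨dl, q, hdl, hq, hpdl, hpq, T1, hT1⟩ := h1 K s r D m hyp g p0 S hSl η δ hη hδ0
  obtain ⟨B, η', hη'0, hη'16, T2, hT2⟩ := h2 K s r D m hyp g η δ hη hδ0
  obtain ⟨T, hT⟩ : ∃ T : Finset ((Fin s → 𝓞 K) × (Fin r → 𝓞 K) ×
      ((v : InfinitePlace K) → Fin r ⊕ Fin s → v.Completion)),
      T = (T1 ×ˢ T2).image fun τ => (τ.1.1, τ.1.2, τ.2) := ⟨_, rfl⟩
  obtain ⟨H3, hH3⟩ := hF p0 hp0 B dl q hdl hq hpdl hpq η' hη'0 hη'16 T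
  refine ⟨max 1 (max (S.sup Hf) (max (Finset.univ.sup Hi) H3)), fun H hH => ?_⟩
  have hH1 : 1 ≤ H := (le_max_left _ _).trans hH
  have hHS : ∀ v ∈ S, Hf v ≤ H := fun v h => (Finset.le_sup h).trans
    ((le_max_left _ _).trans ((le_max_right _ _).trans hH))
  have hHI : ∀ v, Hi v ≤ H := fun v => (Finset.le_sup (Finset.mem_univ v)).trans
    ((le_max_left _ _).trans ((le_max_right _ _).trans ((le_max_right _ _).trans hH)))
  have hHC : H3 ≤ H :=
    (le_max_right _ _).trans ((le_max_right _ _).trans ((le_max_right _ _).trans hH))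
  obtain ⟨V, hV, hVH, hHV⟩ := TOPCW_root D H hD hH1
  -- the exceptional sets
  set B1 : HeightOneSpectrum (𝓞 K) → Finset (Mon s (D * m) → 𝓞 K) := fun v =>
    (box K s (D * m) H).filter fun f => ∀ μ, ‖jj (v.adicCompletion K) (f μ)‖ < δf v with hB1
  set B2 : InfinitePlace K → Finset (Mon s (D * m) → 𝓞 K) := fun v =>
    (box K s (D * m) H).filter fun f => ∀ μ, ‖jj v.Completion (f μ)‖ < δi v * H with hB2
  set B3 : Finset (Mon s (D * m) → 𝓞 K) := (box K s (D * m) H).filter fun f => ∃ τ ∈ T,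
        (∀ v : InfinitePlace K, InfZN v V B g (τ.2.2 v) η' f) ∧
        (∀ v, LowP p0 v → LocZN v (dl ^ D) q g τ.1 τ.2.1 f) ∧
        ¬ ∃ (X : ℕ) (p : (Fin s → 𝓞 K) × (Fin r → 𝓞 K)), 0 < X ∧ Prim p.1 ∧
          p ∈ CellN q τ.1 τ.2.1 τ.2.2 (3 * η') X (dl * (X ^ m * V)) ∧
          ((dl ^ D : ℕ) : 𝓞 K) * ev f p.1 = ev g p.2 with hB3
  have hsub : ((box K s (D * m) H).filter fun f => ELSN g f ∧ ¬ DenseN m S η g f) ⊆
      (S.biUnion B1 ∪ Finset.univ.biUnion B2) ∪ B3 := by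
    intro f hf
    rw [Finset.mem_filter] at hf
    obtain ⟨hfb, hE, hDN⟩ := hf
    by_contra hcon
    rw [Finset.mem_union, Finset.mem_union, not_or, not_or] at hcon
    obtain ⟨⟨c1, c2⟩, c3⟩ := hcon
    apply hDN
    intro z a y b hza hyb
    have hSf : ∀ v ∈ S, ∃ μ, δ ≤ ‖jj (v.adicCompletion K) (f μ)‖ := by
      intro v hvS
      by_contra h
      push Not at h
      refine c1 (Finset.mem_biUnion.2 ⟨v, hvS, ?_⟩)
      rw [hB1]
      exact Finset.mem_filter.2 ⟨hfb, fun μ => (h μ).trans_le (hδS v hvS)⟩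
    have hSi : ∀ v : InfinitePlace K, ∃ μ, δ * H ≤ ‖jj v.Completion (f μ)‖ := by
      intro v
      by_contra h
      push Not at h
      refine c2 (Finset.mem_biUnion.2 ⟨v, Finset.mem_univ v, ?_⟩)
      rw [hB2]
      exact Finset.mem_filter.2 ⟨hfb, fun μ => (h μ).trans_le
        (mul_le_mul_of_nonneg_right (hδI v) (Nat.cast_nonneg _))⟩
    obtain ⟨τ1, hτ1, hl1, hl2⟩ := hT1 f hSf hE.2 z a hza
    obtain ⟨τ2, hτ2, hi1, hi2⟩ := hT2 dl V H hdl hV hVH hHV f hfb hSi y b hyb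
    have hτ : (τ1.1, τ1.2, τ2) ∈ T := by
      rw [hT]
      exact Finset.mem_image.2 ⟨(τ1, τ2), Finset.mem_product.2 ⟨hτ1, hτ2⟩, rfl⟩
    obtain ⟨X, p, hX, hp, ⟨⟨hp1, hp2⟩, hp3⟩, hp4⟩ : ∃ (X : ℕ)
        (p : (Fin s → 𝓞 K) × (Fin r → 𝓞 K)), 0 < X ∧ Prim p.1 ∧
        p ∈ CellN q τ1.1 τ1.2 τ2 (3 * η') X (dl * (X ^ m * V)) ∧
        ((dl ^ D : ℕ) : 𝓞 K) * ev f p.1 = ev g p.2 := by
      by_contra h
      apply c3
      rw [hB3]
      exact Finset.mem_filter.2 ⟨hfb, (τ1.1, τ1.2, τ2), hτ, hi1, hl1, h⟩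
    exact ⟨fun l => (p.1 l : K), fun j => (p.2 j : K) / (dl : K),
      TOPN_pt g f dl hdl p hp hp4, hl2 p hp1 hp2, hi2 X p hX hp3⟩
  have hcard : (((box K s (D * m) H).filter fun f => ELSN g f ∧ ¬ DenseN m S η g f).card : ℝ) ≤
      (∑ v ∈ S, ((B1 v).card : ℝ)) + (∑ v, ((B2 v).card : ℝ)) + (B3.card : ℝ) := by
    have h2 := (Finset.card_le_card hsub).trans ((Finset.card_union_le _ _).trans
      (Nat.add_le_add ((Finset.card_union_le _ _).trans
        (Nat.add_le_add Finset.card_biUnion_le Finset.card_biUnion_le)) le_rfl))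
    exact_mod_cast h2
  obtain ⟨bx0, hbx0⟩ : ∃ bx0 : ℝ, bx0 = ((box K s (D * m) H).card : ℝ) := ⟨_, rfl⟩
  have hbx00 : 0 ≤ bx0 := by
    rw [hbx0]
    exact Nat.cast_nonneg _
  have s1 : ∑ v ∈ S, ((B1 v).card : ℝ) ≤ S.card * (ε₁ * bx0) := by
    have h3 : ∀ v ∈ S, ((B1 v).card : ℝ) ≤ ε₁ * bx0 := fun v h => by
      rw [hbx0]
      exact hHf v H (hHS v h)
    refine (Finset.sum_le_sum h3).trans (le_of_eq ?_)
    rw [Finset.sum_const, nsmul_eq_mul]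
  have s2 : ∑ v, ((B2 v).card : ℝ) ≤ Fintype.card (InfinitePlace K) * (ε₁ * bx0) := by
    have h3 : ∀ v ∈ (Finset.univ : Finset (InfinitePlace K)), ((B2 v).card : ℝ) ≤ ε₁ * bx0 :=
      fun v _ => by
      rw [hbx0]
      exact hHi v H (hHI v)
    refine (Finset.sum_le_sum h3).trans (le_of_eq ?_)
    rw [Finset.sum_const, nsmul_eq_mul, Finset.card_univ]
  have s3 : (B3.card : ℝ) ≤ ε / 2 * bx0 := by
    rw [hbx0]
    exact hH3 H hHC V hVH hHV
  rw [← hbx0]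
  have t1 : n1 * (ε₁ * bx0) = ε / 2 * bx0 := by
    rw [hε₁d]
    field_simp
  have t3 : 0 ≤ ε₁ * bx0 := mul_nonneg hε₁.le hbx00
  rw [hn1] at t1
  nlinarith [hcard, s1, s2, s3, t1, t3]

end Pool.Agent.NRM
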