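import Pool.Agent.NRM.StB
import Pool.Agent.RHCB.UIFTC

/-!
NRM, module UIFTN: uniform implicit function theorem for `f(x) = G(w)` at a given point (helper93; port of
`RHCW/UIFTCW.lean` by helper66).
-/

set_option autoImplicit false

namespace Pool.Agent.NRM

open scoped BigOperators
open Classical Filter Topology
open Pool.Agent.RHP (Mon mono ev Sys Prim pd WB WW)
open Pool.Agent.RHKB (BadK)
open Pool.Agent.RHCB (BadC UIFTC_ev UIFTC_open UIFTC_norm_smul)

/-- Euler's identity -/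
theorem UIFTN_euler {A : Type} [CommRing A] {s d : ℕ} (f : Mon s d → A) (x : Fin s → A) :
    ∑ t, x t * pd t f x = (d : A) * ev f x := by
  unfold pd ev mono
  simp only [Finset.mul_sum]
  rw [Finset.sum_comm]
  refine Finset.sum_congr rfl fun m _ => ?_
  have h1 : ∀ t : Fin s, x t * (f m * ((m.1 t : A) * (x t ^ (m.1 t - 1) *
      ∏ i ∈ Finset.univ.erase t, x i ^ m.1 i))) = (m.1 t : A) * (f m * ∏ i, x i ^ m.1 i) := by
    intro t
    rcases Nat.eq_zero_or_pos (m.1 t) with h0 | h0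
    · rw [h0]
      push_cast
      ring
    · have h2 : x t * x t ^ (m.1 t - 1) = x t ^ m.1 t := by
        rw [← pow_succ', Nat.sub_add_cancel h0]
      rw [← Finset.mul_prod_erase Finset.univ (fun i => x i ^ m.1 i) (Finset.mem_univ t), ← h2]
      ring
  rw [Finset.sum_congr rfl fun t _ => h1 t, ← Finset.sum_mul]
  congr 1
  rw [← Nat.cast_sum, m.sum_eq]

theorem thm_UIFTN (hI : St_IFTN) : St_UIFTN := by
  intro L iL iP hL1 s r D m hD hm hDL G c hc B0 B1 τ ε hτ hε
  let iN : NontriviallyNormedField L := { iL with non_trivial := hL1 }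
  have hcs : CompleteSpace L := inferInstance
  have hIFT := @hI L iN hcs s r D m hD hm
  -- the compact space
  obtain ⟨T, hT⟩ : ∃ T : Set ((Mon s (D * m) → L) × (Fin r ⊕ Fin s → L)),
      ∀ x, x ∈ T ↔ (∀ μ, ‖x.1 μ‖ ≤ B0) ∧ ‖xz x.2‖ = ‖c‖ ∧ ∀ j, ‖wz x.2 j‖ ≤ B1 :=
    ⟨{x | _}, fun x => Iff.rfl⟩
  have hxz : Continuous fun z : Fin r ⊕ Fin s → L => xz z :=
    continuous_pi fun l => continuous_apply _
  have hwz : Continuous fun z : Fin r ⊕ Fin s → L => wz z :=
    continuous_pi fun l => continuous_apply _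
  have hTc : IsCompact T := by
    have h1 : IsCompact ((Set.univ.pi fun _ : Mon s (D * m) =>
        Metric.closedBall (0 : L) (B0 : ℝ)) ×ˢ
        (Set.univ.pi fun _ : Fin r ⊕ Fin s => Metric.closedBall (0 : L) (max (B1 : ℝ) ‖c‖))) := by
      refine IsCompact.prod ?_ ?_
      · exact isCompact_univ_pi fun m => isCompact_closedBall _ _
      · exact isCompact_univ_pi fun m => isCompact_closedBall _ _
    have h2 : IsClosed T := by
      have h3 : T = (⋂ μ, {x : (Mon s (D * m) → L) × (Fin r ⊕ Fin s → L) | ‖x.1 μ‖ ≤ B0}) ∩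
          ({x | ‖xz x.2‖ = ‖c‖} ∩ ⋂ j, {x | ‖wz x.2 j‖ ≤ B1}) := by
        ext x
        rw [hT, Set.mem_inter_iff, Set.mem_inter_iff, Set.mem_iInter, Set.mem_iInter]
        exact Iff.rfl
      rw [h3]
      refine IsClosed.inter (isClosed_iInter fun μ => ?_) (IsClosed.inter ?_
        (isClosed_iInter fun j => ?_))
      · exact isClosed_le (continuous_norm.comp ((continuous_apply μ).comp continuous_fst))
          continuous_const
      · exact isClosed_eq (continuous_norm.comp (hxz.comp continuous_snd)) continuous_const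
      · exact isClosed_le (continuous_norm.comp ((continuous_apply j).comp
          (hwz.comp continuous_snd))) continuous_const
    refine h1.of_isClosed_subset h2 ?_
    intro x hx
    obtain ⟨e1, e2, e3⟩ := (hT x).1 hx
    refine ⟨fun μ _ => ?_, fun l _ => ?_⟩
    · rw [mem_closedBall_zero_iff]
      exact e1 μ
    · rw [mem_closedBall_zero_iff]
      rcases l with l | l
      · exact (e3 l).trans (le_max_left _ _)
      · refine le_trans ?_ (le_max_right _ _)
        rw [← e2]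
        exact norm_le_pi_norm (xz x.2) l
  have hc' : 0 < ‖c‖ := norm_pos_iff.2 hc
  -- the local statement
  have key : ∀ x : (Mon s (D * m) → L) × (Fin r ⊕ Fin s → L), ‖xz x.2‖ = ‖c‖ →
      ∃ U ∈ 𝓝 x, ∃ δ : ℝ, 0 < δ ∧
      ∀ (f : Mon s (D * m) → L) (z : Fin r ⊕ Fin s → L), (f, z) ∈ U →
        ‖xz z‖ = ‖c‖ → ev f (xz z) = ev G (wz z) →
        ¬ BadC τ f → NZN f G z δ ε := by
    rintro ⟨f₀, z₀⟩ hn
    have hn' : ‖xz z₀‖ = ‖c‖ := hn
    by_cases h2 : ev f₀ (xz z₀) = ev G (wz z₀)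
    · by_cases h3 : BadC τ f₀
      · exact ⟨{x | BadC τ x.1}, ((UIFTC_open τ).preimage continuous_fst).mem_nhds h3, 1,
          one_pos, fun f z h4 _ _ h5 => absurd h4 h5⟩
      · -- the good case
        have hj : ∃ j : Fin r ⊕ Fin s, ((∃ i : Fin r, j = Sum.inl i ∧ pd i G (wz z₀) ≠ 0) ∨
            ∃ l : Fin s, j = Sum.inr l ∧ pd l f₀ (xz z₀) ≠ 0) := by
          by_contra hcon
          push Not at hcon
          have hpG : ∀ i : Fin r, pd i G (wz z₀) = 0 := fun i => (hcon (Sum.inl i)).1 i rfl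
          have hpd : ∀ l : Fin s, pd l f₀ (xz z₀) = 0 := fun l => (hcon (Sum.inr l)).2 l rfl
          have hev : ev f₀ (xz z₀) = 0 := by
            have h4 := UIFTN_euler G (wz z₀)
            rw [Finset.sum_eq_zero fun i _ => by rw [hpG i, mul_zero]] at h4
            rw [h2]
            exact (mul_eq_zero.1 h4.symm).resolve_left hDL
          apply h3
          refine ⟨fun l => c⁻¹ * xz z₀ l, fun _ => 1, ?_, ?_, fun i => ?_, fun t => ?_⟩
          · rw [UIFTC_norm_smul c⁻¹ (xz z₀), hn', norm_inv, inv_mul_cancel₀ hc'.ne']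
          · apply le_antisymm
            · refine (pi_norm_le_iff_of_nonneg zero_le_one).2 fun i => ?_
              rw [norm_one]
            · have h5 := norm_le_pi_norm (fun _ : Fin 1 => (1 : L)) 0
              rwa [norm_one] at h5
          · rw [Pool.Agent.RHP.ev_smul_pt c⁻¹ f₀ (xz z₀), hev, mul_zero, norm_zero]
            exact hτ
          · have h4 : ∑ i : Fin 1, (1 : L) * pd t f₀ (fun l => c⁻¹ * xz z₀ l) = 0 := by
              refine Finset.sum_eq_zero fun i _ => ?_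
              rw [Pool.Agent.RHP.pd_smul_pt c⁻¹ t f₀ (xz z₀), hpd t, mul_zero, mul_zero]
            show ‖∑ i : Fin 1, (1 : L) * pd t f₀ (fun l => c⁻¹ * xz z₀ l)‖ < τ
            rw [h4, norm_zero]
            exact hτ
        obtain ⟨j, hj⟩ := hj
        obtain ⟨δ, hδ, h5⟩ := hIFT f₀ G z₀ j h2 hj (ε / 2) (half_pos hε)
        have hev1 : ∀ᶠ x : (Mon s (D * m) → L) × (Fin r ⊕ Fin s → L) in 𝓝 (f₀, z₀), ∀ μ,
            ‖x.1 μ - f₀ μ‖ ≤ δ := by
          refine eventually_all.2 fun μ => ?_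
          have hc0 : Continuous fun x : (Mon s (D * m) → L) × (Fin r ⊕ Fin s → L) => x.1 μ :=
            (continuous_apply μ).comp continuous_fst
          have hc : Continuous fun x : (Mon s (D * m) → L) × (Fin r ⊕ Fin s → L) =>
              ‖x.1 μ - f₀ μ‖ :=
            (hc0.sub continuous_const).norm
          have h6 : ‖(f₀, z₀).1 μ - f₀ μ‖ < δ := by
            show ‖f₀ μ - f₀ μ‖ < δ
            rw [sub_self, norm_zero]
            exact hδ
          exact (hc.tendsto (f₀, z₀)).eventually (eventually_le_nhds h6)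
        have hmin : 0 < min (δ / 2) (ε / 2) := lt_min (half_pos hδ) (half_pos hε)
        have hev2 : ∀ᶠ x : (Mon s (D * m) → L) × (Fin r ⊕ Fin s → L) in 𝓝 (f₀, z₀), ∀ l,
            ‖x.2 l - z₀ l‖ ≤ min (δ / 2) (ε / 2) := by
          refine eventually_all.2 fun l => ?_
          have hc0 : Continuous fun x : (Mon s (D * m) → L) × (Fin r ⊕ Fin s → L) => x.2 l :=
            (continuous_apply l).comp continuous_snd
          have hc : Continuous fun x : (Mon s (D * m) → L) × (Fin r ⊕ Fin s → L) =>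
              ‖x.2 l - z₀ l‖ :=
            (hc0.sub continuous_const).norm
          have h6 : ‖(f₀, z₀).2 l - z₀ l‖ < min (δ / 2) (ε / 2) := by
            show ‖z₀ l - z₀ l‖ < _
            rw [sub_self, norm_zero]
            exact hmin
          exact (hc.tendsto (f₀, z₀)).eventually (eventually_le_nhds h6)
        refine ⟨_, hev1.and hev2, δ / 2, half_pos hδ, ?_⟩
        rintro f z ⟨hF1, hF2⟩ hz hz0 -
        refine ⟨j, fun κ hκ => ?_⟩
        obtain ⟨z', h6, h7, h8⟩ := h5 f hF1 κ (fun l => by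
          have e1 := hκ l
          have e2 : ‖z l - z₀ l‖ ≤ min (δ / 2) (ε / 2) := hF2 l
          have e3 : ‖z l - z₀ l‖ ≤ δ / 2 := e2.trans (min_le_left _ _)
          calc ‖κ l - z₀ l‖ = ‖(κ l - z l) + (z l - z₀ l)‖ := by rw [sub_add_sub_cancel]
            _ ≤ ‖κ l - z l‖ + ‖z l - z₀ l‖ := norm_add_le _ _
            _ ≤ δ / 2 + δ / 2 := add_le_add e1 e3
            _ = δ := add_halves δ)
        refine ⟨z', h6, fun l => ?_, h8⟩
        have e2 : ‖z l - z₀ l‖ ≤ min (δ / 2) (ε / 2) := hF2 l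
        have e3 : ‖z₀ l - z l‖ ≤ ε / 2 := by
          rw [norm_sub_rev]
          exact e2.trans (min_le_right _ _)
        calc ‖z' l - z l‖ = ‖(z' l - z₀ l) + (z₀ l - z l)‖ := by rw [sub_add_sub_cancel]
          _ ≤ ‖z' l - z₀ l‖ + ‖z₀ l - z l‖ := norm_add_le _ _
          _ ≤ ε / 2 + ε / 2 := add_le_add (h7 l) e3
          _ = ε := add_halves ε
    · have hcont : Continuous fun x : (Mon s (D * m) → L) × (Fin r ⊕ Fin s → L) =>
          ev x.1 (xz x.2) - ev G (wz x.2) :=
        (UIFTC_ev.comp (Continuous.prodMk continuous_fst (hxz.comp continuous_snd))).sub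
          (UIFTC_ev.comp (Continuous.prodMk continuous_const (hwz.comp continuous_snd)))
      have h3 : (f₀, z₀) ∈ {x : (Mon s (D * m) → L) × (Fin r ⊕ Fin s → L) |
          ev x.1 (xz x.2) - ev G (wz x.2) ≠ 0} := sub_ne_zero.2 h2
      refine ⟨_, (isOpen_ne.preimage hcont).mem_nhds h3, 1,
        one_pos, fun f z h4 _ h5 _ => absurd (sub_eq_zero.2 h5) h4⟩
  -- the cover
  have key' : ∀ x : (Mon s (D * m) → L) × (Fin r ⊕ Fin s → L),
      ∃ U : Set ((Mon s (D * m) → L) × (Fin r ⊕ Fin s → L)),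
      ∃ δ : ℝ, 0 < δ ∧ (x ∈ T → U ∈ 𝓝 x) ∧ (x ∈ T →
      ∀ (f : Mon s (D * m) → L) (z : Fin r ⊕ Fin s → L), (f, z) ∈ U →
        ‖xz z‖ = ‖c‖ → ev f (xz z) = ev G (wz z) → ¬ BadC τ f → NZN f G z δ ε) := by
    intro x
    by_cases hx : x ∈ T
    · obtain ⟨U, hU, δ, hδ, h1⟩ := key x ((hT x).1 hx).2.1
      exact ⟨U, δ, hδ, fun _ => hU, fun _ => h1⟩
    · exact ⟨Set.univ, 1, one_pos, fun h => absurd h hx, fun h => absurd h hx⟩
  choose U δ hδ hU hNZ using key'
  obtain ⟨t, htT, ht⟩ := hTc.elim_nhds_subcover U fun x hx => hU x hx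
  obtain ⟨δ0, hδ0, hmin⟩ : ∃ δ0 : ℝ, 0 < δ0 ∧ ∀ x ∈ t, δ0 ≤ δ x := by
    rcases t.eq_empty_or_nonempty with rfl | hne
    · exact ⟨1, one_pos, fun x hx => absurd hx (Finset.notMem_empty x)⟩
    · obtain ⟨y, hy, h1⟩ := Finset.exists_min_image t δ hne
      exact ⟨δ y, hδ y, h1⟩
  refine ⟨δ0, hδ0, fun f hF hbad z h1 hB h2 => ?_⟩
  have h3 : (f, z) ∈ T := (hT _).2 ⟨hF, h1, hB⟩
  have h4 := ht h3
  rw [Set.mem_iUnion₂] at h4
  obtain ⟨y, hy, h5⟩ := h4
  obtain ⟨J, e3⟩ := hNZ y (htT y hy) f _ h5 h1 h2 hbad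
  exact ⟨J, fun κ hκ => e3 κ fun l => (hκ l).trans (hmin y hy)⟩

end Pool.Agent.NRM
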