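import Pool.Agent.NRM.StA

/-!
NRM [UNB] (helper70): the number of units of bounded size.
-/

set_option autoImplicit false

namespace Pool.Agent.NRM

open NumberField NumberField.Units NumberField.Units.dirichletUnitTheorem

open scoped Classical in
theorem UNB_coord (L : Type) [Field L] [NumberField L] : ∃ B : ℝ, 0 < B ∧
    ∃ g : (𝓞 L)ˣ → torsion L × (Fin (rank L) → ℤ), Function.Injective g ∧
      ∀ u i, |((g u).2 i : ℝ)| ≤ B * ‖logEmbedding L (Additive.ofMul u)‖ := by
  classical
  let b := (basisUnitLattice L).ofZLatticeBasis ℝ (unitLattice L)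
  let e : logSpace L ≃L[ℝ] (Fin (rank L) → ℝ) := b.equivFunL
  have hex : ∀ u : (𝓞 L)ˣ, ∃ ζe : torsion L × (Fin (rank L) → ℤ),
      u = ζe.1 * ∏ i, (fundSystem L i) ^ (ζe.2 i) := fun u =>
    (exist_unique_eq_mul_prod L u).exists
  choose g hg using hex
  refine ⟨‖(e : logSpace L →L[ℝ] (Fin (rank L) → ℝ))‖ + 1, by positivity, g, ?_, ?_⟩
  · intro u u' h
    rw [hg u, hg u', h]
  · intro u i
    have h1 : logEmbedding L (Additive.ofMul u) = ∑ i, ((g u).2 i : ℝ) • b i := by
      conv_lhs => rw [hg u]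
      rw [ofMul_mul, map_add, logEmbedding_eq_zero_iff.2 (g u).1.2, zero_add, ofMul_prod, map_sum]
      refine Finset.sum_congr rfl fun j _ => ?_
      rw [ofMul_zpow, map_zsmul, logEmbedding_fundSystem, Module.Basis.ofZLatticeBasis_apply]
      exact (Int.cast_smul_eq_zsmul ℝ _ _).symm
    have h2 : e (logEmbedding L (Additive.ofMul u)) = fun i => ((g u).2 i : ℝ) := by
      show b.equivFun _ = _
      rw [h1]
      funext j
      rw [Module.Basis.equivFun_apply, Module.Basis.repr_sum_self]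
    have h3 : ‖e (logEmbedding L (Additive.ofMul u))‖ ≤
        ‖(e : logSpace L →L[ℝ] (Fin (rank L) → ℝ))‖ * ‖logEmbedding L (Additive.ofMul u)‖ :=
      (e : logSpace L →L[ℝ] (Fin (rank L) → ℝ)).le_opNorm _
    have h4 := norm_le_pi_norm (e (logEmbedding L (Additive.ofMul u))) i
    rw [h2] at h4 h3
    rw [← Real.norm_eq_abs]
    refine h4.trans (h3.trans ?_)
    exact mul_le_mul_of_nonneg_right (by linarith) (norm_nonneg _)

open scoped Classical in
theorem UNB_log {L : Type} [Field L] [NumberField L] {T : ℝ} (hT : 1 ≤ T) {u : (𝓞 L)ˣ}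
    (hu : ∀ v : InfinitePlace L, v ((u : 𝓞 L) : L) ≤ T) :
    ‖logEmbedding L (Additive.ofMul u)‖ ≤
      2 * (Fintype.card (InfinitePlace L) : ℝ) * Real.log T := by
  classical
  have hlog : 0 ≤ Real.log T := Real.log_nonneg hT
  have hpos : ∀ v : InfinitePlace L, 0 < v ((u : 𝓞 L) : L) := fun v =>
    InfinitePlace.pos_iff.2 (by
      intro h
      exact u.ne_zero (NumberField.RingOfIntegers.coe_eq_zero_iff.1 h))
  have hm : ∀ v : InfinitePlace L, (v.mult : ℝ) ≤ 2 := fun v => by
    unfold InfinitePlace.mult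
    split_ifs <;> norm_num
  have h1 : ∀ v : InfinitePlace L, (v.mult : ℝ) * Real.log (v ((u : 𝓞 L) : L)) ≤ 2 * Real.log T := by
    intro v
    have h2 : Real.log (v ((u : 𝓞 L) : L)) ≤ Real.log T := Real.log_le_log (hpos v) (hu v)
    have h3 : (0 : ℝ) ≤ v.mult := Nat.cast_nonneg _
    calc (v.mult : ℝ) * Real.log (v ((u : 𝓞 L) : L)) ≤ v.mult * Real.log T :=
          mul_le_mul_of_nonneg_left h2 h3
      _ ≤ 2 * Real.log T := mul_le_mul_of_nonneg_right (hm v) hlog
  have hN : (1 : ℝ) ≤ (Fintype.card (InfinitePlace L) : ℝ) := by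
    have : 0 < Fintype.card (InfinitePlace L) := Fintype.card_pos
    exact_mod_cast this
  refine (pi_norm_le_iff_of_nonneg (by positivity)).2 fun w => ?_
  rw [Real.norm_eq_abs, logEmbedding_component, abs_le]
  constructor
  · have h2 := sum_mult_mul_log u
    rw [← Finset.add_sum_erase Finset.univ _ (Finset.mem_univ w.1)] at h2
    have h3 : ∑ v ∈ Finset.univ.erase w.1, (v.mult : ℝ) * Real.log (v ((u : 𝓞 L) : L)) ≤
        2 * (Fintype.card (InfinitePlace L) : ℝ) * Real.log T := by
      refine (Finset.sum_le_sum fun v _ => h1 v).trans ?_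
      rw [Finset.sum_const, nsmul_eq_mul, Finset.card_erase_of_mem (Finset.mem_univ _),
        Finset.card_univ]
      have h4 : ((Fintype.card (InfinitePlace L) - 1 : ℕ) : ℝ) ≤
          (Fintype.card (InfinitePlace L) : ℝ) := by
        exact_mod_cast Nat.sub_le _ _
      calc ((Fintype.card (InfinitePlace L) - 1 : ℕ) : ℝ) * (2 * Real.log T) ≤
            (Fintype.card (InfinitePlace L) : ℝ) * (2 * Real.log T) :=
            mul_le_mul_of_nonneg_right h4 (by positivity)
        _ = _ := by ring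
    linarith
  · have h2 := h1 w.1
    nlinarith

theorem thm_UNB : St_UNB := by
  intro L _ _ ε hε
  classical
  have : Fintype (torsion L) := Fintype.ofFinite _
  obtain ⟨B, hB, g, hg, hgB⟩ := UNB_coord L
  set N : ℝ := (Fintype.card (InfinitePlace L) : ℝ) with hN
  have hN0 : 0 ≤ N := Nat.cast_nonneg _
  set δ : ℝ := ε / ((rank L) + 1) with hδ
  have hδ0 : 0 < δ := by positivity
  set A : ℝ := 2 * (B * (2 * N)) / δ + 1 with hA
  have hA1 : 1 ≤ A := by
    have : 0 ≤ 2 * (B * (2 * N)) / δ := by positivity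
    linarith
  refine ⟨(Fintype.card (torsion L) : ℝ) * A ^ (rank L), ?_, ?_⟩
  · have : 0 < Fintype.card (torsion L) := Fintype.card_pos
    have : (0 : ℝ) < (Fintype.card (torsion L) : ℝ) := by exact_mod_cast this
    positivity
  intro T S hT hS
  have hT0 : 0 < T := by linarith
  have hlog : 0 ≤ Real.log T := Real.log_nonneg hT
  set m : ℕ := ⌊B * (2 * N) * Real.log T⌋₊ with hm
  have hm1 : (m : ℝ) ≤ B * (2 * N) * Real.log T := Nat.floor_le (by positivity)
  have h1 : S.card ≤ Fintype.card (torsion L) * (2 * m + 1) ^ (rank L) := by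
    have h2 : S.card ≤ ((Finset.univ : Finset (torsion L)) ×ˢ
        (Fintype.piFinset fun _ : Fin (rank L) => Finset.Icc (-(m : ℤ)) m)).card := by
      refine Finset.card_le_card_of_injOn g (fun u hu => ?_) hg.injOn
      rw [Finset.mem_coe, Finset.mem_product]
      refine ⟨Finset.mem_univ _, Fintype.mem_piFinset.2 fun i => ?_⟩
      have h3 : |((g u).2 i : ℝ)| ≤ B * (2 * N) * Real.log T := by
        refine (hgB u i).trans ?_
        calc B * ‖logEmbedding L (Additive.ofMul u)‖ ≤ B * (2 * N * Real.log T) :=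
              mul_le_mul_of_nonneg_left (UNB_log hT (hS u hu)) hB.le
          _ = _ := by ring
      have h4 : ((g u).2 i).natAbs ≤ m := by
        rw [hm]
        apply Nat.le_floor
        rw [← Int.cast_natCast, Int.natCast_natAbs, Int.cast_abs]
        exact h3
      rw [Finset.mem_Icc]
      omega
    refine h2.trans (le_of_eq ?_)
    rw [Finset.card_product, Finset.card_univ, Fintype.card_piFinset, Finset.prod_const,
      Int.card_Icc, Finset.card_univ, Fintype.card_fin]
    congr 2
    omega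
  have h2 : (2 * (m : ℝ) + 1) ≤ A * T ^ δ := by
    have h3 : Real.log T ≤ T ^ δ / δ := Real.log_le_rpow_div hT0.le hδ0
    have h4 : 1 ≤ T ^ δ := Real.one_le_rpow hT hδ0.le
    have h5 : 2 * (m : ℝ) ≤ 2 * (B * (2 * N)) / δ * T ^ δ := by
      calc 2 * (m : ℝ) ≤ 2 * (B * (2 * N)) * Real.log T := by linarith
        _ ≤ 2 * (B * (2 * N)) * (T ^ δ / δ) := mul_le_mul_of_nonneg_left h3 (by positivity)
        _ = _ := by ring
    rw [hA, add_mul, one_mul]
    linarith
  have h3 : (T ^ δ) ^ (rank L) ≤ T ^ ε := by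
    rw [← Real.rpow_natCast, ← Real.rpow_mul hT0.le]
    refine Real.rpow_le_rpow_of_exponent_le hT ?_
    rw [hδ, div_mul_eq_mul_div, div_le_iff₀ (by positivity)]
    nlinarith
  calc (S.card : ℝ) ≤ (Fintype.card (torsion L) : ℝ) * (2 * (m : ℝ) + 1) ^ (rank L) := by exact_mod_cast h1
    _ ≤ (Fintype.card (torsion L) : ℝ) * (A * T ^ δ) ^ (rank L) := by gcongr
    _ = (Fintype.card (torsion L) : ℝ) * A ^ (rank L) * (T ^ δ) ^ (rank L) := by rw [mul_pow]; ring
    _ ≤ (Fintype.card (torsion L) : ℝ) * A ^ (rank L) * T ^ ε :=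
        mul_le_mul_of_nonneg_left h3 (by positivity)

end Pool.Agent.NRM
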