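import Pool.Agent.NRM.StA
import Pool.Agent.RHC.VDM

/-!
NRM [VDG]: the number of the solutions of `P(T) = a` modulo an ideal in a box (helper25).  Port of
RHC/VDM.lean.
-/

set_option autoImplicit false

namespace Pool.Agent.NRM

open scoped BigOperators
open Classical NumberField IsDedekindDomain
open Pool.Agent.RHK Pool.Agent.RHC

/-- the leading coefficient times the Vandermonde determinant of solutions of `P(T) = a` modulo `I`
is in `I` -/
theorem VDG_det {R : Type} [CommRing R] (I : Ideal R) (D : ℕ) (hD : 0 < D) (P : Polynomial R)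
    (hP : P.natDegree ≤ D) (a : R) (w : Fin (D + 1) → R) (h : ∀ i, P.eval (w i) - a ∈ I) :
    P.coeff D * (Matrix.vandermonde w).det ∈ I := by
  set A := Matrix.vandermonde w with hA
  set v : Fin (D + 1) → R := fun j => P.coeff j - if j = 0 then a else 0 with hv
  have hne : (Fin.last D) ≠ 0 := by
    intro h0
    have := congrArg Fin.val h0
    simp at this
    omega
  have h1 : ∀ i, (A.mulVec v) i = P.eval (w i) - a := by
    intro i
    rw [Polynomial.eval_eq_sum_range' (Nat.lt_succ_of_le hP), Matrix.mulVec, dotProduct]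
    rw [← Fin.sum_univ_eq_sum_range (fun j => P.coeff j * w i ^ j) (D + 1)]
    have h2 : ∀ j : Fin (D + 1), A i j * v j =
        P.coeff j * w i ^ (j : ℕ) - if j = 0 then a else 0 := by
      intro j
      rw [hA, Matrix.vandermonde_apply]
      simp only [hv]
      by_cases hj : j = 0
      · subst hj
        simp
      · rw [if_neg hj, sub_zero, sub_zero, mul_comm]
    rw [Finset.sum_congr rfl fun j _ => h2 j, Finset.sum_sub_distrib, Finset.sum_ite_eq',
      if_pos (Finset.mem_univ _)]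
  have h2 : A.adjugate.mulVec (A.mulVec v) = A.det • v := by
    rw [Matrix.mulVec_mulVec, Matrix.adjugate_mul, Matrix.smul_mulVec, Matrix.one_mulVec]
  have h4 : v (Fin.last D) = P.coeff D := by
    simp only [hv]
    rw [if_neg hne, sub_zero, Fin.val_last]
  have h3 : P.coeff D * A.det = (A.adjugate.mulVec (A.mulVec v)) (Fin.last D) := by
    rw [h2, Pi.smul_apply, h4, smul_eq_mul, mul_comm]
  rw [h3]
  change ∑ i, A.adjugate (Fin.last D) i * (A.mulVec v) i ∈ I
  refine I.sum_mem fun i _ => I.mul_mem_left _ ?_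
  rw [h1 i]
  exact h i

theorem thm_VDG (h1 : Pool.Agent.RHK.St_CELL) (h2 : Pool.Agent.RHK.St_DVN) : St_VDG := by
  intro K _ _ k hk alpha hal
  have hC := h1
  have hD := h2
  clear h1 h2
  set A0 : ℝ := ∏ v : InfinitePlace K, av v alpha ^ v.mult with hA0
  have hA0p : 0 < A0 := by
    have g1 := hD K (Ideal.span {alpha}) alpha (Ideal.mem_span_singleton_self _) hal
    have g2 : (0 : ℝ) < Ideal.absNorm (Ideal.span {alpha}) := by exact_mod_cast g1.1
    exact lt_of_lt_of_le g2 g1.2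
  have hr : 0 < dg K := dg_pos
  have hr' : (dg K : ℝ) ≠ 0 := by exact_mod_cast hr.ne'
  refine ⟨k * (2 ^ dg K * ((1 + 2 * A0) * 4 ^ dg K)), by positivity, ?_⟩
  intro U P a I hPd hPc hU hI
  have hM : 0 < MM k := by
    unfold MM
    have : 2 * 3 ≤ k * (k + 1) := Nat.mul_le_mul hk (by omega)
    omega
  have hM' : (MM k : ℝ) ≠ 0 := by exact_mod_cast hM.ne'
  have hM1 : (1 : ℝ) ≤ MM k := by exact_mod_cast hM
  have hN : 0 < Ideal.absNorm I :=
    Nat.pos_of_ne_zero fun h => hI (Ideal.absNorm_eq_zero_iff.1 h)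
  set N : ℝ := (Ideal.absNorm I : ℝ) with hNd
  have hN' : 0 < N := by rw [hNd]; exact_mod_cast hN
  set T : ℝ := (N / (2 * A0)) ^ ((1 : ℝ) / MM k) with hT
  have hT0 : 0 < T := Real.rpow_pos_of_pos (by positivity) _
  have hTM : T ^ MM k = N / (2 * A0) := by
    rw [hT, ← Real.rpow_natCast, ← Real.rpow_mul (by positivity), one_div, inv_mul_cancel₀ hM',
      Real.rpow_one]
  set ρ : ℝ := T ^ ((1 : ℝ) / dg K) with hρ
  have hρ0 : 0 < ρ := Real.rpow_pos_of_pos hT0 _
  have hρr : ρ ^ dg K = T := by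
    rw [hρ, ← Real.rpow_natCast, ← Real.rpow_mul hT0.le, one_div, inv_mul_cancel₀ hr',
      Real.rpow_one]
  have hU0 : (0 : ℝ) < U := by exact_mod_cast hU
  have hcell : ∀ v : InfinitePlace K, ∃ (N : ℕ) (c : MS K → Fin N),
      (N : ℝ) ≤ (4 * U / ρ + 1) ^ v.mult ∧
      ∀ α β : MS K, nv v α ≤ U → nv v β ≤ U → c α = c β → nv v (α - β) ≤ ρ :=
    fun v => hC K v U ρ hU0.le hρ0
  choose n c h1 h2 using hcell
  set W := (pb K (U : ℝ)).filter fun w => P.eval w - a ∈ I with hW
  let F : 𝓞 K → (∀ v : InfinitePlace K, Fin (n v)) := fun w v => c v (em w)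
  have hfib : ∀ b ∈ W.image F, (W.filter fun w => F w = b).card ≤ k := by
    intro b _
    by_contra hlt
    push Not at hlt
    have hemb : Nonempty (Fin (k + 1) ↪ ↥(W.filter fun w => F w = b)) := by
      apply Function.Embedding.nonempty_of_card_le
      rw [Fintype.card_fin, Fintype.card_coe]
      exact hlt
    obtain ⟨g⟩ := hemb
    let w : Fin (k + 1) → 𝓞 K := fun i => (g i : 𝓞 K)
    have hw : ∀ i, (w i ∈ pb K (U : ℝ) ∧ P.eval (w i) - a ∈ I) ∧ F (w i) = b := by
      intro i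
      have h' := Finset.mem_filter.1 (g i).2
      exact ⟨Finset.mem_filter.1 h'.1, h'.2⟩
    have hinj : Function.Injective w := fun i j hij => g.injective (Subtype.ext hij)
    have hdet := VDG_det I k (by omega) P hPd a w fun i => (hw i).1.2
    rw [hPc] at hdet
    have hdet0 : (Matrix.vandermonde w).det ≠ 0 := Matrix.det_vandermonde_ne_zero_iff.2 hinj
    have h3 := (hD K I _ hdet (mul_ne_zero hal hdet0)).2
    have h3' : ∏ v : InfinitePlace K, av v (alpha * (Matrix.vandermonde w).det) ^ v.mult =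
        A0 * ∏ v : InfinitePlace K, av v (Matrix.vandermonde w).det ^ v.mult := by
      rw [hA0, ← Finset.prod_mul_distrib]
      refine Finset.prod_congr rfl fun v _ => ?_
      rw [av_mul, mul_pow]
    rw [h3'] at h3
    have h4 : ∀ (v : InfinitePlace K) (i j : Fin (k + 1)), av v (w j - w i) ≤ ρ := by
      intro v i j
      rw [← nv_em, map_sub]
      refine h2 v _ _ ?_ ?_ ?_
      · rw [nv_em]; exact mem_pb.1 (hw j).1.1 v
      · rw [nv_em]; exact mem_pb.1 (hw i).1.1 v
      · exact (congrFun (hw j).2 v).trans (congrFun (hw i).2 v).symm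
    have h5 : ∀ v : InfinitePlace K, av v (Matrix.vandermonde w).det ≤ ρ ^ MM k := by
      intro v
      rw [Matrix.det_vandermonde, VDM_av, ← VDM_card k, ← Finset.prod_pow_eq_pow_sum]
      refine Finset.prod_le_prod (fun i _ => av_nonneg v _) fun i _ => ?_
      rw [VDM_av]
      exact (Finset.prod_le_prod (fun j _ => av_nonneg v _) fun j _ => h4 v i j).trans
        (le_of_eq (Finset.prod_const _))
    have h6 : ∏ v : InfinitePlace K, av v (Matrix.vandermonde w).det ^ v.mult ≤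
        ∏ v : InfinitePlace K, (ρ ^ MM k) ^ v.mult :=
      Finset.prod_le_prod (fun v _ => pow_nonneg (av_nonneg v _) _) fun v _ =>
        pow_le_pow_left₀ (av_nonneg v _) (h5 v) _
    rw [prod_pow_mult, ← pow_mul, mul_comm, pow_mul, hρr, hTM] at h6
    have h7 := h3.trans (mul_le_mul_of_nonneg_left h6 hA0p.le)
    have h8 : A0 * (N / (2 * A0)) = N / 2 := by
      field_simp
    rw [h8] at h7
    linarith
  have hcard : (W.card : ℝ) ≤ k * (4 * U / ρ + 1) ^ dg K := by
    have h3 : W.card ≤ k * (W.image F).card := Finset.card_le_mul_card_image W k hfib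
    have h4 : (W.image F).card ≤ ∏ v : InfinitePlace K, n v := by
      have h5 := Finset.card_le_univ (W.image F)
      rw [Fintype.card_pi] at h5
      simpa using h5
    have h5 : (W.card : ℝ) ≤ k * ((∏ v : InfinitePlace K, n v : ℕ) : ℝ) := by
      exact_mod_cast h3.trans (Nat.mul_le_mul_left k h4)
    refine h5.trans (mul_le_mul_of_nonneg_left ?_ (Nat.cast_nonneg _))
    rw [Nat.cast_prod, ← prod_pow_mult]
    exact Finset.prod_le_prod (fun v _ => Nat.cast_nonneg _) fun v _ => h1 v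
  have hTi : 1 / T ≤ (1 + 2 * A0) * rp N (MM k) := by
    have h3 : rp N (MM k) = 1 / N ^ ((1 : ℝ) / MM k) := by
      unfold rp
      rw [neg_div, Real.rpow_neg hN'.le, ← one_div]
    have h4 : T = N ^ ((1 : ℝ) / MM k) / (2 * A0) ^ ((1 : ℝ) / MM k) := by
      rw [hT, Real.div_rpow hN'.le (by positivity)]
    have h5 : (2 * A0) ^ ((1 : ℝ) / MM k) ≤ 1 + 2 * A0 := by
      calc (2 * A0) ^ ((1 : ℝ) / MM k) ≤ (1 + 2 * A0) ^ ((1 : ℝ) / MM k) :=
            Real.rpow_le_rpow (by positivity) (by linarith) (by positivity)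
        _ ≤ (1 + 2 * A0) ^ (1 : ℝ) :=
            Real.rpow_le_rpow_of_exponent_le (by linarith) (by
              rw [div_le_one (by linarith)]; exact hM1)
        _ = 1 + 2 * A0 := Real.rpow_one _
    have h6 : 0 < N ^ ((1 : ℝ) / MM k) := Real.rpow_pos_of_pos hN' _
    rw [h3, h4, one_div_div, mul_one_div]
    exact div_le_div_of_nonneg_right h5 h6.le
  have h7 : (4 * (U : ℝ) / ρ + 1) ^ dg K ≤ 2 ^ dg K * ((4 * U / ρ) ^ dg K + 1) := by
    have h8 := add_pow_le (by positivity : 0 ≤ 4 * (U : ℝ) / ρ) zero_le_one (dg K)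
    rw [one_pow] at h8
    refine h8.trans (mul_le_mul_of_nonneg_right ?_ (by positivity))
    exact pow_le_pow_right₀ (by norm_num) (Nat.sub_le _ _)
  have h9 : (4 * (U : ℝ) / ρ) ^ dg K = 4 ^ dg K * (U : ℝ) ^ dg K * (1 / T) := by
    rw [div_pow, mul_pow, hρr, mul_one_div]
  have h10 : 0 ≤ (4 : ℝ) ^ dg K * (U : ℝ) ^ dg K := by positivity
  have h11 : (1 : ℝ) ≤ 4 ^ dg K := one_le_pow₀ (by norm_num)
  have h12 : (4 * (U : ℝ) / ρ) ^ dg K + 1 ≤
      (1 + 2 * A0) * 4 ^ dg K * ((U : ℝ) ^ dg K * rp N (MM k) + 1) := by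
    rw [h9]
    have h13 := mul_le_mul_of_nonneg_left hTi h10
    have h14 : 1 ≤ (1 + 2 * A0) * 4 ^ dg K :=
      one_le_mul_of_one_le_of_one_le (by linarith) h11
    calc 4 ^ dg K * (U : ℝ) ^ dg K * (1 / T) + 1
        ≤ 4 ^ dg K * (U : ℝ) ^ dg K * ((1 + 2 * A0) * rp N (MM k)) +
            (1 + 2 * A0) * 4 ^ dg K := add_le_add h13 h14
      _ = _ := by ring
  calc (W.card : ℝ) ≤ k * (4 * U / ρ + 1) ^ dg K := hcard
    _ ≤ k * (2 ^ dg K * ((4 * U / ρ) ^ dg K + 1)) :=
        mul_le_mul_of_nonneg_left h7 (Nat.cast_nonneg _)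
    _ ≤ k * (2 ^ dg K * ((1 + 2 * A0) * 4 ^ dg K * ((U : ℝ) ^ dg K * rp N (MM k) + 1))) :=
        mul_le_mul_of_nonneg_left (mul_le_mul_of_nonneg_left h12 (by positivity))
          (Nat.cast_nonneg _)
    _ = k * (2 ^ dg K * ((1 + 2 * A0) * 4 ^ dg K)) * ((U : ℝ) ^ dg K * rp N (MM k) + 1) := by ring

end Pool.Agent.NRM
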