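import Pool.Agent.NRM.StA
import Pool.Agent.NRM.StB
import Pool.Agent.NRM.VG

/-!
NRM, block B, [VDQN]: the number of the solutions of `g(ω) = a` in a finite quotient of `𝓞 K` (helper18).
-/

set_option autoImplicit false

namespace Pool.Agent.NRM

open scoped BigOperators
open Classical NumberField IsDedekindDomain
open Pool.Agent.RHP (Mon mono ev Sys Prim ev_map)
open Pool.Agent.RHK Pool.Agent.RHC

/-- from the lines in the direction of `e` to the whole space -/
theorem VDQN_card {B : Type} [CommRing B] [Finite B] {r D : ℕ} (G : Mon r D → B) (e : Fin r → B)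
    (a : B) (C : ℝ)
    (h : ∀ w0 : Fin r → B, (Nat.card {T : B // ev G (fun j => w0 j + T * e j) = a} : ℝ) ≤ C) :
    (Nat.card B : ℝ) * (Nat.card {ω : Fin r → B // ev G ω = a} : ℝ) ≤ (Nat.card B : ℝ) ^ r * C := by
  have := Fintype.ofFinite B
  let F : B × {ω : Fin r → B // ev G ω = a} →
      Σ w0 : Fin r → B, {T : B // ev G (fun j => w0 j + T * e j) = a} := fun p =>
    ⟨fun j => p.2.1 j - p.1 * e j, ⟨p.1, by
      have h1 : (fun j => p.2.1 j - p.1 * e j + p.1 * e j) = p.2.1 := by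
        funext j
        ring
      rw [h1]
      exact p.2.2⟩⟩
  let F' : (Σ w0 : Fin r → B, {T : B // ev G (fun j => w0 j + T * e j) = a}) →
      B × {ω : Fin r → B // ev G ω = a} := fun q =>
    (q.2.1, ⟨fun j => q.1 j + q.2.1 * e j, q.2.2⟩)
  have hFF : Function.LeftInverse F' F := by
    intro p
    refine Prod.ext rfl (Subtype.ext ?_)
    funext j
    change p.2.1 j - p.1 * e j + p.1 * e j = p.2.1 j
    ring
  have h1 : Nat.card (B × {ω : Fin r → B // ev G ω = a}) ≤
      Nat.card (Σ w0 : Fin r → B, {T : B // ev G (fun j => w0 j + T * e j) = a}) :=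
    Nat.card_le_card_of_injective F hFF.injective
  rw [Nat.card_prod, Nat.card_sigma] at h1
  calc (Nat.card B : ℝ) * (Nat.card {ω : Fin r → B // ev G ω = a} : ℝ)
      = ((Nat.card B * Nat.card {ω : Fin r → B // ev G ω = a} : ℕ) : ℝ) := by push_cast; rfl
    _ ≤ ((∑ w0 : Fin r → B, Nat.card {T : B // ev G (fun j => w0 j + T * e j) = a} : ℕ) : ℝ) := by
        exact_mod_cast h1
    _ = ∑ w0 : Fin r → B, (Nat.card {T : B // ev G (fun j => w0 j + T * e j) = a} : ℝ) := by
        push_cast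
        rfl
    _ ≤ ∑ _w0 : Fin r → B, C := Finset.sum_le_sum fun w0 _ => h w0
    _ = (Nat.card B : ℝ) ^ r * C := by
        rw [Finset.sum_const, nsmul_eq_mul, Finset.card_univ, Fintype.card_fun, Fintype.card_fin,
          Nat.card_eq_fintype_card]
        push_cast
        rfl

/-- [VDQN] the number of the solutions of `g(ω) = a` in a finite quotient -/
theorem thm_VDQN (h1 : St_LNP) (h2 : St_VDQP) : St_VDQN := by
  intro K _ _ r D hD g hg
  have : Infinite (𝓞 K) := Infinite.of_injective (Nat.cast : ℕ → 𝓞 K) Nat.cast_injective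
  obtain ⟨e, he⟩ := VG_exists g hg
  obtain ⟨C, hC, hV⟩ := h2 K D hD (ev g e) he
  refine ⟨C, hC, ?_⟩
  intro B _ _ φ hφ a
  have hN : (0 : ℝ) < Nat.card B := by exact_mod_cast Nat.card_pos
  have hNM : (0 : ℝ) < (Nat.card B : ℝ) ^ ((1 : ℝ) / MM D) := Real.rpow_pos_of_pos hN _
  have hline : ∀ w0 : Fin r → B,
      (Nat.card {T : B // ev (fun μ => φ (g μ)) (fun j => w0 j + T * φ (e j)) = a} : ℝ) ≤
        C * (Nat.card B : ℝ) / (Nat.card B : ℝ) ^ ((1 : ℝ) / MM D) := by
    intro w0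
    choose w0' hw0' using fun j => hφ (w0 j)
    obtain ⟨P, hP, hPD, hPc⟩ := h1 (𝓞 K) r D g w0' e
    rw [le_div_iff₀ hNM]
    have h3 := hV B φ hφ P hPD hPc a
    have h4 : ∀ T : B, (P.map φ).eval T = ev (fun μ => φ (g μ)) (fun j => w0 j + T * φ (e j)) := by
      intro T
      obtain ⟨T', rfl⟩ := hφ T
      rw [Polynomial.eval_map, Polynomial.eval₂_at_apply, hP T', ← ev_map]
      congr 1
      funext j
      rw [map_add, map_mul, hw0' j]
    simp only [h4] at h3
    exact h3
  have h5 := VDQN_card (fun μ => φ (g μ)) (fun j => φ (e j)) a _ hline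
  have h6 : (Nat.card B : ℝ) ^ r * (C * (Nat.card B : ℝ) / (Nat.card B : ℝ) ^ ((1 : ℝ) / MM D)) =
      (Nat.card B : ℝ) * (C * (Nat.card B : ℝ) ^ r / (Nat.card B : ℝ) ^ ((1 : ℝ) / MM D)) := by
    ring
  rw [h6] at h5
  have h7 := le_of_mul_le_mul_left h5 hN
  rwa [le_div_iff₀ hNM] at h7

end Pool.Agent.NRM
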