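import Pool.Agent.NRM.StB
import Pool.Agent.RHCB.VDQ

/-!
NRM, block B, module VDQP: the number of the solutions of `P(T) = a` in a finite quotient of the ring
of integers (Vandermonde determinants); port of RHCB/VDQ.lean (helper29).
-/

set_option autoImplicit false

namespace Pool.Agent.NRM

open scoped BigOperators
open Classical NumberField IsDedekindDomain
open Pool.Agent.RHK Pool.Agent.RHC
open Pool.Agent.RHKB (MK)
open Pool.Agent.RHCB (VDQ_pairs VDQ_u VDQ_u_inj VDQ_E VDQ_cardE VDQ_av_sub VDQ_av_prod VDQ_av_nonneg)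

theorem VDQP_pairs (k : ℕ) : ∑ i : Fin (k + 1), (Finset.Ioi i).card = MM k := VDQ_pairs k

/-- the Vandermonde determinant times the leading coefficient lies in the kernel -/
theorem VDQP_ker {A B : Type} [CommRing A] [CommRing B] (φ : A →+* B) (D : ℕ) (hD : 1 ≤ D)
    (P : Polynomial A) (hP : P.natDegree ≤ D) (a : B)
    (w : Fin (D + 1) → A) (hw : ∀ i, (P.map φ).eval (φ (w i)) = a) :
    φ (P.coeff D * (Matrix.vandermonde w).det) = 0 := by
  rw [map_mul, RingHom.map_det]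
  have h1 : φ.mapMatrix (Matrix.vandermonde w) = Matrix.vandermonde (fun i => φ (w i)) := by
    ext i j
    simp [Matrix.vandermonde_apply]
  rw [h1]
  obtain ⟨V, hV⟩ : ∃ V : Matrix (Fin (D + 1)) (Fin (D + 1)) B,
    V = Matrix.vandermonde (fun i => φ (w i)) := ⟨_, rfl⟩
  obtain ⟨R, hR⟩ : ∃ R : Polynomial B, R = P.map φ - Polynomial.C a := ⟨_, rfl⟩
  obtain ⟨x, hx⟩ : ∃ x : Fin (D + 1) → B, ∀ j, x j = R.coeff j := ⟨_, fun _ => rfl⟩
  have hdeg : R.natDegree < D + 1 := by
    rw [hR]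
    have h2 : (P.map φ).natDegree ≤ D := (Polynomial.natDegree_map_le).trans hP
    have h3 : (P.map φ - Polynomial.C a).natDegree ≤ D := by
      refine (Polynomial.natDegree_sub_le _ _).trans ?_
      rw [Polynomial.natDegree_C]
      exact max_le h2 (Nat.zero_le _)
    omega
  have h2 : V.mulVec x = 0 := by
    funext i
    rw [Matrix.mulVec, dotProduct, Pi.zero_apply]
    have h3 : R.eval (φ (w i)) = ∑ j : Fin (D + 1), R.coeff j * φ (w i) ^ (j : ℕ) := by
      rw [Polynomial.eval_eq_sum_range' hdeg]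
      exact (Fin.sum_univ_eq_sum_range (fun j => R.coeff j * φ (w i) ^ j) (D + 1)).symm
    have h4 : R.eval (φ (w i)) = 0 := by
      rw [hR, Polynomial.eval_sub, Polynomial.eval_C, hw i, sub_self]
    rw [h4] at h3
    rw [h3]
    refine Finset.sum_congr rfl fun j _ => ?_
    rw [hx, hV, Matrix.vandermonde_apply, mul_comm]
  have h3 : V.det • x = 0 := by
    have h4 : (V.det • (1 : Matrix (Fin (D + 1)) (Fin (D + 1)) B)).mulVec x = V.det • x := by
      rw [Matrix.smul_mulVec, Matrix.one_mulVec]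
    rw [← h4, ← Matrix.adjugate_mul, ← Matrix.mulVec_mulVec, h2, Matrix.mulVec_zero]
  have h4 := congrFun h3 (Fin.last D)
  rw [Pi.smul_apply, smul_eq_mul, hx, Pi.zero_apply, hR, Polynomial.coeff_sub,
    Polynomial.coeff_map, Fin.val_last, Polynomial.coeff_C, if_neg (by omega), sub_zero] at h4
  rw [← hV, mul_comm]
  exact h4

section

variable {K : Type} [Field K] [NumberField K]

theorem VDQP_bound (alpha : 𝓞 K) : ∃ c0 : ℕ, 1 ≤ c0 ∧ ∀ v : InfinitePlace K, av v alpha ≤ c0 := by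
  refine ⟨⌈∑ v : InfinitePlace K, av v alpha⌉₊ + 1, by omega, fun v => ?_⟩
  have h1 : av v alpha ≤ ∑ v : InfinitePlace K, av v alpha :=
    Finset.single_le_sum (f := fun v => av v alpha) (fun i _ => VDQ_av_nonneg i alpha)
      (Finset.mem_univ v)
  have h2 := Nat.le_ceil (∑ v : InfinitePlace K, av v alpha)
  push_cast
  linarith

/-- at most `D` solutions in a small cube -/
theorem VDQP_few (D : ℕ) (hD : 1 ≤ D) (B : Type) [CommRing B] [Finite B] (φ : 𝓞 K →+* B)
    (hφ : Function.Surjective φ) (P : Polynomial (𝓞 K)) (hP : P.natDegree ≤ D) (c0 : ℕ)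
    (hc1 : 1 ≤ c0) (hc0 : ∀ v : InfinitePlace K, av v (P.coeff D) ≤ c0) (hne0 : P.coeff D ≠ 0)
    (a : B) (n : ℕ)
    (hn : ((c0 * MK K * n : ℕ) : ℝ) ^ (dg K * MM D) < (Nat.card B : ℝ)) (t : B) :
    ((VDQ_E K n).filter fun e => (P.map φ).eval (t + φ (VDQ_u e)) = a).card ≤ D := by
  by_contra hcon
  rw [not_le] at hcon
  obtain ⟨t', rfl⟩ := hφ t
  have h1 : Fintype.card (Fin (D + 1)) ≤
      Fintype.card ((VDQ_E K n).filter fun e => (P.map φ).eval (φ t' + φ (VDQ_u e)) = a) := by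
    rw [Fintype.card_fin, Fintype.card_coe]
    exact hcon
  obtain ⟨g⟩ := Function.Embedding.nonempty_of_card_le h1
  obtain ⟨e, he⟩ : ∃ e : Fin (D + 1) → IX K → ℤ, ∀ i, e i = (g i).1 := ⟨_, fun _ => rfl⟩
  have heE : ∀ i, e i ∈ VDQ_E K n := fun i => by
    rw [he]
    exact (Finset.mem_filter.1 (g i).2).1
  have hea : ∀ i, (P.map φ).eval (φ t' + φ (VDQ_u (e i))) = a := fun i => by
    rw [he]
    exact (Finset.mem_filter.1 (g i).2).2
  have heinj : Function.Injective e := by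
    intro i j hij
    rw [he, he] at hij
    exact g.injective (Subtype.ext hij)
  obtain ⟨w, hw⟩ : ∃ w : Fin (D + 1) → 𝓞 K, ∀ i, w i = t' + VDQ_u (e i) := ⟨_, fun _ => rfl⟩
  have hwinj : Function.Injective w := by
    intro i j hij
    rw [hw, hw] at hij
    exact heinj (VDQ_u_inj (add_left_cancel hij))
  have hker : φ (P.coeff D * (Matrix.vandermonde w).det) = 0 :=
    VDQP_ker φ D hD P hP a w fun i => by rw [hw, map_add]; exact hea i
  have hne : P.coeff D * (Matrix.vandermonde w).det ≠ 0 :=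
    mul_ne_zero hne0 (Matrix.det_vandermonde_ne_zero_iff.2 hwinj)
  have hN : (Ideal.absNorm (RingHom.ker φ) : ℝ) = Nat.card B := by
    rw [Ideal.absNorm_apply, Submodule.cardQuot_apply]
    congr 1
    exact Nat.card_congr (RingHom.quotientKerEquivOfSurjective hφ).toEquiv
  have hr : dg K ≠ 0 := Module.finrank_pos.ne'
  have hB : (0 : ℝ) ≤ Nat.card B := Nat.cast_nonneg _
  obtain ⟨v, hv⟩ := Pool.Agent.RHKB.thm_LAT3 K (RingHom.ker φ) _ (RingHom.mem_ker.2 hker) hne
    ((Nat.card B : ℝ) ^ ((1 : ℝ) / dg K)) (Real.rpow_nonneg hB _) (by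
      rw [hN, one_div, Real.rpow_inv_natCast_pow hB hr])
  have hdet : av v (Matrix.vandermonde w).det ≤ ((MK K * n : ℕ) : ℝ) ^ MM D := by
    rw [Matrix.det_vandermonde, VDQ_av_prod]
    calc ∏ i : Fin (D + 1), av v (∏ j ∈ Finset.Ioi i, (w j - w i))
        ≤ ∏ i : Fin (D + 1), ((MK K * n : ℕ) : ℝ) ^ (Finset.Ioi i).card := by
          refine Finset.prod_le_prod (fun i _ => VDQ_av_nonneg v _) fun i _ => ?_
          rw [VDQ_av_prod, ← Finset.prod_const]
          refine Finset.prod_le_prod (fun j _ => VDQ_av_nonneg v _) fun j _ => ?_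
          rw [hw, hw, add_sub_add_left_eq_sub]
          have := VDQ_av_sub n v (heE j) (heE i)
          push_cast
          exact this
      _ = ((MK K * n : ℕ) : ℝ) ^ MM D := by
          rw [Finset.prod_pow_eq_pow_sum, VDQP_pairs]
  have hM : MM D ≠ 0 := by
    unfold MM
    have h1 : 2 ≤ D * (D + 1) := by nlinarith
    have := Nat.div_le_div_right (c := 2) h1
    omega
  have hmul : av v (P.coeff D * (Matrix.vandermonde w).det) ≤ ((c0 * MK K * n : ℕ) : ℝ) ^ MM D := by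
    have e1 : av v (P.coeff D * (Matrix.vandermonde w).det) =
        av v (P.coeff D) * av v (Matrix.vandermonde w).det := by
      unfold av
      have e0 : ((P.coeff D * (Matrix.vandermonde w).det : 𝓞 K) : K) =
          ((P.coeff D : 𝓞 K) : K) * (((Matrix.vandermonde w).det : 𝓞 K) : K) :=
        map_mul (algebraMap (𝓞 K) K) _ _
      rw [e0, map_mul]
    rw [e1]
    have e2 : ((c0 * MK K * n : ℕ) : ℝ) ^ MM D = (c0 : ℝ) ^ MM D * ((MK K * n : ℕ) : ℝ) ^ MM D := by
      rw [← mul_pow]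
      congr 1
      push_cast
      ring
    rw [e2]
    have hc1R : (1 : ℝ) ≤ c0 := by exact_mod_cast hc1
    have e3 : av v (P.coeff D) ≤ (c0 : ℝ) ^ MM D :=
      (hc0 v).trans (le_self_pow₀ hc1R hM)
    exact mul_le_mul e3 hdet (VDQ_av_nonneg v _) (by positivity)
  have h2 : (Nat.card B : ℝ) ≤ ((c0 * MK K * n : ℕ) : ℝ) ^ (dg K * MM D) := by
    calc (Nat.card B : ℝ) = ((Nat.card B : ℝ) ^ ((1 : ℝ) / dg K)) ^ dg K := by
          rw [one_div, Real.rpow_inv_natCast_pow hB hr]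
      _ ≤ (((c0 * MK K * n : ℕ) : ℝ) ^ MM D) ^ dg K :=
          pow_le_pow_left₀ (Real.rpow_nonneg hB _) (hv.trans hmul) _
      _ = _ := by rw [← pow_mul, mul_comm (MM D)]
  exact absurd hn (not_lt.2 h2)

/-- the count with a cube -/
theorem VDQP_count (D : ℕ) (hD : 1 ≤ D) (B : Type) [CommRing B] [Finite B] (φ : 𝓞 K →+* B)
    (hφ : Function.Surjective φ) (P : Polynomial (𝓞 K)) (hP : P.natDegree ≤ D) (c0 : ℕ)
    (hc1 : 1 ≤ c0) (hc0 : ∀ v : InfinitePlace K, av v (P.coeff D) ≤ c0) (hne0 : P.coeff D ≠ 0)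
    (a : B) (n : ℕ)
    (hn : ((c0 * MK K * n : ℕ) : ℝ) ^ (dg K * MM D) < (Nat.card B : ℝ)) :
    n ^ dg K * Nat.card {T : B // (P.map φ).eval T = a} ≤ D * Nat.card B := by
  have : Fintype B := Fintype.ofFinite B
  have h1 : ∑ t : B, ((VDQ_E K n).filter fun e => (P.map φ).eval (t + φ (VDQ_u e)) = a).card ≤
      D * Nat.card B := by
    refine (Finset.sum_le_sum fun t _ =>
      VDQP_few D hD B φ hφ P hP c0 hc1 hc0 hne0 a n hn t).trans ?_
    rw [Finset.sum_const, Finset.card_univ, smul_eq_mul, Nat.card_eq_fintype_card, mul_comm]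
  have h2 : ∑ t : B, ((VDQ_E K n).filter fun e => (P.map φ).eval (t + φ (VDQ_u e)) = a).card =
      ∑ e ∈ VDQ_E K n,
        ((Finset.univ : Finset B).filter fun t => (P.map φ).eval (t + φ (VDQ_u e)) = a).card := by
    simp only [Finset.card_filter]
    rw [Finset.sum_comm]
  have h3 : ∀ e ∈ VDQ_E K n,
      ((Finset.univ : Finset B).filter fun t => (P.map φ).eval (t + φ (VDQ_u e)) = a).card =
        Nat.card {T : B // (P.map φ).eval T = a} := by
    intro e _
    rw [Nat.card_eq_fintype_card, Fintype.card_subtype]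
    refine Finset.card_bij (fun t _ => t + φ (VDQ_u e)) (fun t ht => ?_) (fun t _ t' _ h => ?_)
      (fun ω hω => ⟨ω - φ (VDQ_u e), ?_, ?_⟩)
    · rw [Finset.mem_filter] at ht ⊢
      exact ⟨Finset.mem_univ _, ht.2⟩
    · exact add_right_cancel h
    · rw [Finset.mem_filter] at hω ⊢
      refine ⟨Finset.mem_univ _, ?_⟩
      rw [sub_add_cancel]
      exact hω.2
    · rw [sub_add_cancel]
  rw [h2, Finset.sum_congr rfl h3, Finset.sum_const, VDQ_cardE, smul_eq_mul] at h1
  exact h1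

end

theorem thm_VDQP : St_VDQP := by
  intro K _ _ D hD alpha halpha
  obtain ⟨c0, hc1, hc0⟩ := VDQP_bound alpha
  obtain ⟨c, hc⟩ : ∃ c : ℕ, c = c0 * MK K := ⟨_, rfl⟩
  have hcN : 1 ≤ c := by
    rw [hc]
    refine Nat.one_le_iff_ne_zero.2 (Nat.mul_ne_zero (by omega) ?_)
    unfold MK
    omega
  have hMK : (1 : ℝ) ≤ c := by exact_mod_cast hcN
  have hk1 : (1 : ℝ) ≤ D := by
    have : 1 ≤ D := by omega
    exact_mod_cast this
  refine ⟨D * (2 * c) ^ dg K, by positivity, ?_⟩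
  intro B _ _ φ hφ P hP hlead a
  have hr : dg K ≠ 0 := Module.finrank_pos.ne'
  have hM : MM D ≠ 0 := by
    unfold MM
    have h1 : 2 ≤ D * (D + 1) := by nlinarith
    have := Nat.div_le_div_right (c := 2) h1
    omega
  have hrM : dg K * MM D ≠ 0 := Nat.mul_ne_zero hr hM
  have : Nonempty B := ⟨0⟩
  have hBpos : 0 < Nat.card B := Nat.card_pos
  have hB : (0 : ℝ) < Nat.card B := by exact_mod_cast hBpos
  obtain ⟨x, hx⟩ : ∃ x : ℝ, x = (Nat.card B : ℝ) ^ ((1 : ℝ) / (dg K * MM D : ℕ)) / c := ⟨_, rfl⟩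
  have hx0 : 0 < x := by
    rw [hx]
    positivity
  have hMx : c * x = (Nat.card B : ℝ) ^ ((1 : ℝ) / (dg K * MM D : ℕ)) := by
    rw [hx]
    field_simp
  have hpow : (c * x) ^ (dg K * MM D) = Nat.card B := by
    rw [hMx, one_div, Real.rpow_inv_natCast_pow hB.le hrM]
  have hpowr : (c * x) ^ dg K = (Nat.card B : ℝ) ^ ((1 : ℝ) / MM D) := by
    rw [hMx, ← Real.rpow_natCast, ← Real.rpow_mul hB.le]
    congr 1
    have h1 : (dg K : ℝ) ≠ 0 := by exact_mod_cast hr
    have h2 : (MM D : ℝ) ≠ 0 := by exact_mod_cast hM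
    push_cast
    field_simp
  rw [← hpowr]
  have hS : (Nat.card {T : B // (P.map φ).eval T = a} : ℝ) ≤ Nat.card B := by
    exact_mod_cast Nat.card_le_card_of_injective _ Subtype.val_injective
  obtain ⟨n, hn⟩ : ∃ n : ℕ, n = ⌈x⌉₊ - 1 := ⟨_, rfl⟩
  have hceil : 0 < ⌈x⌉₊ := Nat.ceil_pos.2 hx0
  have hn1 : ⌈x⌉₊ = n + 1 := by omega
  have hxle : x ≤ n + 1 := by
    have := Nat.le_ceil x
    rw [hn1] at this
    exact_mod_cast this
  have hlt : (n : ℝ) < x := by
    have h1 : n < ⌈x⌉₊ := by omega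
    exact Nat.lt_ceil.1 h1
  rcases Nat.eq_zero_or_pos n with h0 | hpos
  · rw [h0, Nat.cast_zero, zero_add] at hxle
    have h1 : (c * x) ^ dg K ≤ (2 * c : ℝ) ^ dg K :=
      pow_le_pow_left₀ (by positivity) (by nlinarith) _
    calc (Nat.card {T : B // (P.map φ).eval T = a} : ℝ) * (c * x) ^ dg K
        ≤ (Nat.card B : ℝ) * (2 * c) ^ dg K :=
          mul_le_mul hS h1 (by positivity) hB.le
      _ = 1 * (2 * c) ^ dg K * (Nat.card B : ℝ) := by ring
      _ ≤ D * (2 * c) ^ dg K * (Nat.card B : ℝ) := by gcongr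
  · have hn0 : (1 : ℝ) ≤ n := by exact_mod_cast hpos
    have hcond : ((c0 * MK K * n : ℕ) : ℝ) ^ (dg K * MM D) < (Nat.card B : ℝ) := by
      rw [← hpow]
      refine pow_lt_pow_left₀ ?_ (by positivity) hrM
      rw [← hc]
      push_cast
      exact mul_lt_mul_of_pos_left hlt (by linarith)
    have h1 := VDQP_count D (by omega) B φ hφ P hP c0 hc1 (by rw [hlead]; exact hc0)
      (by rw [hlead]; exact halpha) a n hcond
    have h2 : (n : ℝ) ^ dg K * (Nat.card {T : B // (P.map φ).eval T = a} : ℝ) ≤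
        D * Nat.card B := by
      exact_mod_cast h1
    have h3 : (c * x) ^ dg K ≤ (2 * c : ℝ) ^ dg K * (n : ℝ) ^ dg K := by
      rw [← mul_pow]
      refine pow_le_pow_left₀ (by positivity) ?_ _
      nlinarith
    calc (Nat.card {T : B // (P.map φ).eval T = a} : ℝ) * (c * x) ^ dg K
        ≤ (Nat.card {T : B // (P.map φ).eval T = a} : ℝ) *
          ((2 * c) ^ dg K * (n : ℝ) ^ dg K) := by gcongr
      _ = (2 * c) ^ dg K *
          ((n : ℝ) ^ dg K * (Nat.card {T : B // (P.map φ).eval T = a} : ℝ)) := by ring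
      _ ≤ (2 * c) ^ dg K * (D * Nat.card B) := by gcongr
      _ = D * (2 * c) ^ dg K * (Nat.card B : ℝ) := by ring

end Pool.Agent.NRM
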