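import Pool.Agent.RHC.BlockA
import Pool.Agent.RHCB.AsmC
import Pool.Agent.RHCW.SZC
import Pool.Agent.NRM.Poly
import Pool.Agent.NRM.CBN
import Pool.Agent.NRM.CENN
import Pool.Agent.NRM.CNTN
import Pool.Agent.NRM.CONE
import Pool.Agent.NRM.CPARN
import Pool.Agent.NRM.CSUMN
import Pool.Agent.NRM.CTYPN
import Pool.Agent.NRM.DETN
import Pool.Agent.NRM.DIV
import Pool.Agent.NRM.FAMG
import Pool.Agent.NRM.FINN
import Pool.Agent.NRM.FPL
import Pool.Agent.NRM.GZ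
import Pool.Agent.NRM.HPN
import Pool.Agent.NRM.IFTN
import Pool.Agent.NRM.IPL
import Pool.Agent.NRM.LLSN
import Pool.Agent.NRM.LNP
import Pool.Agent.NRM.LPN
import Pool.Agent.NRM.NLOWN
import Pool.Agent.NRM.NOKA
import Pool.Agent.NRM.NOKB
import Pool.Agent.NRM.NPRN
import Pool.Agent.NRM.NZ0N
import Pool.Agent.NRM.PAREX
import Pool.Agent.NRM.PCNN
import Pool.Agent.NRM.POSN
import Pool.Agent.NRM.RCN
import Pool.Agent.NRM.RPB
import Pool.Agent.NRM.SIGLOWN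
import Pool.Agent.NRM.SIGN
import Pool.Agent.NRM.SIGPOSN
import Pool.Agent.NRM.SMLN
import Pool.Agent.NRM.TOPN
import Pool.Agent.NRM.UIFTN
import Pool.Agent.NRM.UNB
import Pool.Agent.NRM.VDG
import Pool.Agent.NRM.VDQN
import Pool.Agent.NRM.VDQP
import Pool.Agent.NRM.VG

/-!
NRM: assembly (helper95).
-/

set_option autoImplicit false

namespace Pool.Agent.NRM

open scoped BigOperators
open Classical NumberField IsDedekindDomain
open Pool.Agent.RHP (Mon)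
open Pool.Agent.RHK Pool.Agent.RHC
open Pool.Agent.RHCB (InC)
open Pool.Agent.RHKB (jj)

theorem block_VDG : St_VDG := thm_VDG thm_CELL thm_DVN
theorem block_VG : St_VG := thm_VG thm_LNP block_VDG
theorem block_GZ : St_GZ := thm_GZ block_VG
theorem block_NOKA : St_NOKA := thm_NOKA block_GZ RHM.block_PBC
theorem block_RPB : St_RPB := thm_RPB thm_DIV thm_UNB
theorem block_NOKB : St_NOKB := thm_NOKB block_RPB RHM.block_PBC
theorem block_FAMG : St_FAMG := thm_FAMG block_VG RHM.block_PBC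
theorem block_CBN : St_CBN := thm_CBN block_CWR block_COV1 block_COV2 block_T1 block_T2
theorem block_CTYPN : St_CTYPN := thm_CTYPN block_CTR block_CBN thm_PHI thm_DLT
theorem block_CSUMN : St_CSUMN := thm_CSUMN block_CPS RHM.block_PBC
theorem block_CPARN : St_CPARN := thm_CPARN block_CBN thm_PHI thm_DLT thm_TSC thm_PAR RHM.block_PBC

/-- parameters exist -/
theorem parN_of (hC : St_CSMN) (K : Type) [Field K] [NumberField K] (s r D m : ℕ)
    (hyp : NHyp s D m) (g : Mon r D → 𝓞 K) (hg : g ≠ 0) (hN : NOK g s m) : ParN s m g := by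
  obtain ⟨kap, hk0, hD, hk⟩ := hN
  obtain ⟨c1, h1⟩ := thm_PAREX s D m kap hyp hk0 hk
  obtain ⟨c0, h0⟩ := hC K s D m r hyp
  obtain ⟨v, hv1, hv2, hv3⟩ := h1 (max (max c0 c1) 1) ((le_max_right _ _).trans (le_max_left _ _))
  refine ⟨max (max c0 c1) 1, v, le_max_right _ _, hv1,
    h0 _ ((le_max_left _ _).trans (le_max_left _ _)) v hv2, fun A b hA hb => ?_⟩
  exact block_FAMG K s r D m hyp g hg kap hk0 hD _ v hv3 A b hA hb

/-- block B -/
theorem blockN (hWAB : St_WABN) (hCRT : St_CRTN) : St_FINN ∧ St_TOPN ∧ St_POSN := by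
  have hHSUM := RHKB.thm_HSUM RHKB.thm_PRS
  have hCUP := RHKB.thm_CUP RHKB.thm_LAT2 RHKB.thm_LAT3
  have hNPRB := RHKB.thm_NPRB hCUP RHKB.thm_LAT3 RHKB.thm_PRS RHKB.thm_PLW
  have hCLOW := RHKB.thm_CLOW RHKB.thm_LAT1
  have hIDT := RHCB.thm_IDT RHK.thm_IDC
  have hHMQ := RHCB.thm_HMQ hIDT
  have hPAIR := RHCB.thm_PAIRC RHKB.thm_PAIR
  have hVDQ := thm_VDQN thm_LNP thm_VDQP
  have hSIG := thm_SIGN RHKB.thm_UNI hPAIR RHKB.thm_CNTH RHKB.thm_PRM hVDQ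
  have hUIFT := thm_UIFTN thm_IFTN
  have hPCN := thm_PCNN RHKB.thm_PLV
  have hNPR := thm_NPRN hNPRB hCUP
  have hCEN := thm_CENN RHKB.thm_SEP
  have hSML := thm_SMLN RHKB.thm_LIPK RHKB.thm_LAT2 RHKB.thm_PLW
  have hRC := thm_RCN hCEN hSML hCLOW hNPR RHKB.thm_PLW
  have hBADG := RHKB.thm_BADG RHKB.thm_TRIG RHKB.thm_LIPK
  have hBADVW := RHKB.thm_BADVW hBADG (RHKB.thm_NETV RHKB.thm_PLV)
    (RHKB.thm_DISCV RHKB.thm_PLV RHKB.thm_EQU)
    (RHKB.thm_NETW RHKB.thm_PLW) (RHKB.thm_DISCW RHKB.thm_PLW) RHKB.thm_PLV RHKB.thm_PLW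
  have hBAD := RHCB.thm_BADC hBADVW
  have hEQU := RHCB.thm_EQUC RHKB.thm_EQU
  have hSIGLOW := thm_SIGLOWN hSIG hHSUM hHMQ hWAB hBAD hUIFT hPCN hEQU RHKB.thm_PLV
  have hNG := RHCB.thm_NGCC RHK.block_NG
  have hNLOW := thm_NLOWN hNG hCUP block_GZ
  have hDET := thm_DETN hRC hNLOW
  have hLLS := thm_LLSN hSIGLOW hBAD hUIFT RHKB.thm_PLW hDET
  have hNZ0 := thm_NZ0N thm_IFTN
  have hSIGPOS := thm_SIGPOSN hSIG hHSUM hHMQ hWAB hCRT hNZ0 hPCN (RHCB.thm_EQLC RHKB.thm_EQL)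
    RHKB.thm_PLV
  have hLP := thm_LPN hSIGPOS hNZ0 RHKB.thm_PLW hDET
  exact ⟨thm_FINN hLLS, thm_TOPN (thm_FPL thm_CONE RHKB.thm_PLV) (thm_IPL RHKB.thm_PLW)
    (RHCW.thm_SZC hBAD), thm_POSN hLP⟩

/-- the coefficient vector of a form which is not zero -/
theorem gcv_ne {K : Type} [Field K] {r D : ℕ} (g : MvPolynomial (Fin r) (𝓞 K))
    (hg : g.IsHomogeneous D) (hg0 : g ≠ 0) : gcv D g ≠ 0 := by
  intro h
  apply hg0
  have h1 : Pool.Agent.RHP.TR_poly (gcv D g) = g := Pool.Agent.RHP.TR_surj g hg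
  rw [← h1, h]
  unfold Pool.Agent.RHP.TR_poly
  refine Finset.sum_eq_zero fun μ _ => ?_
  rw [Pi.zero_apply, map_zero]

theorem gcv_dec {K : Type} [Field K] {r D : ℕ} (g : MvPolynomial (Fin r) (𝓞 K))
    (hg : g.IsHomogeneous D) (h : DecP D g) : Decomp (gcv D g) := by
  obtain ⟨l, h1, h2⟩ := h
  refine ⟨l, fun w => ?_, h2⟩
  rw [← h1 w, Poly_valg g hg]
  congr 1
  funext μ
  change _ = 1 * _
  rw [one_mul]

/-- the theorem for polynomials, from the remaining statements -/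
theorem main_of (hC : St_CSMN) (hWAB : St_WABN) (hCRT : St_CRTN) (K : Type) [Field K]
    [NumberField K] (n r D m : ℕ) (hn : 2 ≤ n) (hD : 2 ≤ D) (hm : 1 ≤ m)
    (g : MvPolynomial (Fin r) (𝓞 K)) (hg : g.IsHomogeneous D) (hg0 : g ≠ 0)
    (hF : m * (D - 1) ≤ n ∨ (DecP D g ∧ m * D ≤ n + m * r)) :
    (∃ c : ℝ, 0 < c ∧ ∀ᶠ H : ℕ in Filter.atTop,
      c * (({f | InC (D * m) H f} : Set (MvPolynomial (Fin (n + 1)) (𝓞 K))).ncard : ℝ) ≤
      (({f | InC (D * m) H f ∧ (SmoP g f ∧ LocP g f)} :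
        Set (MvPolynomial (Fin (n + 1)) (𝓞 K))).ncard : ℝ)) ∧
    ∀ (S : Finset (HeightOneSpectrum (𝓞 K))) (η : ℝ), 0 < η → Filter.Tendsto (fun H : ℕ =>
      (({f | InC (D * m) H f ∧ (SmoP g f ∧ HasPtP g f K ∧ AppP D m S η g f)} :
        Set (MvPolynomial (Fin (n + 1)) (𝓞 K))).ncard : ℝ) /
      (({f | InC (D * m) H f ∧ (SmoP g f ∧ LocP g f)} :
        Set (MvPolynomial (Fin (n + 1)) (𝓞 K))).ncard : ℝ)) Filter.atTop (nhds 1) := by
  have hyp : NHyp (n + 1) D m := ⟨by omega, hD, hm⟩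
  have hg1 := gcv_ne g hg hg0
  have hNOK : NOK (gcv D g) (n + 1) m := by
    rcases hF with hF | ⟨hdec, hF⟩
    · exact block_NOKA K (n + 1) r D m hyp (by omega) _ hg1
    · exact block_NOKB K (n + 1) r D m hyp (by omega) _ hg1 (gcv_dec g hg hdec)
  have hPar := parN_of hC K (n + 1) r D m hyp _ hg1 hNOK
  obtain ⟨hFIN, hTOP, hPOS⟩ := blockN hWAB hCRT
  have hfin := hFIN K (n + 1) r D m hyp _ hg1 hPar
  exact finN_poly K n r D m hD hm g hg (hPOS K (n + 1) r D m hyp _ hg1 hPar)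
    (hTOP K (n + 1) r D m hyp _ hfin) (thm_HPN thm_CONE K (n + 1) r D m hyp _)

end Pool.Agent.NRM
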