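import Pool.Agent.NRM.StB

/-!
NRM, module CRTN: counting points of `b f(x) = g(w)` modulo a product of coprime ideals, with a
congruence modulo `q` (helper39; port of RHCW/CRTCW.lean by helper66).
-/

set_option autoImplicit false

namespace Pool.Agent.NRM

open scoped BigOperators
open Classical NumberField IsDedekindDomain
open Pool.Agent.RHP (Mon mono ev Sys Prim pd WB WW)
open Pool.Agent.RHK Pool.Agent.RHC
open Pool.Agent.RHKB (mI hh jj qv MK uu BadK)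
open Pool.Agent.RHCB (BadC cred cemb uk PrC hM)
open Pool.Agent.RHCW (cmk)

theorem CRTN_cnt {K : Type} [Field K] [NumberField K] {s r D d : ℕ} (b q : ℕ)
    (g : Mon r D → 𝓞 K) (ρ₀ : Fin s → 𝓞 K) (ω₀ : Fin r → 𝓞 K) (f : Mon s d → 𝓞 K)
    {I J : Ideal (𝓞 K)} (h : IsCoprime I J) :
    wcntN b q (cred (I * J) g) (cmk (I * J) ρ₀) (cmk (I * J) ω₀) (cred (I * J) f) =
      wcntN b q (cred I g) (cmk I ρ₀) (cmk I ω₀) (cred I f) *
        wcntN b q (cred J g) (cmk J ρ₀) (cmk J ω₀) (cred J f) := by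
  let e : 𝓞 K ⧸ I * J ≃+* (𝓞 K ⧸ I) × (𝓞 K ⧸ J) := Ideal.quotientMulEquivQuotientProd I J h
  let φ : 𝓞 K ⧸ I * J →+* 𝓞 K ⧸ I := (RingHom.fst _ _).comp e.toRingHom
  let ψ : 𝓞 K ⧸ I * J →+* 𝓞 K ⧸ J := (RingHom.snd _ _).comp e.toRingHom
  have hφ : ∀ x, φ x = (e x).1 := fun _ => rfl
  have hψ : ∀ x, ψ x = (e x).2 := fun _ => rfl
  have h1 : ∀ (ρ : Fin s → 𝓞 K ⧸ I * J),
      ev (cred I f) (fun l => φ (ρ l)) = φ (ev (cred (I * J) f) ρ) := by
    intro ρ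
    rw [← Pool.Agent.RHP.ev_map]
    rfl
  have h2 : ∀ (ρ : Fin s → 𝓞 K ⧸ I * J),
      ev (cred J f) (fun l => ψ (ρ l)) = ψ (ev (cred (I * J) f) ρ) := by
    intro ρ
    rw [← Pool.Agent.RHP.ev_map]
    rfl
  have g1 : ∀ (ω : Fin r → 𝓞 K ⧸ I * J),
      ev (cred I g) (fun l => φ (ω l)) = φ (ev (cred (I * J) g) ω) := by
    intro ω
    rw [← Pool.Agent.RHP.ev_map]
    rfl
  have g2 : ∀ (ω : Fin r → 𝓞 K ⧸ I * J),
      ev (cred J g) (fun l => ψ (ω l)) = ψ (ev (cred (I * J) g) ω) := by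
    intro ω
    rw [← Pool.Agent.RHP.ev_map]
    rfl
  have hpφ : ∀ l, φ (cmk (I * J) ρ₀ l) = cmk I ρ₀ l := fun _ => rfl
  have hpψ : ∀ l, ψ (cmk (I * J) ρ₀ l) = cmk J ρ₀ l := fun _ => rfl
  have hoφ : ∀ l, φ (cmk (I * J) ω₀ l) = cmk I ω₀ l := fun _ => rfl
  have hoψ : ∀ l, ψ (cmk (I * J) ω₀ l) = cmk J ω₀ l := fun _ => rfl
  have h3 : ∀ p : (Fin s → 𝓞 K ⧸ I * J) × (Fin r → 𝓞 K ⧸ I * J),
      (Prim p.1 ∧ ((∀ l, (q : 𝓞 K ⧸ I * J) ∣ p.1 l - cmk (I * J) ρ₀ l) ∧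
        ∀ j, (q : 𝓞 K ⧸ I * J) ∣ p.2 j - cmk (I * J) ω₀ j) ∧
        (b : 𝓞 K ⧸ I * J) * ev (cred (I * J) f) p.1 = ev (cred (I * J) g) p.2) ↔
      (Prim (fun l => φ (p.1 l)) ∧ ((∀ l, (q : 𝓞 K ⧸ I) ∣ φ (p.1 l) - cmk I ρ₀ l) ∧
        ∀ j, (q : 𝓞 K ⧸ I) ∣ φ (p.2 j) - cmk I ω₀ j) ∧
        (b : 𝓞 K ⧸ I) * ev (cred I f) (fun l => φ (p.1 l)) =
          ev (cred I g) (fun l => φ (p.2 l))) ∧
        (Prim (fun l => ψ (p.1 l)) ∧ ((∀ l, (q : 𝓞 K ⧸ J) ∣ ψ (p.1 l) - cmk J ρ₀ l) ∧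
          ∀ j, (q : 𝓞 K ⧸ J) ∣ ψ (p.2 j) - cmk J ω₀ j) ∧
          (b : 𝓞 K ⧸ J) * ev (cred J f) (fun l => ψ (p.1 l)) =
            ev (cred J g) (fun l => ψ (p.2 l))) := by
    rintro ⟨ρ, ω⟩
    constructor
    · rintro ⟨hp, ⟨hq, hqw⟩, hz⟩
      have hz' : (b : 𝓞 K ⧸ I * J) * ev (cred (I * J) f) ρ = ev (cred (I * J) g) ω := hz
      refine ⟨⟨Pool.Agent.RHP.Prim.map φ hp, ⟨fun l => ?_, fun l => ?_⟩, ?_⟩,
        ⟨Pool.Agent.RHP.Prim.map ψ hp, ⟨fun l => ?_, fun l => ?_⟩, ?_⟩⟩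
      · have h4 := map_dvd φ (hq l)
        rw [map_natCast, map_sub, hpφ] at h4
        exact h4
      · have h4 := map_dvd φ (hqw l)
        rw [map_natCast, map_sub, hoφ] at h4
        exact h4
      · show (b : 𝓞 K ⧸ I) * ev (cred I f) (fun l => φ (ρ l)) = ev (cred I g) (fun l => φ (ω l))
        rw [h1, g1, ← hz', map_mul, map_natCast]
      · have h4 := map_dvd ψ (hq l)
        rw [map_natCast, map_sub, hpψ] at h4
        exact h4
      · have h4 := map_dvd ψ (hqw l)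
        rw [map_natCast, map_sub, hoψ] at h4
        exact h4
      · show (b : 𝓞 K ⧸ J) * ev (cred J f) (fun l => ψ (ρ l)) = ev (cred J g) (fun l => ψ (ω l))
        rw [h2, g2, ← hz', map_mul, map_natCast]
    · rintro ⟨⟨⟨c, hc⟩, ⟨hq, hqw⟩, hz⟩, ⟨⟨c', hc'⟩, ⟨hq', hqw'⟩, hz'⟩⟩
      refine ⟨⟨fun l => e.symm (c l, c' l), ?_⟩, ⟨fun l => ?_, fun l => ?_⟩, ?_⟩
      · apply e.injective
        apply Prod.ext
        · rw [← hφ, map_sum, map_one, Prod.fst_one, ← hc]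
          refine Finset.sum_congr rfl fun l _ => ?_
          rw [map_mul, hφ (e.symm _), e.apply_symm_apply]
        · rw [← hψ, map_sum, map_one, Prod.snd_one, ← hc']
          refine Finset.sum_congr rfl fun l _ => ?_
          rw [map_mul, hψ (e.symm _), e.apply_symm_apply]
      · obtain ⟨a, ha⟩ := hq l
        obtain ⟨a', ha'⟩ := hq' l
        refine ⟨e.symm (a, a'), ?_⟩
        apply e.injective
        apply Prod.ext
        · rw [← hφ, ← hφ, map_sub, hpφ, ha, map_mul, map_natCast, hφ (e.symm _),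
            e.apply_symm_apply]
        · rw [← hψ, ← hψ, map_sub, hpψ, ha', map_mul, map_natCast, hψ (e.symm _),
            e.apply_symm_apply]
      · obtain ⟨a, ha⟩ := hqw l
        obtain ⟨a', ha'⟩ := hqw' l
        refine ⟨e.symm (a, a'), ?_⟩
        apply e.injective
        apply Prod.ext
        · rw [← hφ, ← hφ, map_sub, hoφ, ha, map_mul, map_natCast, hφ (e.symm _),
            e.apply_symm_apply]
        · rw [← hψ, ← hψ, map_sub, hoψ, ha', map_mul, map_natCast, hψ (e.symm _),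
            e.apply_symm_apply]
      · show (b : 𝓞 K ⧸ I * J) * ev (cred (I * J) f) ρ = ev (cred (I * J) g) ω
        apply e.injective
        apply Prod.ext
        · rw [← hφ, ← hφ, ← g1, map_mul, map_natCast, ← h1]
          exact hz
        · rw [← hψ, ← hψ, ← g2, map_mul, map_natCast, ← h2]
          exact hz'
  unfold wcntN
  rw [← Nat.card_prod]
  refine Nat.card_congr
    { toFun := fun x => (⟨(fun l => φ (x.1.1 l), fun l => φ (x.1.2 l)), ((h3 x.1).1 x.2).1⟩,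
        ⟨(fun l => ψ (x.1.1 l), fun l => ψ (x.1.2 l)), ((h3 x.1).1 x.2).2⟩)
      invFun := fun y => ⟨(fun l => e.symm (y.1.1.1 l, y.2.1.1 l),
        fun l => e.symm (y.1.1.2 l, y.2.1.2 l)), (h3 _).2 ?_⟩
      left_inv := ?_
      right_inv := ?_ }
  · have e1 : (fun l => φ (e.symm (y.1.1.1 l, y.2.1.1 l))) = y.1.1.1 := by
      funext l
      rw [hφ, e.apply_symm_apply]
    have e2 : (fun l => ψ (e.symm (y.1.1.1 l, y.2.1.1 l))) = y.2.1.1 := by
      funext l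
      rw [hψ, e.apply_symm_apply]
    have e3 : (fun l => φ (e.symm (y.1.1.2 l, y.2.1.2 l))) = y.1.1.2 := by
      funext l
      rw [hφ, e.apply_symm_apply]
    have e4 : (fun l => ψ (e.symm (y.1.1.2 l, y.2.1.2 l))) = y.2.1.2 := by
      funext l
      rw [hψ, e.apply_symm_apply]
    have e5 : ∀ l, φ (e.symm (y.1.1.1 l, y.2.1.1 l)) = y.1.1.1 l := fun l => congrFun e1 l
    have e6 : ∀ l, ψ (e.symm (y.1.1.1 l, y.2.1.1 l)) = y.2.1.1 l := fun l => congrFun e2 l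
    have e7 : ∀ l, φ (e.symm (y.1.1.2 l, y.2.1.2 l)) = y.1.1.2 l := fun l => congrFun e3 l
    have e8 : ∀ l, ψ (e.symm (y.1.1.2 l, y.2.1.2 l)) = y.2.1.2 l := fun l => congrFun e4 l
    refine ⟨⟨?_, ⟨fun l => ?_, fun l => ?_⟩, ?_⟩, ?_, ⟨fun l => ?_, fun l => ?_⟩, ?_⟩
    · rw [e1]
      exact y.1.2.1
    · rw [e5]
      exact y.1.2.2.1.1 l
    · rw [e7]
      exact y.1.2.2.1.2 l
    · rw [e1, e3]
      exact y.1.2.2.2
    · rw [e2]
      exact y.2.2.1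
    · rw [e6]
      exact y.2.2.2.1.1 l
    · rw [e8]
      exact y.2.2.2.1.2 l
    · rw [e2, e4]
      exact y.2.2.2.2
  · intro x
    apply Subtype.ext
    apply Prod.ext
    · funext l
      exact e.symm_apply_apply (x.1.1 l)
    · funext l
      exact e.symm_apply_apply (x.1.2 l)
  · intro y
    apply Prod.ext
    · apply Subtype.ext
      apply Prod.ext
      · funext l
        show φ (e.symm (y.1.1.1 l, y.2.1.1 l)) = y.1.1.1 l
        rw [hφ, e.apply_symm_apply]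
      · funext l
        show φ (e.symm (y.1.1.2 l, y.2.1.2 l)) = y.1.1.2 l
        rw [hφ, e.apply_symm_apply]
    · apply Subtype.ext
      apply Prod.ext
      · funext l
        show ψ (e.symm (y.1.1.1 l, y.2.1.1 l)) = y.2.1.1 l
        rw [hψ, e.apply_symm_apply]
      · funext l
        show ψ (e.symm (y.1.1.2 l, y.2.1.2 l)) = y.2.1.2 l
        rw [hψ, e.apply_symm_apply]

theorem thm_CRTN : St_CRTN := by
  intro K _ _ I J _ _ h s r D d b q g ρ₀ ω₀ f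
  unfold wsigN
  rw [CRTN_cnt b q g ρ₀ ω₀ f h, Nat.card_congr (Ideal.quotientMulEquivQuotientProd I J h).toEquiv,
    Nat.card_prod]
  push_cast
  rw [mul_pow, div_mul_div_comm]
  congr 1
  ring

end Pool.Agent.NRM
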