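import Pool.Agent.NRM.StA
import Pool.Agent.RHC.CSM

/-!
NRM [CSMN]: the second moment for families (port of RHCW/CSMW.lean and RHC/CSM.lean).
-/

set_option autoImplicit false

namespace Pool.Agent.NRM

open scoped BigOperators
open Classical NumberField IsDedekindDomain
open Pool.Agent.RHP (Mon mono ev Prim)
open Pool.Agent.RHK Pool.Agent.RHC

/-- the constant of a family can be enlarged -/
theorem CSMN_fam {K : Type} [Field K] [NumberField K] {Q : Type} {s D m r c t V H : ℕ}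
    {B : Finset Q} {a : Q → 𝓞 K} {C C' : ℝ} (hC : C ≤ C') (h : FAM s D m r c t V H B a C) :
    FAM s D m r c t V H B a C' := by
  refine ⟨h.card.trans ?_, fun I hI lam => (h.van I hI lam).trans ?_, h.diag.trans ?_⟩
  · exact mul_le_mul_of_nonneg_right hC (by positivity)
  · refine mul_le_mul_of_nonneg_right (mul_le_mul_of_nonneg_right hC (by positivity)) ?_
    exact add_nonneg (CSM_rp_nonneg _ _) (by positivity)
  · exact mul_le_mul_of_nonneg_right (mul_le_mul_of_nonneg_right hC (by positivity))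
      (by positivity)

theorem thm_CSMN (h1 : RHC.St_ABSC) (h2 : St_CTYPN) (h3 : St_CNTN) (h4 : St_CPARN)
    (h5 : St_CSUMN) (h6 : RHC.St_PHI) (h7 : RHC.St_TSC) (h8 : RHM.St_PBC) : St_CSMN := by
  intro K _ _ s D m r hyp
  obtain ⟨c0, h5'⟩ := h5 K s D m hyp
  obtain ⟨C2, hC2, h2'⟩ := h2 K s D m hyp
  obtain ⟨C3, hC3, h3'⟩ := h3 K s D m hyp
  obtain ⟨C4, hC4, h4'⟩ := h4 K s D m hyp
  obtain ⟨C7, hC7, h8a⟩ := h8 K s
  refine ⟨c0, fun c hc v par => ?_⟩
  obtain ⟨C5, hC5, t5, h5t⟩ := h5' c hc v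
  intro C00 ε hC00 hε
  obtain ⟨C0, hC0def⟩ : ∃ C0 : ℝ, C0 = max C00 1 := ⟨_, rfl⟩
  have hC01 : 1 ≤ C0 := by rw [hC0def]; exact le_max_right _ _
  have hC0le : C00 ≤ C0 := by rw [hC0def]; exact le_max_left _ _
  have hC0 : 0 < C0 := by linarith
  have hM : 1 ≤ MM D := by
    have := hyp.hD
    unfold MM
    rw [Nat.le_div_iff_mul_le (by norm_num)]
    nlinarith
  obtain ⟨m1, hm1, hm1'⟩ := CSM_rp (MM D) hM (C3 * C0 * C5) (ε / 8) (by positivity)
  obtain ⟨D2, hD2⟩ : ∃ D2 : ℝ, D2 = C7 ^ 2 * C0 ^ 2 * C2 * (m1 : ℝ) ^ (dg K + 1) := ⟨_, rfl⟩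
  have hD20 : 0 ≤ D2 := by rw [hD2]; positivity
  obtain ⟨k', hk'⟩ := exists_nat_ge (max 1 (D2 * 8 / ε))
  have hk1R : (1 : ℝ) ≤ k' := (le_max_left _ _).trans hk'
  have hk1 : 1 ≤ k' := by exact_mod_cast hk1R
  have hk2 : D2 / k' ≤ ε / 8 := by
    have e1 : D2 * 8 / ε ≤ k' := (le_max_right _ _).trans hk'
    rw [div_le_iff₀ hε] at e1
    rw [div_le_iff₀ (by linarith)]
    linarith
  obtain ⟨κ, hκ, h2W⟩ := h2' c v k' m1 par hk1 hm1
  refine ⟨κ, m1, hκ, fun W hW hWd => ?_⟩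
  obtain ⟨t2, h2t⟩ := h2W W hW hWd
  obtain ⟨t3, h3t⟩ := h3' c v κ W par hκ hW
  obtain ⟨t4, h4t⟩ := h4' c v κ W par hκ hW
  obtain ⟨t6, ht6⟩ := exists_nat_ge (max 1 ((C3 * C0 * C5 + C4 * C0 ^ 2) * 8 / ε))
  refine ⟨t2 + t3 + t4 + t5 + t6, fun t ht V H hR Q B a hF0 P₀ => ?_⟩
  have hF : FAM s D m r c t V H B a C0 := CSMN_fam hC0le hF0
  have ht6' : (t6 : ℝ) ≤ t := by
    have : t6 ≤ t := by omega
    exact_mod_cast this
  have htR : (1 : ℝ) ≤ t := ((le_max_left _ _).trans ht6).trans ht6'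
  have ht1 : 1 ≤ t := by exact_mod_cast htR
  have htε : (C3 * C0 * C5 + C4 * C0 ^ 2) / t ≤ ε / 8 := by
    have e1 : (C3 * C0 * C5 + C4 * C0 ^ 2) * 8 / ε ≤ t :=
      ((le_max_right _ _).trans ht6).trans ht6'
    rw [div_le_iff₀ hε] at e1
    rw [div_le_iff₀ (by linarith)]
    linarith
  have h2t' := h2t t (by omega) V H hR
  have h3t' := h3t t (by omega) V H hR r Q B a C0 hC0 hF
  have h4t' := h4t t (by omega) V H hR r Q B a C0 hC01 hF
  have h5t' := (h5t t (by omega) V H hR).2 m1 hm1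
  clear h2t h3t h4t h5t h5' h2' h3' h4' h2W
  have hV1 : 1 ≤ V := le_trans (Nat.one_le_pow _ _ ht1) hR.1
  have hH1 : 1 ≤ H := le_trans (Nat.one_le_pow _ _ hV1) hR.2.2.1
  have hX1 : 1 ≤ XC s c t := Nat.one_le_pow _ _ ht1
  have hU1 : 1 ≤ QN s m c t V := by
    unfold QN
    exact Nat.mul_pos (Nat.one_le_pow _ _ hX1) hV1
  obtain ⟨hP1, hP2, -, -⟩ := h6 K s (D * m) H hH1
  have hTS := (h7 K (ThC s c t H κ (D * m)) W hW).1
  obtain ⟨E, hE⟩ : ∃ E : ℝ, E = EN (dg K) s D m r c t V H := ⟨_, rfl⟩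
  obtain ⟨P, hP⟩ : ∃ P : ℝ, P = ((H : ℝ) * (XC s c t : ℝ) ^ (D * m)) ^ dg K := ⟨_, rfl⟩
  obtain ⟨Xs, hXs⟩ : ∃ Xs : ℝ, Xs = ((XC s c t : ℝ) ^ s) ^ dg K := ⟨_, rfl⟩
  obtain ⟨Ur, hUr⟩ : ∃ Ur : ℝ, Ur = ((QN s m c t V : ℝ) ^ r) ^ dg K := ⟨_, rfl⟩
  obtain ⟨Bx, hBx⟩ : ∃ Bx : ℝ, Bx = ((box K s (D * m) H).card : ℝ) := ⟨_, rfl⟩
  have hBx0 : 0 ≤ Bx := by rw [hBx]; exact Nat.cast_nonneg _
  have hHR : (0 : ℝ) < H := by exact_mod_cast hH1
  have hXR : (0 : ℝ) < XC s c t := by exact_mod_cast hX1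
  have hQR : (0 : ℝ) < QN s m c t V := by exact_mod_cast hU1
  have hP0 : 0 < P := by rw [hP]; positivity
  have hE0 : 0 < E := by rw [hE]; unfold EN; positivity
  have hXs0 : 0 < Xs := by rw [hXs]; positivity
  have hUr0 : 0 < Ur := by rw [hUr]; positivity
  have hmain : Xs * Ur = E * P := by
    rw [hXs, hUr, hE, hP]
    unfold EN
    rw [← mul_pow, ← mul_pow]
    congr 1
    field_simp
  have hGB : ((CG K s c t).card : ℝ) ≤ C7 * Xs := by
    rw [hXs]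
    refine le_trans ?_ (h8a _ hX1)
    exact_mod_cast Finset.card_le_card (Finset.filter_subset _ _)
  have hBB : (B.card : ℝ) ≤ C0 * Ur := by
    rw [hUr]
    exact hF.card
  rw [← hE, ← hBx] at h4t'
  rw [← hXs] at h5t'
  rw [← hE, ← hBx]
  obtain ⟨b0, hb0⟩ : ∃ b0 : ℝ, b0 = C2 / k' * (m1 : ℝ) ^ (dg K + 1) / P ^ 2 * Bx := ⟨_, rfl⟩
  have hb00 : 0 ≤ b0 := by rw [hb0]; positivity
  have hnn1 : ∀ (x : Fin s → 𝓞 K) (w : Q) (f : Mon s (D * m) → 𝓞 K), 0 ≤ dlt (a w) x f := by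
    intro x w f
    unfold dlt
    split_ifs <;> norm_num
  have hnn2 : ∀ (x : Fin s → 𝓞 K) (w : Q) (f : Mon s (D * m) → 𝓞 K),
      0 ≤ lmt (ThC s c t H κ (D * m)) W (a w) x f := by
    intro x w f
    unfold lmt
    split_ifs
    · positivity
    · exact le_refl _
  have key := h1 (Mon s (D * m) → 𝓞 K) (Fin s → 𝓞 K) Q (box K s (D * m) (2 * H)) (Ph H)
    (CG K s c t) B
    (fun x w f => if (x, w) ∈ P₀ then dlt (a w) x f else 0)
    (fun x w f => if (x, w) ∈ P₀ then lmt (ThC s c t H κ (D * m)) W (a w) x f else 0)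
    (fun x y => ¬ Par x y ∧ TyC c t m1 x y) (fun _ _ => b0) (fun f _ => (hP2 f).1)
    (fun x w f => by
      constructor
      · show 0 ≤ (if (x, w) ∈ P₀ then dlt (a w) x f else 0)
        split_ifs
        · exact hnn1 x w f
        · exact le_refl _
      · show 0 ≤ (if (x, w) ∈ P₀ then lmt (ThC s c t H κ (D * m)) W (a w) x f else 0)
        split_ifs
        · exact hnn2 x w f
        · exact le_refl _)
    (fun x hx y hy hxy w _ w' _ => by
      by_cases hw : (x, w) ∈ P₀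
      · by_cases hw' : (y, w') ∈ P₀
        · simp only [if_pos hw, if_pos hw']
          rw [hb0, hP, hBx]
          exact h2t' x hx y hy hxy.1 hxy.2 (a w) (a w')
        · simp only [if_neg hw', sub_zero, mul_zero, Finset.sum_const_zero]
          exact hb00
      · simp only [if_neg hw, sub_zero, zero_mul, mul_zero, Finset.sum_const_zero]
        exact hb00)
  have hLHS : ∑ f ∈ box K s (D * m) H, (NA B a P₀ c t f - NAL B a P₀ c t H κ W f) ^ 2 ≤
      ∑ F ∈ box K s (D * m) (2 * H), Ph H F * (∑ x ∈ CG K s c t,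
        ∑ w ∈ B,
          ((if (x, w) ∈ P₀ then dlt (a w) x F else 0) -
            (if (x, w) ∈ P₀ then lmt (ThC s c t H κ (D * m)) W (a w) x F else 0))) ^ 2 := by
    have hd : ∀ f : Mon s (D * m) → 𝓞 K, NA B a P₀ c t f - NAL B a P₀ c t H κ W f =
        ∑ x ∈ CG K s c t, ∑ w ∈ B,
          ((if (x, w) ∈ P₀ then dlt (a w) x f else 0) -
            (if (x, w) ∈ P₀ then lmt (ThC s c t H κ (D * m)) W (a w) x f else 0)) := by
      intro f
      unfold NA NAL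
      rw [← Finset.sum_sub_distrib]
      apply Finset.sum_congr rfl
      intro x _
      rw [← Finset.sum_sub_distrib]
      apply Finset.sum_congr rfl
      intro w _
      unfold dlt lmt TC
      rw [hTS]
    have hsub : box K s (D * m) H ⊆ box K s (D * m) (2 * H) := by
      unfold box
      apply Fintype.piFinset_subset
      intro _ a ha
      rw [mem_cb] at ha ⊢
      omega
    refine le_trans ?_ (Finset.sum_le_sum_of_subset_of_nonneg hsub
      fun f _ _ => mul_nonneg (hP2 f).1 (sq_nonneg _))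
    apply Finset.sum_le_sum
    intro f hf
    rw [hd f]
    have := hP1 f hf
    have h0 := sq_nonneg (∑ x ∈ CG K s c t, ∑ w ∈ B,
          ((if (x, w) ∈ P₀ then dlt (a w) x f else 0) -
            (if (x, w) ∈ P₀ then lmt (ThC s c t H κ (D * m)) W (a w) x f else 0)))
    nlinarith
  refine (hLHS.trans key).trans ?_
  clear hLHS key
  -- typical pairs
  have hT : ∑ p ∈ (CG K s c t ×ˢ CG K s c t).filter (fun p => ¬ Par p.1 p.2 ∧ TyC c t m1 p.1 p.2),
      (B.card : ℝ) ^ 2 * b0 ≤ ε / 8 * (E ^ 2 * Bx) := by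
    rw [Finset.sum_const, nsmul_eq_mul]
    have e1 : ((((CG K s c t ×ˢ CG K s c t).filter
        (fun p => ¬ Par p.1 p.2 ∧ TyC c t m1 p.1 p.2)).card : ℕ) : ℝ) ≤ (C7 * Xs) ^ 2 := by
      refine le_trans (b := (((CG K s c t ×ˢ CG K s c t).card : ℕ) : ℝ)) ?_ ?_
      · exact_mod_cast Finset.card_le_card (Finset.filter_subset _ _)
      · rw [Finset.card_product]
        push_cast
        rw [← sq]
        exact pow_le_pow_left₀ (Nat.cast_nonneg _) hGB 2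
    have e2 : (B.card : ℝ) ^ 2 ≤ (C0 * Ur) ^ 2 :=
      pow_le_pow_left₀ (Nat.cast_nonneg _) hBB 2
    calc _ ≤ (C7 * Xs) ^ 2 * ((C0 * Ur) ^ 2 * b0) :=
          mul_le_mul e1 (mul_le_mul_of_nonneg_right e2 hb00) (by positivity) (by positivity)
      _ = C7 ^ 2 * C0 ^ 2 * (Xs * Ur) ^ 2 * b0 := by ring
      _ = D2 / k' * (E ^ 2 * Bx) := by
          rw [hmain, hb0, hD2]
          have : (k' : ℝ) ≠ 0 := by linarith
          field_simp
      _ ≤ _ := mul_le_mul_of_nonneg_right hk2 (by positivity)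
  -- parallel pairs
  have hPar : ∑ p ∈ (CG K s c t ×ˢ CG K s c t).filter (fun p => Par p.1 p.2),
      ∑ q ∈ B ×ˢ B,
        (∑ f ∈ box K s (D * m) (2 * H), Ph H f * (dlt (a q.1) p.1 f * dlt (a q.2) p.2 f) +
        ∑ f ∈ box K s (D * m) (2 * H), Ph H f *
          (lmt (ThC s c t H κ (D * m)) W (a q.1) p.1 f *
            lmt (ThC s c t H κ (D * m)) W (a q.2) p.2 f)) ≤ C4 * C0 ^ 2 / t * (E ^ 2 * Bx) :=
    h4t'.trans (le_of_eq (by ring))
  -- the other pairs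
  have hOth : ∑ p ∈ (CG K s c t ×ˢ CG K s c t).filter
      (fun p => ¬ Par p.1 p.2 ∧ ¬ TyC c t m1 p.1 p.2),
      ∑ q ∈ B ×ˢ B,
        (∑ f ∈ box K s (D * m) (2 * H), Ph H f * (dlt (a q.1) p.1 f * dlt (a q.2) p.2 f) +
        ∑ f ∈ box K s (D * m) (2 * H), Ph H f *
          (lmt (ThC s c t H κ (D * m)) W (a q.1) p.1 f *
            lmt (ThC s c t H κ (D * m)) W (a q.2) p.2 f)) ≤
      (ε / 8 + C3 * C0 * C5 / t) * (E ^ 2 * Bx) := by
    have e1 : ∀ p ∈ (CG K s c t ×ˢ CG K s c t).filter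
        (fun p => ¬ Par p.1 p.2 ∧ ¬ TyC c t m1 p.1 p.2),
        ∑ q ∈ B ×ˢ B,
        (∑ f ∈ box K s (D * m) (2 * H), Ph H f * (dlt (a q.1) p.1 f * dlt (a q.2) p.2 f) +
        ∑ f ∈ box K s (D * m) (2 * H), Ph H f *
          (lmt (ThC s c t H κ (D * m)) W (a q.1) p.1 f *
            lmt (ThC s c t H κ (D * m)) W (a q.2) p.2 f)) ≤
        (C3 * C0 * Ur ^ 2 / P ^ 2 * Bx) * wtC c t (QN s m c t V) (MM D) p.1 p.2 := by
      intro p hp
      rw [Finset.mem_filter, Finset.mem_product] at hp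
      refine (h3t' p.1 hp.1.1 p.2 hp.1.2 hp.2.1).trans (le_of_eq ?_)
      rw [← hUr, ← hP, ← hBx]
      ring
    refine (Finset.sum_le_sum e1).trans ?_
    rw [← Finset.mul_sum]
    have e2 : 0 ≤ C3 * C0 * Ur ^ 2 / P ^ 2 * Bx := by positivity
    refine (mul_le_mul_of_nonneg_left h5t' e2).trans ?_
    have e3 : C3 * C0 * Ur ^ 2 / P ^ 2 * Bx * (C5 * (rp m1 (MM D) + 1 / t) * Xs ^ 2) =
        C3 * C0 * C5 * (rp m1 (MM D) + 1 / t) * (Xs * Ur) ^ 2 / P ^ 2 * Bx := by ring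
    rw [e3, hmain]
    have e4 : C3 * C0 * C5 * (rp m1 (MM D) + 1 / t) * (E * P) ^ 2 / P ^ 2 * Bx =
        (C3 * C0 * C5 * rp m1 (MM D) + C3 * C0 * C5 / t) * (E ^ 2 * Bx) := by
      have : (t : ℝ) ≠ 0 := by linarith
      field_simp
    rw [e4]
    exact mul_le_mul_of_nonneg_right (by linarith) (by positivity)
  have hsplit : ∀ g : (Fin s → 𝓞 K) × (Fin s → 𝓞 K) → ℝ,
      ∑ p ∈ (CG K s c t ×ˢ CG K s c t).filter
        (fun p => ¬ (¬ Par p.1 p.2 ∧ TyC c t m1 p.1 p.2)), g p =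
      ∑ p ∈ (CG K s c t ×ˢ CG K s c t).filter (fun p => Par p.1 p.2), g p +
      ∑ p ∈ (CG K s c t ×ˢ CG K s c t).filter
        (fun p => ¬ Par p.1 p.2 ∧ ¬ TyC c t m1 p.1 p.2), g p := by
    intro g
    rw [← Finset.sum_union]
    · apply Finset.sum_congr _ fun _ _ => rfl
      ext p
      simp only [Finset.mem_filter, Finset.mem_union]
      tauto
    · rw [Finset.disjoint_left]
      intro p hp hq
      rw [Finset.mem_filter] at hp hq
      exact hq.2.1 hp.2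
  have hsum := hsplit (fun p => ∑ q ∈ B ×ˢ
    B,
        (∑ f ∈ box K s (D * m) (2 * H), Ph H f * (dlt (a q.1) p.1 f * dlt (a q.2) p.2 f) +
        ∑ f ∈ box K s (D * m) (2 * H), Ph H f *
          (lmt (ThC s c t H κ (D * m)) W (a q.1) p.1 f *
            lmt (ThC s c t H κ (D * m)) W (a q.2) p.2 f)))
  have hEB : 0 ≤ E ^ 2 * Bx := by positivity
  have hfin : ε / 8 * (E ^ 2 * Bx) + (C4 * C0 ^ 2 / t * (E ^ 2 * Bx) +
      (ε / 8 + C3 * C0 * C5 / t) * (E ^ 2 * Bx)) ≤ ε * E ^ 2 * Bx := by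
    have e1 : ε / 8 * (E ^ 2 * Bx) + (C4 * C0 ^ 2 / t * (E ^ 2 * Bx) +
      (ε / 8 + C3 * C0 * C5 / t) * (E ^ 2 * Bx)) =
      (ε / 4 + (C3 * C0 * C5 + C4 * C0 ^ 2) / t) * (E ^ 2 * Bx) := by ring
    rw [e1]
    have e2 : ε / 4 + (C3 * C0 * C5 + C4 * C0 ^ 2) / t ≤ ε := by linarith
    calc _ ≤ ε * (E ^ 2 * Bx) := mul_le_mul_of_nonneg_right e2 hEB
      _ = _ := by ring
  refine le_trans (add_le_add ?_ ?_) hfin
  · refine le_trans (le_of_eq ?_) hT
    apply Finset.sum_congr _ fun _ _ => rfl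
    ext p
    simp only [Finset.mem_filter]
  · have hmono : ∀ S : Finset ((Fin s → 𝓞 K) × (Fin s → 𝓞 K)),
        ∑ p ∈ S, ∑ q ∈ B ×ˢ B,
          (∑ f ∈ box K s (D * m) (2 * H), Ph H f *
            ((if (p.1, q.1) ∈ P₀ then dlt (a q.1) p.1 f else 0) *
              (if (p.2, q.2) ∈ P₀ then dlt (a q.2) p.2 f else 0)) +
          ∑ f ∈ box K s (D * m) (2 * H), Ph H f *
            ((if (p.1, q.1) ∈ P₀ then lmt (ThC s c t H κ (D * m)) W (a q.1) p.1 f else 0) *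
              (if (p.2, q.2) ∈ P₀ then lmt (ThC s c t H κ (D * m)) W (a q.2) p.2 f else 0))) ≤
        ∑ p ∈ S, ∑ q ∈ B ×ˢ B,
          (∑ f ∈ box K s (D * m) (2 * H), Ph H f * (dlt (a q.1) p.1 f * dlt (a q.2) p.2 f) +
          ∑ f ∈ box K s (D * m) (2 * H), Ph H f *
            (lmt (ThC s c t H κ (D * m)) W (a q.1) p.1 f *
              lmt (ThC s c t H κ (D * m)) W (a q.2) p.2 f)) := by
      intro S
      have hle : ∀ (a b : ℝ) (A B : Prop) [Decidable A] [Decidable B], 0 ≤ a → 0 ≤ b →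
          (if A then a else 0) * (if B then b else 0) ≤ a * b := by
        intro a b A B _ _ ha hb
        split_ifs
        · exact le_refl _
        · rw [mul_zero]; exact mul_nonneg ha hb
        · rw [zero_mul]; exact mul_nonneg ha hb
        · rw [zero_mul]; exact mul_nonneg ha hb
      refine Finset.sum_le_sum fun p _ => Finset.sum_le_sum fun q _ => add_le_add ?_ ?_
      · exact Finset.sum_le_sum fun f _ => mul_le_mul_of_nonneg_left
          (hle _ _ _ _ (hnn1 _ _ _) (hnn1 _ _ _)) (hP2 f).1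
      · exact Finset.sum_le_sum fun f _ => mul_le_mul_of_nonneg_left
          (hle _ _ _ _ (hnn2 _ _ _) (hnn2 _ _ _)) (hP2 f).1
    refine (hmono _).trans ?_
    refine le_trans (le_of_eq ?_) (add_le_add hPar hOth)
    refine Eq.trans ?_ hsum
    apply Finset.sum_congr _ fun _ _ => rfl
    ext p
    simp only [Finset.mem_filter]

end Pool.Agent.NRM
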