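import Pool.Agent.RHC.StA
import Pool.Agent.RHCW.St

/-!
NRM (NORM): the Hasse principle and weak approximation for 100 percent of the equations `g(w) = f(x)`,
`g` a fixed form of degree `D` in `r` variables, `f` a random form of degree `D * m` in `s = n + 1` variables,
over a number field `K`.  Definitions (helper95).  Plan: /team-store/NORM_helper95.md.

Conventions: `x : Fin s → A` has weight one, `w : Fin r → A` has weight `m`; forms are coefficient vectors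
`f : Mon s (D * m) → A`, `g : Mon r D → A` with values `ev f x`, `ev g w`.  The degree of the number field is
always written `dg K`.  The parameters `c, t, V, H` and `XC, CR, CG, ThC, TC, TS, Ph, cP, dlt, lmt, TyC, wtC, rp,
MM` are those of RHC (with `k = D`).  A point over a field `L` is a vector `z : Fin r ⊕ Fin s → L`, `w = wz z`,
`x = xz z`.  Denominators: points `(x, w / dl)` with `w` integral, `b = dl ^ D`, so `b f(x) = g(w)`.
-/

set_option autoImplicit false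

namespace Pool.Agent.NRM

open scoped BigOperators
open Classical NumberField IsDedekindDomain
open Pool.Agent.RHP (Mon mono ev Sys Prim pd WB WW)
open Pool.Agent.RHK Pool.Agent.RHC
open Pool.Agent.RHKB (mI hh jj qv MK uu BadK)
open Pool.Agent.RHCB (BadC cred cemb uk PrC hM)
open Pool.Agent.RHCW (cmk)

/-! ### Parameters -/

/-- the hypotheses on the type: at least three variables `x`, degree `D` of `g` at least two, weight
`m` at least one -/
structure NHyp (s D m : ℕ) : Prop where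
  hs : 3 ≤ s
  hD : 2 ≤ D
  hm : 1 ≤ m

/-- the size `X^m V` of the variables `w` (up to a constant) -/
def QN (s m c t V : ℕ) : ℕ := XC s c t ^ m * V

/-- the expected number `E = (X^s (X^m V)^r / (H X^(Dm)))^rho`, `rho` is the degree of the field -/
noncomputable def EN (rho s D m r c t V H : ℕ) : ℝ :=
  ((XC s c t : ℝ) ^ s * (QN s m c t V : ℝ) ^ r / ((H : ℝ) * (XC s c t : ℝ) ^ (D * m))) ^ rho

/-! ### The second moment for a family `a : Q → 𝓞 K` -/

section fam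

variable {K : Type} [Field K] [NumberField K] {s d : ℕ} {Q : Type}

/-- the number of the pairs `(x, w)` in `P`, `x` good, `w ∈ B`, with `f(x) = a_w` -/
noncomputable def NA (B : Finset Q) (a : Q → 𝓞 K) (P : Set ((Fin s → 𝓞 K) × Q)) (c t : ℕ)
    (f : Mon s d → 𝓞 K) : ℝ :=
  ∑ x ∈ CG K s c t, ∑ w ∈ B, if (x, w) ∈ P then (if ev f x = a w then 1 else 0) else 0

/-- its local model -/
noncomputable def NAL (B : Finset Q) (a : Q → 𝓞 K) (P : Set ((Fin s → 𝓞 K) × Q)) (c t H κ W : ℕ)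
    (f : Mon s d → 𝓞 K) : ℝ :=
  ∑ x ∈ CG K s c t, ∑ w ∈ B, if (x, w) ∈ P then
    (if (W : 𝓞 K) ∣ ev f x - a w ∧ cz (ev f x - a w) ≤ ThC s c t H κ d then
      (1 / (TC (dg K) s c t H κ W d : ℝ)) else 0) else 0

/-- the properties of the family used by the second moment (`Q = QN s m c t V`):
`#B ≤ C Q^(r rho)`; the number of the pairs with `a_w' = lam a_w` modulo `I` is at most
`C Q^(2 r rho) (N(I)^(-1/M) + Q^(-rho))`; and the number of the pairs with `a_w = a_w'` is at most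
`(C/t) X^(s rho) Q^(2 r rho) / (H X^(Dm))^rho` -/
structure FAM (s D m r c t V H : ℕ) (B : Finset Q) (a : Q → 𝓞 K) (C : ℝ) : Prop where
  card : (B.card : ℝ) ≤ C * ((QN s m c t V : ℝ) ^ r) ^ dg K
  van : ∀ I : Ideal (𝓞 K), I ≠ ⊥ → ∀ lam : 𝓞 K,
    (((B ×ˢ B).filter fun p => a p.2 - lam * a p.1 ∈ I).card : ℝ) ≤
      C * (((QN s m c t V : ℝ) ^ r) ^ dg K) ^ 2 *
        (rp (Ideal.absNorm I) (MM D) + 1 / (QN s m c t V : ℝ) ^ dg K)
  diag : (((B ×ˢ B).filter fun p => a p.1 = a p.2).card : ℝ) * t *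
      ((H : ℝ) * (XC s c t : ℝ) ^ (D * m)) ^ dg K ≤
    C * ((XC s c t : ℝ) ^ s) ^ dg K * (((QN s m c t V : ℝ) ^ r) ^ dg K) ^ 2

end fam

/-- OUTPUT of block A: the second moment for all families and all sets `P` of points. -/
def SMN (K : Type) [Field K] [NumberField K] (s D m r c v : ℕ) : Prop :=
  ∀ C0 ε : ℝ, 0 < C0 → 0 < ε → ∃ κ m0 : ℕ, 0 < κ ∧ ∀ W : ℕ, 0 < W →
    (∀ g, 1 ≤ g → g ≤ m0 → g ∣ W) → ∃ t0 : ℕ, ∀ t ≥ t0, ∀ V H : ℕ, CR D v t V H →
      ∀ (Q : Type) (B : Finset Q) (a : Q → 𝓞 K), FAM s D m r c t V H B a C0 →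
      ∀ P : Set ((Fin s → 𝓞 K) × Q),
      ∑ f ∈ box K s (D * m) H, (NA B a P c t f - NAL B a P c t H κ W f) ^ 2
        ≤ ε * EN (dg K) s D m r c t V H ^ 2 * ((box K s (D * m) H).card : ℝ)

/-! ### The family of the values of `g` -/

section vals

variable {K : Type} [Field K] [NumberField K] {r D : ℕ}

/-- the vectors `w` of size at most `U` with `b ∣ g(w)` and `g(w) ≠ 0` -/
noncomputable def BG (g : Mon r D → 𝓞 K) (b : ℕ) (U : ℕ) : Finset (Fin r → 𝓞 K) :=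
  (bx K r (U : ℝ)).filter fun w => (b : 𝓞 K) ∣ ev g w ∧ ev g w ≠ 0

/-- `g(w) / b` -/
noncomputable def aG (g : Mon r D → 𝓞 K) (b : ℕ) (w : Fin r → 𝓞 K) : 𝓞 K :=
  if h : (b : 𝓞 K) ∣ ev g w then h.choose else 0

theorem aG_mul {g : Mon r D → 𝓞 K} {b : ℕ} {w : Fin r → 𝓞 K} (h : (b : 𝓞 K) ∣ ev g w) :
    (b : 𝓞 K) * aG g b w = ev g w := by
  unfold aG
  rw [dif_pos h]
  exact h.choose_spec.symm

/-- the diagonal bound: `#{(w,w') : |w|, |w'| ≤ U, g(w) = g(w') ≠ 0} ≤ C U^(rho (2r - D + kap))` -/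
def DGN (g : Mon r D → 𝓞 K) (kap : ℝ) : Prop :=
  ∃ C : ℝ, 0 < C ∧ ∀ U : ℕ, 1 ≤ U →
    (((bx K r (U : ℝ) ×ˢ bx K r (U : ℝ)).filter fun p =>
      ev g p.1 = ev g p.2 ∧ ev g p.1 ≠ 0).card : ℝ) * ((U : ℝ) ^ D) ^ dg K ≤
      C * ((U : ℝ) ^ (2 * r)) ^ dg K * ((U : ℝ) ^ kap) ^ dg K

/-- the hypothesis on `g`: the diagonal bound with an exponent such that suitable parameters exist -/
def NOK (g : Mon r D → 𝓞 K) (s m : ℕ) : Prop :=
  ∃ kap : ℝ, 0 ≤ kap ∧ DGN g kap ∧ kap * (m + 2 / (((s - 1 : ℕ) : ℝ) * D)) < s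

/-- `g` is a product of linear forms over the algebraic closure, without a common zero `≠ 0` -/
def Decomp (g : Mon r D → 𝓞 K) : Prop :=
  ∃ l : Fin D → Fin r → AlgebraicClosure K,
    (∀ w : Fin r → AlgebraicClosure K,
      ev (fun μ => jj (AlgebraicClosure K) (g μ)) w = ∏ i, ∑ j, l i j * w j) ∧
    ∀ w : Fin r → AlgebraicClosure K, (∀ i, ∑ j, l i j * w j = 0) → w = 0

end vals

/-! ### Finite rings -/

section fin

variable {A : Type} [CommRing A] {s r D d : ℕ}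

/-- the number of the points `(ρ, ω)` with `ρ` primitive and `b f(ρ) = g(ω)` in the finite ring `A` -/
noncomputable def cntN (b : ℕ) (g : Mon r D → A) (f : Mon s d → A) : ℕ :=
  Nat.card {p : (Fin s → A) × (Fin r → A) // Prim p.1 ∧ (b : A) * ev f p.1 = ev g p.2}

/-- the normalised number of these points -/
noncomputable def sigN (b : ℕ) (g : Mon r D → A) (f : Mon s d → A) : ℝ :=
  (cntN b g f : ℝ) * (Nat.card A : ℝ) / (Nat.card A : ℝ) ^ (s + r)

/-- the number of the points `(ρ, ω)` with `ρ` primitive and `b f(ρ) = g(ω)` in the finite ring `A` which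
are congruent to `(ρ₀, ω₀)` modulo `q` -/
noncomputable def wcntN (b q : ℕ) (g : Mon r D → A) (ρ₀ : Fin s → A) (ω₀ : Fin r → A)
    (f : Mon s d → A) : ℕ :=
  Nat.card {p : (Fin s → A) × (Fin r → A) // Prim p.1 ∧ ((∀ l, (q : A) ∣ p.1 l - ρ₀ l) ∧
    ∀ j, (q : A) ∣ p.2 j - ω₀ j) ∧ (b : A) * ev f p.1 = ev g p.2}

/-- the normalised number of these points -/
noncomputable def wsigN (b q : ℕ) (g : Mon r D → A) (ρ₀ : Fin s → A) (ω₀ : Fin r → A)
    (f : Mon s d → A) : ℝ :=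
  (wcntN b q g ρ₀ ω₀ f : ℝ) * (Nat.card A : ℝ) / (Nat.card A : ℝ) ^ (s + r)

end fin

/-! ### Points over a field -/

/-- the `w` coordinates -/
def wz {r s : ℕ} {L : Type} (z : Fin r ⊕ Fin s → L) : Fin r → L := fun j => z (Sum.inl j)

/-- the `x` coordinates -/
def xz {r s : ℕ} {L : Type} (z : Fin r ⊕ Fin s → L) : Fin s → L := fun l => z (Sum.inr l)

section loc

variable {L : Type} [NormedField L] {s r D d : ℕ}

/-- There is a coordinate `j` such that the other coordinates can be prescribed arbitrarily near the point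
`z₀`, and there is a point of `f(x) = G(w)` with these coordinates near `z₀`. -/
def NZN (f : Mon s d → L) (G : Mon r D → L) (z₀ : Fin r ⊕ Fin s → L) (δ ε : ℝ) : Prop :=
  ∃ j : Fin r ⊕ Fin s, ∀ κ : Fin r ⊕ Fin s → L, (∀ l, ‖κ l - z₀ l‖ ≤ δ) →
    ∃ z : Fin r ⊕ Fin s → L, (∀ l, l ≠ j → z l = κ l) ∧ (∀ l, ‖z l - z₀ l‖ ≤ ε) ∧
      ev f (xz z) = ev G (wz z)

end loc

section field

variable {K : Type} [Field K] [NumberField K] {s r D d : ℕ}

/-- There is a point of `b f(x) = g(w)` over the completion at the finite place `v`, with `x` of size one and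
`w` integral, which is congruent to `(ρ₀, ω₀)` modulo `q`. -/
def LocZN (v : HeightOneSpectrum (𝓞 K)) (b q : ℕ) (g : Mon r D → 𝓞 K) (ρ₀ : Fin s → 𝓞 K)
    (ω₀ : Fin r → 𝓞 K) (f : Mon s d → 𝓞 K) : Prop :=
  ∃ z : Fin r ⊕ Fin s → v.adicCompletion K, ‖xz z‖ = 1 ∧ (∀ j, ‖wz z j‖ ≤ 1) ∧
    ((∀ l, ‖xz z l - jj (v.adicCompletion K) (ρ₀ l)‖ ≤ ‖(q : v.adicCompletion K)‖) ∧
      ∀ j, ‖wz z j - jj (v.adicCompletion K) (ω₀ j)‖ ≤ ‖(q : v.adicCompletion K)‖) ∧
    ev (cemb (b : v.adicCompletion K) f) (xz z) = ev (cemb (1 : v.adicCompletion K) g) (wz z)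

/-- There is a point of `f(x) / V^D = g(w)` over the completion at the infinite place `v`, with `x` of size
`3/4` and `w` of size at most `B`, within `ε` of `y`. -/
def InfZN (v : InfinitePlace K) (V B : ℕ) (g : Mon r D → 𝓞 K) (y : Fin r ⊕ Fin s → v.Completion)
    (ε : ℝ) (f : Mon s d → 𝓞 K) : Prop :=
  ∃ z : Fin r ⊕ Fin s → v.Completion, ‖xz z‖ = 3 / 4 ∧ (∀ j, ‖wz z j‖ ≤ B) ∧
    (∀ l, ‖z l - y l‖ ≤ ε) ∧
    ev (cemb (uk v D V) f) (xz z) = ev (cemb (1 : v.Completion) g) (wz z)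

/-- `(x / X, w / Q)` is within `ε` of `y v` at all infinite places -/
def NearN (y : (v : InfinitePlace K) → Fin r ⊕ Fin s → v.Completion) (ε : ℝ) (X Q : ℕ)
    (p : (Fin s → 𝓞 K) × (Fin r → 𝓞 K)) : Prop :=
  ∀ v : InfinitePlace K,
    (∀ l, ‖jj v.Completion (p.1 l) - (X : v.Completion) * y v (Sum.inr l)‖ ≤ ε * X) ∧
      ∀ j, ‖jj v.Completion (p.2 j) - (Q : v.Completion) * y v (Sum.inl j)‖ ≤ ε * Q

/-- the points of a cell -/
def CellN (q : ℕ) (ρ₀ : Fin s → 𝓞 K) (ω₀ : Fin r → 𝓞 K)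
    (y : (v : InfinitePlace K) → Fin r ⊕ Fin s → v.Completion) (ε : ℝ) (X Q : ℕ) :
    Set ((Fin s → 𝓞 K) × (Fin r → 𝓞 K)) :=
  {p | ((∀ l, (q : 𝓞 K) ∣ p.1 l - ρ₀ l) ∧ ∀ j, (q : 𝓞 K) ∣ p.2 j - ω₀ j) ∧ NearN y ε X Q p}

/-- the number of the points `(x, w)` in `P`, `x` primitive of size between `X/2` and `X`, `w` of size at most
`U` at all infinite places, in the residue class of `(ρ, ω)` modulo `W`, with `b f(x) - g(w)` small -/
noncomputable def RCnN {m : ℕ} (P : Set ((Fin s → 𝓞 K) × (Fin r → 𝓞 K))) (b : ℕ) (g : Mon r D → 𝓞 K)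
    (U X H κ W : ℕ) (f : Mon s (D * m) → 𝓞 K) (ρ : Fin s → 𝓞 K) (ω : Fin r → 𝓞 K) : ℕ :=
  ((bx K s (X : ℝ) ×ˢ bx K r (U : ℝ)).filter fun p =>
    (Prim p.1 ∧ (∀ v : InfinitePlace K, (X : ℝ) < 2 * vs v p.1) ∧
      (∀ l, (W : 𝓞 K) ∣ p.1 l - ρ l) ∧ (∀ j, (W : 𝓞 K) ∣ p.2 j - ω j) ∧
      cz ((b : 𝓞 K) * ev f p.1 - ev g p.2) * κ ≤ b * (H * X ^ (D * m))) ∧ p ∈ P).card

/-- `g` over the field `L` -/
noncomputable abbrev gL (L : Type) [Field L] [Algebra K L] (g : Mon r D → 𝓞 K) : Mon r D → L :=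
  cemb (1 : L) g

/-- `(x, w)` is a point of `f(x) = g(w)`, `x ≠ 0`, over the extension `L` of `K` -/
def IsPtN (g : Mon r D → 𝓞 K) (f : Mon s d → 𝓞 K) {L : Type} [Field L] [Algebra K L] (x : Fin s → L)
    (w : Fin r → L) : Prop :=
  x ≠ 0 ∧ ev (cemb (1 : L) f) x = ev (gL L g) w

/-- everywhere locally soluble -/
def ELSN (g : Mon r D → 𝓞 K) (f : Mon s d → 𝓞 K) : Prop :=
  (∀ v : InfinitePlace K, ∃ (x : Fin s → v.Completion) (w : Fin r → v.Completion), IsPtN g f x w) ∧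
    ∀ v : HeightOneSpectrum (𝓞 K), ∃ (x : Fin s → v.adicCompletion K)
      (w : Fin r → v.adicCompletion K), IsPtN g f x w

/-- the points `(x, w)` and `(y, u)` modulo `(x, w) ~ (lam x, lam^m w)` over `L` are `η`-close -/
def CloN {L : Type} [NormedField L] [Algebra K L] (D m : ℕ) (f : Mon s d → 𝓞 K) (η : ℝ)
    (x : Fin s → L) (w : Fin r → L) (y : Fin s → L) (u : Fin r → L) : Prop :=
  ∃ lam : L, (∀ l, ‖lam * x l - y l‖ ≤ η * ‖y‖) ∧
    ∃ μ, ∀ j, ‖lam ^ m * w j - u j‖ ^ D ≤ η * ‖jj L (f μ)‖ * ‖y‖ ^ (D * m)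

/-- the size condition `|u|^D ≤ η⁻¹ |f| |y|^(Dm)` on the point `(y, u)` -/
def SizN {L : Type} [NormedField L] [Algebra K L] (D m : ℕ) (f : Mon s d → 𝓞 K) (η : ℝ)
    (y : Fin s → L) (u : Fin r → L) : Prop :=
  ∃ μ, ∀ j, η * ‖u j‖ ^ D ≤ ‖jj L (f μ)‖ * ‖y‖ ^ (D * m)

/-- the points over `K` are `η`-dense in the product of the sets of the points satisfying `SizN` over the
completions at the finite places in `S` and at all infinite places -/
def DenseN (m : ℕ) (S : Finset (HeightOneSpectrum (𝓞 K))) (η : ℝ) (g : Mon r D → 𝓞 K)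
    (f : Mon s d → 𝓞 K) : Prop :=
  ∀ (z : (v : HeightOneSpectrum (𝓞 K)) → Fin s → v.adicCompletion K)
    (a : (v : HeightOneSpectrum (𝓞 K)) → Fin r → v.adicCompletion K)
    (y : (v : InfinitePlace K) → Fin s → v.Completion)
    (b : (v : InfinitePlace K) → Fin r → v.Completion),
    (∀ v ∈ S, IsPtN g f (z v) (a v) ∧ SizN D m f η (z v) (a v)) →
    (∀ v, IsPtN g f (y v) (b v) ∧ SizN D m f η (y v) (b v)) →
    ∃ (x : Fin s → K) (w : Fin r → K), IsPtN g f x w ∧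
      (∀ v ∈ S, CloN D m f η (fun l => algebraMap K (v.adicCompletion K) (x l))
        (fun j => algebraMap K (v.adicCompletion K) (w j)) (z v) (a v)) ∧
      ∀ v : InfinitePlace K, CloN D m f η (fun l => algebraMap K v.Completion (x l))
        (fun j => algebraMap K v.Completion (w j)) (y v) (b v)

end field

end Pool.Agent.NRM
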