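import Pool.Agent.NRM.StA

/-!
NRM, GZ: the number of the solutions of `g(w) = a` in a box (helper87).
-/

set_option autoImplicit false

namespace Pool.Agent.NRM

open scoped BigOperators
open Classical NumberField IsDedekindDomain
open Pool.Agent.RHP (Mon mono ev Sys Prim pd WB WW)
open Pool.Agent.RHK Pool.Agent.RHC

/-- the function `rp` along the powers tends to zero -/
theorem GZ_rp (n M : ℕ) (hn : 1 ≤ n) (hM : 1 ≤ M) :
    Filter.Tendsto (fun N : ℕ => rp ((N ^ n : ℕ) : ℝ) M) Filter.atTop (nhds 0) := by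
  have hM' : (0 : ℝ) < M := by exact_mod_cast hM
  have hM1 : (0 : ℝ) < 1 / M := by positivity
  have h0 : Filter.Tendsto (fun N : ℕ => N ^ n) Filter.atTop Filter.atTop :=
    Filter.tendsto_pow_atTop (by omega)
  have h1 := ((tendsto_rpow_neg_atTop hM1).comp tendsto_natCast_atTop_atTop).comp h0
  refine h1.congr fun N => ?_
  unfold rp
  simp only [Function.comp]
  rw [neg_div]

/-- the number of the solutions of `g(w) = a` in a box -/
theorem thm_GZ (h : St_VG) : St_GZ := by
  intro K _ _ r D hD g hg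
  obtain ⟨C, hC, hV⟩ := h K r D hD g hg
  refine ⟨C, hC, fun U a hU => ?_⟩
  have hM : 1 ≤ MM D := by
    unfold MM
    have : 2 * 3 ≤ D * (D + 1) := Nat.mul_le_mul hD (by omega)
    omega
  have hn : 1 ≤ dg K := Module.finrank_pos
  have hT := GZ_rp (dg K) (MM D) hn hM
  -- the bound for all N
  have hb : ∀ᶠ N : ℕ in Filter.atTop,
      (((bx K r (U : ℝ)).filter fun w => ev g w = a).card : ℝ) * (U : ℝ) ^ dg K ≤
        C * ((U : ℝ) ^ r) ^ dg K * ((U : ℝ) ^ dg K * rp ((N ^ dg K : ℕ) : ℝ) (MM D) + 1) := by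
    filter_upwards [Filter.eventually_ge_atTop 1] with N hN
    have hI : Ideal.span {(N : 𝓞 K)} ≠ ⊥ := by
      rw [Ne, Ideal.span_singleton_eq_bot]
      have : N ≠ 0 := by omega
      exact_mod_cast this
    have h1 := hV U a (Ideal.span {(N : 𝓞 K)}) hU hI
    rw [Ideal.absNorm_span_natCast, RingOfIntegers.rank] at h1
    refine le_trans ?_ h1
    refine mul_le_mul_of_nonneg_right ?_ (by positivity)
    have : ((bx K r (U : ℝ)).filter fun w => ev g w = a) ⊆
        ((bx K r (U : ℝ)).filter fun w => ev g w - a ∈ Ideal.span {(N : 𝓞 K)}) := by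
      intro w hw
      rw [Finset.mem_filter] at hw ⊢
      refine ⟨hw.1, ?_⟩
      rw [hw.2, sub_self]
      exact Submodule.zero_mem _
    exact_mod_cast Finset.card_le_card this
  have hlim : Filter.Tendsto (fun N : ℕ =>
      C * ((U : ℝ) ^ r) ^ dg K * ((U : ℝ) ^ dg K * rp ((N ^ dg K : ℕ) : ℝ) (MM D) + 1))
      Filter.atTop (nhds (C * ((U : ℝ) ^ r) ^ dg K * ((U : ℝ) ^ dg K * 0 + 1))) :=
    ((hT.const_mul _).add_const _).const_mul _
  have := ge_of_tendsto hlim hb
  rwa [mul_zero, zero_add, mul_one] at this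

end Pool.Agent.NRM
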