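import Pool.Agent.NRM.StA
import Pool.Agent.RHC.LL

/-!
NRM [NNN], [LLN] (helper95): compatible pairs; port of RHC/NN.lean and RHC/LL.lean.
-/

set_option autoImplicit false

namespace Pool.Agent.NRM

open scoped BigOperators
open Classical NumberField IsDedekindDomain
open Pool.Agent.RHP (Mon mono ev Prim)
open Pool.Agent.RHK Pool.Agent.RHC

/-- [NNN] -/
theorem thm_NNN (hC : RHC.St_CMPT) : St_NNN := by
  intro K _ _ s D m r c t V H Q B a C0 hF x y hx hxy
  obtain ⟨lam, hlam⟩ := hC K s x y hx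
  refine le_trans ?_ (hF.van (gI x y) (gI_ne_bot hxy) (lam ^ (D * m)))
  rw [Nat.cast_le]
  refine Finset.card_le_card fun p hp => ?_
  rw [Finset.mem_filter] at hp ⊢
  refine ⟨hp.1, ?_⟩
  obtain ⟨f, hf1, hf2⟩ := hp.2
  have h4 := hlam (D * m) f
  rwa [hf1, hf2] at h4

/-- [LLN] -/
theorem thm_LLN (hT : RHC.St_CMPT) (hTS : RHC.St_TSC) (hC : RHK.St_CMP) (hI : RHK.St_IDU) :
    St_LLN := by
  intro K _ _ s D m hk
  obtain ⟨C2, hC2, hI2⟩ := hI K
  obtain ⟨C3, hC3, hcmp, -⟩ := hC K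
  have hC3' : (1 : ℝ) ≤ C3 := by exact_mod_cast hC3
  refine ⟨C2 * (2 * C3) ^ dg K, by positivity, ?_⟩
  intro r c t V0 H Q B a C0 hC0 hF W Θ X x y hW hX hΘ hx hvx hvy hpar
  obtain ⟨lam, hlam⟩ := hT K s x y hx
  have hW' : (1 : ℝ) ≤ W := by exact_mod_cast hW
  have hX' : (1 : ℝ) ≤ X := by exact_mod_cast hX
  have hΘ' : 2 * (X : ℝ) ^ 2 * W ≤ Θ := by exact_mod_cast hΘ
  have hΘ1 : (1 : ℝ) ≤ Θ := by nlinarith [one_le_pow₀ hX' (n := 2)]
  have hN0 : 0 < wn x y := wn_pos hpar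
  set J : Ideal (𝓞 K) := Ideal.span {(W : 𝓞 K)} with hJ
  set N' : ℕ := Ideal.absNorm (gI x y ⊔ J) with hN'
  have hg' : gI x y ⊔ J ≠ ⊥ := by
    intro h
    apply gI_ne_bot hpar
    rw [eq_bot_iff, ← h]
    exact le_sup_left
  have hN'0 : 0 < N' := Nat.pos_of_ne_zero fun h' => hg' (Ideal.absNorm_eq_zero_iff.1 h')
  have hN'N : N' ≤ wn x y :=
    Nat.le_of_dvd hN0 (Ideal.absNorm_dvd_absNorm_of_le le_sup_left)
  set D' : ℕ := Ideal.absNorm (gI x y ⊓ J) with hD'
  have hmul : N' * D' = wn x y * W ^ dg K := by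
    have h1 := congrArg Ideal.absNorm (Ideal.sup_mul_inf (gI x y) J)
    rw [map_mul, map_mul] at h1
    rw [hN', hD', h1, hJ, Ideal.absNorm_span_natCast, RingOfIntegers.rank]
    rfl
  have hD'0 : 0 < D' := by
    rcases Nat.eq_zero_or_pos D' with h | h
    · rw [h, mul_zero] at hmul
      have : 0 < wn x y * W ^ dg K := by positivity
      omega
    · exact h
  have hinf : gI x y ⊓ J ≠ ⊥ := by
    intro h
    rw [hD', h, Ideal.absNorm_bot] at hD'0
    exact absurd hD'0 (lt_irrefl 0)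
  -- sizes as real numbers
  have hNr : (0 : ℝ) < wn x y := by exact_mod_cast hN0
  have hN'r : (0 : ℝ) < N' := by exact_mod_cast hN'0
  have hN'1 : (1 : ℝ) ≤ N' := by exact_mod_cast hN'0
  have hD'r : (0 : ℝ) < D' := by exact_mod_cast hD'0
  have hN'Nr : (N' : ℝ) ≤ wn x y := by exact_mod_cast hN'N
  have hmulr : (N' : ℝ) * D' = wn x y * (W : ℝ) ^ dg K := by exact_mod_cast hmul
  -- the size of the family
  set M2 : ℝ := (((QN s m c t V0 : ℝ) ^ r) ^ dg K) ^ 2 with hM2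
  set q : ℝ := 1 / (QN s m c t V0 : ℝ) ^ dg K with hq
  have hM20 : 0 ≤ M2 := by positivity
  have hq0 : 0 ≤ q := by positivity
  -- `T`
  set T : ℝ := ((TS K Θ W).card : ℝ) with hTdef
  have hT1 : (Θ : ℝ) ^ dg K ≤ T * (W : ℝ) ^ dg K := by
    rw [hTdef, (hTS K Θ W hW).1]
    push_cast
    rw [← mul_pow]
    apply pow_le_pow_left₀ (by positivity)
    have h1 : Θ < W * (Θ / W) + W := by
      have h2 := Nat.div_add_mod Θ W
      have h3 := Nat.mod_lt Θ hW
      omega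
    have h2 : (Θ : ℝ) ≤ W * ((Θ / W : ℕ) : ℝ) + W := by exact_mod_cast h1.le
    have h3 : (0 : ℝ) ≤ W * ((Θ / W : ℕ) : ℝ) := by positivity
    have h4 : (2 * ((Θ / W : ℕ) : ℝ) + 1) * W = 2 * (W * ((Θ / W : ℕ) : ℝ)) + W := by ring
    rw [h4]
    linarith
  have hT0 : 0 ≤ T := by positivity
  -- the pairs `(w, w')`
  set P : Finset (Q × Q) := (B ×ˢ B).filter fun p =>
    a p.2 - lam ^ (D * m) * a p.1 ∈ gI x y ⊔ J with hP
  have hrp : 0 ≤ rp N' (MM D) := by unfold rp; positivity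
  have hPcard : (P.card : ℝ) ≤ C0 * M2 * (rp N' (MM D) + q) :=
    hF.van (gI x y ⊔ J) hg' (lam ^ (D * m))
  -- the bound for the number of the `v`
  have hPT : PT (fun _ : InfinitePlace K => 2 * (C3 : ℝ) * Θ) = (2 * (C3 : ℝ) * Θ) ^ dg K := by
    unfold PT
    rw [prod_pow_mult]
  have hwn : (wn x y : ℝ) ≤ (2 * (X : ℝ) ^ 2) ^ dg K := by
    refine (wn_le_wp hpar).trans ?_
    rw [← prod_pow_mult (K := K)]
    refine Finset.prod_le_prod (fun v _ => pow_nonneg (wv_nonneg v x y) _) fun v _ =>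
      pow_le_pow_left₀ (wv_nonneg v x y) ?_ _
    refine (wv_le_mul v x y).trans ?_
    have := mul_le_mul (hvx v) (hvy v) (vs_nonneg v y) (by positivity)
    rw [sq]
    linarith
  have hDle : (D' : ℝ) ≤ PT (fun _ : InfinitePlace K => 2 * (C3 : ℝ) * Θ) := by
    rw [hPT]
    have h1 : (D' : ℝ) ≤ wn x y * (W : ℝ) ^ dg K := by
      rw [← hmulr]
      exact le_mul_of_one_le_left hD'r.le hN'1
    refine h1.trans ?_
    calc (wn x y : ℝ) * (W : ℝ) ^ dg K ≤ (2 * (X : ℝ) ^ 2) ^ dg K * (W : ℝ) ^ dg K :=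
          mul_le_mul_of_nonneg_right hwn (by positivity)
      _ = (2 * (X : ℝ) ^ 2 * W) ^ dg K := (mul_pow _ _ _).symm
      _ ≤ (2 * (C3 : ℝ) * Θ) ^ dg K := by
          apply pow_le_pow_left₀ (by positivity)
          have h5 := mul_le_mul_of_nonneg_right hC3' (show (0 : ℝ) ≤ Θ by linarith)
          linarith
  have hIDU := hI2 (gI x y ⊓ J) (fun _ => 2 * (C3 : ℝ) * Θ) (fun _ => by positivity) hinf hDle
  rw [hPT] at hIDU
  set V : Finset (𝓞 K) := (pT fun _ : InfinitePlace K => 2 * (C3 : ℝ) * Θ).filter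
    fun b => b ∈ gI x y ⊓ J with hVdef
  set A := (((B ×ˢ B) ×ˢ (TS K Θ W ×ˢ TS K Θ W)).filter fun p =>
        Cmp (D * m) x y (a p.1.1 + p.2.1) (a p.1.2 + p.2.2)) with hA
  have hTSm : ∀ b ∈ TS K Θ W, cz b ≤ Θ ∧ (W : 𝓞 K) ∣ b := by
    intro b hb
    unfold TS at hb
    rw [Finset.mem_filter, mem_cb] at hb
    exact hb
  have hJm : ∀ b : 𝓞 K, (W : 𝓞 K) ∣ b → b ∈ J := fun b hb => Ideal.mem_span_singleton.2 hb
  have hAcard : (A.card : ℝ) ≤ (P.card * T) * (V.card : ℝ) := by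
    have h0 := LL_card A (P ×ˢ TS K Θ W) (fun p => (p.1, p.2.1)) ?_ (V.card : ℝ) ?_
    · rw [Finset.card_product] at h0
      push_cast at h0
      exact h0
    · rintro ⟨⟨w, w'⟩, ⟨u, v⟩⟩ hp
      rw [hA, Finset.mem_filter, Finset.mem_product, Finset.mem_product, Finset.mem_product] at hp
      obtain ⟨⟨⟨h1, h2⟩, h3, h4⟩, f, h5, h6⟩ := hp
      simp only at h1 h2 h3 h4 h5 h6
      rw [Finset.mem_product, hP, Finset.mem_filter, Finset.mem_product]
      refine ⟨⟨⟨h1, h2⟩, ?_⟩, h3⟩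
      have h7 := hlam (D * m) f
      rw [h5, h6] at h7
      have h8 : a w' - lam ^ (D * m) * a w =
          (a w' + v - lam ^ (D * m) * (a w + u)) + (lam ^ (D * m) * u - v) := by ring
      simp only
      rw [h8]
      refine add_mem (Ideal.mem_sup_left h7) (Ideal.mem_sup_right ?_)
      exact sub_mem (Ideal.mul_mem_left _ _ (hJm u (hTSm u h3).2)) (hJm v (hTSm v h4).2)
    · rintro ⟨⟨w, w'⟩, u⟩ _
      rw [Nat.cast_le]
      rcases (A.filter fun p => (p.1, p.2.1) = ((w, w'), u)).eq_empty_or_nonempty with h | ⟨q0, hq0⟩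
      · rw [h]
        exact Nat.zero_le _
      · have key : ∀ p ∈ A.filter fun p => (p.1, p.2.1) = ((w, w'), u),
            p = ((w, w'), (u, p.2.2)) ∧ p.2.2 ∈ TS K Θ W ∧
              a w' + p.2.2 - lam ^ (D * m) * (a w + u) ∈ gI x y := by
          rintro ⟨⟨w1, w1'⟩, ⟨u1, v1⟩⟩ hp
          rw [Finset.mem_filter, hA, Finset.mem_filter, Finset.mem_product, Finset.mem_product,
            Finset.mem_product] at hp
          obtain ⟨⟨⟨⟨h1, h2⟩, h3, h4⟩, f, h5, h6⟩, h7⟩ := hp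
          simp only [Prod.mk.injEq] at h7
          obtain ⟨⟨rfl, rfl⟩, rfl⟩ := h7
          simp only at h1 h2 h3 h4 h5 h6
          refine ⟨rfl, h4, ?_⟩
          have h7 := hlam (D * m) f
          rw [h5, h6] at h7
          exact h7
        obtain ⟨-, k2, k3⟩ := key q0 hq0
        refine Finset.card_le_card_of_injOn (fun p => p.2.2 - q0.2.2) ?_ ?_
        · intro p hp
          obtain ⟨-, l2, l3⟩ := key p (Finset.mem_coe.1 hp)
          rw [Finset.mem_coe, hVdef, Finset.mem_filter, mem_pT]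
          refine ⟨fun v => ?_, ?_, ?_⟩
          · refine (av_sub_le v _ _).trans ?_
            have e1 := hcmp p.2.2 v
            have e2 := hcmp q0.2.2 v
            have e3 : ((cz p.2.2 : ℕ) : ℝ) ≤ Θ := by exact_mod_cast (hTSm _ l2).1
            have e4 : ((cz q0.2.2 : ℕ) : ℝ) ≤ Θ := by exact_mod_cast (hTSm _ k2).1
            have e5 := mul_le_mul_of_nonneg_left e3 (show (0 : ℝ) ≤ C3 by positivity)
            have e6 := mul_le_mul_of_nonneg_left e4 (show (0 : ℝ) ≤ C3 by positivity)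
            linarith
          · have h8 : p.2.2 - q0.2.2 = (a w' + p.2.2 - lam ^ (D * m) * (a w + u)) -
                (a w' + q0.2.2 - lam ^ (D * m) * (a w + u)) := by ring
            show p.2.2 - q0.2.2 ∈ gI x y
            rw [h8]
            exact sub_mem l3 k3
          · exact sub_mem (hJm _ (hTSm _ l2).2) (hJm _ (hTSm _ k2).2)
        · intro p hp p' hp' h
          obtain ⟨l1, -, -⟩ := key p (Finset.mem_coe.1 hp)
          obtain ⟨l1', -, -⟩ := key p' (Finset.mem_coe.1 hp')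
          have h9 : p.2.2 = p'.2.2 := sub_left_injective h
          rw [l1, l1', h9]
  -- the end
  have hVcard : (V.card : ℝ) * wn x y ≤ C2 * (2 * C3) ^ dg K * T * N' := by
    have h1 : (V.card : ℝ) * (wn x y * (W : ℝ) ^ dg K) ≤
        C2 * (2 * C3) ^ dg K * T * N' * (W : ℝ) ^ dg K := by
      rw [← hmulr]
      calc (V.card : ℝ) * (N' * D') = (V.card * D') * N' := by ring
        _ ≤ (C2 * (2 * (C3 : ℝ) * Θ) ^ dg K) * N' := mul_le_mul_of_nonneg_right hIDU hN'r.le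
        _ = C2 * (2 * C3) ^ dg K * N' * (Θ : ℝ) ^ dg K := by rw [mul_pow]; ring
        _ ≤ C2 * (2 * C3) ^ dg K * N' * (T * (W : ℝ) ^ dg K) :=
            mul_le_mul_of_nonneg_left hT1 (by positivity)
        _ = C2 * (2 * C3) ^ dg K * T * N' * (W : ℝ) ^ dg K := by ring
    have h2 : (0 : ℝ) < (W : ℝ) ^ dg K := by positivity
    rw [← mul_assoc] at h1
    exact le_of_mul_le_mul_right h1 h2
  have hMM : 1 ≤ MM D := by
    unfold MM
    have : 2 ≤ D * (D + 1) := by nlinarith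
    omega
  have hfin : (rp N' (MM D) + q) * N' ≤ (rp (wn x y) (MM D) + q) * wn x y := by
    have h1 := LL_rp hMM hN'r hN'Nr
    have h2 := mul_le_mul_of_nonneg_left hN'Nr hq0
    rw [add_mul, add_mul]
    linarith
  have hgoal : (A.card : ℝ) * wn x y ≤ (C2 * (2 * C3) ^ dg K * C0 * (T ^ 2 *
      (M2 * (rp (wn x y) (MM D) + q)))) * wn x y := by
    calc (A.card : ℝ) * wn x y ≤ ((P.card * T) * (V.card : ℝ)) * wn x y :=
          mul_le_mul_of_nonneg_right hAcard hNr.le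
      _ = (P.card * T) * (V.card * wn x y) := by ring
      _ ≤ (P.card * T) * (C2 * (2 * C3) ^ dg K * T * N') :=
          mul_le_mul_of_nonneg_left hVcard (by positivity)
      _ = P.card * (C2 * (2 * C3) ^ dg K * T ^ 2 * N') := by ring
      _ ≤ (C0 * M2 * (rp N' (MM D) + q)) * (C2 * (2 * C3) ^ dg K * T ^ 2 * N') :=
          mul_le_mul_of_nonneg_right hPcard (by positivity)
      _ = (C2 * (2 * C3) ^ dg K * C0 * T ^ 2 * M2) * ((rp N' (MM D) + q) * N') := by ring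
      _ ≤ (C2 * (2 * C3) ^ dg K * C0 * T ^ 2 * M2) *
            ((rp (wn x y) (MM D) + q) * wn x y) :=
          mul_le_mul_of_nonneg_left hfin (by positivity)
      _ = _ := by ring
  exact le_of_mul_le_mul_right hgoal hNr

end Pool.Agent.NRM
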