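import Pool.Agent.NRM.Poly

/-!
NRM: norm forms are products of linear forms without a common zero (helper95).
-/

set_option autoImplicit false

namespace Pool.Agent.NRM

open scoped BigOperators
open Classical NumberField

/-- linearly independent elements: the conjugate linear forms have no common zero -/
theorem NormForm_inj (K : Type) [Field K] [CharZero K] (L : Type) [Field L] [Algebra K L]
    [FiniteDimensional K L] {r : ℕ} (ω : Fin r → L) (hω : LinearIndependent K ω)
    (w : Fin r → AlgebraicClosure K)
    (h : ∀ σ : L →ₐ[K] AlgebraicClosure K, ∑ j, σ (ω j) * w j = 0) : w = 0 := by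
  have hs := hω.linearIndepOn_id
  set b := Module.Basis.extend hs with hb
  have hfin : Finite (hs.extend (Set.subset_univ _)) := Module.Finite.finite_basis b
  have := Fintype.ofFinite (hs.extend (Set.subset_univ _))
  have hcard : Fintype.card (hs.extend (Set.subset_univ (Set.range ω))) =
      Fintype.card (L →ₐ[K] AlgebraicClosure K) := by
    rw [AlgHom.card K L (AlgebraicClosure K), Module.finrank_eq_card_basis b]
  obtain ⟨e⟩ := Fintype.card_eq.1 hcard
  have hdet : (Algebra.embeddingsMatrixReindex K (AlgebraicClosure K) b e).det ≠ 0 := by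
    intro h0
    have h1 := Algebra.discr_eq_det_embeddingsMatrixReindex_pow_two K (AlgebraicClosure K) b e
    rw [h0, zero_pow two_ne_zero] at h1
    exact Algebra.discr_not_zero_of_basis K b
      ((map_eq_zero (algebraMap K (AlgebraicClosure K))).1 h1)
  set w' : hs.extend (Set.subset_univ (Set.range ω)) → AlgebraicClosure K :=
    fun k => ∑ j, if ω j = (k : L) then w j else 0 with hw'
  have h2 : Matrix.vecMul w' (Algebra.embeddingsMatrixReindex K (AlgebraicClosure K) b e) = 0 := by
    funext k
    rw [Matrix.vecMul, dotProduct, Pi.zero_apply]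
    have h3 : ∀ x : hs.extend (Set.subset_univ (Set.range ω)),
        Algebra.embeddingsMatrixReindex K (AlgebraicClosure K) b e x k = e k (x : L) := by
      intro x
      unfold Algebra.embeddingsMatrixReindex
      rw [Matrix.reindex_apply, Matrix.submatrix_apply, Algebra.embeddingsMatrix_apply,
        Equiv.symm_symm, hb, Module.Basis.extend_apply_self]
      rfl
    simp only [h3, hw', Finset.sum_mul]
    rw [Finset.sum_comm]
    refine Eq.trans ?_ (h (e k))
    refine Finset.sum_congr rfl fun j _ => ?_
    have hj : ω j ∈ hs.extend (Set.subset_univ (Set.range ω)) :=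
      hs.subset_extend _ ⟨j, rfl⟩
    rw [Fintype.sum_eq_single (⟨ω j, hj⟩ : hs.extend (Set.subset_univ (Set.range ω)))]
    · rw [if_pos rfl, mul_comm]
    · intro x hx
      rw [if_neg, zero_mul]
      intro hxx
      exact hx (Subtype.ext hxx.symm)
  have h4 := Matrix.eq_zero_of_vecMul_eq_zero hdet h2
  funext j
  have hj : ω j ∈ hs.extend (Set.subset_univ (Set.range ω)) := hs.subset_extend _ ⟨j, rfl⟩
  have h5 := congrFun h4 ⟨ω j, hj⟩
  rw [hw'] at h5
  simp only [Pi.zero_apply] at h5
  rw [Fintype.sum_eq_single j, if_pos rfl] at h5
  · exact h5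
  · intro i hi
    rw [if_neg]
    intro hij
    exact hi (hω.injective hij)

/-- norm forms are products of linear forms without a common zero -/
theorem NormForm_dec (K : Type) [Field K] [CharZero K] (L : Type) [Field L] [Algebra K L]
    [FiniteDimensional K L] {r : ℕ} (ω : Fin r → L) (hω : LinearIndependent K ω)
    (g : MvPolynomial (Fin r) (𝓞 K))
    (hg : ∀ w : Fin r → K, valN w g = Algebra.norm K (∑ j, w j • ω j)) :
    DecP (Module.finrank K L) g := by
  have hcard : Fintype.card (Fin (Module.finrank K L)) =
      Fintype.card (L →ₐ[K] AlgebraicClosure K) := by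
    rw [AlgHom.card K L (AlgebraicClosure K), Fintype.card_fin]
  obtain ⟨e⟩ := Fintype.card_eq.1 hcard
  refine ⟨fun i j => e i (ω j), fun w => ?_, fun w hw => ?_⟩
  · set P : MvPolynomial (Fin r) (AlgebraicClosure K) :=
      MvPolynomial.map ((algebraMap K (AlgebraicClosure K)).comp (algebraMap (𝓞 K) K)) g with hP
    set Q : MvPolynomial (Fin r) (AlgebraicClosure K) :=
      ∏ i, ∑ j, MvPolynomial.C (e i (ω j)) * MvPolynomial.X j with hQ
    have hPQ : P = Q := by
      refine MvPolynomial.funext_set
        (fun _ => Set.range (algebraMap K (AlgebraicClosure K))) (fun _ => ?_) ?_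
      · exact Set.infinite_range_of_injective (algebraMap K (AlgebraicClosure K)).injective
      · intro x hx
        have h1 : ∀ j, ∃ y : K, algebraMap K (AlgebraicClosure K) y = x j :=
          fun j => hx j (Set.mem_univ j)
        choose y hy using h1
        obtain rfl : (fun j => algebraMap K (AlgebraicClosure K) (y j)) = x := funext hy
        have h2 : MvPolynomial.eval (fun j => algebraMap K (AlgebraicClosure K) (y j)) P =
            algebraMap K (AlgebraicClosure K) (valN y g) := by
          rw [hP, MvPolynomial.eval_map]
          unfold valN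
          have h3 := MvPolynomial.hom_eval₂ g ((algebraMap K K).comp (algebraMap (𝓞 K) K))
            (algebraMap K (AlgebraicClosure K)) y
          rw [h3]
          rfl
        rw [h2, hg, Algebra.norm_eq_prod_embeddings K (AlgebraicClosure K), hQ, map_prod]
        rw [← e.prod_comp]
        refine Finset.prod_congr rfl fun i _ => ?_
        rw [map_sum, map_sum]
        refine Finset.sum_congr rfl fun j _ => ?_
        rw [map_smul, map_mul, MvPolynomial.eval_C, MvPolynomial.eval_X, Algebra.smul_def, mul_comm]
    have h5 := congrArg (MvPolynomial.eval w) hPQ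
    rw [hP, MvPolynomial.eval_map, hQ, map_prod] at h5
    unfold valN
    rw [h5]
    refine Finset.prod_congr rfl fun i _ => ?_
    rw [map_sum]
    refine Finset.sum_congr rfl fun j _ => ?_
    rw [map_mul, MvPolynomial.eval_C, MvPolynomial.eval_X]
  · refine NormForm_inj K L ω hω w fun σ => ?_
    have h6 := hw (e.symm σ)
    simp only [Equiv.apply_symm_apply] at h6
    exact h6

end Pool.Agent.NRM
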