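import Pool.Agent.NRM.StB

/-!
NRM, module WABN: the product over the prime ideals (helper39; port of RHCW/WABN.lean by helper66).
-/

set_option autoImplicit false

namespace Pool.Agent.NRM

open scoped BigOperators
open Classical NumberField IsDedekindDomain
open Pool.Agent.RHP (Mon mono ev Sys Prim WB WW)
open Pool.Agent.RHK Pool.Agent.RHC
open Pool.Agent.RHCB (cred)
open Pool.Agent.RHCW (cmk)

theorem WABN_one {K : Type} [Field K] [NumberField K] {s r D d : ℕ} (b q : ℕ)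
    (g : Mon r D → 𝓞 K) (ρ₀ : Fin s → 𝓞 K) (ω₀ : Fin r → 𝓞 K) (f : Mon s d → 𝓞 K) :
    wsigN b q (cred (⊤ : Ideal (𝓞 K)) g) (cmk (⊤ : Ideal (𝓞 K)) ρ₀) (cmk (⊤ : Ideal (𝓞 K)) ω₀)
      (cred (⊤ : Ideal (𝓞 K)) f) = 1 := by
  have hs : Subsingleton (𝓞 K ⧸ (⊤ : Ideal (𝓞 K))) := Ideal.Quotient.subsingleton_iff.2 rfl
  have h1 : wcntN b q (cred (⊤ : Ideal (𝓞 K)) g) (cmk (⊤ : Ideal (𝓞 K)) ρ₀)
      (cmk (⊤ : Ideal (𝓞 K)) ω₀) (cred (⊤ : Ideal (𝓞 K)) f) = 1 := by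
    unfold wcntN
    rw [Nat.card_eq_one_iff_unique]
    refine ⟨⟨fun a b => Subtype.ext (Subsingleton.elim _ _)⟩,
      ⟨⟨(fun _ => 0, fun _ => 0), ⟨fun _ => 0, ?_⟩, ⟨?_, ?_⟩, ?_⟩⟩⟩
    · exact Subsingleton.elim _ _
    · exact fun l => ⟨0, Subsingleton.elim _ _⟩
    · exact fun l => ⟨0, Subsingleton.elim _ _⟩
    · exact Subsingleton.elim _ _
  have h2 : Nat.card (𝓞 K ⧸ (⊤ : Ideal (𝓞 K))) = 1 := Nat.card_unique
  unfold wsigN
  rw [h1, h2]
  simp

theorem WABN_prod (h : St_CRTN) {K : Type} [Field K] [NumberField K]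
    (n : HeightOneSpectrum (𝓞 K) → ℕ) (S : Finset (HeightOneSpectrum (𝓞 K))) (s r D d b q : ℕ)
    (g : Mon r D → 𝓞 K) (ρ₀ : Fin s → 𝓞 K) (ω₀ : Fin r → 𝓞 K) (f : Mon s d → 𝓞 K) :
    wsigN b q (cred (∏ v ∈ S, v.asIdeal ^ n v) g) (cmk (∏ v ∈ S, v.asIdeal ^ n v) ρ₀)
      (cmk (∏ v ∈ S, v.asIdeal ^ n v) ω₀) (cred (∏ v ∈ S, v.asIdeal ^ n v) f) =
      ∏ v ∈ S, wsigN b q (cred (v.asIdeal ^ n v) g) (cmk (v.asIdeal ^ n v) ρ₀)
        (cmk (v.asIdeal ^ n v) ω₀) (cred (v.asIdeal ^ n v) f) := by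
  induction S using Finset.induction_on with
  | empty =>
    rw [Finset.prod_empty, Finset.prod_empty, Ideal.one_eq_top]
    exact WABN_one b q g ρ₀ ω₀ f
  | insert p S hp ih =>
    rw [Finset.prod_insert hp, Finset.prod_insert hp, ← ih]
    apply h
    · exact pow_ne_zero _ p.ne_bot
    · exact Finset.prod_ne_zero_iff.2 fun q _ => pow_ne_zero _ q.ne_bot
    · refine IsCoprime.prod_right fun q hq => ?_
      refine HeightOneSpectrum.isCoprime_pow_of_ne p q ?_ _ _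
      rintro rfl
      exact hp hq

/-- the congruence modulo a unit is always true -/
theorem WABN_unit {K : Type} [Field K] [NumberField K] {s r D d : ℕ} (b q : ℕ)
    (g : Mon r D → 𝓞 K) (ρ₀ : Fin s → 𝓞 K) (ω₀ : Fin r → 𝓞 K) (f : Mon s d → 𝓞 K)
    (I : Ideal (𝓞 K)) (hq : IsUnit (q : 𝓞 K ⧸ I)) :
    wsigN b q (cred I g) (cmk I ρ₀) (cmk I ω₀) (cred I f) = sigN b (cred I g) (cred I f) := by
  have h1 : wcntN b q (cred I g) (cmk I ρ₀) (cmk I ω₀) (cred I f) =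
      cntN b (cred I g) (cred I f) := by
    unfold wcntN cntN
    refine Nat.card_congr (Equiv.subtypeEquivRight fun p => ?_)
    constructor
    · rintro ⟨h1, -, h3⟩
      exact ⟨h1, h3⟩
    · rintro ⟨h1, h3⟩
      exact ⟨h1, ⟨fun l => hq.dvd, fun l => hq.dvd⟩, h3⟩
  unfold wsigN sigN
  rw [h1]

theorem WABN_congr {K : Type} [Field K] [NumberField K] {s r D d : ℕ} (b q : ℕ)
    (g : Mon r D → 𝓞 K) (ρ₀ : Fin s → 𝓞 K) (ω₀ : Fin r → 𝓞 K) (f : Mon s d → 𝓞 K)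
    (I I' : Ideal (𝓞 K)) (h : I = I') :
    wsigN b q (cred I g) (cmk I ρ₀) (cmk I ω₀) (cred I f) =
      wsigN b q (cred I' g) (cmk I' ρ₀) (cmk I' ω₀) (cred I' f) := by
  subst h
  rfl

/-- a prime ideal containing a product of powers contains a factor -/
theorem WABN_mem {K : Type} [Field K] [NumberField K] (v : HeightOneSpectrum (𝓞 K))
    (S : Finset ℕ) (k : ℕ) (h : ((∏ p ∈ S, p ^ k : ℕ) : 𝓞 K) ∈ v.asIdeal) :
    ∃ p ∈ S, (p : 𝓞 K) ∈ v.asIdeal := by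
  rw [Nat.cast_prod] at h
  obtain ⟨p, hp, h1⟩ := (v.isPrime.prod_mem_iff).1 h
  rw [Nat.cast_pow] at h1
  exact ⟨p, hp, v.isPrime.mem_of_pow_mem _ h1⟩

theorem thm_WABN (h : St_CRTN) : St_WABN := by
  intro K _ _ p0
  set Q : Finset ℕ := (Finset.range (p0 + 1)).filter Nat.Prime with hQ
  have hP0 : ∀ k : ℕ, (∏ p ∈ Q, p ^ k : ℕ) ≠ 0 := fun k =>
    Finset.prod_ne_zero_iff.2 fun p hp => pow_ne_zero _ (Finset.mem_filter.1 hp).2.ne_zero
  have hI0 : ∀ k : ℕ, Ideal.span {((∏ p ∈ Q, p ^ k : ℕ) : 𝓞 K)} ≠ 0 := by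
    intro k h0
    rw [Ideal.zero_eq_bot, Ideal.span_singleton_eq_bot, Nat.cast_eq_zero] at h0
    exact hP0 k h0
  have hfin := Ideal.finite_factors (hI0 1)
  set S : Finset (HeightOneSpectrum (𝓞 K)) := hfin.toFinset with hS
  have hmemS : ∀ v : HeightOneSpectrum (𝓞 K), v ∈ S ↔
      ((∏ p ∈ Q, p ^ 1 : ℕ) : 𝓞 K) ∈ v.asIdeal := by
    intro v
    rw [hS, Set.Finite.mem_toFinset]
    show v.asIdeal ∣ _ ↔ _
    rw [Ideal.dvd_iff_le, Ideal.span_singleton_le_iff_mem]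
  refine ⟨S, fun v hv => ?_, fun m0 hle => ?_⟩
  · obtain ⟨p, hp, h1⟩ := WABN_mem v Q 1 ((hmemS v).1 hv)
    obtain ⟨h2, h3⟩ := Finset.mem_filter.1 hp
    exact ⟨p, h3, by have := Finset.mem_range.1 h2; omega, h1⟩
  have hW : 0 < WB p0 m0 := Finset.prod_pos fun q hq => pow_pos (Finset.mem_filter.1 hq).2.pos _
  have hWp : ∀ p : ℕ, p.Prime → p ∣ WB p0 m0 → p0 < p := by
    intro p hp hd
    unfold WB at hd
    obtain ⟨q, hq, hd'⟩ := (hp.prime.dvd_finsetProd_iff _).1 hd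
    obtain ⟨h1, h2⟩ := Finset.mem_filter.1 hq
    have h3 := (Nat.prime_dvd_prime_iff_eq hp h2).1 (hp.dvd_of_dvd_pow hd')
    rw [h3]
    exact (Finset.mem_Ioc.1 h1).1
  refine ⟨hW, hWp, ?_⟩
  · set I1 : Ideal (𝓞 K) := Ideal.span {((∏ p ∈ Q, p ^ m0 : ℕ) : 𝓞 K)} with hI1
    refine ⟨fun v => (Associates.mk v.asIdeal).count (Associates.mk I1).factors,
      fun q hq0 hq s r D d b g ρ₀ ω₀ f => ?_⟩
    have hprod : ∏ v ∈ S, v.asIdeal ^ (Associates.mk v.asIdeal).count (Associates.mk I1).factors =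
        I1 := by
      have h1 := Ideal.finprod_heightOneSpectrum_factorization (hI0 m0)
      rw [finprod_eq_prod_of_mulSupport_subset (s := S)] at h1
      · exact h1
      · intro v hv
        rw [Finset.mem_coe, hmemS]
        have h2 : v.asIdeal ∣ I1 := by
          rw [← Associates.count_ne_zero_iff_dvd (hI0 m0) v.irreducible]
          intro h0
          apply hv
          show v.asIdeal ^ (Associates.mk v.asIdeal).count (Associates.mk I1).factors = 1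
          rw [h0, pow_zero]
        rw [hI1, Ideal.dvd_iff_le, Ideal.span_singleton_le_iff_mem] at h2
        obtain ⟨p, hp, h3⟩ := WABN_mem v Q m0 h2
        have h4 : ((∏ p ∈ Q, p ^ 1 : ℕ) : 𝓞 K) = (p : 𝓞 K) * ((∏ q ∈ Q.erase p, q ^ 1 : ℕ) : 𝓞 K) := by
          rw [← Nat.cast_mul, ← Finset.mul_prod_erase Q (fun p => p ^ 1) hp, pow_one]
        rw [h4]
        exact Ideal.mul_mem_right _ _ h3
    have h1 : WW m0 = (∏ p ∈ Q, p ^ m0) * WB p0 m0 := by
      unfold WW WB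
      rw [← Finset.prod_union]
      · refine Finset.prod_congr ?_ fun _ _ => rfl
        ext p
        simp only [hQ, Finset.mem_filter, Finset.mem_range, Finset.mem_union, Finset.mem_Ioc]
        constructor
        · rintro ⟨h1, h2⟩
          rcases Nat.lt_or_ge p (p0 + 1) with h3 | h3
          · exact Or.inl ⟨h3, h2⟩
          · exact Or.inr ⟨⟨by omega, by omega⟩, h2⟩
        · rintro (⟨h1, h2⟩ | ⟨⟨h1, h3⟩, h2⟩)
          · exact ⟨by omega, h2⟩
          · exact ⟨by omega, h2⟩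
      · rw [Finset.disjoint_left]
        intro p h1 h2
        simp only [hQ, Finset.mem_filter, Finset.mem_range, Finset.mem_Ioc] at h1 h2
        omega
    have hcop : Nat.Coprime (∏ p ∈ Q, p ^ m0) (WB p0 m0) := by
      unfold WB
      refine Nat.Coprime.prod_left fun p hp => Nat.Coprime.prod_right fun q hq => ?_
      obtain ⟨h1, h2⟩ := Finset.mem_filter.1 hp
      obtain ⟨h3, h4⟩ := Finset.mem_filter.1 hq
      refine Nat.Coprime.pow _ _ ?_
      rw [Nat.coprime_primes h2 h4]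
      rintro rfl
      have := Finset.mem_range.1 h1
      have := (Finset.mem_Ioc.1 h3).1
      omega
    have hco : IsCoprime I1 (Ideal.span {(WB p0 m0 : 𝓞 K)}) := by
      rw [hI1, Ideal.isCoprime_span_singleton_iff]
      have h2 := (Nat.isCoprime_iff_coprime.2 hcop).map (Int.castRingHom (𝓞 K))
      simpa using h2
    have hspan : Ideal.span {(WW m0 : 𝓞 K)} = I1 * Ideal.span {(WB p0 m0 : 𝓞 K)} := by
      rw [hI1, Ideal.span_singleton_mul_span_singleton, ← Nat.cast_mul, ← h1]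
    have hB0 : Ideal.span {(WB p0 m0 : 𝓞 K)} ≠ ⊥ := by
      intro h0
      rw [Ideal.span_singleton_eq_bot, Nat.cast_eq_zero] at h0
      omega
    have hqW : Nat.Coprime q (WB p0 m0) := by
      refine Nat.coprime_of_dvd fun p hp h1 h2 => ?_
      have h3 := hq p hp h1
      have h4 := hWp p hp h2
      omega
    have hunit : IsUnit (q : 𝓞 K ⧸ Ideal.span {(WB p0 m0 : 𝓞 K)}) := by
      have h2 := (Nat.isCoprime_iff_coprime.2 hqW).map (Int.castRingHom (𝓞 K))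
      simp only [map_natCast] at h2
      obtain ⟨a, b, hab⟩ := h2
      refine IsUnit.of_mul_eq_one (Ideal.Quotient.mk _ a) ?_
      have h5 := congrArg (Ideal.Quotient.mk (Ideal.span {(WB p0 m0 : 𝓞 K)})) hab
      rw [map_add, map_mul, map_mul, map_natCast, map_one,
        Ideal.Quotient.eq_zero_iff_mem.2 (Ideal.mem_span_singleton_self (WB p0 m0 : 𝓞 K)),
        mul_zero, add_zero, mul_comm] at h5
      exact h5
    refine (WABN_congr b q g ρ₀ ω₀ f _ _ hspan).trans ?_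
    rw [h K I1 _ (hI0 m0) hB0 hco s r D d b q g ρ₀ ω₀ f, ← WABN_prod h,
      WABN_congr b q g ρ₀ ω₀ f _ _ hprod, WABN_unit b q g ρ₀ ω₀ f _ hunit]

end Pool.Agent.NRM
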