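import Pool.Agent.NRM.AsmA
import Pool.Agent.NRM.NormForm
import Pool.Agent.NRM.CRTN
import Pool.Agent.NRM.WABN
import Pool.Agent.NRM.LLN
import Pool.Agent.NRM.CSMN

/-!
NRM: the Hasse principle and weak approximation for one hundred percent of the equations `g(w) = f(x)` over a
number field (helper95).
-/

set_option autoImplicit false

namespace Pool.Agent.NRM

open scoped BigOperators
open Classical NumberField IsDedekindDomain
open Pool.Agent.RHK Pool.Agent.RHC
open Pool.Agent.RHCB (InC)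

theorem block_NNN : St_NNN := thm_NNN thm_CMPT
theorem block_LLN : St_LLN := thm_LLN thm_CMPT thm_TSC thm_CMP block_IDU
theorem block_CNTN : St_CNTN := thm_CNTN block_CBN thm_PHI thm_DLT block_NNN block_LLN thm_TSC

/-- the second moment -/
theorem block_CSMN : St_CSMN :=
  thm_CSMN thm_ABSC block_CTYPN block_CNTN block_CPARN block_CSUMN thm_PHI thm_TSC RHM.block_PBC

/-- the theorem for polynomials -/
theorem main_polyN (K : Type) [Field K]
    [NumberField K] (n r D m : ℕ) (hn : 2 ≤ n) (hD : 2 ≤ D) (hm : 1 ≤ m)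
    (g : MvPolynomial (Fin r) (𝓞 K)) (hg : g.IsHomogeneous D) (hg0 : g ≠ 0)
    (hF : m * (D - 1) ≤ n ∨ (DecP D g ∧ m * D ≤ n + m * r)) :
    (∃ c : ℝ, 0 < c ∧ ∀ᶠ H : ℕ in Filter.atTop,
      c * (({f | InC (D * m) H f} : Set (MvPolynomial (Fin (n + 1)) (𝓞 K))).ncard : ℝ) ≤
      (({f | InC (D * m) H f ∧ (SmoP g f ∧ LocP g f)} :
        Set (MvPolynomial (Fin (n + 1)) (𝓞 K))).ncard : ℝ)) ∧
    ∀ (S : Finset (HeightOneSpectrum (𝓞 K))) (η : ℝ), 0 < η → Filter.Tendsto (fun H : ℕ =>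
      (({f | InC (D * m) H f ∧ (SmoP g f ∧ HasPtP g f K ∧ AppP D m S η g f)} :
        Set (MvPolynomial (Fin (n + 1)) (𝓞 K))).ncard : ℝ) /
      (({f | InC (D * m) H f ∧ (SmoP g f ∧ LocP g f)} :
        Set (MvPolynomial (Fin (n + 1)) (𝓞 K))).ncard : ℝ)) Filter.atTop (nhds 1) :=
  main_of block_CSMN (thm_WABN thm_CRTN) thm_CRTN K n r D m hn hD hm g hg hg0 hF

end Pool.Agent.NRM
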