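import Pool.Agent.NRM.StB
import Pool.Agent.RHCB.SIGLOWC

/-!
NRM, module SIGLOWN: the local densities of the points in a residue class are seldom small, uniformly in the
class (helper21; port of `RHCW/SIGLOWCW.lean`).
-/

set_option autoImplicit false

namespace Pool.Agent.NRM

open scoped BigOperators
open Classical NumberField IsDedekindDomain
open Pool.Agent.RHP (Mon mono ev Sys Prim pd WB WW)
open Pool.Agent.RHK Pool.Agent.RHC
open Pool.Agent.RHKB (mI hh jj qv MK uu BadK)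
open Pool.Agent.RHCB (BadC cred cemb uk PrC hM f00 SIGLOWC_frac SIGLOWC_finite)
open Pool.Agent.RHCW (cmk)

/-- multiplication of a form by a constant -/
theorem SIGLOWN_bad {K : Type} [Field K] {L : Type} [NormedField L] [Algebra K L] {s d : ℕ}
    (b : L) (hb : b ≠ 0) (τ : ℝ) (f : Mon s d → 𝓞 K)
    (h : BadC (‖b‖ * τ) (cemb b f)) : BadC τ (cemb (1 : L) f) := by
  have hb0 : 0 < ‖b‖ := norm_pos_iff.2 hb
  have hf : cemb b f = fun μ => b * cemb (1 : L) f μ := by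
    funext μ
    unfold cemb
    rw [one_mul]
  obtain ⟨z, lam, hz, hlam, h1, h2⟩ := h
  refine ⟨z, lam, hz, hlam, fun i => ?_, fun t => ?_⟩
  · have h3 : ‖ev (cemb b f) z‖ < ‖b‖ * τ := h1 i
    rw [hf, Pool.Agent.RHP.ev_smul, norm_mul] at h3
    exact lt_of_mul_lt_mul_left h3 hb0.le
  · have h3 : ‖∑ i : Fin 1, lam i * pd t (cemb b f) z‖ < ‖b‖ * τ := h2 t
    have h4 : ∑ i : Fin 1, lam i * pd t (cemb b f) z =
        b * ∑ i : Fin 1, lam i * pd t (cemb (1 : L) f) z := by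
      rw [hf, Finset.mul_sum]
      refine Finset.sum_congr rfl fun i _ => ?_
      rw [Pool.Agent.RHP.pd_smul]
      ring
    rw [h4, norm_mul] at h3
    exact lt_of_mul_lt_mul_left h3 hb0.le

/-- the lower bound at one finite place -/
theorem SIGLOWN_place (hU : St_UIFTN) (hP : St_PCNN) (hV : Pool.Agent.RHKB.St_PLV) {K : Type}
    [Field K] [NumberField K] (s r D m : ℕ) (hD : 2 ≤ D) (hm : 1 ≤ m) (g : Mon r D → 𝓞 K)
    (v : HeightOneSpectrum (𝓞 K)) (b q : ℕ) (hb : 0 < b) (hq : 0 < q) (τ : ℝ) (hτ : 0 < τ) :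
    ∃ c : ℝ, 0 < c ∧ ∀ (ρ₀ : Fin s → 𝓞 K) (ω₀ : Fin r → 𝓞 K) (f : Mon s (D * m) → 𝓞 K),
      LocZN v b q g ρ₀ ω₀ f → ¬ BadC τ (cemb (1 : v.adicCompletion K) f) →
        ∀ j : ℕ, c ≤ wsigN b q (cred (v.asIdeal ^ j) g) (cmk (v.asIdeal ^ j) ρ₀)
          (cmk (v.asIdeal ^ j) ω₀) (cred (v.asIdeal ^ j) f) := by
  obtain ⟨hprop, hq1, hnt, hultra, hint, happ, hval⟩ := hV K v
  have hcast : ∀ n : ℕ, 0 < n → (n : v.adicCompletion K) ≠ 0 := by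
    intro n hn
    have h1 : ((n : ℕ) : K) ≠ 0 := Nat.cast_ne_zero.2 (by omega)
    have h2 : algebraMap K (v.adicCompletion K) ((n : ℕ) : K) = ((n : ℕ) : v.adicCompletion K) :=
      map_natCast _ _
    rw [← h2]
    exact (map_ne_zero _).2 h1
  have hle : ∀ a : 𝓞 K, ‖jj (v.adicCompletion K) a‖ ≤ 1 := by
    intro a
    have h4 := (hint a 0).2 (by rw [pow_zero, Ideal.one_eq_top]; exact Submodule.mem_top)
    rwa [pow_zero, inv_one] at h4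
  have hb1 : ‖(b : v.adicCompletion K)‖ ≤ 1 := by
    have h1 := hle (b : 𝓞 K)
    have h2 : jj (v.adicCompletion K) (b : 𝓞 K) = (b : v.adicCompletion K) := map_natCast _ b
    rwa [h2] at h1
  have hb0 : 0 < ‖(b : v.adicCompletion K)‖ := norm_pos_iff.2 (hcast b hb)
  have hq0 : (0 : ℝ) < ‖(q : v.adicCompletion K)‖ := norm_pos_iff.2 (hcast q hq)
  obtain ⟨δ, hδ, h1⟩ := hU (v.adicCompletion K) hnt s r D m (by omega) hm (hcast D (by omega))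
    (gL (v.adicCompletion K) g) 1 one_ne_zero 1 1 (‖(b : v.adicCompletion K)‖ * τ)
    (‖(q : v.adicCompletion K)‖ / 2) (mul_pos hb0 hτ) (by linarith)
  obtain ⟨c, hc, h2⟩ := hP K v q hq s r D (D * m) δ hδ
  refine ⟨c, hc, fun ρ₀ ω₀ f hz hbad j => ?_⟩
  obtain ⟨z, hz1, hz2, ⟨hz3, hz4⟩, hz5⟩ := hz
  refine h2 b g ρ₀ ω₀ f z hz1 hz2 hz3 hz4
    (h1 (cemb (b : v.adicCompletion K) f) (fun μ => ?_)
      (fun h => hbad (SIGLOWN_bad _ (hcast b hb) τ f h)) z ?_ ?_ hz5) j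
  · rw [Nat.cast_one]
    unfold cemb
    rw [norm_mul]
    exact mul_le_one₀ hb1 (norm_nonneg _) (hle _)
  · rw [hz1, norm_one]
  · intro j
    rw [Nat.cast_one]
    exact hz2 j

theorem SIGLOWN_p0 (C C1 C2 ε : ℝ) (hε : 0 < ε) (M : ℕ) (hM : 1 ≤ M) :
    ∃ p00 : ℕ, ∀ p0 ≥ p00, 1 ≤ p0 ∧
      2 * (C * (C1 / (p0 : ℝ) + C2 * (p0 : ℝ) ^ (-(1 : ℝ) / (M : ℝ)))) ≤ ε := by
  have hM0 : (0 : ℝ) < 1 / (M : ℝ) := by
    have : (0 : ℝ) < (M : ℝ) := by exact_mod_cast (show 0 < M by omega)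
    positivity
  have h1 : Filter.Tendsto (fun n : ℕ => C1 / (n : ℝ)) Filter.atTop (nhds 0) :=
    tendsto_const_div_atTop_nhds_zero_nat C1
  have h2 : Filter.Tendsto (fun n : ℕ => (n : ℝ) ^ (-(1 : ℝ) / (M : ℝ))) Filter.atTop (nhds 0) := by
    have h3 := (tendsto_rpow_neg_atTop hM0).comp (tendsto_natCast_atTop_atTop (R := ℝ))
    rw [show (-(1 : ℝ) / (M : ℝ)) = -(1 / (M : ℝ)) from neg_div _ _]
    exact h3
  have h3 : Filter.Tendsto (fun n : ℕ => 2 * (C * (C1 / (n : ℝ) +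
      C2 * (n : ℝ) ^ (-(1 : ℝ) / (M : ℝ))))) Filter.atTop (nhds (2 * (C * (0 + C2 * 0)))) :=
    ((h1.add (h2.const_mul C2)).const_mul C).const_mul 2
  rw [mul_zero, add_zero, mul_zero, mul_zero] at h3
  obtain ⟨p00, hp⟩ := Filter.eventually_atTop.1
    ((h3.eventually_lt_const hε).and (Filter.eventually_ge_atTop 1))
  exact ⟨p00, fun p0 hp0 => ⟨(hp p0 hp0).2, (hp p0 hp0).1.le⟩⟩

theorem thm_SIGLOWN (hS : St_SIGN) (hH : Pool.Agent.RHKB.St_HSUM)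
    (hQ : Pool.Agent.RHCB.St_HMQ) (hA : St_WABN) (hB : Pool.Agent.RHCB.St_BADC)
    (hU : St_UIFTN) (hP : St_PCNN) (hE : Pool.Agent.RHCB.St_EQUC)
    (hV : Pool.Agent.RHKB.St_PLV) : St_SIGLOWN := by
  intro K _ _ s r D m hyp g hg ε hε
  have hs3 := hyp.hs
  have hD2 := hyp.hD
  have hm1 := hyp.hm
  have hDm : 1 ≤ D * m := Nat.mul_pos (by omega) hm1
  have hM : 1 ≤ MM D := by
    unfold MM
    have : 2 * 1 ≤ D * (D + 1) := Nat.mul_le_mul hD2 (by omega)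
    omega
  obtain ⟨C1, hC10, hC1⟩ := hH K
  obtain ⟨C2, hC20, hC2⟩ := hQ K (MM D) hM
  obtain ⟨C, hC0, hC⟩ := hS K s r D (D * m) hs3 hD2 hDm g hg
  obtain ⟨p00, hp00⟩ := SIGLOWN_p0 C C1 C2 (ε / 2) (by positivity) (MM D) hM
  refine ⟨p00, fun p0 hp0' b q hb hq hbp hqp => ?_⟩
  obtain ⟨hp01, hp0⟩ := hp00 p0 hp0'
  obtain ⟨S, hS1, hS2⟩ := hA K p0
  obtain ⟨ε', hε', hεS⟩ : ∃ ε' : ℝ, 0 < ε' ∧ (S.card : ℝ) * ε' ≤ ε / 2 := by
    refine ⟨ε / (2 * ((S.card : ℝ) + 1)), by positivity, ?_⟩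
    rw [mul_div_assoc', div_le_div_iff₀ (by positivity) (by norm_num)]
    have : (0 : ℝ) ≤ (S.card : ℝ) := Nat.cast_nonneg _
    nlinarith
  choose τ hτ Hv hHv using (hB K s (D * m) (by omega) hDm ε' hε').1
  choose c hc hcF using fun v => SIGLOWN_place hU hP hV s r D m hD2 hm1 g v b q hb hq (τ v) (hτ v)
  refine ⟨(∏ v ∈ S, c v) * (1 / 2), by
    have : 0 < ∏ v ∈ S, c v := Finset.prod_pos fun v _ => hc v
    positivity, p0, fun m0 hm0 => ?_⟩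
  obtain ⟨hWB0, hWBp, n, hWBs⟩ := hS2 m0 hm0
  have hWBs' := hWBs q hq hqp s r D (D * m) b g
  have hcop : b.Coprime (WB p0 m0) := by
    refine Nat.Coprime.symm (Nat.coprime_of_dvd fun p hp h1 h2 => ?_)
    exact absurd (hbp p hp h2) (not_le.2 (hWBp p hp h1))
  obtain ⟨H1, hH1⟩ := hE K s (D * m) (Ideal.span {(WB p0 m0 : 𝓞 K)}) (by
    rw [Ne, Ideal.span_singleton_eq_bot]
    exact_mod_cast hWB0.ne')
  refine ⟨max H1 (S.sup Hv), fun H hHH => ?_⟩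
  have hHH1 : H1 ≤ H := (le_max_left _ _).trans hHH
  have hHHv : ∀ v ∈ S, Hv v ≤ H := fun v hv =>
    (Finset.le_sup hv).trans ((le_max_right _ _).trans hHH)
  have hfin := SIGLOWC_finite (K := K) (WB p0 m0) hWB0
  -- the bad forms
  obtain ⟨B1, hB1⟩ : ∃ B1 : HeightOneSpectrum (𝓞 K) → Finset (Mon s (D * m) → 𝓞 K), B1 = fun v =>
    (box K s (D * m) H).filter fun f => BadC (τ v) (cemb (1 : v.adicCompletion K) f) := ⟨_, rfl⟩
  obtain ⟨B2, hB2⟩ : ∃ B2 : Finset (Mon s (D * m) → 𝓞 K), B2 = (box K s (D * m) H).filter fun f =>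
    sigN b (cred (Ideal.span {(WB p0 m0 : 𝓞 K)}) g)
      (cred (Ideal.span {(WB p0 m0 : 𝓞 K)}) f) < 1 / 2 := ⟨_, rfl⟩
  have h1 : (B2.card : ℝ) ≤ ε / 2 * ((box K s (D * m) H).card : ℝ) := by
    have h3 := hC1 p0 (WB p0 m0) hp01 hWB0 hWBp
    have h3' := hC2 p0 (WB p0 m0) hp01 hWB0 hWBp
    have h2 := SIGLOWC_frac (Ideal.span {(WB p0 m0 : 𝓞 K)}) hfin H
      (fun G : Mon s (D * m) → 𝓞 K ⧸ Ideal.span {(WB p0 m0 : 𝓞 K)} =>
        sigN b (cred (Ideal.span {(WB p0 m0 : 𝓞 K)}) g) G < 1 / 2)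
      (hH1 H hHH1 _) (C * (C1 / (p0 : ℝ) + C2 * (p0 : ℝ) ^ (-(1 : ℝ) / (MM D : ℝ)))) (by
        refine (hC (WB p0 m0) b hWB0 hcop).trans ?_
        refine mul_le_mul_of_nonneg_right ?_ (Nat.cast_nonneg _)
        exact mul_le_mul_of_nonneg_left (add_le_add h3 h3') hC0.le)
    rw [hB2]
    exact h2.trans (mul_le_mul_of_nonneg_right hp0 (Nat.cast_nonneg _))
  have h2 : ∀ v ∈ S, ((B1 v).card : ℝ) ≤ ε' * ((box K s (D * m) H).card : ℝ) := by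
    intro v hv
    rw [hB1]
    exact hHv v H (hHHv v hv)
  obtain ⟨BB, hBB⟩ : ∃ BB : Finset (Mon s (D * m) → 𝓞 K), BB = (box K s (D * m) H).filter fun f =>
      ∃ (ρ₀ : Fin s → 𝓞 K) (ω₀ : Fin r → 𝓞 K), (∀ v, LowP p0 v → LocZN v b q g ρ₀ ω₀ f) ∧
        wsigN b q (cred (Ideal.span {(WW m0 : 𝓞 K)}) g) (cmk (Ideal.span {(WW m0 : 𝓞 K)}) ρ₀)
          (cmk (Ideal.span {(WW m0 : 𝓞 K)}) ω₀) (cred (Ideal.span {(WW m0 : 𝓞 K)}) f) <
          (∏ v ∈ S, c v) * (1 / 2) := ⟨_, rfl⟩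
  have hsub : BB ⊆ S.biUnion B1 ∪ B2 := by
    intro F hF
    rw [hBB, Finset.mem_filter] at hF
    obtain ⟨hF1, ρ₀, ω₀, hF2, hF3⟩ := hF
    by_contra hcon
    rw [Finset.mem_union, not_or, Finset.mem_biUnion] at hcon
    obtain ⟨hc1, hc2⟩ := hcon
    have h3 : (1 : ℝ) / 2 ≤ sigN b (cred (Ideal.span {(WB p0 m0 : 𝓞 K)}) g)
        (cred (Ideal.span {(WB p0 m0 : 𝓞 K)}) F) := by
      by_contra h4
      apply hc2
      rw [hB2, Finset.mem_filter]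
      exact ⟨hF1, not_le.1 h4⟩
    have h4 : ∏ v ∈ S, c v ≤ ∏ v ∈ S, wsigN b q (cred (v.asIdeal ^ n v) g)
        (cmk (v.asIdeal ^ n v) ρ₀) (cmk (v.asIdeal ^ n v) ω₀) (cred (v.asIdeal ^ n v) F) := by
      refine Finset.prod_le_prod (fun v _ => (hc v).le) fun v hv => ?_
      apply hcF v ρ₀ ω₀ F (hF2 v (hS1 v hv))
      intro h5
      apply hc1
      refine ⟨v, hv, ?_⟩
      rw [hB1]
      exact Finset.mem_filter.2 ⟨hF1, h5⟩
    have h5 : 0 ≤ ∏ v ∈ S, c v := Finset.prod_nonneg fun v _ => (hc v).le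
    rw [hWBs' ρ₀ ω₀ F] at hF3
    exact absurd hF3 (not_lt.2 (mul_le_mul h4 h3 (by norm_num) (h5.trans h4)))
  rw [← hBB]
  have h3 : (BB.card : ℝ) ≤ ∑ v ∈ S, ((B1 v).card : ℝ) + (B2.card : ℝ) := by
    have h4 := (Finset.card_le_card hsub).trans ((Finset.card_union_le _ _).trans
      (Nat.add_le_add_right Finset.card_biUnion_le _))
    exact_mod_cast h4
  have h4 := Finset.sum_le_sum h2
  rw [Finset.sum_const, nsmul_eq_mul] at h4
  have h6 : (S.card : ℝ) * (ε' * ((box K s (D * m) H).card : ℝ)) ≤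
      ε / 2 * ((box K s (D * m) H).card : ℝ) := by
    rw [← mul_assoc]
    exact mul_le_mul_of_nonneg_right hεS (Nat.cast_nonneg _)
  linarith

end Pool.Agent.NRM
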