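import Pool.Agent.NRM.Defs


/-!
NRM (NORM), block A: the two properties of the values of `g` (number of the solutions modulo an ideal, diagonal
bound) and the second moment.  Statements of the modules (helper95).  Every module proves
`theorem thm_NAME : St_NAME`, or `theorem thm_NAME (h : St_OTHER) ... : St_NAME`, using other statements (of this
file, of RHC/StA, RHK/StA or RHM/StA) as hypotheses, or imports of the finished theorems.  Most modules are ports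
of modules of RHC; the docstrings say what changes.  `rho = dg K`, `M = MM D = D (D + 1) / 2`, `Q = QN s m c t V`.
-/

set_option autoImplicit false

namespace Pool.Agent.NRM

open scoped BigOperators
open Classical NumberField IsDedekindDomain
open Pool.Agent.RHP (Mon mono ev Sys Prim pd WB WW)
open Pool.Agent.RHK Pool.Agent.RHC
open Pool.Agent.RHKB (mI hh jj qv MK uu BadK)
open Pool.Agent.RHCB (BadC cred cemb uk PrC hM)

/-! ### Values of `g` modulo ideals -/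

/-- [LNP] the restriction of a form to a line is a polynomial.  PROOF.
`P = ∑_μ C (g μ) * ∏_j (C (w0 j) + X * C (e j)) ^ μ j`; every product has degree at most `∑ μ j = D` and the
coefficient of `X^D` is `∏ e j ^ μ j` (`Polynomial.coeff_prod_of_natDegree_le` for the product over `j` with the
bounds `μ j`, `coeff_pow_of_natDegree_le`). -/
def St_LNP : Prop :=
  ∀ (A : Type) [CommRing A] (r D : ℕ) (g : Mon r D → A) (w0 e : Fin r → A),
    ∃ P : Polynomial A, (∀ T, P.eval T = ev g (fun j => w0 j + T * e j)) ∧ P.natDegree ≤ D ∧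
      P.coeff D = ev g e

/-- [VDG] the number of the solutions of `P(T) = a` modulo an ideal; port of RHC/VDM.lean (there `P = T^k`); from
CELL, DVN (RHK).  PROOF.  As there, with `rho' > 0`, `rho'^(dg M) = N(I) / (2 |N(alpha)|)`: if one combination of
cells contains `D + 1` different solutions `T_0, .., T_D`: the matrix with the entries `T_i^j` (`j < D`) and
`P(T_i)` (`j = D`) is the Vandermonde matrix times an upper triangular matrix with the diagonal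
`1, .., 1, alpha` (`alpha = P.coeff D`, `P(T) = ∑_(j ≤ D) (P.coeff j) T^j`), so its determinant is
`alpha ∏_(i<j) (T_j - T_i) ≠ 0`; it is in `I`, because modulo `I` its last column is `a` times its first column.
So `N(I) ≤ |N(alpha)| rho'^(dg M)`: contradiction.  `|N(alpha)| = ∏_v av v alpha ^ mult` is a constant. -/
def St_VDG : Prop :=
  ∀ (K : Type) [Field K] [NumberField K] (D : ℕ), 2 ≤ D → ∀ alpha : 𝓞 K, alpha ≠ 0 → ∃ C : ℝ, 0 < C ∧
    ∀ (U : ℕ) (P : Polynomial (𝓞 K)) (a : 𝓞 K) (I : Ideal (𝓞 K)), P.natDegree ≤ D →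
      P.coeff D = alpha → 1 ≤ U → I ≠ ⊥ →
      (((pb K (U : ℝ)).filter fun T => P.eval T - a ∈ I).card : ℝ) ≤
        C * ((U : ℝ) ^ dg K * rp (Ideal.absNorm I) (MM D) + 1)

/-- [VG] the number of the solutions of `g(w) = a` modulo an ideal in a box; from LNP, VDG, IDU, IDL (RHK).
PROOF.  Fix `e` with `ev g e ≠ 0` (`g ≠ 0` and `𝓞 K` is infinite: a form with all values zero is zero; compare the
injectivity lemmas for `ev` in RHP/RHK, `MvPolynomial.funext`).  Let `E` be a natural number with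
`av v (e j) ≤ E` for all `v, j`, `S` the set.  The map `(w, T) ↦ (w - T e, T)` from `S × pb K U` to
`bx K r ((1 + E) U) × pb K U` is injective, and for given `w0 = w - T e` the `T` satisfy `P(T) - a ∈ I` with
`P(T) = ev g (w0 + T e)` (LNP), `P.coeff D = ev g e`: VDG.  So
`#S * #pb U ≤ #bx ((1+E) U) * C (U^rho rp + 1)`, `#bx (..) ≤ C (U^r)^rho` (PBC in RHM/PBC.lean, or IDU),
`#pb U ≥ c U^rho` (RHK.IDL with `I = ⊤`). -/
def St_VG : Prop :=
  ∀ (K : Type) [Field K] [NumberField K] (r D : ℕ), 2 ≤ D → ∀ g : Mon r D → 𝓞 K, g ≠ 0 →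
    ∃ C : ℝ, 0 < C ∧ ∀ (U : ℕ) (a : 𝓞 K) (I : Ideal (𝓞 K)), 1 ≤ U → I ≠ ⊥ →
      (((bx K r (U : ℝ)).filter fun w => ev g w - a ∈ I).card : ℝ) * (U : ℝ) ^ dg K ≤
        C * ((U : ℝ) ^ r) ^ dg K * ((U : ℝ) ^ dg K * rp (Ideal.absNorm I) (MM D) + 1)

/-- [GZ] the number of the solutions of `g(w) = a` in a box; from VG.  PROOF.  `ev g w = a` implies
`ev g w - a ∈ I` for every `I`; take `I = span {(N : 𝓞 K)}`, `N → ∞`: `absNorm I = N^rho`, `rp (absNorm I) M → 0`. -/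
def St_GZ : Prop :=
  ∀ (K : Type) [Field K] [NumberField K] (r D : ℕ), 2 ≤ D → ∀ g : Mon r D → 𝓞 K, g ≠ 0 →
    ∃ C : ℝ, 0 < C ∧ ∀ (U : ℕ) (a : 𝓞 K), 1 ≤ U →
      (((bx K r (U : ℝ)).filter fun w => ev g w = a).card : ℝ) * (U : ℝ) ^ dg K ≤
        C * ((U : ℝ) ^ r) ^ dg K

/-! ### The diagonal bound -/

/-- [NOKA] every form `g ≠ 0`, `m (D - 1) < s`; from GZ, PBC (RHM).  PROOF.  `kap = D - 1`.  The number of the pairs
is at most `#bx U * C (U^r)^rho / U^rho ≤ C' (U^(2r))^rho / U^rho`, and `(U^D)^rho = U^rho (U^(D-1))^rho`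
(`Real.rpow_natCast`).  `kap (m + 2/((s-1) D)) < s`: `(D-1) m ≤ s - 1` and `2 (D-1)/((s-1) D) < 1` (`s ≥ 3`). -/
def St_NOKA : Prop :=
  ∀ (K : Type) [Field K] [NumberField K] (s r D m : ℕ), NHyp s D m → m * (D - 1) < s →
    ∀ g : Mon r D → 𝓞 K, g ≠ 0 → NOK g s m

/-- [DIV] the number of the divisors of an ideal.  PROOF.  `J ≤ I` iff `I ∣ J`.  `J = ∏ P^(e_P)` (factorisation),
the number of the divisors is `∏ (e_P + 1)` (or: by induction on the multiset of the prime factors, the divisors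
of `P * J'` are at most ...).  For `N(P) ≥ 2^(1/ε)`: `e + 1 ≤ 2^e ≤ N(P)^(e ε)`.  The finitely many other `P`
(`Ideal.finite_setOf_absNorm_le`): `e + 1 ≤ C_P 2^(e ε) ≤ C_P N(P)^(e ε)`.  `N(J) = ∏ N(P)^(e_P)`. -/
def St_DIV : Prop :=
  ∀ (L : Type) [Field L] [NumberField L] (ε : ℝ), 0 < ε → ∃ C : ℝ, 0 < C ∧
    ∀ (J : Ideal (𝓞 L)) (S : Finset (Ideal (𝓞 L))), J ≠ ⊥ → (∀ I ∈ S, J ≤ I) →
      (S.card : ℝ) ≤ C * (Ideal.absNorm J : ℝ) ^ ε

/-- [UNB] the number of units of bounded size.  PROOF.  `NumberField.Units.exist_unique_eq_mul_prod`: every unit is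
uniquely `ζ ∏ fundSystem_i ^ e_i`, `ζ` torsion (finitely many).  `logEmbedding u = ∑ e_i logEmbedding (fundSystem_i)`,
these vectors are a basis of the real vector space (`Units.basisUnitLattice`, `Basis.ofZLatticeBasis`), so
`|e_i| ≤ C ‖logEmbedding u‖`.  For `u ∈ S`: `log (v u) ≤ log T` for all `v`, and `∏ (v u)^mult = 1`, so
`|log (v u)| ≤ n log T`.  So the number is at most `C (1 + log T)^rank ≤ C' T^ε`. -/
def St_UNB : Prop :=
  ∀ (L : Type) [Field L] [NumberField L] (ε : ℝ), 0 < ε → ∃ C : ℝ, 0 < C ∧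
    ∀ (T : ℝ) (S : Finset (𝓞 L)ˣ), 1 ≤ T → (∀ u ∈ S, ∀ v : InfinitePlace L, v ((u : 𝓞 L) : L) ≤ T) →
      (S.card : ℝ) ≤ C * T ^ ε

/-- [RPB] the number of the representations by a decomposable form; from DIV, UNB.  PROOF.  Let `l i j` be the
coefficients of the linear forms, `L` the subfield of the algebraic closure generated over `K` by the `l i j`
(`IntermediateField.adjoin K`, finite dimensional: algebraic elements, finitely many), a number field; `c > 0` an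
integer with all `c l i j` integral, `lam_i(w) = ∑_j c l i j w_j` in `𝓞 L` for `w` in `(𝓞 K)^r`.  Let `a ≠ 0` and
`S = {w ∈ bx U : g(w) = a}`.  `∏_i lam_i(w) = c^D a` (`ev` and the embedding of `𝓞 K`).  All
`v (lam_i(w)) ≤ C U` for the infinite places `v` of `L` (the restriction of `v` to `K` is an infinite place of `K`);
if `S` is not empty, `N_L(c^D a) ≤ C U^(D [L:ℚ])`.  The map `w ↦ (span {lam_i(w)})_i` takes at most
`(C U^ε')^D` values (DIV for `J = span {c^D a}`).  Fix `w0 ∈ S`; for the `w ∈ S` with the same value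
`lam_i(w) = u_i lam_i(w0)` with units `u_i`, `v (u_i) ≤ (C U)^([L:ℚ])` (the product of
`v (lam_i(w0))^mult` over all `v` is at least one and every factor is at most `(C U)^mult`), so at most
`(C U^ε'')^D` possibilities (UNB), and the `u_i` determine all `lam_i(w)`, hence `w` (second part of `Decomp` for
`w - w'`). -/
def St_RPB : Prop :=
  ∀ (K : Type) [Field K] [NumberField K] (r D : ℕ) (g : Mon r D → 𝓞 K), 1 ≤ D → Decomp g →
    ∀ ε : ℝ, 0 < ε → ∃ C : ℝ, 0 < C ∧ ∀ (U : ℕ) (a : 𝓞 K), 1 ≤ U → a ≠ 0 →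
      (((bx K r (U : ℝ)).filter fun w => ev g w = a).card : ℝ) ≤ C * (U : ℝ) ^ ε

/-- [NOKB] decomposable forms; from RPB, PBC (RHM).  PROOF.  `g ≠ 0`, so `r ≥ 1` (`D ≥ 2`).
`kap = max (D - r) 0 + ε` with a small `ε > 0`.  The number of the pairs is at most
`#bx U * C U^(rho ε) ≤ C (U^r)^rho (U^ε)^rho` (RPB with `rho ε`), and `r + D + ε ≤ 2 r + kap`.
`kap (m + 2/((s-1) D)) < s` for small `ε`: if `D > r` then `(D - r) m ≤ s - 1` (from `m D < s + m r`) and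
`2 (D - r)/((s-1) D) < 1` (`r ≥ 1`, `s ≥ 3`); otherwise `kap = ε`. -/
def St_NOKB : Prop :=
  ∀ (K : Type) [Field K] [NumberField K] (s r D m : ℕ), NHyp s D m → m * D < s + m * r →
    ∀ g : Mon r D → 𝓞 K, g ≠ 0 → Decomp g → NOK g s m

/-! ### Parameters and the family -/

/-- [PAREX] the existence of parameters.  PROOF.  `n = s - 1 ≥ 2`.  `v = (2c + 4)/D + 1` (natural division), so
`D v ≥ 2c + 4` and `v ≤ 2c/D + C`.  The left side of the last inequality is at most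
`kap (m + 2/(n D)) n c + C`, the right side is at least `(n+1) n c`. -/
def St_PAREX : Prop :=
  ∀ (s D m : ℕ) (kap : ℝ), NHyp s D m → 0 ≤ kap → kap * (m + 2 / (((s - 1 : ℕ) : ℝ) * D)) < s →
    ∃ c1 : ℕ, ∀ c ≥ c1, ∃ v : ℕ, 1 ≤ v ∧ 2 * c + 4 ≤ D * v ∧
      kap * (m * (c * (s - 1 : ℕ) + 1) + v) + 2 ≤ s * (c * (s - 1 : ℕ) + 1)

/-- [FAMG] the values of `g` satisfy FAM; from VG, PBC (RHM).  PROOF.  `U = A Q`.  `card`: PBC.  `van`: for the pairs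
`b (a_w' - lam a_w) = g(w') - lam g(w)` is in `I`; for every `w` VG with `a = lam g(w)`:
at most `C (U^r)^rho (rp (N(I)) M + 1/U^rho)` values of `w'`.  `diag`: `a_w = a_w'` implies `g(w) = g(w') ≠ 0`: DGN.
`H X^(Dm) ≤ (V+1)^D X^(Dm) ≤ 2^D Q^D ≤ 2^D U^D`, so the left side is at most
`C t (U^(2r))^rho (U^kap)^rho`; `Q^kap ≤ C t^(kap (m (cn+1) + v)) ≤ C t^(s (cn+1) - 2)` (`V ≤ (2t)^v`,
`X = t^(cn+1)`, `n = s - 1`) and `X^s = t^(s (cn+1))`, so `t (Q^kap)^rho ≤ C (X^s)^rho`. -/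
def St_FAMG : Prop :=
  ∀ (K : Type) [Field K] [NumberField K] (s r D m : ℕ), NHyp s D m → ∀ g : Mon r D → 𝓞 K, g ≠ 0 →
    ∀ kap : ℝ, 0 ≤ kap → DGN g kap → ∀ c v : ℕ,
    kap * (m * (c * (s - 1 : ℕ) + 1) + v) + 2 ≤ s * (c * (s - 1 : ℕ) + 1) →
    ∀ A b : ℕ, 1 ≤ A → 1 ≤ b → ∃ C0 : ℝ, 0 < C0 ∧ ∀ t : ℕ, 1 ≤ t → ∀ V H : ℕ, CR D v t V H →
      FAM s D m r c t V H (BG g b (A * QN s m c t V)) (aG g b) C0

/-! ### The second moment -/

/-- [CBN].  Copy of RHC/CB.lean with `k = D`: the proof uses only `hs`, `hk`, `hm` of `CHyp` and `hH` of `CPar`. -/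
def St_CBN : Prop :=
  ∀ (K : Type) [Field K] [NumberField K] (s D m : ℕ), NHyp s D m → ∃ C : ℝ, 0 < C ∧
    ∀ c v : ℕ, 2 * c + 4 ≤ D * v → ∃ t0 : ℕ, ∀ t ≥ t0, ∀ V H : ℕ, CR D v t V H → ∀ x ∈ CG K s c t,
      (∀ a : 𝓞 K, (c1 (d := D * m) (3 * H) x a : ℝ) *
        ((H : ℝ) * (XC s c t : ℝ) ^ (D * m)) ^ dg K ≤ C * (box K s (D * m) H).card) ∧
      ∀ y ∈ CG K s c t, ¬ Par x y → Cv2 (D * m) x y ((H : ℝ) / t) ∧ ∀ a b : 𝓞 K,
        (c2 (d := D * m) (3 * H) x y a b : ℝ) *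
          ((((H : ℝ) * (XC s c t : ℝ) ^ (D * m)) ^ dg K) ^ 2 * wp x y) ≤
        C * (wn x y * ((XC s c t : ℝ) ^ 2) ^ dg K) * (box K s (D * m) H).card

/-- [CTYPN] typical pairs.  Copy of RHC/CTYP.lean, from CTR, CBN, PHI, DLT. -/
def St_CTYPN : Prop :=
  ∀ (K : Type) [Field K] [NumberField K] (s D m : ℕ), NHyp s D m → ∃ C : ℝ, 0 < C ∧
    ∀ (c v k' m1 : ℕ), 2 * c + 4 ≤ D * v → 1 ≤ k' → 1 ≤ m1 → ∃ κ : ℕ, 0 < κ ∧
    ∀ W : ℕ, 0 < W → (∀ g, 1 ≤ g → g ≤ m1 → g ∣ W) → ∃ t0 : ℕ, ∀ t ≥ t0, ∀ V H : ℕ, CR D v t V H →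
    ∀ x ∈ CG K s c t, ∀ y ∈ CG K s c t, ¬ Par x y → TyC c t m1 x y → ∀ a b : 𝓞 K,
      ∑ f ∈ box K s (D * m) (2 * H),
        Ph H f * ((dlt a x f - lmt (ThC s c t H κ (D * m)) W a x f) *
          (dlt b y f - lmt (ThC s c t H κ (D * m)) W b y f)) ≤
      C / k' * (m1 : ℝ) ^ (dg K + 1) / (((H : ℝ) * (XC s c t : ℝ) ^ (D * m)) ^ dg K) ^ 2 *
        (box K s (D * m) H).card

/-- [CSUMN] the sums over pairs.  Port of RHC/CSUM.lean (from CPS, PBC) with `U = QN s m c t V ≥ X` (`V ≥ 1`,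
`m ≥ 1`). -/
def St_CSUMN : Prop :=
  ∀ (K : Type) [Field K] [NumberField K] (s D m : ℕ), NHyp s D m → ∃ c0 : ℕ, ∀ c ≥ c0,
    ∀ v : ℕ, ∃ C : ℝ, 0 < C ∧ ∃ t0 : ℕ, ∀ t ≥ t0, ∀ V H : ℕ, CR D v t V H →
    (∑ p ∈ (CG K s c t ×ˢ CG K s c t).filter (fun p => ¬ Par p.1 p.2),
      wtC c t (QN s m c t V) (MM D) p.1 p.2 ≤ C * (((XC s c t : ℝ) ^ s) ^ dg K) ^ 2) ∧
    ∀ m1 : ℕ, 1 ≤ m1 →
      ∑ p ∈ (CG K s c t ×ˢ CG K s c t).filter (fun p => ¬ Par p.1 p.2 ∧ ¬ TyC c t m1 p.1 p.2),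
      wtC c t (QN s m c t V) (MM D) p.1 p.2 ≤
        C * (rp m1 (MM D) + 1 / t) * (((XC s c t : ℝ) ^ s) ^ dg K) ^ 2

/-- [NNN] compatible pairs; from CMPT.  PROOF.  `Cmp (D m) x y a_w a_w'` implies `a_w' - lam^(Dm) a_w ∈ gI x y`
(CMPT), and `gI x y ≠ ⊥`; `FAM.van`. -/
def St_NNN : Prop :=
  ∀ (K : Type) [Field K] [NumberField K] (s D m r c t V H : ℕ) (Q : Type) (B : Finset Q)
    (a : Q → 𝓞 K) (C0 : ℝ), FAM s D m r c t V H B a C0 → ∀ x y : Fin s → 𝓞 K, Prim x → ¬ Par x y →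
      (((B ×ˢ B).filter fun p => Cmp (D * m) x y (a p.1) (a p.2)).card : ℝ) ≤
        C0 * (((QN s m c t V : ℝ) ^ r) ^ dg K) ^ 2 *
          (rp (wn x y) (MM D) + 1 / (QN s m c t V : ℝ) ^ dg K)

/-- [LLN] the same for the local model.  Port of RHC/LL.lean: for `u, v` in `TS` and
`Cmp (D m) x y (a_w + u) (a_w' + v)`: (i) `a_w' - lam^(Dm) a_w ∈ g' = gI x y ⊔ span {W}`: `FAM.van` with `I = g'`
(instead of VDM); (ii) unchanged: for given `w, w', u` at most `C #TS N'/N` values of `v`.  `C` depends on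
`K, s, D, m` only. -/
def St_LLN : Prop :=
  ∀ (K : Type) [Field K] [NumberField K] (s D m : ℕ), 2 ≤ D → ∃ C : ℝ, 0 < C ∧
    ∀ (r c t V H : ℕ) (Q : Type) (B : Finset Q) (a : Q → 𝓞 K) (C0 : ℝ), 0 < C0 →
      FAM s D m r c t V H B a C0 →
    ∀ (W Θ X : ℕ) (x y : Fin s → 𝓞 K), 0 < W → 1 ≤ X → 2 * X ^ 2 * W ≤ Θ → Prim x →
      (∀ v : InfinitePlace K, vs v x ≤ X) → (∀ v : InfinitePlace K, vs v y ≤ X) → ¬ Par x y →
      ((((B ×ˢ B) ×ˢ (TS K Θ W ×ˢ TS K Θ W)).filter fun p =>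
        Cmp (D * m) x y (a p.1.1 + p.2.1) (a p.1.2 + p.2.2)).card : ℝ) ≤
        C * C0 * (((TS K Θ W).card : ℝ) ^ 2 * ((((QN s m c t V : ℝ) ^ r) ^ dg K) ^ 2 *
          (rp (wn x y) (MM D) + 1 / (QN s m c t V : ℝ) ^ dg K)))

/-- [CNTN] the pairs which are not parallel.  Port of RHC/CNT.lean, from CBN, PHI, DLT, NNN, LLN. -/
def St_CNTN : Prop :=
  ∀ (K : Type) [Field K] [NumberField K] (s D m : ℕ), NHyp s D m → ∃ C : ℝ, 0 < C ∧
    ∀ (c v κ W : ℕ), 2 * c + 4 ≤ D * v → 0 < κ → 0 < W → ∃ t0 : ℕ, ∀ t ≥ t0, ∀ V H : ℕ,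
    CR D v t V H → ∀ (r : ℕ) (Q : Type) (B : Finset Q) (a : Q → 𝓞 K) (C0 : ℝ), 0 < C0 →
      FAM s D m r c t V H B a C0 → ∀ x ∈ CG K s c t, ∀ y ∈ CG K s c t, ¬ Par x y →
      ∑ q ∈ B ×ˢ B,
        (∑ f ∈ box K s (D * m) (2 * H), Ph H f * (dlt (a q.1) x f * dlt (a q.2) y f) +
        ∑ f ∈ box K s (D * m) (2 * H), Ph H f *
          (lmt (ThC s c t H κ (D * m)) W (a q.1) x f * lmt (ThC s c t H κ (D * m)) W (a q.2) y f)) ≤
      C * C0 * wtC c t (QN s m c t V) (MM D) x y * (((QN s m c t V : ℝ) ^ r) ^ dg K) ^ 2 /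
        (((H : ℝ) * (XC s c t : ℝ) ^ (D * m)) ^ dg K) ^ 2 * (box K s (D * m) H).card

/-- [CPARN] parallel pairs.  Port of RHC/CPARL.lean, from CBN, PHI, DLT, TSC, PAR (RHK), PBC (RHM).
PROOF.  For every `x` at most `C` points `y = u x` (PAR), `cP a b = 0` unless `b = nu a` (`nu = u^(Dm)`, a unit), and
then `cP a b ≤ 2 c1 (3H) x a ≤ C #box/(H X^(Dm))^rho`.  First sum: the number of the pairs `(w,w')` with
`a_w' = nu a_w` is at most the number of the pairs with `a_w' = a_w` (with `N(c) = #{w : a_w = c}`: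
`∑_c N(c) N(nu c) ≤ ∑_c (N(c)^2 + N(nu c)^2)/2 ≤ ∑_c N(c)^2`, `c ↦ nu c` is injective): `FAM.diag`, total
`≤ C C0 X^(s rho) (C0/t) ... = C C0 (1/t) EN^2 #box`.
Second sum: for every `w, w', u'` at most one `v`: total
`≤ C X^(s rho) #B^2/#TS #box/(H X^(Dm))^rho ≤ C C0^2 (κ W)^rho X^(-s rho) EN^2 #box` (`#TS ≥ (c H X^(Dm)/(κ W))^rho` for
large `t`), and `(κ W)^rho X^(-s rho) ≤ 1/t` for large `t` (`X ≥ t`, `s ≥ 3`). -/
def St_CPARN : Prop :=
  ∀ (K : Type) [Field K] [NumberField K] (s D m : ℕ), NHyp s D m → ∃ C : ℝ, 0 < C ∧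
    ∀ (c v κ W : ℕ), 2 * c + 4 ≤ D * v → 0 < κ → 0 < W → ∃ t0 : ℕ, ∀ t ≥ t0, ∀ V H : ℕ,
    CR D v t V H → ∀ (r : ℕ) (Q : Type) (B : Finset Q) (a : Q → 𝓞 K) (C0 : ℝ), 1 ≤ C0 →
      FAM s D m r c t V H B a C0 →
      ∑ p ∈ (CG K s c t ×ˢ CG K s c t).filter (fun p => Par p.1 p.2),
      ∑ q ∈ B ×ˢ B,
        (∑ f ∈ box K s (D * m) (2 * H), Ph H f * (dlt (a q.1) p.1 f * dlt (a q.2) p.2 f) +
        ∑ f ∈ box K s (D * m) (2 * H), Ph H f *
          (lmt (ThC s c t H κ (D * m)) W (a q.1) p.1 f *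
            lmt (ThC s c t H κ (D * m)) W (a q.2) p.2 f)) ≤
      C * C0 ^ 2 / t * EN (dg K) s D m r c t V H ^ 2 * (box K s (D * m) H).card

/-- [CSMN] OUTPUT of block A.  Port of RHCW/CSMW.lean, from ABSC, CTYPN, CNTN, CPARN, CSUMN, PHI, TSC, PBC.
`δ x w f = if (x, w) ∈ P then dlt (a w) x f else 0`, the same for `lmt`.  Typical pairs:
`#B^2 #CG^2 (C/k') m1^(rho+1)/((H X^(Dm))^rho)^2 #box ≤ C C0^2 (1/k') m1^(rho+1) EN^2 #box`. -/
def St_CSMN : Prop :=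
  ∀ (K : Type) [Field K] [NumberField K] (s D m r : ℕ), NHyp s D m → ∃ c0 : ℕ,
    ∀ c ≥ c0, ∀ v : ℕ, 2 * c + 4 ≤ D * v → SMN K s D m r c v

end Pool.Agent.NRM
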